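import Pool.Agent.MP_e73476_ag.T.Geo

section

/-! Walls (relative cycles bound), separation by chords, Euler inequality of a zone. -/

open Finset

namespace Pool.Agent.TC

variable {d : ℤ} {S K : Finset Tr} {C : Finset (V × V)}

open Classical in
/-- the third vertex of the triangle on the left of the dart `p → q` -/
noncomputable def Walla_nx (S : Finset Tr) (p q : V) : V :=
  if h : ∃ r, (p, q, r) ∈ S then h.choose else 0

theorem Walla_nx_eq (h : Tri d S) {p q r : V} (ht : (p, q, r) ∈ S) : Walla_nx S p q = r := by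
  have e : ∃ r, (p, q, r) ∈ S := ⟨r, ht⟩
  rw [Walla_nx, dif_pos e]
  exact h.uniq _ _ _ _ e.choose_spec ht

/-- the vertex set of a triple -/
def Walla_trs (t : Tr) : Finset V := {t.1, t.2.1, t.2.2}

theorem Walla_trs_rot (p q r : V) : Walla_trs (q, r, p) = Walla_trs (p, q, r) := by
  ext x
  simp only [Walla_trs, mem_insert, mem_singleton]
  tauto

theorem Walla_bd_symm {p q : V} (h : Bd d p q) : Bd d q p := by
  unfold Bd at *
  tauto

theorem Walla_not_bd {p q : V} (h : Ins d p) : ¬ Bd d p q := by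
  unfold Bd Ins at *
  omega

theorem Walla_fib {p q r a b c : V} (h1 : det (q - p) (r - p) = 1) (h2 : det (b - a) (c - a) = 1)
    (ha : a = p ∨ a = q ∨ a = r) (hb : b = p ∨ b = q ∨ b = r) (hc : c = p ∨ c = q ∨ c = r) :
    (a, b, c) = (p, q, r) ∨ (a, b, c) = (q, r, p) ∨ (a, b, c) = (r, p, q) := by
  rcases ha with ha | ha | ha <;> rcases hb with hb | hb | hb <;> rcases hc with hc | hc | hc <;>
    rw [ha, hb, hc] at h2 ⊢ <;>
    first
      | exact Or.inl rfl
      | exact Or.inr (Or.inl rfl)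
      | exact Or.inr (Or.inr rfl)
      | (exfalso; simp only [det, Prod.fst_sub, Prod.snd_sub] at h1 h2; linarith)

theorem Walla_cardX (h : Tri d S) : d ^ 2 ≤ ((S.image Walla_trs).card : ℤ) := by
  have h1 : S.card ≤ 3 * (S.image Walla_trs).card := by
    apply card_le_mul_card_image
    intro a ha
    obtain ⟨⟨p, q, r⟩, ht, rfl⟩ := mem_image.1 ha
    refine le_trans (card_le_card (t := {(p, q, r), (q, r, p), (r, p, q)}) ?_) card_le_three
    rintro ⟨a, b, c⟩ hx
    obtain ⟨hx, e⟩ := mem_filter.1 hx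
    have m : ∀ x ∈ Walla_trs (a, b, c), x = p ∨ x = q ∨ x = r := by
      intro x hx
      rw [e] at hx
      simpa [Walla_trs] using hx
    have := Walla_fib (h.uni _ _ _ ht) (h.uni _ _ _ hx) (m a (by simp [Walla_trs]))
      (m b (by simp [Walla_trs])) (m c (by simp [Walla_trs]))
    simpa only [mem_insert, mem_singleton] using this
  have h2 := h.card
  have h3 : (S.card : ℤ) ≤ 3 * ((S.image Walla_trs).card : ℤ) := by exact_mod_cast h1
  linarith

theorem Walla_cardD (h : Tri d S) :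
    ((S.filter fun t => ¬ Bd d t.1 t.2.1).card : ℤ) = 3 * d ^ 2 - 3 * d := by
  have h1 := card_filter_add_card_filter_not (s := S) (fun t : Tr => Bd d t.1 t.2.1)
  have h2 : (bdK d ∅ S).card = (S.filter fun t => Bd d t.1 t.2.1).card := by
    unfold bdK
    rw [card_image_of_injOn]
    · congr 1
      ext t
      simp
    · rintro ⟨p, q, r⟩ hx ⟨a, b, c⟩ hy e
      obtain ⟨rfl, rfl⟩ := Prod.mk.inj e
      have hx' := (mem_filter.1 hx).1
      have hy' := (mem_filter.1 hy).1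
      rw [h.uniq _ _ _ _ hx' hy']
  have h3 := h.sum_bd (G := ℤ) (fun _ _ => 1)
  have hd := h.pos
  simp only [sum_const, Int.card_Ico, sub_zero, nsmul_eq_mul, mul_one] at h3
  rw [Int.toNat_of_nonneg hd.le, h2] at h3
  have h4 := h.card
  have h5 : ((S.filter fun t => Bd d t.1 t.2.1).card : ℤ) +
      ((S.filter fun t => ¬ Bd d t.1 t.2.1).card : ℤ) = S.card := by exact_mod_cast h1
  linarith

/-- an interior point has a neighbour further right -/
theorem Walla_right (h : Tri d S) {p : V} (hp : Ins d p) :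
    ∃ a b, (p, a, b) ∈ S ∧ (p.1 < a.1 ∨ p.1 < b.1) := by
  obtain ⟨ξ, hg, hξ⟩ := exists_gen d (x := (1, 0)) (y := (0, 1)) (by simp [det])
  have hT : InT d p := by unfold Ins InT at *; omega
  have hi : Into d p ξ := by unfold Ins Into at *; omega
  obtain ⟨a, b, ht, c1, c2⟩ := h.exists_corner hT hg hi
  refine ⟨a, b, ht, ?_⟩
  have u1 := (hξ (a - p) (hT.bnd (h.inT2 ht))).2.1
  have u2 := (hξ (b - p) (hT.bnd (h.inT3 ht))).1
  have e := h.uni _ _ _ ht
  have a1 : (a - p).2 ≤ 0 := by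
    by_contra hn
    have : det (a - p) (1, 0) < 0 := by simp only [det]; omega
    have := u1 this
    omega
  have a2 : 0 ≤ (b - p).2 := by
    by_contra hn
    have : 0 < det (b - p) (1, 0) := by simp only [det]; omega
    have h3 := u2 this
    simp only [det] at h3 c2
    linarith
  by_contra hn
  have b1 : (a - p).1 ≤ 0 := by simp only [Prod.fst_sub]; omega
  have b2 : (b - p).1 ≤ 0 := by simp only [Prod.fst_sub]; omega
  unfold det at e
  nlinarith [mul_nonneg a2 (neg_nonneg.2 b1), mul_nonneg (neg_nonneg.2 a1) (neg_nonneg.2 b2)]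

/-- a function that vanishes off the interior and is constant along interior edges vanishes -/
theorem Walla_zero (h : Tri d S) (Φ : V → ZMod 2) (h0 : ∀ p, ¬ Ins d p → Φ p = 0)
    (h1 : ∀ p q r, (p, q, r) ∈ S → ¬ Bd d p q → Φ p = Φ q) (p : V) : Φ p = 0 := by
  classical
  by_contra hn
  have hin : ∀ p, Φ p ≠ 0 → Ins d p := fun p hp => by_contra fun hi => hp (h0 p hi)
  have hm : ∀ p, Φ p ≠ 0 → p ∈ (pts d).filter fun p => Φ p ≠ 0 := by
    intro p hp
    have := hin p hp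
    refine mem_filter.2 ⟨mem_pts.2 ?_, hp⟩
    unfold Ins InT at *
    omega
  obtain ⟨v, hv, hmax⟩ := exists_max_image _ (fun p : V => p.1) ⟨p, hm p hn⟩
  have hv0 := (mem_filter.1 hv).2
  have hvi := hin v hv0
  obtain ⟨a, b, ht, hab⟩ := Walla_right h hvi
  rcases hab with hab | hab
  · have e := h1 _ _ _ ht (Walla_not_bd hvi)
    have := hmax a (hm a (e ▸ hv0))
    omega
  · have e := h1 _ _ _ (h.rot2 ht) (fun hb => Walla_not_bd hvi (Walla_bd_symm hb))
    have := hmax b (hm b (e.symm ▸ hv0))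
    omega

/-- interior darts -/
abbrev Walla_D (d : ℤ) (S : Finset Tr) : Type := ↥(S.filter fun t => ¬ Bd d t.1 t.2.1)
/-- triangles -/
abbrev Walla_X (S : Finset Tr) : Type := ↥(S.image Walla_trs)
/-- interior points -/
abbrev Walla_W (d : ℤ) : Type := ↥((pts d).filter (Ins d))

/-- Plan: `ael_exact` with `D` the non-boundary triples of `S`, `ι (p,q,r) = (q,p,s)`,
`X` the image of `S` under `(p,q,r) ↦ {p,q,r}` (fibres are the three rotations),
`W` the interior points; `card D = 3d² - 3d`, `3 card X = 3d²`, `card_ins`; `h0` by `fan_zero`,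
`h2` by `Tri.conn`, `h1`: a point of the support maximizing `p.1` has a neighbour further right
(`exists_corner` in a direction with `ξ.1 > 0`). -/
theorem Tri.wall (h : Tri d S) (y : V → V → ZMod 2) (hy : ∀ p q, y p q = y q p)
    (h0 : ∀ v, Ins d v → ∑ t ∈ S with t.1 = v, y v t.2.1 = 0) :
    ∃ I : Tr → ZMod 2, RotInv S I ∧
      ∀ p q r s, (p, q, r) ∈ S → (q, p, s) ∈ S → I (p, q, r) + I (q, p, s) = y p q := by
  have hS : ∀ x : Walla_D d S, x.1 ∈ S := fun x => (mem_filter.1 x.2).1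
  have hB : ∀ x : Walla_D d S, ¬ Bd d x.1.1 x.1.2.1 := fun x => (mem_filter.1 x.2).2
  have hopp : ∀ x : Walla_D d S, (x.1.2.1, x.1.1, Walla_nx S x.1.2.1 x.1.1) ∈ S := by
    intro x
    obtain ⟨s, hs⟩ := h.opp _ _ _ (hS x) (hB x)
    rw [Walla_nx_eq h hs]
    exact hs
  let ι : Walla_D d S → Walla_D d S := fun x => ⟨(x.1.2.1, x.1.1, Walla_nx S x.1.2.1 x.1.1),
    mem_filter.2 ⟨hopp x, fun hb => hB x (Walla_bd_symm hb)⟩⟩
  let tri : Walla_D d S → Walla_X S := fun x => ⟨Walla_trs x.1, mem_image_of_mem _ (hS x)⟩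
  have hW : ∀ p, Ins d p → p ∈ (pts d).filter (Ins d) := by
    intro p hp
    refine mem_filter.2 ⟨mem_pts.2 ?_, hp⟩
    unfold Ins InT at *
    omega
  let tl : Walla_D d S → Option (Walla_W d) := fun x => if hx : Ins d x.1.1 then some ⟨x.1.1, hW _ hx⟩ else none
  have htl : ∀ (x : Walla_D d S) (w : Walla_W d), tl x = some w ↔ x.1.1 = w.1 := by
    intro x w
    have hw : Ins d w.1 := (mem_filter.1 w.2).2
    by_cases hx : Ins d x.1.1
    · simp only [tl, dif_pos hx, Option.some.injEq]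
      exact Subtype.ext_iff
    · simp only [tl, dif_neg hx]
      exact ⟨fun e => (by cases e), fun e => absurd (e ▸ hw) hx⟩
  have hsum : ∀ (f : Tr → ZMod 2) (w : Walla_W d),
      ∑ x with tl x = some w, f x.1 = ∑ t ∈ S with t.1 = w.1, f t := by
    intro f w
    have hw : Ins d w.1 := (mem_filter.1 w.2).2
    refine sum_bij (fun x _ => x.1) ?_ ?_ ?_ ?_
    · intro x hx
      exact mem_filter.2 ⟨hS x, (htl x w).1 (mem_filter.1 hx).2⟩
    · intro x _ x' _ e
      exact Subtype.ext e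
    · intro t ht
      obtain ⟨t1, t2⟩ := mem_filter.1 ht
      refine ⟨⟨t, mem_filter.2 ⟨t1, Walla_not_bd (t2 ▸ hw)⟩⟩, ?_, rfl⟩
      exact mem_filter.2 ⟨mem_univ _, (htl _ w).2 t2⟩
    · intro x _
      rfl
  let U : (Walla_X S → ZMod 2) → Tr → ZMod 2 := fun u t =>
    if ht : Walla_trs t ∈ S.image Walla_trs then u ⟨_, ht⟩ else 0
  have hU : ∀ (u : Walla_X S → ZMod 2) (t : Tr) (ht : t ∈ S),
      U u t = u ⟨Walla_trs t, mem_image_of_mem _ ht⟩ := fun u t ht =>
    dif_pos (mem_image_of_mem _ ht)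
  have hUrot : ∀ (u : Walla_X S → ZMod 2) (p q r : V), U u (q, r, p) = U u (p, q, r) := by
    intro u p q r
    simp only [U, Walla_trs_rot p q r]
  have hUx : ∀ (u : Walla_X S → ZMod 2) (x : Walla_D d S), u (tri x) = U u x.1 := fun u x => (hU u _ (hS x)).symm
  refine Exists.elim (ael_exact ι tri tl ?_ ?_ ?_ ?_ ?_ ?_ (fun x => y x.1.1 x.1.2.1) ?_ ?_)
    (fun u hu => ?_)
  · intro x
    apply Subtype.ext
    have := Walla_nx_eq h (hS x)
    simp only [ι, this]
  · intro x e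
    have e1 : x.1.2.1 = x.1.1 := congrArg (fun z : Walla_D d S => z.1.1) e
    have := h.uni _ _ _ (hS x)
    rw [e1] at this
    simp [det] at this
  · intro u w
    have hw : Ins d w.1 := (mem_filter.1 w.2).2
    have e := hsum (fun t => U u t + U u (t.2.1, t.1, Walla_nx S t.2.1 t.1)) w
    simp only [hUx]
    rw [e]
    have f := h.fan_zero hw (U u)
      (fun x => U u (w.1, x, Walla_nx S w.1 x) + U u (x, w.1, Walla_nx S x w.1)) (by
        intro x r s h1 h2
        rw [Walla_nx_eq h h1, Walla_nx_eq h (h.rot2 h2), CharTwo.sub_eq_add, hUrot u x w.1 s])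
    rw [← f]
    refine sum_congr rfl ?_
    rintro ⟨p, q, r⟩ ht
    obtain ⟨t1, t2⟩ := mem_filter.1 ht
    simp only at t2
    subst t2
    simp only [Walla_nx_eq h t1]
  · intro u hu a b
    obtain ⟨t0, h0', e0⟩ := mem_image.1 a.2
    obtain ⟨t1, h1', e1⟩ := mem_image.1 b.2
    have ea : u a = U u t0 := by rw [hU u t0 h0']; congr 1; exact Subtype.ext e0.symm
    have eb : u b = U u t1 := by rw [hU u t1 h1']; congr 1; exact Subtype.ext e1.symm
    have hK : Cl S ∅ (S.filter fun t => U u t = u a) := by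
      refine ⟨filter_subset _ _, ?_, ?_⟩
      · intro p q r ht
        obtain ⟨t1, t2⟩ := mem_filter.1 ht
        exact mem_filter.2 ⟨h.rot _ _ _ t1, by rw [hUrot]; exact t2⟩
      · intro p q r s ht hs _
        obtain ⟨t1, t2⟩ := mem_filter.1 ht
        have e := hu ⟨(p, q, r), mem_filter.2 ⟨t1, h.not_bd t1 hs⟩⟩
        rw [hUx u, hUx u] at e
        simp only [ι, Walla_nx_eq h hs] at e
        exact mem_filter.2 ⟨hs, by rw [← e]; exact t2⟩
    have hKS := h.conn hK ⟨t0, mem_filter.2 ⟨h0', ea.symm⟩⟩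
    rw [← hKS] at h1'
    rw [eb, (mem_filter.1 h1').2]
  · intro φ hφ w
    have hw : Ins d w.1 := (mem_filter.1 w.2).2
    let Φ : V → ZMod 2 := fun p => if hp : Ins d p then φ ⟨p, hW p hp⟩ else 0
    have hΦ : ∀ x : Walla_D d S, (tl x).elim 0 φ = Φ x.1.1 := by
      intro x
      by_cases hx : Ins d x.1.1
      · simp only [tl, Φ, dif_pos hx, Option.elim]
      · simp only [tl, Φ, dif_neg hx, Option.elim]
    have z := Walla_zero h Φ (fun p hp => dif_neg hp) (by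
      intro p q r ht hb
      have e := hφ ⟨(p, q, r), mem_filter.2 ⟨ht, hb⟩⟩
      rw [hΦ, hΦ] at e
      exact e) w.1
    simpa only [Φ, dif_pos hw] using z
  · have c1 := Walla_cardD h
    have c2 := Walla_cardX h
    have c3 := card_ins h.pos
    simp only [Fintype.card_coe]
    zify
    nlinarith
  · intro x
    exact hy _ _
  · intro w
    rw [hsum (fun t => y t.1 t.2.1) w, ← h0 w.1 (mem_filter.1 w.2).2]
    refine sum_congr rfl ?_
    intro t ht
    rw [(mem_filter.1 ht).2]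
  · refine ⟨U u, fun p q r _ => hUrot u p q r, fun p q r s h1 h2 => ?_⟩
    have e := hu ⟨(p, q, r), mem_filter.2 ⟨h1, h.not_bd h1 h2⟩⟩
    rw [hUx u, hUx u] at e
    simp only [ι, Walla_nx_eq h h2] at e
    exact e.symm

/-- the wall made of two chords at an interior vertex `v` -/
theorem Tri.wall_star (h : Tri d S) (hC : Ch d S C) {v z z' : V} (hz : (v, z) ∈ C)
    (hz' : (v, z') ∈ C) (hne : z ≠ z') (hv : Ins d v) :
    ∃ I : Tr → ZMod 2, RotInv S I ∧ ∀ p q r s, (p, q, r) ∈ S → (q, p, s) ∈ S →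
      I (p, q, r) + I (q, p, s) =
        if (p = v ∧ (q = z ∨ q = z')) ∨ (q = v ∧ (p = z ∨ p = z')) then 1 else 0 := by
  refine h.wall (fun p q =>
    if (p = v ∧ (q = z ∨ q = z')) ∨ (q = v ∧ (p = z ∨ p = z')) then 1 else 0) ?_ ?_
  · intro p q
    simp only [or_comm]
  · intro w hw
    have n1 : w ≠ z := fun e => hC.bd _ _ hz ⟨hv, e ▸ hw⟩
    have n2 : w ≠ z' := fun e => hC.bd _ _ hz' ⟨hv, e ▸ hw⟩
    by_cases e : w = v
    · subst e
      obtain ⟨r, hr⟩ := hC.dart _ _ hz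
      obtain ⟨r', hr'⟩ := hC.dart _ _ hz'
      simp only [n1, n2, true_and, or_self, and_false, or_false]
      rw [sum_boole]
      have e2 : ((S.filter fun t => t.1 = w).filter fun t => t.2.1 = z ∨ t.2.1 = z') =
          {(w, z, r), (w, z', r')} := by
        ext ⟨a, b, c⟩
        simp only [mem_filter, mem_insert, mem_singleton, Prod.mk.injEq]
        constructor
        · rintro ⟨⟨h1, rfl⟩, rfl | rfl⟩
          · exact Or.inl ⟨rfl, rfl, h.uniq _ _ _ _ h1 hr⟩
          · exact Or.inr ⟨rfl, rfl, h.uniq _ _ _ _ h1 hr'⟩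
        · rintro (⟨rfl, rfl, rfl⟩ | ⟨rfl, rfl, rfl⟩)
          · exact ⟨⟨hr, rfl⟩, Or.inl rfl⟩
          · exact ⟨⟨hr', rfl⟩, Or.inr rfl⟩
      rw [e2, card_pair (by simp [hne])]
      rfl
    · simp [e, n1, n2]

/-- the wall made of one chord between boundary points -/
theorem Tri.wall_cut (h : Tri d S) {z z' : V} (hz : ¬ Ins d z) (hz' : ¬ Ins d z') :
    ∃ I : Tr → ZMod 2, RotInv S I ∧ ∀ p q r s, (p, q, r) ∈ S → (q, p, s) ∈ S →
      I (p, q, r) + I (q, p, s) = if (p = z ∧ q = z') ∨ (p = z' ∧ q = z) then 1 else 0 := by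
  refine h.wall (fun p q => if (p = z ∧ q = z') ∨ (p = z' ∧ q = z) then 1 else 0) ?_ ?_
  · intro p q
    refine if_congr ?_ rfl rfl
    tauto
  · intro w hw
    have n1 : w ≠ z := fun e => hz (e ▸ hw)
    have n2 : w ≠ z' := fun e => hz' (e ▸ hw)
    simp [n1, n2]

end Pool.Agent.TC

end

section

/-! Walls (relative cycles bound), separation by chords, Euler inequality of a zone. -/

open Finset

namespace Pool.Agent.TC

variable {d : ℤ} {S K : Finset Tr} {C : Finset (V × V)}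

private theorem Wallb_aux (h : St d C S K) (I : Tr → ZMod 2) (hI : RotInv S I)
    (P : V → V → Prop) [∀ a b, Decidable (P a b)]
    (hP : ∀ p q r s, (p, q, r) ∈ S → (q, p, s) ∈ S →
      I (p, q, r) + I (q, p, s) = if P p q then 1 else 0)
    (hC : ∀ a b, P a b → (a, b) ∈ C) {p q r s : V} (hpq : P p q) (h1 : (p, q, r) ∈ K)
    (h2 : (q, p, s) ∈ K) : False := by
  have key : I (p, q, r) = I (q, p, s) := by
    refine h.const I hI ?_ h1 h2
    intro a b c e ha hb hn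
    have := hP a b c e (h.cl.sub ha) hb
    rw [if_neg (fun hh => hn (hC _ _ hh))] at this
    revert this
    generalize I (a, b, c) = x
    generalize I (b, a, e) = y
    revert x y
    decide
  have := hP p q r s (h.cl.sub h1) (h.cl.sub h2)
  rw [if_pos hpq, key] at this
  revert this
  generalize I (q, p, s) = y
  revert y
  decide

private theorem Wallb_ins (h : St d C S K) {p q r s : V} (hc : (p, q) ∈ C) (hp : Ins d p)
    (h1 : (p, q, r) ∈ K) (h2 : (q, p, s) ∈ K) : False := by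
  obtain ⟨q', hq', hc'⟩ := h.ch.two p q hc hp
  obtain ⟨I, hI, hP⟩ := h.tri.wall_star h.ch hc hc' hq'.symm hp
  refine Wallb_aux h I hI
    (fun a b => (a = p ∧ (b = q ∨ b = q')) ∨ (b = p ∧ (a = q ∨ a = q'))) hP ?_
    (Or.inl ⟨rfl, Or.inl rfl⟩) h1 h2
  rintro a b (⟨rfl, rfl | rfl⟩ | ⟨rfl, rfl | rfl⟩)
  · exact hc
  · exact hc'
  · exact h.ch.symm _ _ hc
  · exact h.ch.symm _ _ hc'

/-- the two sides of a chord lie in different zones -/
theorem St.sep (h : St d C S K) {p q r s : V} (hc : (p, q) ∈ C) (h1 : (p, q, r) ∈ K)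
    (h2 : (q, p, s) ∈ K) : False := by
  by_cases hp : Ins d p
  · exact Wallb_ins h hc hp h1 h2
  by_cases hq : Ins d q
  · exact Wallb_ins h (h.ch.symm _ _ hc) hq h2 h1
  obtain ⟨I, hI, hP⟩ := h.tri.wall_cut hp hq
  refine Wallb_aux h I hI (fun a b => (a = p ∧ b = q) ∨ (a = q ∧ b = p)) hP ?_
    (Or.inl ⟨rfl, rfl⟩) h1 h2
  rintro a b (⟨rfl, rfl⟩ | ⟨rfl, rfl⟩)
  · exact hc
  · exact h.ch.symm _ _ hc

theorem St.notAll (h : St d C S K) {v z : V} (hc : (v, z) ∈ C) :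
    ∃ a b, (v, a, b) ∈ S ∧ (v, a, b) ∉ K := by
  obtain ⟨r, hr⟩ := h.ch.dart _ _ hc
  obtain ⟨s, hs⟩ := h.ch.dart _ _ (h.ch.symm _ _ hc)
  by_cases hK : (v, z, r) ∈ K
  · exact ⟨s, z, h.tri.rot _ _ _ hs, fun h' => h.sep hc hK (h.cl.rot2 h')⟩
  · exact ⟨z, r, hr, hK⟩

private theorem Wallb_iff (h : St d C S K) {v x r s : V} (h1 : (v, x, r) ∈ S)
    (h2 : (v, s, x) ∈ S) (hn : (v, x) ∉ C) : (v, x, r) ∈ K ↔ (v, s, x) ∈ K :=
  ⟨fun hk => h.cl.rot _ _ _ (h.cl.cl _ _ _ _ hk (h.tri.rot2 h2) hn),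
    fun hk => h.cl.cl _ _ _ _ (h.cl.rot2 hk) h1 fun hc => hn (h.ch.symm _ _ hc)⟩

/-- a zone touching an interior vertex with chords has an outgoing and an incoming chord dart
there. Plan: `fan_zero` with the indicator of `K` in `ℤ` gives `#out = #in`; if both vanish,
`fan_conn` contradicts `notAll`. -/
theorem St.touch (h : St d C S K) {v z a b : V} (hv : Ins d v) (hc : (v, z) ∈ C)
    (ht : (v, a, b) ∈ K) :
    (∃ z r, (v, z, r) ∈ K ∧ (v, z) ∈ C) ∧ ∃ z r, (z, v, r) ∈ K ∧ (z, v) ∈ C := by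
  classical
  have hz := h.tri.fan_zero hv (fun t => if t ∈ K then (1 : ℤ) else 0)
    (fun x => (if ∃ r, (v, x, r) ∈ K ∧ (v, x) ∈ C then (1 : ℤ) else 0) -
      if ∃ r, (x, v, r) ∈ K ∧ (x, v) ∈ C then (1 : ℤ) else 0) (by
      intro x r s h1 h2
      by_cases hx : (v, x) ∈ C
      · have e1 : (∃ r, (v, x, r) ∈ K ∧ (v, x) ∈ C) ↔ (v, x, r) ∈ K :=
          ⟨fun ⟨r', h', _⟩ => h.tri.uniq _ _ _ _ (h.cl.sub h') h1 ▸ h', fun h' => ⟨r, h', hx⟩⟩
        have e2 : (∃ r, (x, v, r) ∈ K ∧ (x, v) ∈ C) ↔ (v, s, x) ∈ K :=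
          ⟨fun ⟨r', h', _⟩ => h.cl.rot _ _ _
              (h.tri.uniq _ _ _ _ (h.cl.sub h') (h.tri.rot2 h2) ▸ h'),
            fun h' => ⟨s, h.cl.rot2 h', h.ch.symm _ _ hx⟩⟩
        simp only [e1, e2]
      · have hx' : (x, v) ∉ C := fun hh => hx (h.ch.symm _ _ hh)
        simp only [Wallb_iff h h1 h2 hx, hx, hx', and_false, exists_false, if_false, sub_self])
  have hor : (∃ z r, (v, z, r) ∈ K ∧ (v, z) ∈ C) ∨ ∃ z r, (z, v, r) ∈ K ∧ (z, v) ∈ C := by
    by_contra hn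
    rw [not_or] at hn
    obtain ⟨a', b', hS, hK⟩ := h.notAll hc
    have := h.tri.fan_conn (fun t => t ∈ K) (by
      intro x r s h1 h2
      by_cases hx : (v, x) ∈ C
      · exact propext ⟨fun h' => (hn.1 ⟨x, r, h', hx⟩).elim,
          fun h' => (hn.2 ⟨x, s, h.cl.rot2 h', h.ch.symm _ _ hx⟩).elim⟩
      · exact propext (Wallb_iff h h1 h2 hx)) (h.cl.sub ht) hS
    exact hK (this ▸ ht)
  rw [sum_sub_distrib, sub_eq_zero, sum_boole, sum_boole, Nat.cast_inj] at hz
  have hiff : (∃ z r, (v, z, r) ∈ K ∧ (v, z) ∈ C) ↔ ∃ z r, (z, v, r) ∈ K ∧ (z, v) ∈ C := by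
    constructor
    · rintro ⟨x, r, h1, h2⟩
      have : 0 < ((S.filter fun t => t.1 = v).filter
          fun t => ∃ r, (t.2.1, v, r) ∈ K ∧ (t.2.1, v) ∈ C).card := by
        rw [← hz]
        exact card_pos.2 ⟨(v, x, r), by
          simp only [mem_filter]; exact ⟨⟨h.cl.sub h1, trivial⟩, r, h1, h2⟩⟩
      obtain ⟨t, ht'⟩ := card_pos.1 this
      exact ⟨t.2.1, (mem_filter.1 ht').2⟩
    · rintro ⟨x, r, h1, h2⟩
      obtain ⟨r', hr'⟩ := h.ch.dart _ _ (h.ch.symm _ _ h2)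
      have : 0 < ((S.filter fun t => t.1 = v).filter
          fun t => ∃ r, (v, t.2.1, r) ∈ K ∧ (v, t.2.1) ∈ C).card := by
        rw [hz]
        exact card_pos.2 ⟨(v, x, r'), by
          simp only [mem_filter]; exact ⟨⟨hr', trivial⟩, r, h1, h2⟩⟩
      obtain ⟨t, ht'⟩ := card_pos.1 this
      exact ⟨t.2.1, (mem_filter.1 ht').2⟩
  rcases hor with h1 | h1
  · exact ⟨h1, hiff.1 h1⟩
  · exact ⟨hiff.2 h1, h1⟩

end Pool.Agent.TC

end

section

/-! Walls (relative cycles bound), separation by chords, Euler inequality of a zone. -/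

open Finset

namespace Pool.Agent.TC

variable {d : ℤ} {S K : Finset Tr} {C : Finset (V × V)}

/-- the three rotations of a triple -/
def Wall_cls (t : Tr) : Finset Tr := {t, rot t, rot (rot t)}

theorem Wall_cls_rot (p q r : V) : Wall_cls (q, r, p) = Wall_cls (p, q, r) := by
  ext t
  simp only [Wall_cls, rot, mem_insert, mem_singleton]
  tauto

theorem Wall_card (K : Finset Tr) : K.card ≤ 3 * (K.image Wall_cls).card := by
  refine card_le_mul_card_image K 3 fun x hx => ?_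
  obtain ⟨t, -, rfl⟩ := mem_image.1 hx
  refine le_trans (card_le_card fun t' ht' => ?_) (card_le_three (a := t) (b := rot t) (c := rot (rot t)))
  have h := (mem_filter.1 ht').2
  have : t' ∈ Wall_cls t' := mem_insert_self _ _
  rw [h] at this
  exact this

open Classical in
/-- the third vertex of the triangle on the left of a dart -/
noncomputable def Wall_th (S : Finset Tr) (p q : V) : V :=
  if h : ∃ r, (p, q, r) ∈ S then h.choose else p

theorem Wall_th_eq (h : Tri d S) {p q r : V} (ht : (p, q, r) ∈ S) : Wall_th S p q = r := by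
  have hex : ∃ r, (p, q, r) ∈ S := ⟨r, ht⟩
  rw [Wall_th, dif_pos hex]
  exact h.uniq _ _ _ _ hex.choose_spec ht

theorem Wall_bd_symm {p q : V} (h : Bd d p q) : Bd d q p := by
  unfold Bd at *; tauto

theorem Wall_ins_bd {p q : V} (h : Ins d p) : ¬ Bd d p q := by
  unfold Ins at h; unfold Bd; omega

/-- an interior vertex has an outgoing dart to a point further to the right -/
theorem Wall_right (h : Tri d S) {v : V} (hv : Ins d v) :
    ∃ a r, (v, a, r) ∈ S ∧ v.1 < a.1 := by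
  have hd := h.pos
  obtain ⟨ξ, hg, hξ⟩ := exists_gen d (x := ((1 : ℤ), (0 : ℤ))) (y := ((0 : ℤ), (1 : ℤ)))
    (by simp [det])
  have h1 : 0 < ξ.1 := by
    have := (hξ ((0 : ℤ), (-1 : ℤ)) (by simp only [Bnd, abs_zero, abs_neg, abs_one]; omega)).1
      (by simp [det])
    simpa [det] using this
  obtain ⟨a, b, hab, c1, c2⟩ := h.exists_corner (v := v) (ξ := ξ)
    (by unfold Ins at hv; unfold InT; omega) hg
    (by unfold Ins at hv; unfold Into; omega)
  have hu := h.uni _ _ _ hab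
  by_cases ha : v.1 < a.1
  · exact ⟨a, b, hab, ha⟩
  · obtain ⟨s, hs⟩ := h.opp _ _ _ (h.rot2 hab) fun hb => Wall_ins_bd hv (Wall_bd_symm hb)
    refine ⟨b, s, hs, ?_⟩
    by_contra hb
    have e : ξ.1 = det ξ (b - v) * (a - v).1 + det (a - v) ξ * (b - v).1 := by
      have : ξ.1 = ξ.1 * det (a - v) (b - v) := by rw [hu, mul_one]
      rw [this]
      simp only [det]
      ring
    have e1 : (a - v).1 ≤ 0 := by simp only [Prod.fst_sub]; omega
    have e2 : (b - v).1 ≤ 0 := by simp only [Prod.fst_sub]; omega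
    nlinarith [mul_nonneg c1.le (neg_nonneg.2 e2), mul_nonneg c2.le (neg_nonneg.2 e1)]

open Classical in
/-- Euler inequality `t + V_int ≤ E_int + 1` of a zone, by `ael` with `Q = Empty`
(`D`, `ι`, `X` as in `wall`; `Cl.fan` shows that all corners at a point of `W` are in `D`). -/
theorem St.euler (h : St d C S K) :
    2 * K.card + 6 * ((K.image fun t => t.1).filter fun v => Ins d v ∧ ∀ z, (v, z) ∉ C).card ≤
      3 * (K.filter fun t => (t.1, t.2.1) ∉ C ∧ ¬ Bd d t.1 t.2.1).card + 6 := by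
  set Ds := K.filter fun t => (t.1, t.2.1) ∉ C ∧ ¬ Bd d t.1 t.2.1 with hDs
  set Ws := (K.image fun t => t.1).filter fun v => Ins d v ∧ ∀ z, (v, z) ∉ C with hWs
  have hT := h.tri
  have hK := h.cl
  have memD : ∀ t, t ∈ Ds ↔ t ∈ K ∧ (t.1, t.2.1) ∉ C ∧ ¬ Bd d t.1 t.2.1 := fun t => mem_filter
  have oppS : ∀ t ∈ Ds, (t.2.1, t.1, Wall_th S t.2.1 t.1) ∈ S := by
    rintro ⟨p, q, r⟩ ht
    obtain ⟨h1, -, h3⟩ := (memD _).1 ht
    obtain ⟨s, hs⟩ := hT.opp _ _ _ (hK.sub h1) h3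
    simpa only [Wall_th_eq hT hs] using hs
  have oppD : ∀ t ∈ Ds, (t.2.1, t.1, Wall_th S t.2.1 t.1) ∈ Ds := by
    rintro ⟨p, q, r⟩ ht
    have hs := oppS _ ht
    obtain ⟨h1, h2, h3⟩ := (memD _).1 ht
    exact (memD _).2 ⟨hK.cl _ _ _ _ h1 hs h2, fun hc => h2 (h.ch.symm _ _ hc),
      fun hb => h3 (Wall_bd_symm hb)⟩
  have fanD : ∀ v ∈ Ws, ∀ a b, (v, a, b) ∈ S → (v, a, b) ∈ Ds := by
    intro v hv a b hab
    obtain ⟨h1, h2, h3⟩ := mem_filter.1 hv
    obtain ⟨⟨p, q, r⟩, ht, rfl⟩ := mem_image.1 h1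
    exact (memD _).2 ⟨hK.fan hT h.ch.symm h3 ht hab, h3 _, Wall_ins_bd h2⟩
  let ι : Ds → Ds := fun x => ⟨_, oppD x.1 x.2⟩
  let tri : Ds → (K.image Wall_cls) := fun x =>
    ⟨Wall_cls x.1, mem_image_of_mem _ ((memD _).1 x.2).1⟩
  let tl : Ds → Option Ws := fun x => if hx : x.1.1 ∈ Ws then some ⟨_, hx⟩ else none
  let F : ((K.image Wall_cls) → ZMod 2) → Tr → ZMod 2 := fun u t =>
    if ht : t ∈ K then u ⟨Wall_cls t, mem_image_of_mem _ ht⟩ else 0
  have Ftri : ∀ u (x : Ds), u (tri x) = F u x.1 := fun u x => by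
    simp only [F, dif_pos ((memD _).1 x.2).1, tri]
  have Frot : ∀ u p q r, F u (q, r, p) = F u (p, q, r) := by
    intro u p q r
    by_cases ht : (p, q, r) ∈ K
    · simp only [F, dif_pos ht, dif_pos (hK.rot _ _ _ ht), Wall_cls_rot]
    · have ht' : (q, r, p) ∉ K := fun h' => ht (hK.rot2 h')
      simp only [F, dif_neg ht, dif_neg ht']
  have key := ael (Q := Empty) ι tri tl (fun _ => none) ?_ ?_ ?_ ?_ ?_
  · simp only [Fintype.card_coe, Fintype.card_empty] at key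
    have := Wall_card K
    omega
  · rintro ⟨⟨p, q, r⟩, hx⟩
    apply Subtype.ext
    simp only [ι, Wall_th_eq hT (hK.sub ((memD _).1 hx).1)]
  · rintro ⟨⟨p, q, r⟩, hx⟩ e
    have e1 : q = p := congrArg (fun x : Ds => x.1.1) e
    have := hT.uni _ _ _ (hK.sub ((memD _).1 hx).1)
    rw [e1] at this
    simp [det] at this
  · rintro u ⟨v, hv⟩
    have hz := hT.fan_zero (mem_filter.1 hv).2.1 (F u)
      (fun x => F u (v, x, Wall_th S v x) + F u (x, v, Wall_th S x v)) (by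
        intro x r s h1 h2
        rw [Wall_th_eq hT h1, Wall_th_eq hT (hT.rot2 h2), Frot u x v s, sub_eq_add_neg,
          ZMod.neg_eq_self_mod_two])
    rw [← hz]
    refine sum_bij (fun x _ => x.1) ?_ ?_ ?_ ?_
    · rintro ⟨t, ht⟩ hx
      have h1 := (mem_filter.1 hx).2
      refine mem_filter.2 ⟨hK.sub ((memD _).1 ht).1, ?_⟩
      simp only [tl] at h1
      split_ifs at h1 with h2
      exact congrArg Subtype.val (Option.some.inj h1)
    · intro x _ y _ e
      exact Subtype.ext e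
    · rintro ⟨p, a, b⟩ ht
      obtain ⟨h1, h2⟩ := mem_filter.1 ht
      obtain rfl : p = v := h2
      refine ⟨⟨_, fanD _ hv _ _ h1⟩, mem_filter.2 ⟨mem_univ _, ?_⟩, rfl⟩
      simp only [tl, dif_pos hv]
    · rintro ⟨⟨p, a, b⟩, ht⟩ hx
      have h1 := (mem_filter.1 hx).2
      simp only [tl] at h1
      split_ifs at h1 with h2
      obtain rfl : p = v := congrArg Subtype.val (Option.some.inj h1)
      rw [Ftri u, Ftri u]
      simp only [ι, Wall_th_eq hT (hK.sub ((memD _).1 ht).1)]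
  · rintro u hu ⟨a, ha⟩ ⟨b, hb⟩
    obtain ⟨t, ht, rfl⟩ := mem_image.1 ha
    obtain ⟨t', ht', rfl⟩ := mem_image.1 hb
    have := h.const (F u) (fun p q r _ => Frot u p q r) (by
      intro p q r s h1 h2 h3
      have hx : (p, q, r) ∈ Ds := (memD _).2 ⟨h1, h3, hT.not_bd (hK.sub h1) h2⟩
      have := hu ⟨_, hx⟩
      rw [Ftri u, Ftri u] at this
      simpa only [ι, Wall_th_eq hT h2] using this) ht ht'
    simpa only [F, dif_pos ht, dif_pos ht'] using this
  · intro φ hφ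
    refine ⟨fun e => e.elim, fun w => ?_⟩
    by_contra hw
    obtain ⟨⟨v, hv⟩, h1, h2⟩ := exists_max_image (univ.filter fun w : Ws => φ w ≠ 0)
      (fun w => w.1.1) ⟨w, mem_filter.2 ⟨mem_univ _, hw⟩⟩
    obtain ⟨a, r, hs, hlt⟩ := Wall_right hT (mem_filter.1 hv).2.1
    have e := hφ ⟨_, fanD _ hv _ _ hs⟩
    have h3 := (mem_filter.1 h1).2
    by_cases ha : a ∈ Ws
    · simp only [tl, ι, dif_pos hv, dif_pos ha, Option.elim_some] at e
      have := h2 ⟨a, ha⟩ (mem_filter.2 ⟨mem_univ _, e ▸ h3⟩)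
      simp only at this
      omega
    · simp only [tl, ι, dif_pos hv, dif_neg ha, Option.elim_some, Option.elim_none] at e
      exact h3 e

end Pool.Agent.TC

end

section

/-! Flipping the diagonal of a parallelogram. -/

open Finset

noncomputable section

namespace Pool.Agent.TC

variable {d : ℤ} {S K : Finset Tr} {C : Finset (V × V)}

def old6 (p q r s : V) : Finset Tr :=
  {(p, q, r), (q, r, p), (r, p, q), (q, p, s), (p, s, q), (s, q, p)}
def new6 (p q r s : V) : Finset Tr :=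
  {(s, r, p), (r, p, s), (p, s, r), (r, s, q), (s, q, r), (q, r, s)}
def flp (S : Finset Tr) (p q r s : V) : Finset Tr := (S \ old6 p q r s) ∪ new6 p q r s

theorem Flipa_mem {p q r s : V} {t : Tr} :
    t ∈ flp S p q r s ↔ (t ∈ S ∧ t ∉ old6 p q r s) ∨ t ∈ new6 p q r s := by
  simp only [flp, mem_union, mem_sdiff]

theorem Flipa_old {p q r s : V} {t : Tr} : t ∈ old6 p q r s ↔ t = (p, q, r) ∨ t = (q, r, p) ∨
    t = (r, p, q) ∨ t = (q, p, s) ∨ t = (p, s, q) ∨ t = (s, q, p) := by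
  simp only [old6, mem_insert, mem_singleton]

theorem Flipa_new {p q r s : V} {t : Tr} : t ∈ new6 p q r s ↔ t = (s, r, p) ∨ t = (r, p, s) ∨
    t = (p, s, r) ∨ t = (r, s, q) ∨ t = (s, q, r) ∨ t = (q, r, s) := by
  simp only [new6, mem_insert, mem_singleton]

theorem Flipa_det {p q r s : V} (h1 : det (q - p) (r - p) = 1) (hp : r + s = p + q) :
    (det (r - s) (p - s) = 1 ∧ det (p - r) (s - r) = 1 ∧ det (s - p) (r - p) = 1 ∧
      det (s - r) (q - r) = 1 ∧ det (q - s) (r - s) = 1 ∧ det (r - q) (s - q) = 1) ∧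
    (p ≠ q ∧ p ≠ r ∧ p ≠ s ∧ q ≠ r ∧ q ≠ s ∧ r ≠ s) ∧ Cross p q r s := by
  obtain rfl : s = p + q - r := by rw [← hp]; abel
  have e1 : det (r - (p + q - r)) (p - (p + q - r)) = 1 := by
    simp only [det, Prod.fst_sub, Prod.snd_sub, Prod.fst_add, Prod.snd_add] at *
    linear_combination h1
  have e2 : det (p - r) (p + q - r - r) = 1 := by
    simp only [det, Prod.fst_sub, Prod.snd_sub, Prod.fst_add, Prod.snd_add] at *
    linear_combination h1
  have e3 : det (p + q - r - p) (r - p) = 1 := by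
    simp only [det, Prod.fst_sub, Prod.snd_sub, Prod.fst_add, Prod.snd_add] at *
    linear_combination h1
  have e4 : det (p + q - r - r) (q - r) = 1 := by
    simp only [det, Prod.fst_sub, Prod.snd_sub, Prod.fst_add, Prod.snd_add] at *
    linear_combination h1
  have e5 : det (q - (p + q - r)) (r - (p + q - r)) = 1 := by
    simp only [det, Prod.fst_sub, Prod.snd_sub, Prod.fst_add, Prod.snd_add] at *
    linear_combination h1
  have e6 : det (r - q) (p + q - r - q) = 1 := by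
    simp only [det, Prod.fst_sub, Prod.snd_sub, Prod.fst_add, Prod.snd_add] at *
    linear_combination h1
  have e7 : det (q - p) (p + q - r - p) = -1 := by
    simp only [det, Prod.fst_sub, Prod.snd_sub, Prod.fst_add, Prod.snd_add] at *
    linear_combination -h1
  have e8 : det (p + q - r - r) (p - r) = -1 := by
    simp only [det, Prod.fst_sub, Prod.snd_sub, Prod.fst_add, Prod.snd_add] at *
    linear_combination -h1
  refine ⟨⟨e1, e2, e3, e4, e5, e6⟩, ⟨?_, ?_, ?_, ?_, ?_, ?_⟩, ?_, ?_⟩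
  · intro e; rw [← e] at h1; simp [det] at h1
  · intro e; rw [← e] at h1; simp [det] at h1
  · intro e; rw [← e] at e3; simp [det] at e3
  · intro e; rw [← e] at e6; simp [det] at e6
  · intro e; rw [← e] at e6; simp [det] at e6
  · intro e; rw [← e] at e2; simp [det] at e2
  · rw [h1, e7]; norm_num
  · rw [e8, e4]; norm_num

theorem Flipa_not_edge (h : Tri d S) {p q r s : V} (h1 : (p, q, r) ∈ S) (hp : r + s = p + q) :
    ¬ Edge S r s := fun he =>
  h.not_cross (Or.inl ⟨r, h1⟩) he (Flipa_det (h.uni _ _ _ h1) hp).2.2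

theorem Flipa_old_sub (h : Tri d S) {p q r s : V} (h1 : (p, q, r) ∈ S) (h2 : (q, p, s) ∈ S) :
    old6 p q r s ⊆ S := by
  intro t ht
  rcases Flipa_old.1 ht with rfl | rfl | rfl | rfl | rfl | rfl
  exacts [h1, h.rot _ _ _ h1, h.rot2 h1, h2, h.rot _ _ _ h2, h.rot2 h2]

/-- a triple of `S` with the dart of a new triple is an old triple -/
theorem Flipa_new_old (h : Tri d S) {p q r s : V} (h1 : (p, q, r) ∈ S) (h2 : (q, p, s) ∈ S)
    (hp : r + s = p + q) {a b c c' : V} (hn : (a, b, c) ∈ new6 p q r s) (hs : (a, b, c') ∈ S) :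
    (a, b, c') ∈ old6 p q r s ∧ c' ≠ c := by
  have hne := Flipa_not_edge h h1 hp
  obtain ⟨-, ⟨n1, n2, n3, n4, n5, n6⟩, -⟩ := Flipa_det (h.uni _ _ _ h1) hp
  rw [Flipa_old]
  rcases Flipa_new.1 hn with e | e | e | e | e | e <;> obtain ⟨rfl, rfl, rfl⟩ := e
  · exact (hne (Or.inr ⟨_, hs⟩)).elim
  · obtain rfl := h.uniq _ _ _ _ hs (h.rot2 h1); simp [n5]
  · obtain rfl := h.uniq _ _ _ _ hs (h.rot _ _ _ h2); simp [n4]
  · exact (hne (Or.inl ⟨_, hs⟩)).elim
  · obtain rfl := h.uniq _ _ _ _ hs (h.rot2 h2); simp [n2]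
  · obtain rfl := h.uniq _ _ _ _ hs (h.rot _ _ _ h1); simp [n3]

theorem Flipa_dart (h : Tri d S) {p q r s : V} (h1 : (p, q, r) ∈ S) (h2 : (q, p, s) ∈ S)
    (hp : r + s = p + q) (a b : V) :
    (∃ c, (a, b, c) ∈ flp S p q r s) ↔
      ((∃ c, (a, b, c) ∈ S) ∧ (a, b) ≠ (p, q) ∧ (a, b) ≠ (q, p)) ∨ (a, b) = (r, s) ∨
        (a, b) = (s, r) := by
  obtain ⟨-, ⟨n1, n2, n3, n4, n5, n6⟩, -⟩ := Flipa_det (h.uni _ _ _ h1) hp
  constructor
  · rintro ⟨c, hc⟩
    rcases Flipa_mem.1 hc with ⟨hs, ho⟩ | hn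
    · refine Or.inl ⟨⟨c, hs⟩, fun e => ho ?_, fun e => ho ?_⟩
      · obtain ⟨rfl, rfl⟩ := e
        obtain rfl := h.uniq _ _ _ _ hs h1
        simp [Flipa_old]
      · obtain ⟨rfl, rfl⟩ := e
        obtain rfl := h.uniq _ _ _ _ hs h2
        simp [Flipa_old]
    · rcases Flipa_new.1 hn with e | e | e | e | e | e <;> obtain ⟨rfl, rfl, rfl⟩ := e
      · exact Or.inr (Or.inr rfl)
      · exact Or.inl ⟨⟨_, h.rot2 h1⟩, by simp [n2.symm], by simp [n4.symm]⟩
      · exact Or.inl ⟨⟨_, h.rot _ _ _ h2⟩, by simp [n5.symm], by simp [n1]⟩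
      · exact Or.inr (Or.inl rfl)
      · exact Or.inl ⟨⟨_, h.rot2 h2⟩, by simp [n3.symm], by simp [n5.symm]⟩
      · exact Or.inl ⟨⟨_, h.rot _ _ _ h1⟩, by simp [n1.symm], by simp [n2.symm]⟩
  · rintro (⟨⟨c, hs⟩, m1, m2⟩ | e | e)
    · by_cases ho : (a, b, c) ∈ old6 p q r s
      · rcases Flipa_old.1 ho with e | e | e | e | e | e <;> obtain ⟨rfl, rfl, rfl⟩ := e
        · exact (m1 rfl).elim
        · exact ⟨s, Flipa_mem.2 (Or.inr (by simp [Flipa_new]))⟩
        · exact ⟨s, Flipa_mem.2 (Or.inr (by simp [Flipa_new]))⟩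
        · exact (m2 rfl).elim
        · exact ⟨r, Flipa_mem.2 (Or.inr (by simp [Flipa_new]))⟩
        · exact ⟨r, Flipa_mem.2 (Or.inr (by simp [Flipa_new]))⟩
      · exact ⟨c, Flipa_mem.2 (Or.inl ⟨hs, ho⟩)⟩
    · obtain ⟨rfl, rfl⟩ := e
      exact ⟨q, Flipa_mem.2 (Or.inr (by simp [Flipa_new]))⟩
    · obtain ⟨rfl, rfl⟩ := e
      exact ⟨p, Flipa_mem.2 (Or.inr (by simp [Flipa_new]))⟩

/-- Plan: the darts `(r,s)`, `(s,r)` are not darts of `S` (`not_cross`); all other darts keep a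
unique third vertex. -/
theorem Tri.flip (h : Tri d S) {p q r s : V} (h1 : (p, q, r) ∈ S) (h2 : (q, p, s) ∈ S)
    (hp : r + s = p + q) : Tri d (flp S p q r s) := by
  obtain ⟨⟨e1, e2, e3, e4, e5, e6⟩, ⟨n1, n2, n3, n4, n5, n6⟩, -⟩ :=
    Flipa_det (h.uni _ _ _ h1) hp
  refine ⟨fun a b c ht => ?_, fun a b c ht => ?_, fun a b c ht => ?_, fun a b c c' ht ht' => ?_,
    fun a b c ht hb => ?_, ⟨(s, r, p), Flipa_mem.2 (Or.inr (by simp [Flipa_new]))⟩⟩
  · rcases Flipa_mem.1 ht with ⟨hs, ho⟩ | hn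
    · refine Flipa_mem.2 (Or.inl ⟨h.rot _ _ _ hs, fun ho' => ho ?_⟩)
      rcases Flipa_old.1 ho' with e | e | e | e | e | e <;> obtain ⟨rfl, rfl, rfl⟩ := e <;>
        simp [Flipa_old]
    · refine Flipa_mem.2 (Or.inr ?_)
      rcases Flipa_new.1 hn with e | e | e | e | e | e <;> obtain ⟨rfl, rfl, rfl⟩ := e <;>
        simp [Flipa_new]
  · rcases Flipa_mem.1 ht with ⟨hs, -⟩ | hn
    · exact h.uni _ _ _ hs
    · rcases Flipa_new.1 hn with e | e | e | e | e | e <;> obtain ⟨rfl, rfl, rfl⟩ := e <;>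
        assumption
  · rcases Flipa_mem.1 ht with ⟨hs, -⟩ | hn
    · exact h.inT _ _ _ hs
    · have i1 := h.inT _ _ _ h1
      have i2 := h.inT2 h1
      have i3 := h.inT3 h1
      have i4 := h.inT3 h2
      rcases Flipa_new.1 hn with e | e | e | e | e | e <;> obtain ⟨rfl, rfl, rfl⟩ := e <;>
        assumption
  · rcases Flipa_mem.1 ht with ⟨hs, ho⟩ | hn <;> rcases Flipa_mem.1 ht' with ⟨hs', ho'⟩ | hn'
    · exact h.uniq _ _ _ _ hs hs'
    · exact (ho (Flipa_new_old h h1 h2 hp hn' hs).1).elim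
    · exact (ho' (Flipa_new_old h h1 h2 hp hn hs').1).elim
    · rcases Flipa_new.1 hn with e | e | e | e | e | e <;> obtain ⟨rfl, rfl, rfl⟩ := e <;>
        simpa [Flipa_new, n1, n2, n3, n4, n5, n6, n1.symm, n2.symm, n3.symm, n4.symm, n5.symm,
          n6.symm, eq_comm] using hn'
  · rw [Flipa_dart h h1 h2 hp]
    rcases (Flipa_dart h h1 h2 hp a b).1 ⟨c, ht⟩ with ⟨⟨c', hs⟩, m1, m2⟩ | e | e
    · refine Or.inl ⟨h.opp _ _ _ hs hb, fun e => m2 ?_, fun e => m1 ?_⟩ <;>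
        obtain ⟨rfl, rfl⟩ := e <;> rfl
    · obtain ⟨rfl, rfl⟩ := e
      exact Or.inr (Or.inr rfl)
    · obtain ⟨rfl, rfl⟩ := e
      exact Or.inr (Or.inl rfl)

/-- darts after the flip -/
theorem Tri.flip_dart (h : Tri d S) {p q r s : V} (h1 : (p, q, r) ∈ S) (h2 : (q, p, s) ∈ S)
    (hp : r + s = p + q) (a b : V) :
    (∃ c, (a, b, c) ∈ flp S p q r s) ↔
      ((∃ c, (a, b, c) ∈ S) ∧ (a, b) ≠ (p, q) ∧ (a, b) ≠ (q, p)) ∨ (a, b) = (r, s) ∨
        (a, b) = (s, r) := by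
  exact Flipa_dart h h1 h2 hp a b

/-- sums of dart functions after the flip -/
theorem Tri.flip_sum {G : Type} [AddCommMonoid G] (h : Tri d S) {p q r s : V}
    (h1 : (p, q, r) ∈ S) (h2 : (q, p, s) ∈ S) (hp : r + s = p + q) (g : V → V → G) :
    ∑ t ∈ flp S p q r s, g t.1 t.2.1 + (g p q + g q p) =
      ∑ t ∈ S, g t.1 t.2.1 + (g r s + g s r) := by
  obtain ⟨-, ⟨n1, n2, n3, n4, n5, n6⟩, -⟩ := Flipa_det (h.uni _ _ _ h1) hp
  have hd : Disjoint (S \ old6 p q r s) (new6 p q r s) := by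
    rw [disjoint_left]
    rintro ⟨a, b, c⟩ ht hn
    exact (Flipa_new_old h h1 h2 hp hn (mem_sdiff.1 ht).1).2 rfl
  rw [flp, sum_union hd, ← sum_sdiff (Flipa_old_sub h h1 h2), old6, new6]
  repeat rw [sum_insert (by
    simp [n1, n2, n3, n4, n5, n6, n1.symm, n2.symm, n3.symm, n4.symm, n5.symm, n6.symm])]
  simp only [sum_singleton]
  abel

end Pool.Agent.TC

end
end

section

/-! Flipping the diagonal of a parallelogram. -/

open Finset

noncomputable section

namespace Pool.Agent.TC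

variable {d : ℤ} {S K : Finset Tr} {C : Finset (V × V)} {p q r s : V}

/-- the flip of a closed subset -/
def Flip_fl (K : Finset Tr) (p q r s : V) : Finset Tr :=
  (K \ old6 p q r s) ∪ if (p, q, r) ∈ K then new6 p q r s else ∅

theorem Flip_mem {t : Tr} : t ∈ Flip_fl K p q r s ↔
    (t ∈ K ∧ t ∉ old6 p q r s) ∨ (t ∈ new6 p q r s ∧ (p, q, r) ∈ K) := by
  unfold Flip_fl
  split_ifs with h <;> simp [h]

theorem Flip_memS {t : Tr} : t ∈ flp S p q r s ↔
    (t ∈ S ∧ t ∉ old6 p q r s) ∨ t ∈ new6 p q r s := by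
  simp [flp]

theorem Flip_old {t : Tr} : t ∈ old6 p q r s ↔ t = (p, q, r) ∨ t = (q, r, p) ∨ t = (r, p, q) ∨
    t = (q, p, s) ∨ t = (p, s, q) ∨ t = (s, q, p) := by
  simp only [old6, mem_insert, mem_singleton]

theorem Flip_new {t : Tr} : t ∈ new6 p q r s ↔ t = (s, r, p) ∨ t = (r, p, s) ∨ t = (p, s, r) ∨
    t = (r, s, q) ∨ t = (s, q, r) ∨ t = (q, r, s) := by
  simp only [new6, mem_insert, mem_singleton]

theorem Flip_old_new : old6 s r p q = new6 p q r s := rfl

theorem Flip_new_old : new6 s r p q = old6 p q r s := by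
  ext t
  rw [Flip_old, Flip_new]
  constructor <;> rintro (e | e | e | e | e | e) <;> simp only [e, true_or, or_true]

theorem Flip_rot {a b c : V} (h : (a, b, c) ∈ old6 p q r s) : (b, c, a) ∈ old6 p q r s := by
  rw [Flip_old] at h ⊢
  rcases h with e | e | e | e | e | e <;> simp only [Prod.mk.injEq] at e <;>
    obtain ⟨rfl, rfl, rfl⟩ := e <;> simp only [true_or, or_true]

theorem Flip_noedge (h : Tri d S) (h1 : (p, q, r) ∈ S) (h2 : (q, p, s) ∈ S)
    (hp : r + s = p + q) : ¬ Edge S r s := by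
  intro he
  refine h.not_cross (Or.inl ⟨r, h1⟩) he ?_
  have u1 := h.uni _ _ _ h1
  have e : s = p + q - r := by rw [← hp]; abel
  subst e
  simp only [Cross, det, Prod.fst_sub, Prod.snd_sub, Prod.fst_add, Prod.snd_add] at *
  constructor <;> nlinarith

theorem Flip_new_not (h : Tri d S) (h1 : (p, q, r) ∈ S) (h2 : (q, p, s) ∈ S)
    (hp : r + s = p + q) {t : Tr} (ht : t ∈ new6 p q r s) : t ∉ S := by
  intro hS
  refine Flip_noedge h h1 h2 hp ?_
  rcases Flip_new.1 ht with rfl | rfl | rfl | rfl | rfl | rfl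
  · exact Or.inr ⟨_, hS⟩
  · exact Or.inr ⟨_, h.rot2 hS⟩
  · exact Or.inr ⟨_, h.rot _ _ _ hS⟩
  · exact Or.inl ⟨_, hS⟩
  · exact Or.inl ⟨_, h.rot2 hS⟩
  · exact Or.inl ⟨_, h.rot _ _ _ hS⟩

theorem Flip_all (hK : Cl S C K) (h1 : (p, q, r) ∈ S) (h2 : (q, p, s) ∈ S) (hc : (p, q) ∉ C)
    (hc' : (q, p) ∉ C) {t : Tr} (ht : t ∈ old6 p q r s) : t ∈ K ↔ (p, q, r) ∈ K := by
  have a : ∀ {x y z : V}, (y, z, x) ∈ K ↔ (x, y, z) ∈ K := ⟨hK.rot2, hK.rot _ _ _⟩
  have b : (q, p, s) ∈ K ↔ (p, q, r) ∈ K :=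
    ⟨fun k => hK.cl _ _ _ _ k h1 hc', fun k => hK.cl _ _ _ _ k h2 hc⟩
  rcases Flip_old.1 ht with rfl | rfl | rfl | rfl | rfl | rfl
  · rfl
  · exact a
  · exact a.trans a
  · exact b
  · exact a.trans b
  · exact a.trans (a.trans b)

theorem Flip_ne (h : Tri d S) {a b c : V} (ht : (a, b, c) ∈ S) : a ≠ b ∧ b ≠ c ∧ c ≠ a := by
  have u := h.uni _ _ _ ht
  refine ⟨?_, ?_, ?_⟩ <;> rintro rfl <;> simp [det, mul_comm] at u

theorem Flip_dart (h : Tri d S) (hK : Cl S C K) (h1 : (p, q, r) ∈ S) (h2 : (q, p, s) ∈ S)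
    (hc : (p, q) ∉ C) (hc' : (q, p) ∉ C) (a b : V) :
    (∃ c, (a, b, c) ∈ Flip_fl K p q r s) ↔
      ((∃ c, (a, b, c) ∈ K) ∧ (a, b) ≠ (p, q) ∧ (a, b) ≠ (q, p)) ∨
        (((a, b) = (r, s) ∨ (a, b) = (s, r)) ∧ (p, q, r) ∈ K) := by
  obtain ⟨n1, n2, n3⟩ := Flip_ne h h1
  obtain ⟨-, n4, n5⟩ := Flip_ne h h2
  have all := fun t (ht : t ∈ old6 p q r s) => Flip_all hK h1 h2 hc hc' ht
  constructor
  · rintro ⟨c, hc⟩
    rcases Flip_mem.1 hc with ⟨k, n⟩ | ⟨k, m⟩
    · refine Or.inl ⟨⟨c, k⟩, ?_, ?_⟩ <;> intro e <;> obtain ⟨rfl, rfl⟩ := Prod.mk.inj e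
      · exact n (by rw [h.uniq _ _ _ _ (hK.sub k) h1]; simp [old6])
      · exact n (by rw [h.uniq _ _ _ _ (hK.sub k) h2]; simp [old6])
    · rcases Flip_new.1 k with e | e | e | e | e | e <;>
        simp only [Prod.mk.injEq] at e <;> obtain ⟨rfl, rfl, rfl⟩ := e
      · exact Or.inr ⟨Or.inr rfl, m⟩
      · exact Or.inl ⟨⟨q, (all _ (by simp [old6])).2 m⟩, by simp [n3], by simp [n2.symm]⟩
      · exact Or.inl ⟨⟨q, (all _ (by simp [old6])).2 m⟩, by simp [n5], by simp [n1]⟩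
      · exact Or.inr ⟨Or.inl rfl, m⟩
      · exact Or.inl ⟨⟨p, (all _ (by simp [old6])).2 m⟩, by simp [n4.symm], by simp [n5]⟩
      · exact Or.inl ⟨⟨p, (all _ (by simp [old6])).2 m⟩, by simp [n1.symm], by simp [n3]⟩
  · rintro (⟨⟨c, k⟩, e1, e2⟩ | ⟨e | e, m⟩)
    · by_cases o : (a, b, c) ∈ old6 p q r s
      · have m := (all _ o).1 k
        rcases Flip_old.1 o with e | e | e | e | e | e <;>
          simp only [Prod.mk.injEq] at e <;> obtain ⟨rfl, rfl, rfl⟩ := e
        · exact absurd rfl e1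
        · exact ⟨s, Flip_mem.2 (Or.inr ⟨by simp [new6], m⟩)⟩
        · exact ⟨s, Flip_mem.2 (Or.inr ⟨by simp [new6], m⟩)⟩
        · exact absurd rfl e2
        · exact ⟨r, Flip_mem.2 (Or.inr ⟨by simp [new6], m⟩)⟩
        · exact ⟨r, Flip_mem.2 (Or.inr ⟨by simp [new6], m⟩)⟩
      · exact ⟨c, Flip_mem.2 (Or.inl ⟨k, o⟩)⟩
    · obtain ⟨rfl, rfl⟩ := Prod.mk.inj e
      exact ⟨q, Flip_mem.2 (Or.inr ⟨by simp [new6], m⟩)⟩
    · obtain ⟨rfl, rfl⟩ := Prod.mk.inj e
      exact ⟨p, Flip_mem.2 (Or.inr ⟨by simp [new6], m⟩)⟩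

theorem Flip_cl (h : Tri d S) (hK : Cl S C K) (h1 : (p, q, r) ∈ S) (h2 : (q, p, s) ∈ S)
    (hp : r + s = p + q) (hc : (p, q) ∉ C) (hc' : (q, p) ∉ C) :
    Cl (flp S p q r s) C (Flip_fl K p q r s) := by
  have h' := h.flip h1 h2 hp
  have sub : Flip_fl K p q r s ⊆ flp S p q r s := fun t ht => by
    rcases Flip_mem.1 ht with ⟨k, n⟩ | ⟨k, -⟩
    · exact Flip_memS.2 (Or.inl ⟨hK.sub k, n⟩)
    · exact Flip_memS.2 (Or.inr k)
  refine ⟨sub, fun a b c ht => ?_, fun a b c e ht he hn => ?_⟩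
  · rcases Flip_mem.1 ht with ⟨k, n⟩ | ⟨k, m⟩
    · exact Flip_mem.2 (Or.inl ⟨hK.rot _ _ _ k, fun o => n (Flip_rot (Flip_rot o))⟩)
    · exact Flip_mem.2 (Or.inr ⟨Flip_rot (p := s) (q := r) k, m⟩)
  · suffices H : ∃ c, (b, a, c) ∈ Flip_fl K p q r s by
      obtain ⟨c', k⟩ := H
      rwa [h'.uniq _ _ _ _ he (sub k)]
    rw [Flip_dart h hK h1 h2 hc hc']
    have ne := Flip_noedge h h1 h2 hp
    rcases (Flip_dart h hK h1 h2 hc hc' a b).1 ⟨c, ht⟩ with ⟨⟨c', k⟩, -, -⟩ | ⟨e', m⟩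
    · rcases (h.flip_dart h1 h2 hp b a).1 ⟨e, he⟩ with ⟨⟨e', k'⟩, n⟩ | e' | e'
      · exact Or.inl ⟨⟨e', hK.cl _ _ _ _ k k' hn⟩, n⟩
      · obtain ⟨rfl, rfl⟩ := Prod.mk.inj e'
        exact absurd (Or.inr ⟨_, hK.sub k⟩) ne
      · obtain ⟨rfl, rfl⟩ := Prod.mk.inj e'
        exact absurd (Or.inl ⟨_, hK.sub k⟩) ne
    · refine Or.inr ⟨?_, m⟩
      rcases e' with e' | e' <;> obtain ⟨rfl, rfl⟩ := Prod.mk.inj e'
      exacts [Or.inr rfl, Or.inl rfl]

theorem Flip_dir {v ξ : V} (hg : Gen d ξ) (hr : InT d r) (hs : InT d s) (hne : r ≠ s)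
    (hp : r + s = p + q) (h : Dir (old6 p q r s) v ξ) : Dir (new6 p q r s) v ξ := by
  have g : det (s - r) ξ ≠ 0 := hg _ (sub_ne_zero.2 hne.symm) (hr.bnd hs)
  have x1 := congrArg Prod.fst hp
  have x2 := congrArg Prod.snd hp
  have y1 : (r.1 + s.1) * ξ.2 = (p.1 + q.1) * ξ.2 := congrArg (· * ξ.2) x1
  have y2 : (r.2 + s.2) * ξ.1 = (p.2 + q.2) * ξ.1 := congrArg (· * ξ.1) x2
  obtain ⟨a, b, k, c1, c2⟩ := h
  rcases Flip_old.1 k with e | e | e | e | e | e <;>
    simp only [Prod.mk.injEq] at e <;> obtain ⟨rfl, rfl, rfl⟩ := e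
  · refine ⟨s, b, by simp [new6], ?_, c2⟩
    simp only [det, Prod.fst_sub, Prod.snd_sub] at *; linarith
  · refine ⟨a, s, by simp [new6], c1, ?_⟩
    simp only [det, Prod.fst_sub, Prod.snd_sub] at *; linarith
  · rcases g.lt_or_gt with g | g
    · refine ⟨a, s, by simp [new6], c1, ?_⟩
      simp only [det, Prod.fst_sub, Prod.snd_sub] at *; linarith
    · exact ⟨s, b, by simp [new6], g, c2⟩
  · refine ⟨r, b, by simp [new6], ?_, c2⟩
    simp only [det, Prod.fst_sub, Prod.snd_sub] at *; linarith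
  · refine ⟨a, r, by simp [new6], c1, ?_⟩
    simp only [det, Prod.fst_sub, Prod.snd_sub] at *; linarith
  · rcases g.lt_or_gt with g | g
    · refine ⟨r, b, by simp [new6], ?_, c2⟩
      simp only [det, Prod.fst_sub, Prod.snd_sub] at *; linarith
    · refine ⟨a, r, by simp [new6], c1, ?_⟩
      simp only [det, Prod.fst_sub, Prod.snd_sub] at *; linarith

/-- Plan: `K' = flp K p q r s` if `(p,q,r) ∈ K`, else `K' = K`. Minimality: a closed subset of
`K'` contains all or none of `new6`; flip it back. `Dir`: at `p` the corners `(p,s,q)`, `(p,q,r)`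
merge into `(p,s,r)` (`q - p = (s - p) + (r - p)`, genericity), at `r` one corner splits. -/
theorem St.flip (h : St d C S K) {p q r s : V} (h1 : (p, q, r) ∈ S) (h2 : (q, p, s) ∈ S)
    (hp : r + s = p + q) (hc : (p, q) ∉ C) :
    ∃ K', St d C (flp S p q r s) K' ∧ Same d C K K' := by
  have T := h.tri
  have T' := T.flip h1 h2 hp
  have hc' : (q, p) ∉ C := fun k => hc (h.ch.symm _ _ k)
  have ne := Flip_noedge T h1 h2 hp
  have c1 : (r, s) ∉ C := fun k => ne (Or.inl (h.ch.dart _ _ k))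
  have c2 : (s, r) ∉ C := fun k => ne (Or.inr (h.ch.dart _ _ k))
  have g1 : (s, r, p) ∈ flp S p q r s := Flip_memS.2 (Or.inr (by simp [new6]))
  have g2 : (r, s, q) ∈ flp S p q r s := Flip_memS.2 (Or.inr (by simp [new6]))
  have hp' : p + q = s + r := by rw [← hp, add_comm]
  have nn := fun t (ht : t ∈ new6 p q r s) => Flip_new_not T h1 h2 hp ht
  have all := fun t (ht : t ∈ old6 p q r s) => Flip_all h.cl h1 h2 hc hc' ht
  have oS : ∀ t ∈ old6 p q r s, t ∈ S := fun t ht =>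
    (Flip_all (C := ∅) ⟨Subset.rfl, T.rot, fun _ _ _ _ _ k _ => k⟩ h1 h2 (by simp) (by simp) ht).2 h1
  have back : flp (flp S p q r s) s r p q = S := by
    ext t
    rw [Flip_memS, Flip_memS, @Flip_old_new p q r s, @Flip_new_old p q r s]
    refine ⟨?_, fun k => ?_⟩
    · rintro (⟨⟨k, -⟩ | k, n⟩ | k)
      exacts [k, absurd k n, oS t k]
    · by_cases o : t ∈ old6 p q r s
      exacts [Or.inr o, Or.inl ⟨Or.inl ⟨k, o⟩, fun n => nn t n k⟩]
  refine ⟨Flip_fl K p q r s, ⟨T', ⟨h.ch.symm, fun a b k => ?_, h.ch.odd, h.ch.bd, h.ch.two⟩,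
    Flip_cl T h.cl h1 h2 hp hc hc', ?_, fun K' sub cl ⟨t, ht⟩ => ?_⟩, ?_, fun v ξ hg => ?_⟩
  · refine (T.flip_dart h1 h2 hp a b).2 (Or.inl ⟨h.ch.dart _ _ k, ?_, ?_⟩) <;> intro e <;>
      rw [e] at k <;> contradiction
  · obtain ⟨t, ht⟩ := h.ne
    by_cases o : t ∈ old6 p q r s
    · exact ⟨(s, r, p), Flip_mem.2 (Or.inr ⟨by simp [new6], (all _ o).1 ht⟩)⟩
    · exact ⟨t, Flip_mem.2 (Or.inl ⟨ht, o⟩)⟩
  · have cl' := Flip_cl T' cl g1 g2 hp' c2 c1
    rw [back] at cl'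
    have all' : ∀ t ∈ new6 p q r s, t ∈ K' ↔ (s, r, p) ∈ K' := fun t ht =>
      Flip_all cl g1 g2 c2 c1 ht
    have mem : ∀ t, t ∈ Flip_fl K' s r p q ↔
        (t ∈ K' ∧ t ∉ new6 p q r s) ∨ (t ∈ old6 p q r s ∧ (s, r, p) ∈ K') := fun t => by
      rw [Flip_mem, @Flip_old_new p q r s, @Flip_new_old p q r s]
    have e : Flip_fl K' s r p q = K := by
      refine h.min _ (fun u hu => ?_) cl' ?_
      · rcases (mem u).1 hu with ⟨k, n⟩ | ⟨o, k⟩
        · rcases Flip_mem.1 (sub k) with ⟨k', -⟩ | ⟨k', -⟩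
          · exact k'
          · exact absurd k' n
        · rcases Flip_mem.1 (sub k) with ⟨k', -⟩ | ⟨-, k'⟩
          · exact absurd (h.cl.sub k') (nn _ (by simp [new6]))
          · exact (all _ o).2 k'
      · by_cases o : t ∈ new6 p q r s
        · exact ⟨(p, q, r), (mem _).2 (Or.inr ⟨by simp [old6], (all' _ o).1 ht⟩)⟩
        · exact ⟨t, (mem _).2 (Or.inl ⟨ht, o⟩)⟩
    refine Subset.antisymm sub fun u hu => ?_
    rcases Flip_mem.1 hu with ⟨k, n⟩ | ⟨o, k⟩
    · rcases (mem u).1 (e ▸ k) with ⟨k', -⟩ | ⟨k', -⟩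
      · exact k'
      · exact absurd k' n
    · rcases (mem _).1 (e ▸ k) with ⟨k', n⟩ | ⟨-, k'⟩
      · rcases Flip_memS.1 (cl.sub k') with ⟨-, n'⟩ | n'
        · exact absurd (by simp [old6]) n'
        · exact absurd n' n
      · exact (all' _ o).2 k'
  · ext ⟨a, b⟩
    rw [mem_bdK, mem_bdK, Flip_dart T h.cl h1 h2 hc hc']
    have b1 := T.not_bd h1 h2
    have b2 := T.not_bd h2 h1
    have b3 := T'.not_bd g1 g2
    have b4 := T'.not_bd g2 g1
    constructor
    · rintro ⟨k, n⟩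
      refine ⟨Or.inl ⟨k, ?_, ?_⟩, n⟩ <;> intro e <;> obtain ⟨rfl, rfl⟩ := Prod.mk.inj e
      exacts [n.elim hc b1, n.elim hc' b2]
    · rintro ⟨⟨k, -⟩ | ⟨e | e, -⟩, n⟩
      · exact ⟨k, n⟩
      · obtain ⟨rfl, rfl⟩ := Prod.mk.inj e; exact (n.elim c1 b4).elim
      · obtain ⟨rfl, rfl⟩ := Prod.mk.inj e; exact (n.elim c2 b3).elim
  · constructor
    · rintro ⟨a, b, k, c⟩
      by_cases o : (v, a, b) ∈ old6 p q r s
      · obtain ⟨a', b', k', c'⟩ := Flip_dir hg (T.inT3 h1) (T.inT3 h2) (Flip_ne T' g2).1 hp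
          ⟨a, b, o, c⟩
        exact ⟨a', b', Flip_mem.2 (Or.inr ⟨k', (all _ o).1 k⟩), c'⟩
      · exact ⟨a, b, Flip_mem.2 (Or.inl ⟨k, o⟩), c⟩
    · rintro ⟨a, b, k, c⟩
      rcases Flip_mem.1 k with ⟨k, -⟩ | ⟨o, m⟩
      · exact ⟨a, b, k, c⟩
      · obtain ⟨a', b', k', c'⟩ := Flip_dir (p := s) (q := r) hg (T.inT _ _ _ h1) (T.inT2 h1)
          (Flip_ne T h1).1 hp' ⟨a, b, o, c⟩
        exact ⟨a', b', (all _ (Flip_new_old ▸ k')).2 m, c'⟩

end Pool.Agent.TC

end
end

section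

/-! Inserting a segment by flips; reducing a zone by flips. -/

open Finset

namespace Pool.Agent.TC

variable {d : ℤ} {S K : Finset Tr} {C : Finset (V × V)}

private theorem Insa_one {Ra Rb Rc ea eb ec : ℤ} (hs : Ra + Rb + Rc = 1)
    (he : Ra * ea + Rb * eb + Rc * ec = 0) (ha : ea < 0) (hb : 0 < eb) (hc : 0 < ec) :
    (0 < Rc → Rb < 0) ∧ (Rc < 0 → 0 < Rb) := by
  constructor
  · intro h
    by_contra hn
    have h1 : 0 ≤ Ra * ea := mul_nonneg_of_nonpos_of_nonpos (by omega) ha.le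
    have h2 : 0 ≤ Rb * eb := mul_nonneg (by omega) hb.le
    have h3 : 0 < Rc * ec := mul_pos h hc
    omega
  · intro h
    by_contra hn
    have h1 : Ra * ea < 0 := mul_neg_of_pos_of_neg (by omega) ha
    have h2 : Rb * eb ≤ 0 := mul_nonpos_of_nonpos_of_nonneg (by omega) hb.le
    have h3 : Rc * ec < 0 := mul_neg_of_neg_of_pos h hc
    omega

private theorem Insa_key {Pa Pb Pc Qa Qb Qc ea eb ec : ℤ} (hP : Pa + Pb + Pc = 1)
    (hQ : Qa + Qb + Qc = 1) (hPe : Pa * ea + Pb * eb + Pc * ec = 0)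
    (hQe : Qa * ea + Qb * eb + Qc * ec = 0) (hx : Pc * Qc < 0) (ha : ea < 0) (hb : 0 < eb)
    (hc : 0 < ec) : Pb * Qb < 0 := by
  obtain ⟨p1, p2⟩ := Insa_one hP hPe ha hb hc
  obtain ⟨q1, q2⟩ := Insa_one hQ hQe ha hb hc
  rcases mul_neg_iff.1 hx with ⟨h1, h2⟩ | ⟨h1, h2⟩
  · exact mul_neg_of_neg_of_pos (p1 h1) (q2 h2)
  · exact mul_neg_of_pos_of_neg (p2 h1) (q1 h2)

/-- the integer core: the third value lies strictly between the first two -/
private theorem Insa_mid {Pa Pb Pc Qa Qb Qc ea eb ec : ℤ} (hP : Pa + Pb + Pc = 1)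
    (hQ : Qa + Qb + Qc = 1) (hPe : Pa * ea + Pb * eb + Pc * ec = 0)
    (hQe : Qa * ea + Qb * eb + Qc * ec = 0) (hx : Pc * Qc < 0) (ha : ea < 0) (hb : 0 < eb)
    (m1 : eb * ec < 0 → Pa * Qa < 0 → |ec - eb| ≤ |eb - ea|)
    (m2 : ec * ea < 0 → Pb * Qb < 0 → |ea - ec| ≤ |eb - ea|)
    (n1 : ec ≠ ea) (n2 : ec ≠ eb) : ea < ec ∧ ec < eb := by
  have hab : |eb - ea| = eb - ea := abs_of_pos (by omega)
  rw [hab] at m1 m2
  rcases lt_trichotomy ec 0 with hc | hc | hc
  · have h1 : Pa * Qa < 0 :=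
      Insa_key (Pa := Pb) (Pb := Pa) (Pc := Pc) (Qa := Qb) (Qb := Qa) (Qc := Qc) (ea := -eb)
        (eb := -ea) (ec := -ec) (by omega) (by omega) (by linear_combination -hPe)
        (by linear_combination -hQe) hx (by omega) (by omega) (by omega)
    have h2 := abs_le.1 (m1 (mul_neg_of_pos_of_neg hb hc) h1)
    omega
  · omega
  · have h1 := Insa_key hP hQ hPe hQe hx ha hb hc
    have h2 := abs_le.1 (m2 (mul_neg_of_pos_of_neg hc ha) h1)
    omega

private theorem Insa_par {x y u v : V} (hy : det x y = 1) (h0 : det x u = 0) (h1 : det v u = 1) :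
    det x v = 1 ∨ det x v = -1 := by
  have h2 : det x v * (-det u y) = 1 := by
    simp only [det] at *
    linear_combination (v.1 * y.2 - v.2 * y.1) * h0 * (-1) + (v.1 * u.2 - v.2 * u.1) * hy + h1
  exact Int.eq_one_or_neg_one_of_mul_eq_one h2

private theorem Insa_between {p q y a b c : V} (hy : det (q - p) y = 1)
    (hu : det (b - a) (c - a) = 1) (hx : Cross p q a b)
    (m1 : Cross p q b c → |det (q - p) (c - b)| ≤ |det (q - p) (b - a)|)
    (m2 : Cross p q c a → |det (q - p) (a - c)| ≤ |det (q - p) (b - a)|) :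
    (det (q - p) (a - p) < det (q - p) (c - p) ∧ det (q - p) (c - p) < det (q - p) (b - p)) ∨
      (det (q - p) (b - p) < det (q - p) (c - p) ∧ det (q - p) (c - p) < det (q - p) (a - p)) := by
  have e : ∀ u v : V, det (q - p) (u - v) = det (q - p) (u - p) - det (q - p) (v - p) := by
    intro u v
    simp only [det, Prod.fst_sub, Prod.snd_sub]
    ring
  have hs : ∀ z : V, det (c - b) (z - b) + det (a - c) (z - c) + det (b - a) (z - a) = 1 := by
    intro z
    simp only [det, Prod.fst_sub, Prod.snd_sub] at hu ⊢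
    linear_combination hu
  have hPe : det (c - b) (p - b) * det (q - p) (a - p) + det (a - c) (p - c) * det (q - p) (b - p) +
      det (b - a) (p - a) * det (q - p) (c - p) = 0 := by
    simp only [det, Prod.fst_sub, Prod.snd_sub]
    ring
  have hQe : det (c - b) (q - b) * det (q - p) (a - p) + det (a - c) (q - c) * det (q - p) (b - p) +
      det (b - a) (q - a) * det (q - p) (c - p) = 0 := by
    simp only [det, Prod.fst_sub, Prod.snd_sub]
    ring
  have hne : ¬ (det (q - p) (b - a) = 1 ∨ det (q - p) (b - a) = -1) := by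
    rw [e b a]
    rcases mul_neg_iff.1 hx.1 with h | h <;> omega
  have n1 : det (q - p) (c - p) ≠ det (q - p) (a - p) := fun h =>
    hne (Insa_par (u := c - a) hy (by rw [e c a]; omega) hu)
  have n2 : det (q - p) (c - p) ≠ det (q - p) (b - p) := fun h => by
    refine hne (Insa_par (u := c - b) hy (by rw [e c b]; omega) ?_)
    simp only [det, Prod.fst_sub, Prod.snd_sub] at hu ⊢
    linear_combination hu
  have ab : ∀ u v : ℤ, |-u - -v| = |u - v| := fun u v => by rw [neg_sub_neg, abs_sub_comm]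
  unfold Cross at m1 m2
  rw [e c b, e b a] at m1
  rw [e a c, e b a] at m2
  rcases mul_neg_iff.1 hx.1 with ⟨h1, h2⟩ | ⟨h1, h2⟩
  · right
    have := Insa_mid (ea := -det (q - p) (a - p)) (eb := -det (q - p) (b - p))
      (ec := -det (q - p) (c - p)) (hs p) (hs q) (by linear_combination -hPe)
      (by linear_combination -hQe) hx.2 (by omega) (by omega)
      (fun k1 k2 => by
        rw [ab, ab]
        exact m1 ⟨by rwa [neg_mul_neg] at k1, k2⟩)
      (fun k1 k2 => by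
        rw [ab, ab]
        exact m2 ⟨by rwa [neg_mul_neg] at k1, k2⟩)
      (by omega) (by omega)
    omega
  · left
    exact Insa_mid (hs p) (hs q) hPe hQe hx.2 h1 h2 (fun k1 k2 => m1 ⟨k1, k2⟩)
      (fun k1 k2 => m2 ⟨k1, k2⟩) n1 n2

private theorem Insa_symm {p q a b : V} (hx : Cross p q a b) : Cross p q b a := by
  obtain ⟨h1, h2⟩ := hx
  refine ⟨by rwa [mul_comm], ?_⟩
  simp only [det, Prod.fst_sub, Prod.snd_sub] at h2 ⊢
  convert h2 using 1
  ring

private theorem Insa_not_bd {p q a b : V} (hp : InT d p) (hq : InT d q) (hx : Cross p q a b) :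
    ¬ Bd d a b := by
  intro hb
  have h2 := hx.2
  obtain ⟨p1, p2, p3⟩ := hp
  obtain ⟨q1, q2, q3⟩ := hq
  simp only [det, Prod.fst_sub, Prod.snd_sub] at h2
  rcases hb with ⟨k1, k2⟩ | ⟨k1, k2⟩ | ⟨k1, k2⟩
  · rw [k1, k2] at h2
    nlinarith [mul_nonneg (sq_nonneg (b.1 - a.1)) (mul_nonneg p2 q2)]
  · have e1 : a.2 = d - a.1 := by omega
    have e2 : b.2 = d - b.1 := by omega
    rw [e1, e2] at h2
    nlinarith [mul_nonneg (sq_nonneg (b.1 - a.1))
      (mul_nonneg (sub_nonneg.2 p3) (sub_nonneg.2 q3))]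
  · rw [k1, k2] at h2
    nlinarith [mul_nonneg (sq_nonneg (b.2 - a.2)) (mul_nonneg p1 q1)]

/-- a primitive segment crossed by no edge is an edge. Plan: take the corner `(p,a,b)` containing
a generic perturbation (towards the inside of `T`) of `q - p = α (a - p) + β (b - p)`, `α, β ≥ 0`;
if both are positive then `ab` crosses `pq`. -/
theorem Tri.edge_of_not_cross (h : Tri d S) {p q y : V} (hp : InT d p) (hq : InT d q)
    (hy : det (q - p) y = 1) (hn : ∀ a b c, (a, b, c) ∈ S → ¬ Cross p q a b) : Edge S p q := by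
  have hd := h.pos
  have hdir : ∃ z : V, det (q - p) z ≠ 0 ∧ ((q - p).2 = 0 → 0 < z.2) ∧ ((q - p).1 = 0 → 0 < z.1) ∧
      ((q - p).1 + (q - p).2 = 0 → z.1 + z.2 < 0) := by
    generalize q - p = x at hy
    have hx : ¬ (x.1 = 0 ∧ x.2 = 0) := by
      rintro ⟨k1, k2⟩
      simp [det, k1, k2] at hy
    by_cases c1 : x.2 = 0
    · exact ⟨(0, 1), by simp only [det]; omega, by simp, by omega, by omega⟩
    · by_cases c2 : x.1 = 0
      · exact ⟨(1, 0), by simp only [det]; omega, by omega, by simp, by omega⟩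
      · exact ⟨(-1, 0), by simp only [det]; omega, by omega, by omega, by simp⟩
  obtain ⟨z, hz, z1, z2, z3⟩ := hdir
  obtain ⟨ξ, hg, hξ⟩ := exists_gen d hz
  have hi : Into d p ξ := by
    have b1 := hξ (1, 0) (by simp only [Bnd, abs_le]; omega)
    have b2 := hξ (0, 1) (by simp only [Bnd, abs_le]; omega)
    have b3 := hξ (1, -1) (by simp only [Bnd, abs_le]; omega)
    simp only [det, InT, Into, Prod.fst_sub, Prod.snd_sub] at b1 b2 b3 z1 z2 z3 hp hq ⊢
    omega
  obtain ⟨a, b, hab, c1, c2⟩ := h.exists_corner hp hg hi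
  have hu := h.uni _ _ _ hab
  have ba := hξ (a - p) (hp.bnd (h.inT2 hab))
  have bb := hξ (b - p) (hp.bnd (h.inT3 hab))
  have c3 : det (b - p) ξ < 0 := by
    simp only [det] at c2 ⊢
    linarith
  have hβ : 0 ≤ det (a - p) (q - p) := by
    by_contra k
    have := ba.2.1 (by omega)
    omega
  have hα : det (b - p) (q - p) ≤ 0 := by
    by_contra k
    have := bb.1 (by omega)
    omega
  rcases hβ.eq_or_lt with k1 | k1
  · have e1 : -det (b - p) (q - p) * det (a - p) y = 1 := by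
      simp only [det] at k1 hu hy ⊢
      linear_combination ((q - p).1 * y.2 - (q - p).2 * y.1) * hu + hy
        + ((b - p).1 * y.2 - (b - p).2 * y.1) * k1
    have e2 := Int.eq_one_of_mul_eq_one_right (by omega) e1
    have e3 : q = a := by
      simp only [det, Prod.fst_sub, Prod.snd_sub] at k1 hu e2
      ext
      · linear_combination (p.1 - q.1) * hu + (a.1 - p.1) * e2 - (b.1 - p.1) * k1
      · linear_combination (p.2 - q.2) * hu + (a.2 - p.2) * e2 - (b.2 - p.2) * k1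
    exact Or.inl ⟨b, e3 ▸ hab⟩
  · rcases hα.eq_or_lt with k2 | k2
    · have e1 : det (a - p) (q - p) * det (b - p) y = 1 := by
        simp only [det] at k2 hu hy ⊢
        linear_combination ((q - p).1 * y.2 - (q - p).2 * y.1) * hu + hy
          + ((a - p).1 * y.2 - (a - p).2 * y.1) * k2
      have e2 := Int.eq_one_of_mul_eq_one_right hβ e1
      have e3 : q = b := by
        simp only [det, Prod.fst_sub, Prod.snd_sub] at k2 hu e2
        ext
        · linear_combination (p.1 - q.1) * hu + (b.1 - p.1) * e2 - (a.1 - p.1) * k2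
        · linear_combination (p.2 - q.2) * hu + (b.2 - p.2) * e2 - (a.2 - p.2) * k2
      exact Or.inr ⟨a, e3 ▸ h.rot2 hab⟩
    · refine absurd ⟨?_, ?_⟩ (hn a b p (h.rot _ _ _ hab))
      · have := mul_neg_of_pos_of_neg k1 k2
        simp only [det] at this ⊢
        linear_combination this
      · have f1 : det (b - a) (p - a) = 1 := by
          simp only [det, Prod.fst_sub, Prod.snd_sub] at hu ⊢
          linear_combination hu
        have f2 : det (b - a) (q - a) = det (b - p) (q - p) - det (a - p) (q - p) + 1 := by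
          simp only [det, Prod.fst_sub, Prod.snd_sub] at hu ⊢
          linear_combination hu
        rw [f1, f2]
        omega

/-- the longest crossing edge is flippable. With `η x = det (q - p) (x - p)`, `η a < 0 < η b`
(or reversed), `h = |η b - η a|` maximal among crossing darts: if `η c > 0` then `ac` crosses
(barycentric coordinates of `p`, `q` in the triangle `abc` are integers with sum `1`), so
`η c ≤ η b`, and `η c = η b` is impossible (`c - b` would be a multiple `j (q - p)` with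
`|j| h = 1`); so `η c`, `η c'` lie strictly between `η a`, `η b`, and `opp_eq` gives
`c + c' = a + b`. -/
theorem Tri.flippable (h : Tri d S) {p q y a b c : V} (hp : InT d p) (hq : InT d q)
    (hy : det (q - p) y = 1) (h1 : (a, b, c) ∈ S) (hx : Cross p q a b)
    (hmax : ∀ a' b' c', (a', b', c') ∈ S → Cross p q a' b' →
      |det (q - p) (b' - a')| ≤ |det (q - p) (b - a)|) :
    ∃ c', (b, a, c') ∈ S ∧ c + c' = a + b ∧ |det (q - p) (c' - c)| < |det (q - p) (b - a)| := by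
  obtain ⟨c', h2⟩ := h.opp a b c h1 (Insa_not_bd hp hq hx)
  have e : ∀ u v : V, det (q - p) (u - v) = det (q - p) (u - p) - det (q - p) (v - p) := by
    intro u v
    simp only [det, Prod.fst_sub, Prod.snd_sub]
    ring
  have hab : |det (q - p) (a - b)| = |det (q - p) (b - a)| := by
    rw [e a b, e b a, abs_sub_comm]
  have b1 := Insa_between hy (h.uni _ _ _ h1) hx (hmax b c a (h.rot _ _ _ h1))
    (hmax c a b (h.rot2 h1))
  have b2 := Insa_between hy (h.uni _ _ _ h2) (Insa_symm hx)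
    (fun k => hab ▸ hmax a c' b (h.rot _ _ _ h2) k) (fun k => hab ▸ hmax c' b a (h.rot2 h2) k)
  obtain ⟨o1, -⟩ := h.opp_eq h1 h2
  generalize det (c' - a) (c - a) = m at o1
  have o2 := congrArg Prod.fst o1
  have o3 := congrArg Prod.snd o1
  simp only [Prod.fst_add, Prod.snd_add, Prod.fst_sub, Prod.snd_sub, Prod.smul_fst, Prod.smul_snd,
    smul_eq_mul] at o2 o3
  have o4 : (det (q - p) (c' - p) - det (q - p) (a - p)) + (det (q - p) (c - p) - det (q - p) (a - p))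
      = m * (det (q - p) (b - p) - det (q - p) (a - p)) := by
    simp only [det, Prod.fst_sub, Prod.snd_sub]
    linear_combination (q.1 - p.1) * o3 - (q.2 - p.2) * o2
  have hm : m = 1 := by
    generalize det (q - p) (c' - p) = ec' at *
    generalize det (q - p) (c - p) = ec at *
    generalize det (q - p) (a - p) = ea at *
    generalize det (q - p) (b - p) = eb at *
    rcases b1 with b1 | b1 <;> rcases b2 with b2 | b2
    · omega
    · have k1 : 0 < m := by nlinarith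
      have k2 : m < 2 := by nlinarith
      omega
    · have k1 : 0 < m := by nlinarith
      have k2 : m < 2 := by nlinarith
      omega
    · omega
  subst hm
  refine ⟨c', h2, ?_, ?_⟩
  · ext
    · simp only [Prod.fst_add]
      omega
    · simp only [Prod.snd_add]
      omega
  · rw [e c' c, e b a, abs_lt]
    rcases b1 with b1 | b1 <;> rcases b2 with b2 | b2
    · omega
    · rw [abs_of_pos (by omega)]
      omega
    · rw [abs_of_neg (by omega)]
      omega
    · omega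

end Pool.Agent.TC

end

section

/-! Inserting a segment by flips; reducing a zone by flips. -/

open Finset

namespace Pool.Agent.TC

variable {d : ℤ} {S K : Finset Tr} {C : Finset (V × V)}

theorem Ins_cross_symm {p q a b : V} (h : Cross p q a b) : Cross p q b a := by
  obtain ⟨h1, h2⟩ := h
  refine ⟨by rwa [mul_comm], ?_⟩
  have e1 : det (a - b) (p - b) = -det (b - a) (p - a) := by
    simp only [det, Prod.fst_sub, Prod.snd_sub]; ring
  have e2 : det (a - b) (q - b) = -det (b - a) (q - a) := by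
    simp only [det, Prod.fst_sub, Prod.snd_sub]; ring
  rw [e1, e2]; linarith

theorem Ins_abs_det (u a b : V) : |det u (a - b)| = |det u (b - a)| := by
  rw [← abs_neg]; congr 1
  simp only [det, Prod.fst_sub, Prod.snd_sub]; ring

theorem Ins_edge_flip (h : Tri d S) {p q r s : V} (h1 : (p, q, r) ∈ S) (h2 : (q, p, s) ∈ S)
    (hp : r + s = p + q) {a b : V} (he : Edge S a b) (n1 : (a, b) ≠ (p, q))
    (n2 : (a, b) ≠ (q, p)) : Edge (flp S p q r s) a b := by
  rcases he with he | he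
  · exact Or.inl ((h.flip_dart h1 h2 hp a b).mpr (Or.inl ⟨he, n1, n2⟩))
  · refine Or.inr ((h.flip_dart h1 h2 hp b a).mpr (Or.inl ⟨he, ?_, ?_⟩))
    · intro e
      obtain ⟨rfl, rfl⟩ := Prod.mk.inj e
      exact n2 rfl
    · intro e
      obtain ⟨rfl, rfl⟩ := Prod.mk.inj e
      exact n1 rfl

theorem Ins_parity {p q r s : V} (hd : det (q - p) (r - p) = 1) (hp : r + s = p + q)
    (n1 : ¬ Ev p) (n2 : ¬ Ev q) : (Ev r ∨ Ev s) ∧ ¬ (Ev r ∧ Ev s) := by
  obtain ⟨p1, p2⟩ := p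
  obtain ⟨q1, q2⟩ := q
  obtain ⟨r1, r2⟩ := r
  obtain ⟨s1, s2⟩ := s
  simp only [Prod.mk_add_mk, Prod.mk.injEq] at hp
  simp only [det, Prod.fst_sub, Prod.snd_sub] at hd
  simp only [Ev] at *
  have hd2 := congrArg (· % 2) hd
  simp only [Int.sub_emod ((q1 - p1) * (r2 - p2)), Int.mul_emod (q1 - p1),
    Int.mul_emod (q2 - p2)] at hd2
  rcases Int.emod_two_eq_zero_or_one (q1 - p1) with a | a <;>
    rcases Int.emod_two_eq_zero_or_one (q2 - p2) with b | b <;>
    rcases Int.emod_two_eq_zero_or_one (r1 - p1) with c | c <;>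
    rcases Int.emod_two_eq_zero_or_one (r2 - p2) with e | e <;>
    rw [a, b, c, e] at hd2 <;> omega

/-- induction on `∑ t ∈ S, if Cross p q t.1 t.2.1 then |det (q - p) (t.2.1 - t.1)| else 0`
(`flip_sum`) -/
theorem St.insert (h : St d C S K) {p q y : V} (hp : InT d p) (hq : InT d q)
    (hy : det (q - p) y = 1) (hn : ∀ a b, (a, b) ∈ C → ¬ Cross p q a b) :
    ∃ S' K', St d C S' K' ∧ Same d C K K' ∧ Edge S' p q ∧
      ∀ a b, Edge S a b → ¬ Cross p q a b → Edge S' a b := by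
  let g : V → V → ℕ := fun a b => if Cross p q a b then (det (q - p) (b - a)).natAbs else 0
  induction hm : ∑ t ∈ S, g t.1 t.2.1 using Nat.strong_induction_on generalizing S K with
  | _ n ih =>
    by_cases hx : (S.filter fun t => Cross p q t.1 t.2.1).Nonempty
    · obtain ⟨⟨a, b, c⟩, ht, hmax⟩ := exists_max_image _
        (fun t : Tr => |det (q - p) (t.2.1 - t.1)|) hx
      obtain ⟨h1, hc⟩ := mem_filter.mp ht
      obtain ⟨c', h2, hs, hlt⟩ := h.tri.flippable hp hq hy h1 hc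
        (fun a' b' c' h3 h4 => hmax (a', b', c') (mem_filter.mpr ⟨h3, h4⟩))
      obtain ⟨K1, hK1, hS1⟩ := h.flip h1 h2 hs (fun hC => hn a b hC hc)
      have e := h.tri.flip_sum h1 h2 hs g
      have g1 : g a b = (det (q - p) (b - a)).natAbs := if_pos hc
      have g2 : g b a = (det (q - p) (a - b)).natAbs := if_pos (Ins_cross_symm hc)
      have g3 : g c c' ≤ (det (q - p) (c' - c)).natAbs := by
        simp only [g]; split_ifs <;> omega
      have g4 : g c' c ≤ (det (q - p) (c - c')).natAbs := by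
        simp only [g]; split_ifs <;> omega
      have a1 := Ins_abs_det (q - p) a b
      have a2 := Ins_abs_det (q - p) c c'
      simp only [Int.abs_eq_natAbs] at a1 a2 hlt
      obtain ⟨S', K', k1, k2, k3, k4⟩ := ih _ (by omega) hK1 rfl
      refine ⟨S', K', k1, hS1.trans k2, k3, fun x z he hxz => k4 x z ?_ hxz⟩
      refine Ins_edge_flip h.tri h1 h2 hs he ?_ ?_
      · intro e
        obtain ⟨rfl, rfl⟩ := Prod.mk.inj e
        exact hxz hc
      · intro e
        obtain ⟨rfl, rfl⟩ := Prod.mk.inj e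
        exact hxz (Ins_cross_symm hc)
    · exact ⟨S, K, h, Same.refl _ _ _, h.tri.edge_of_not_cross hp hq hy
        (fun a b c h1 hc => hx ⟨(a, b, c), mem_filter.mpr ⟨h1, hc⟩⟩), fun _ _ he _ => he⟩

/-- induction on the number of odd-odd darts (a flippable odd-odd edge has one even and one odd
opposite vertex, by parity); an odd-odd edge between two even triangles is never touched -/
theorem St.reduce (h : St d C S K) :
    ∃ S' K', St d C S' K' ∧ Same d C K K' ∧ Red S' C K' ∧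
      (∀ a b, Edge S a b → (Ev a ∨ Ev b) → Edge S' a b) ∧
      ∀ p q e e', (p, q, e) ∈ S → (q, p, e') ∈ S → Ev e → Ev e' →
        (p, q, e) ∈ S' ∧ (q, p, e') ∈ S' := by
  let g : V → V → ℕ := fun a b => if ¬ Ev a ∧ ¬ Ev b then 1 else 0
  induction hm : ∑ t ∈ S, g t.1 t.2.1 using Nat.strong_induction_on generalizing S K with
  | _ n ih =>
    by_cases hx : Red S C K
    · exact ⟨S, K, h, Same.refl _ _ _, hx, fun _ _ he _ => he, fun _ _ _ _ h1 h2 _ _ => ⟨h1, h2⟩⟩
    unfold Red at hx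
    push Not at hx
    obtain ⟨p, q, r, s, hK, h2, hC, np, nq, hs⟩ := hx
    have h1 := h.cl.sub hK
    obtain ⟨K1, hK1, hS1⟩ := h.flip h1 h2 hs hC
    have e := h.tri.flip_sum h1 h2 hs g
    obtain ⟨par1, par2⟩ := Ins_parity (h.tri.uni _ _ _ h1) hs np nq
    have g1 : g p q = 1 := if_pos ⟨np, nq⟩
    have g2 : g q p = 1 := if_pos ⟨nq, np⟩
    have g3 : g r s = 0 := if_neg (by tauto)
    have g4 : g s r = 0 := if_neg (by tauto)
    obtain ⟨S', K', k1, k2, k3, k4, k5⟩ := ih _ (by omega) hK1 rfl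
    have keep : ∀ x y e e', (x, y, e) ∈ S → (y, x, e') ∈ S → Ev e → Ev e' →
        (x, y, e) ∈ flp S p q r s := by
      intro x y e e' m1 m2 v1 v2
      refine mem_union_left _ (mem_sdiff.mpr ⟨m1, fun ho => ?_⟩)
      simp only [old6, mem_insert, mem_singleton, Prod.mk.injEq] at ho
      rcases ho with ⟨rfl, rfl, rfl⟩ | ⟨rfl, rfl, rfl⟩ | ⟨rfl, rfl, rfl⟩ | ⟨rfl, rfl, rfl⟩ |
        ⟨rfl, rfl, rfl⟩ | ⟨rfl, rfl, rfl⟩
      · exact par2 ⟨v1, h.tri.uniq _ _ _ _ m2 h2 ▸ v2⟩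
      · exact np v1
      · exact nq v1
      · exact par2 ⟨h.tri.uniq _ _ _ _ m2 h1 ▸ v2, v1⟩
      · exact nq v1
      · exact np v1
    refine ⟨S', K', k1, hS1.trans k2, k3, fun x z he hxz => k4 x z ?_ hxz,
      fun x y e e' m1 m2 v1 v2 => k5 x y e e' (keep _ _ _ _ m1 m2 v1 v2)
        (keep _ _ _ _ m2 m1 v2 v1) v1 v2⟩
    refine Ins_edge_flip h.tri h1 h2 hs he ?_ ?_
    · intro e
      obtain ⟨rfl, rfl⟩ := Prod.mk.inj e
      tauto
    · intro e
      obtain ⟨rfl, rfl⟩ := Prod.mk.inj e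
      tauto

end Pool.Agent.TC

end

section

/-! How many edges can be charged at a vertex. -/

open Finset

namespace Pool.Agent.TC

variable {d : ℤ} {S K : Finset Tr} {C : Finset (V × V)}

/-- the corner contains `ξ` or `-ξ` -/
def Mid (ξ : V) (t : Tr) : Prop :=
  Cone (t.2.1 - t.1) (t.2.2 - t.1) ξ ∨ Cone (t.2.1 - t.1) (t.2.2 - t.1) (-ξ)
instance (ξ : V) : DecidablePred (Mid ξ) := fun _ => by unfold Mid; infer_instance

/-- one of the two corners next to a charged edge is a middle corner (`opp_eq`) -/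
theorem Tri.mid_of_chg (h : Tri d S) {ξ v y r s : V} (hg : Gen d ξ) (h1 : (v, y, r) ∈ S)
    (h2 : (y, v, s) ∈ S) (hc : det (s - v) (r - v) ≤ 0) : Mid ξ (v, y, r) ∨ Mid ξ (v, s, y) := by
  have e := (h.opp_eq h1 h2).1
  have hs : (v, s, y) ∈ S := h.rot _ _ _ h2
  have u1 := h.uni _ _ _ h1
  have u2 := h.uni _ _ _ hs
  have hv := h.inT _ _ _ h1
  have a1 := hg (y - v) (by intro h0; rw [h0] at u1; simp [det] at u1) (hv.bnd (h.inT2 h1))
  have a2 := hg (r - v) (by intro h0; rw [h0] at u1; simp [det] at u1) (hv.bnd (h.inT3 h1))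
  have a3 := hg (s - v) (by intro h0; rw [h0] at u2; simp [det] at u2) (hv.bnd (h.inT2 hs))
  have key : det (s - v) ξ + det (r - v) ξ = det (s - v) (r - v) * det (y - v) ξ := by
    have e1 := congrArg Prod.fst e
    have e2 := congrArg Prod.snd e
    simp only [Prod.fst_add, Prod.snd_add, Prod.smul_fst, Prod.smul_snd, smul_eq_mul] at e1 e2
    generalize det (s - v) (r - v) = D at *
    simp only [det]
    linear_combination ξ.2 * e1 - ξ.1 * e2
  have n1 : ∀ u : V, det ξ u = -det u ξ := fun u => by simp only [det]; ring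
  have n2 : ∀ u : V, det u (-ξ) = -det u ξ := fun u => by
    simp only [det, Prod.fst_neg, Prod.snd_neg]; ring
  have n3 : ∀ u : V, det (-ξ) u = det u ξ := fun u => by
    simp only [det, Prod.fst_neg, Prod.snd_neg]; ring
  simp only [Mid, Cone, n1, n2, n3]
  generalize det (s - v) (r - v) = D at *
  generalize det (s - v) ξ = A at *
  generalize det (y - v) ξ = B at *
  generalize det (r - v) ξ = E at *
  rcases lt_or_gt_of_ne a1 with hB | hB
  · have : 0 ≤ D * B := mul_nonneg_of_nonpos_of_nonpos hc hB.le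
    omega
  · have : D * B ≤ 0 := mul_nonpos_of_nonpos_of_nonneg hc hB.le
    omega

/-- Plan: send a charged dart to a middle corner next to it (in `K`); a corner hit twice is in
`dblAt`. -/
theorem cap_gen (h : Tri d S) (hC : Ch d S C) (hK : Cl S C K) {v ξ : V} (hg : Gen d ξ) :
    (chgAt S C K v).card ≤ (K.filter fun t => t.1 = v ∧ Mid ξ t).card +
      ((dblAt S C K v).filter (Mid ξ)).card := by
  classical
  set M := K.filter fun t => t.1 = v ∧ Mid ξ t with hM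
  set P : V → Prop := fun y => ¬ Ev y ∧ (v, y) ∉ C ∧ Chg S v y with hP
  have h1 : (chgAt S C K v).card = ((chgAt S C K v).image fun t => t.2.1).card := by
    refine (card_image_of_injOn ?_).symm
    rintro ⟨a, b, c⟩ ha ⟨a', b', c'⟩ ha' e
    simp only [chgAt, coe_filter, Set.mem_ofPred_eq] at ha ha' e
    obtain ⟨k, rfl, -⟩ := ha
    obtain ⟨k', rfl, -⟩ := ha'
    subst e
    rw [h.uniq _ _ _ _ (hK.sub k) (hK.sub k')]
  have h2 : ((chgAt S C K v).image fun t => t.2.1) ⊆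
      ((M.filter fun t => P t.2.1).image fun t => t.2.1) ∪
        ((M.filter fun t => P t.2.2).image fun t => t.2.2) := by
    intro y hy
    simp only [chgAt, mem_image, mem_filter] at hy
    obtain ⟨⟨a, b, c⟩, ⟨k, rfl, hp⟩, rfl⟩ := hy
    obtain ⟨r, s, k1, k2, hc⟩ := hp.2.2
    obtain rfl := h.uniq _ _ _ _ (hK.sub k) k1
    simp only [mem_union, mem_image, mem_filter, hM]
    rcases h.mid_of_chg hg k1 k2 hc with m | m
    · exact Or.inl ⟨_, ⟨⟨k, rfl, m⟩, hp⟩, rfl⟩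
    · exact Or.inr ⟨(_, s, _), ⟨⟨hK.rot _ _ _ (hK.cl _ _ _ _ k k2 hp.2.1), rfl, m⟩, hp⟩, rfl⟩
  have h3 := card_union_add_card_inter (M.filter fun t => P t.2.1) (M.filter fun t => P t.2.2)
  have h4 : ((M.filter fun t => P t.2.1) ∪ (M.filter fun t => P t.2.2)).card ≤ M.card :=
    card_le_card (union_subset (filter_subset _ _) (filter_subset _ _))
  have h5 : ((M.filter fun t => P t.2.1) ∩ (M.filter fun t => P t.2.2)).card ≤
      ((dblAt S C K v).filter (Mid ξ)).card := by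
    refine card_le_card fun t ht => ?_
    simp only [mem_inter, mem_filter, hM, hP] at ht
    simp only [dblAt, mem_filter]
    obtain ⟨⟨⟨k, e, m⟩, p1, p2, p3⟩, -, q1, q2, q3⟩ := ht
    exact ⟨⟨k, e, p1, q1, p2, q2, p3, q3⟩, m⟩
  have h6 := (card_le_card h2).trans ((card_union_le _ _).trans
    (add_le_add card_image_le card_image_le))
  omega

theorem Capa_one (h : Tri d S) (hK : K ⊆ S) (v ξ : V) :
    (K.filter fun t => t.1 = v ∧ Cone (t.2.1 - t.1) (t.2.2 - t.1) ξ).card ≤ 1 := by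
  refine card_le_one.2 ?_
  rintro ⟨a, b, c⟩ ha ⟨a', b', c'⟩ ha'
  simp only [mem_filter] at ha ha'
  obtain ⟨k, rfl, c1⟩ := ha
  obtain ⟨k', rfl, c2⟩ := ha'
  obtain ⟨rfl, rfl⟩ := h.corner_unique (hK k) (hK k') c1 c2
  rfl

theorem mid_le_two (h : Tri d S) (hK : K ⊆ S) (v ξ : V) :
    (K.filter fun t => t.1 = v ∧ Mid ξ t).card ≤ 2 := by
  refine le_trans (card_le_card (t := (K.filter fun t => t.1 = v ∧
    Cone (t.2.1 - t.1) (t.2.2 - t.1) ξ) ∪ K.filter fun t => t.1 = v ∧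
    Cone (t.2.1 - t.1) (t.2.2 - t.1) (-ξ)) fun t ht => ?_) ((card_union_le _ _).trans
      (add_le_add (Capa_one h hK v ξ) (Capa_one h hK v (-ξ))))
  rw [mem_filter] at ht
  simp only [mem_filter, mem_union]
  obtain ⟨k, e, c | c⟩ := ht
  exacts [Or.inl ⟨k, e, c⟩, Or.inr ⟨k, e, c⟩]

/-- if `ξ` lies in a corner outside `K` only one middle corner is left -/
theorem mid_le_one (h : Tri d S) (hK : K ⊆ S) {v ξ a b : V} (h1 : (v, a, b) ∈ S)
    (h2 : (v, a, b) ∉ K) (hc : Cone (a - v) (b - v) ξ) :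
    (K.filter fun t => t.1 = v ∧ Mid ξ t).card ≤ 1 := by
  refine le_trans (card_le_card fun t ht => ?_) (Capa_one h hK v (-ξ))
  obtain ⟨p, q, r⟩ := t
  rw [mem_filter] at ht ⊢
  obtain ⟨k, rfl, c | c⟩ := ht
  · obtain ⟨rfl, rfl⟩ := h.corner_unique h1 (hK k) hc c
    exact absurd k h2
  · exact ⟨k, rfl, c⟩

theorem cap_free (h : Tri d S) (hC : Ch d S C) (hK : Cl S C K) (v : V) :
    (chgAt S C K v).card ≤ 2 + (dblAt S C K v).card := by
  obtain ⟨ξ, hg, -⟩ := exists_gen d (x := (1, 0)) (y := (0, 1)) (by simp [det])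
  exact (cap_gen h hC hK hg).trans
    (add_le_add (mid_le_two h hK.sub v ξ) (card_filter_le _ _))

theorem St.cap_apex (h : St d C S K) {v z : V} (hc : (v, z) ∈ C) :
    (chgAt S C K v).card ≤ 1 + (dblAt S C K v).card := by
  obtain ⟨a, b, h1, h2⟩ := h.notAll hc
  obtain ⟨ξ, hg, c⟩ := h.tri.exists_gen_cone h1
  exact (cap_gen h.tri h.ch h.cl hg).trans
    (add_le_add (mid_le_one h.tri h.cl.sub h1 h2 c) (card_filter_le _ _))

end Pool.Agent.TC

end

section

/-! How many edges can be charged at a vertex. -/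

open Finset

namespace Pool.Agent.TC

variable {d : ℤ} {S K : Finset Tr} {C : Finset (V × V)}

/-- the next lattice point on the boundary, counterclockwise -/
def nxt (d : ℤ) (v : V) : V :=
  if v.2 = 0 ∧ v.1 < d then (v.1 + 1, 0) else if v.1 = 0 then (0, v.2 - 1) else (v.1 - 1, v.2 + 1)

theorem Cap_nxt {v s : V} (hs : InT d s) (hb : BdU d v s) : s = nxt d v := by
  obtain ⟨v1, v2⟩ := v
  unfold nxt
  rcases hb with ⟨e, rfl⟩ | ⟨e, rfl⟩ | ⟨e, rfl⟩ <;> simp only [InT] at hs e <;> split_ifs <;>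
    simp only [Prod.mk.injEq, not_and, not_lt] at * <;> omega

theorem Cap_ev (hd : d % 2 = 0) {v s : V} (ho : ¬ Ev v) (hb : BdU d v s) :
    Ev s ∧ ¬ Ins d s := by
  obtain ⟨v1, v2⟩ := v
  rcases hb with ⟨e, rfl⟩ | ⟨e, rfl⟩ | ⟨e, rfl⟩ <;> simp only [Ev, Ins] at * <;> omega

/-- the two opposite vertices of a charged edge at a boundary point lie on the boundary -/
theorem Cap_side (h : Tri d S) {v y r s : V} (hv : ¬ Ins d v) (h1 : (v, y, r) ∈ S)
    (h2 : (y, v, s) ∈ S) (hc : det (s - v) (r - v) ≤ 0) : Bd d r v ∧ Bd d v s := by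
  have e := (h.opp_eq h1 h2).1
  have i1 := h.inT _ _ _ h1
  have i2 := h.inT2 h1
  have i3 := h.inT3 h1
  have i4 := h.inT3 h2
  generalize det (s - v) (r - v) = m at e hc
  have e1 := congrArg Prod.fst e
  have e2 := congrArg Prod.snd e
  simp only [Prod.fst_add, Prod.fst_sub, Prod.snd_add, Prod.snd_sub, Prod.smul_fst, Prod.smul_snd,
    smul_eq_mul] at e1 e2
  simp only [InT, Ins, Bd] at *
  have : v.2 = 0 ∨ v.1 + v.2 = d ∨ v.1 = 0 := by omega
  rcases this with e | e | e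
  · have : m * (y.2 - v.2) ≤ 0 := mul_nonpos_of_nonpos_of_nonneg hc (by omega)
    omega
  · have : 0 ≤ m * (y.1 - v.1 + (y.2 - v.2)) := mul_nonneg_of_nonpos_of_nonpos hc (by omega)
    rw [mul_add] at this
    omega
  · have : m * (y.1 - v.1) ≤ 0 := mul_nonpos_of_nonpos_of_nonneg hc (by omega)
    omega

theorem Cap_chg (h : Tri d S) {v y : V} (hv : ¬ Ins d v) (hc : Chg S v y) :
    (y, v, nxt d v) ∈ S ∧ BdU d v (nxt d v) ∧ ∀ r, (v, y, r) ∈ S → Bd d r v := by
  obtain ⟨r, s, h1, h2, hc⟩ := hc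
  obtain ⟨b1, b2⟩ := Cap_side h hv h1 h2 hc
  have b3 := h.bdU (h.rot _ _ _ h2) b2
  obtain rfl := Cap_nxt (h.inT3 h2) b3
  exact ⟨h2, b3, fun r' h' => h.uniq _ _ _ _ h1 h' ▸ b1⟩

/-- an edge is charged at one end only -/
theorem Cap_once (h : Tri d S) {p q : V} (h1 : Chg S p q) : ¬ Chg S q p := by
  rintro ⟨s', r', a1, a2, a3⟩
  obtain ⟨r, s, b1, b2, b3⟩ := h1
  obtain rfl := h.uniq _ _ _ _ a1 b2
  obtain rfl := h.uniq _ _ _ _ a2 b1
  have := (h.opp_eq b1 b2).2
  omega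

/-- a charged edge at an odd boundary point: both opposite vertices are its boundary neighbours
(heights over the side add up to `m * height ≤ 0`) -/
theorem cap_bd (hd : d % 2 = 0) (h : Tri d S) (hC : Ch d S C) (hK : Cl S C K) {v : V}
    (hv : ¬ Ins d v) (ho : ¬ Ev v) :
    (chgAt S C K v).card ≤ 1 ∧ dblAt S C K v = ∅ ∧
      ((chgAt S C K v).Nonempty → Ev (nxt d v) ∧ ¬ Ins d (nxt d v) ∧
        ∃ a b, (nxt d v, a, b) ∈ K) := by
  classical
  refine ⟨card_le_one.2 ?_, eq_empty_of_forall_notMem ?_, ?_⟩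
  · rintro ⟨a, y, r⟩ ht ⟨a', y', r'⟩ ht'
    simp only [chgAt, mem_filter] at ht ht'
    obtain ⟨k1, rfl, -, -, c1⟩ := ht
    obtain ⟨k2, rfl, -, -, c2⟩ := ht'
    obtain rfl := h.uniq _ _ _ _ (h.rot _ _ _ (Cap_chg h hv c1).1) (h.rot _ _ _ (Cap_chg h hv c2).1)
    rw [h.uniq _ _ _ _ (hK.sub k1) (hK.sub k2)]
  · rintro ⟨a, y, r⟩ ht
    simp only [dblAt, mem_filter] at ht
    obtain ⟨k1, rfl, -, -, -, -, c1, r', s', c2, c3, -⟩ := ht
    exact h.not_bd c3 c2 ((Cap_chg h hv c1).2.2 r (hK.sub k1))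
  · rintro ⟨⟨a, y, r⟩, ht⟩
    simp only [chgAt, mem_filter] at ht
    obtain ⟨k1, rfl, -, hc, c1⟩ := ht
    obtain ⟨a1, a2, -⟩ := Cap_chg h hv c1
    exact ⟨(Cap_ev hd ho a2).1, (Cap_ev hd ho a2).2, _, _, hK.rot2 (hK.cl _ _ _ _ k1 a1 hc)⟩

theorem nxt_inj {v v' : V} (hv : InT d v) (hv' : InT d v') (h1 : ¬ Ins d v) (h2 : ¬ Ins d v')
    (h : nxt d v = nxt d v') : v = v' := by
  obtain ⟨v1, v2⟩ := v
  obtain ⟨w1, w2⟩ := v'
  unfold nxt at h
  simp only [InT, Ins] at hv hv' h1 h2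
  split_ifs at h <;> simp only [Prod.mk.injEq, not_and, not_lt] at * <;> omega

/-- an odd triangle is double at one corner at most (`opp_eq`: an edge is charged at one end
only) -/
theorem dbl_once (h : Tri d S) (hK : K ⊆ S) {p q r : V} (h1 : (p, q, r) ∈ dblAt S C K p) :
    (q, r, p) ∉ dblAt S C K q ∧ (r, p, q) ∉ dblAt S C K r := by
  classical
  simp only [dblAt, mem_filter] at h1 ⊢
  obtain ⟨-, -, -, -, -, -, c1, c2⟩ := h1
  exact ⟨fun h' => Cap_once h c1 h'.2.2.2.2.2.2.2, fun h' => Cap_once h c2 h'.2.2.2.2.2.2.1⟩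

end Pool.Agent.TC

end

section

/-! A tight zone has no odd triangle. -/

open Finset

namespace Pool.Agent.TC

variable {d : ℤ} {S K : Finset Tr} {C : Finset (V × V)}

theorem Tighta_mem {v p q r : V} : (p, q, r) ∈ dblAt S C K v ↔ (p, q, r) ∈ K ∧ p = v ∧ ¬ Ev q ∧
    ¬ Ev r ∧ (v, q) ∉ C ∧ (v, r) ∉ C ∧ Chg S v q ∧ Chg S v r := by
  simp only [dblAt, mem_filter]

theorem Tighta_alg {A B X Y ξ : V} {m₁ m₂ : ℤ} (hX : X + B = m₁ • A)
    (hY : A + Y = m₂ • B) (h1 : m₁ ≤ 0) (h2 : m₂ ≤ 0) (hc : Cone A B (-ξ)) (c1 : ¬ Cone X A ξ)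
    (c2 : ¬ Cone B Y ξ) (hg : det X ξ ≠ 0) : m₁ = 0 ∨ m₂ = 0 := by
  have e1 : det X ξ = m₁ * det A ξ - det B ξ := by
    rw [eq_sub_of_add_eq hX]
    simp only [det, Prod.fst_sub, Prod.snd_sub, Prod.smul_fst, Prod.smul_snd, smul_eq_mul]
    ring
  have e2 : det ξ Y = det A ξ - m₂ * det B ξ := by
    rw [eq_sub_of_add_eq' hY]
    simp only [det, Prod.fst_sub, Prod.snd_sub, Prod.smul_fst, Prod.smul_snd, smul_eq_mul]
    ring
  have e3 : det A (-ξ) = -det A ξ := by
    simp only [det, Prod.fst_neg, Prod.snd_neg]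
    ring
  have e4 : det (-ξ) B = det B ξ := by
    simp only [det, Prod.fst_neg, Prod.snd_neg]
    ring
  have e5 : det ξ A = -det A ξ := by
    simp only [det]
    ring
  simp only [Cone, e1, e2, e3, e4, e5, not_and] at hc c1 c2 hg
  obtain ⟨p1, p2⟩ := hc
  by_contra hn
  have k1 : m₁ ≤ -1 := by omega
  have k2 : m₂ ≤ -1 := by omega
  have a1 : m₁ * det A ξ - det B ξ < 0 :=
    lt_of_le_of_ne (not_lt.1 fun h => c1 h p1) hg
  have a2 := not_lt.1 (c2 p2)
  nlinarith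

/-- chord-free interior points have no double corner: choose a generic `ξ` just beyond an edge of
the double corner, so that it is not a middle corner; `cap_gen`, `mid_le_two` -/
theorem Tight0.free_dbl (h : St d C S K) (ht : Tight0 d C S K) {w : V} (hw : Ins d w)
    (ho : ¬ Ev w) (hc : ∀ z, (w, z) ∉ C) : dblAt S C K w = ∅ := by
  refine eq_empty_of_forall_notMem fun t h1 => ?_
  obtain ⟨p, a, b⟩ := t
  obtain ⟨hK, rfl, -⟩ := Tighta_mem.1 h1
  have hS := h.cl.sub hK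
  have hu := h.tri.uni _ _ _ hS
  have e1 : det (a - p) (-(b - p)) = -1 := by
    simp only [det, Prod.fst_neg, Prod.snd_neg] at hu ⊢
    linarith
  obtain ⟨ξ, hg, hξ⟩ := exists_gen d (x := a - p) (y := -(b - p)) (by rw [e1]; norm_num)
  have k1 : det (a - p) ξ < 0 :=
    ((hξ _ ((h.tri.inT _ _ _ hS).bnd (h.tri.inT2 hS))).2.2
      (by simp only [det]; ring)).2 (by rw [e1]; norm_num)
  have k2 : det (b - p) ξ < 0 :=
    (hξ _ ((h.tri.inT _ _ _ hS).bnd (h.tri.inT3 hS))).2.1 (by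
      simp only [det] at hu ⊢
      linarith)
  have hm : ¬ Mid ξ (p, a, b) := by
    rintro (⟨c, -⟩ | ⟨-, c⟩)
    · exact absurd c (not_lt.2 k1.le)
    · simp only [det, Prod.fst_neg, Prod.snd_neg] at c k2
      linarith
  have c1 := cap_gen h.tri h.ch h.cl (v := p) hg
  have c2 := mid_le_two h.tri h.cl.sub p ξ
  have c3 := ht.free p a b hK hw ho hc
  have c4 : ((dblAt S C K p).filter (Mid ξ)).card < (dblAt S C K p).card :=
    card_lt_card (filter_ssubset.2 ⟨_, h1, hm⟩)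
  omega

/-- Descent step. Let `(q,a,b)` be double at `q`; `q` is interior (`cap_bd`) with chords
(`free_dbl`, `touch`). Take `ξ` generic in a corner outside `K`. Tightness and `cap_gen` force
every double corner at `q` to be the unique middle corner in `K`, so it contains `-ξ` and is the
only double corner. With `A = a - q`, `B = b - q`, the next neighbours `m₁ A - B`, `m₂ B - A`
(`m ≤ 0`) span corners of `K` that are not middle, so `m₁ m₂ = 0`. If `m₁ = 0` the triangle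
`(q, q - B, a)` is odd, not double at `q` or `a`, hence double at `q - B`, namely the corner
`(q - B, a, q)`; symmetrically for `m₂ = 0`. -/
theorem Tight0.step (hd : d % 2 = 0) (h : St d C S K) (ht : Tight0 d C S K) {q a b : V}
    (ho : ¬ Ev q) (h1 : (q, a, b) ∈ dblAt S C K q) :
    (¬ Ev (q - (b - q)) ∧ (q - (b - q), a, q) ∈ dblAt S C K (q - (b - q))) ∨
      (¬ Ev (q - (a - q)) ∧ (q - (a - q), q, b) ∈ dblAt S C K (q - (a - q))) := by
  obtain ⟨hK, -, oa, ob, ca, cb, ⟨r, s, r1, s1, m1⟩, r', s', r2, s2, m2⟩ := Tighta_mem.1 h1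
  have hS := h.cl.sub hK
  obtain rfl : b = r := h.tri.uniq _ _ _ _ hS r1
  obtain rfl : a = s' := h.tri.uniq _ _ _ _ (h.tri.rot2 hS) s2
  have hq : Ins d q := by
    by_contra hq
    rw [(cap_bd hd h.tri h.ch h.cl hq ho).2.1] at h1
    exact notMem_empty _ h1
  obtain ⟨z, hz⟩ : ∃ z, (q, z) ∈ C := by
    by_contra hz
    rw [ht.free_dbl h hq ho fun z hz' => hz ⟨z, hz'⟩] at h1
    exact notMem_empty _ h1
  obtain ⟨⟨z', r₀, z1, z2⟩, -⟩ := h.touch hq hz hK
  have c3 := ht.apex q z' r₀ z1 z2 hq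
  obtain ⟨a', b', o1, o2⟩ := h.notAll hz
  obtain ⟨ξ, hg, hξ⟩ := h.tri.exists_gen_cone o1
  have c1 := cap_gen h.tri h.ch h.cl (v := q) hg
  have c2 := mid_le_one h.tri h.cl.sub o1 o2 hξ
  have c4 : (dblAt S C K q).filter (Mid ξ) = dblAt S C K q :=
    eq_of_subset_of_card_le (filter_subset _ _) (by omega)
  have hm : ∀ t ∈ dblAt S C K q, Mid ξ t := fun t ht => by
    rw [← c4] at ht
    exact (mem_filter.1 ht).2
  have hu := h.tri.uni _ _ _ hS
  have hab : a ≠ b := by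
    rintro rfl
    simp only [det] at hu
    linarith
  have one : ∀ x y, (q, x, y) ∈ K → Mid ξ (q, x, y) → x = a ∧ y = b := fun x y hx hx' => by
    have := card_le_one.1 c2 (q, x, y) (mem_filter.2 ⟨hx, rfl, hx'⟩) (q, a, b)
      (mem_filter.2 ⟨hK, rfl, hm _ h1⟩)
    simpa using this
  have K1 : (a, q, s) ∈ K := h.cl.cl _ _ _ _ hK s1 ca
  have K2 : (q, b, r') ∈ K :=
    h.cl.cl _ _ _ _ (h.cl.rot2 hK) r2 fun hc => cb (h.ch.symm _ _ hc)
  have n1 : ¬ Mid ξ (q, s, a) := fun hx => hab (one _ _ (h.cl.rot _ _ _ K1) hx).2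
  have n2 : ¬ Mid ξ (q, b, r') := fun hx => hab (one _ _ K2 hx).1.symm
  have hc : Cone (a - q) (b - q) (-ξ) := by
    refine (hm _ h1).resolve_left fun hc => o2 ?_
    obtain ⟨rfl, rfl⟩ := h.tri.corner_unique hS o1 hc hξ
    exact hK
  obtain ⟨e1, f1⟩ := h.tri.opp_eq hS s1
  obtain ⟨e2, f2⟩ := h.tri.opp_eq r2 s2
  have S1 := h.tri.rot _ _ _ s1
  have hs0 : s - q ≠ 0 := fun h0 => by
    have := h.tri.uni _ _ _ S1
    rw [h0] at this
    simp [det] at this
  rcases Tighta_alg e1 e2 m1 m2 hc (fun c => n1 (Or.inl c)) (fun c => n2 (Or.inl c))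
    (hg _ hs0 ((h.tri.inT _ _ _ S1).bnd (h.tri.inT2 S1))) with k | k
  · rw [k, zero_smul] at e1
    obtain rfl : s = q - (b - q) := by
      rw [← sub_eq_zero, ← e1]
      abel
    have os : ¬ Ev (q - (b - q)) := fun he => ob (by
      simp only [Ev, Prod.fst_sub, Prod.snd_sub] at he ⊢
      omega)
    refine Or.inl ⟨os, ?_⟩
    rcases ht.mid _ _ _ (h.cl.rot _ _ _ K1) ho os oa with g | g | g
    · exact absurd (hm _ g) n1
    · exact g
    · obtain ⟨-, -, -, -, -, -, ⟨x, y, x1, y1, g1⟩, -⟩ := Tighta_mem.1 g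
      rw [← h.tri.uniq _ _ _ _ s1 x1, ← h.tri.uniq _ _ _ _ hS y1] at g1
      omega
  · rw [k, zero_smul] at e2
    obtain rfl : r' = q - (a - q) := by
      rw [← sub_eq_zero, ← e2]
      abel
    have os : ¬ Ev (q - (a - q)) := fun he => oa (by
      simp only [Ev, Prod.fst_sub, Prod.snd_sub] at he ⊢
      omega)
    refine Or.inr ⟨os, ?_⟩
    rcases ht.mid _ _ _ K2 ho ob os with g | g | g
    · exact absurd (hm _ g) n2
    · obtain ⟨-, -, -, -, -, -, -, x, y, x1, y1, g1⟩ := Tighta_mem.1 g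
      rw [← h.tri.uniq _ _ _ _ s2 x1, ← h.tri.uniq _ _ _ _ r2 y1] at g1
      omega
    · exact g

end Pool.Agent.TC

end

section

/-! A tight zone has no odd triangle. -/

open Finset

namespace Pool.Agent.TC

variable {d : ℤ} {S K : Finset Tr} {C : Finset (V × V)}

private theorem Tight_mem_dbl {v : V} {t : Tr} : t ∈ dblAt S C K v ↔ t ∈ K ∧ t.1 = v ∧
    ¬ Ev t.2.1 ∧ ¬ Ev t.2.2 ∧ (v, t.2.1) ∉ C ∧ (v, t.2.2) ∉ C ∧ Chg S v t.2.1 ∧
      Chg S v t.2.2 := by
  exact @mem_filter _ _ (_) _ _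

private theorem Tight_mem_chg {v : V} {t : Tr} : t ∈ chgAt S C K v ↔ t ∈ K ∧ t.1 = v ∧
    ¬ Ev t.2.1 ∧ (v, t.2.1) ∉ C ∧ Chg S v t.2.1 := by
  exact @mem_filter _ _ (_) _ _

private theorem Tight_nodbl (hd : d % 2 = 0) (h : St d C S K) (ht : Tight0 d C S K) {q₀ : V}
    (ho : ¬ Ev q₀) : dblAt S C K q₀ = ∅ := by
  classical
  refine eq_empty_of_forall_notMem fun t₀ h₀ => ?_
  obtain ⟨q, a₀, b₀⟩ := t₀
  obtain rfl : q = q₀ := (Tight_mem_dbl.1 h₀).2.1
  have hK₀ := (Tight_mem_dbl.1 h₀).1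
  have hu := h.tri.uni _ _ _ (h.cl.sub hK₀)
  let l : V → ℤ := fun u => det u (b₀ - q) + det (a₀ - q) u
  have hl : ∀ u v, l (u - v) = l u - l v := fun u v => by
    simp only [l, det, Prod.fst_sub, Prod.snd_sub]; ring
  let F := K.filter fun t => ¬ Ev t.1 ∧ t ∈ dblAt S C K t.1 ∧ 1 ≤ l (t.2.1 - t.1) ∧
    1 ≤ l (t.2.2 - t.1)
  have hne : F.Nonempty := by
    refine ⟨(q, a₀, b₀), mem_filter.2 ⟨hK₀, ho, h₀, ?_, ?_⟩⟩
    · simp only [l, det, Prod.fst_sub, Prod.snd_sub] at hu ⊢; linarith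
    · simp only [l, det, Prod.fst_sub, Prod.snd_sub] at hu ⊢; linarith
  obtain ⟨⟨p, a, b⟩, hm, hmin⟩ := exists_min_image F (fun t => l t.1) hne
  obtain ⟨-, hp, hdb, h1, h2⟩ := mem_filter.1 hm
  simp only [hl] at h1 h2
  rcases ht.step hd h hp hdb with ⟨e, hs⟩ | ⟨e, hs⟩
  · have := hmin (p - (b - p), a, p) (mem_filter.2 ⟨(Tight_mem_dbl.1 hs).1, e, hs, by
      simp only [hl]; omega, by simp only [hl]; omega⟩)
    simp only [hl] at this; omega
  · have := hmin (p - (a - p), p, b) (mem_filter.2 ⟨(Tight_mem_dbl.1 hs).1, e, hs, by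
      simp only [hl]; omega, by simp only [hl]; omega⟩)
    simp only [hl] at this; omega

/-- Plan: with `λ u = det u B₀ + det A₀ u` (value `1` on `A₀`, `B₀`), for all `n` there is a
double corner `(q,a,b)` with `λ (a - q), λ (b - q) ≥ 1` and `λ q ≤ λ q₀ - n`; `T` is bounded.
Then `apex` is immediate; for `free` take `ξ` in a corner next to an uncharged odd-odd edge: the
two charged edges need two different middle corners among their own four corners (a triangle
with an even vertex has one odd-odd edge only). -/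
theorem Tight0.tight (hd : d % 2 = 0) (h : St d C S K) (ht : Tight0 d C S K) :
    Tight d C S K := by
  have hno : ∀ p q r, (p, q, r) ∈ K → Ev p ∨ Ev q ∨ Ev r := by
    intro p q r hK
    by_contra hc
    simp only [not_or] at hc
    obtain ⟨hp, hq, hr⟩ := hc
    have := ht.mid p q r hK hp hq hr
    rw [Tight_nodbl hd h ht hp, Tight_nodbl hd h ht hq, Tight_nodbl hd h ht hr] at this
    simp at this
  refine ⟨hno, fun v z r hK hC hv => ?_, fun w y r hK hw ho hc hy => ?_⟩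
  · rw [ht.apex v z r hK hC hv, Tight_nodbl hd h ht (h.ch.odd _ _ hC)]; rfl
  by_contra hn
  have hcard := ht.free w y r hK hw ho hc
  rw [Tight_nodbl hd h ht ho, card_empty, add_zero] at hcard
  obtain ⟨ξ, hg, hξ⟩ := h.tri.exists_gen_cone (h.cl.sub hK)
  have hev : ∀ a b, (w, a, b) ∈ K → ¬ Ev a → Ev b := fun a b hab ha =>
    ((hno _ _ _ hab).resolve_left ho).resolve_left ha
  have key : ∀ t ∈ chgAt S C K w, ∃ m ∈ K.filter fun t => t.1 = w ∧ Mid ξ t,
      m = t ∨ m.2.2 = t.2.1 := by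
    rintro ⟨v, a, b⟩ hm
    obtain ⟨h1, rfl, -, -, r', s, h2, h3, h4⟩ := Tight_mem_chg.1 hm
    obtain rfl : b = r' := h.tri.uniq _ _ _ _ (h.cl.sub h1) h2
    rcases h.tri.mid_of_chg hg h2 h3 h4 with h5 | h5
    · exact ⟨_, mem_filter.2 ⟨h1, rfl, h5⟩, .inl rfl⟩
    · exact ⟨_, mem_filter.2 ⟨h.cl.fan h.tri h.ch.symm hc h1 (h.tri.rot _ _ _ h3), rfl, h5⟩,
        .inr rfl⟩
  obtain ⟨⟨v₁, a₁, b₁⟩, ⟨v₂, a₂, b₂⟩, hne, he⟩ := card_eq_two.1 hcard
  have m₁ : (v₁, a₁, b₁) ∈ chgAt S C K w := by rw [he]; simp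
  have m₂ : (v₂, a₂, b₂) ∈ chgAt S C K w := by rw [he]; simp
  obtain ⟨t₁, k₁, e₁⟩ := key _ m₁
  obtain ⟨t₂, k₂, e₂⟩ := key _ m₂
  obtain ⟨g₁, rfl, o₁, -, c₁⟩ := Tight_mem_chg.1 m₁
  obtain ⟨g₂, hv₂, o₂, -, c₂⟩ := Tight_mem_chg.1 m₂
  obtain rfl : v₂ = v₁ := hv₂
  have k₀ : (v₂, y, r) ∈ K.filter fun t => t.1 = v₂ ∧ Mid ξ t :=
    mem_filter.2 ⟨hK, rfl, .inl hξ⟩
  have er := hev _ _ hK hy
  have eb₁ := hev _ _ g₁ o₁
  have eb₂ := hev _ _ g₂ o₂
  have n01 : (v₂, y, r) ≠ t₁ := by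
    rintro rfl
    rcases e₁ with e | e
    · obtain ⟨rfl, -⟩ := Prod.mk.inj (Prod.mk.inj e).2; exact hn c₁
    · obtain rfl : r = a₁ := e; exact o₁ er
  have n02 : (v₂, y, r) ≠ t₂ := by
    rintro rfl
    rcases e₂ with e | e
    · obtain ⟨rfl, -⟩ := Prod.mk.inj (Prod.mk.inj e).2; exact hn c₂
    · obtain rfl : r = a₂ := e; exact o₂ er
  have n12 : t₁ ≠ t₂ := by
    rintro rfl
    rcases e₁ with e | e <;> rcases e₂ with e' | e'
    · exact hne (e.symm.trans e')
    · subst e; obtain rfl : b₁ = a₂ := e'; exact o₂ eb₁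
    · subst e'; obtain rfl : b₂ = a₁ := e; exact o₁ eb₂
    · obtain rfl : a₁ = a₂ := e.symm.trans e'
      exact hne (by rw [h.tri.uniq _ _ _ _ (h.cl.sub g₁) (h.cl.sub g₂)])
  have := two_lt_card_iff.2 ⟨_, _, _, k₀, k₁, k₂, n01, n02, n12⟩
  have := mid_le_two h.tri h.cl.sub v₂ ξ
  omega

end Pool.Agent.TC

end
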