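import Pool.Agent.MP_e73476_ag.T.Cochain
import Pool.Agent.MP_e73476_ag.T.Zones

section

/-! Planarity: a zone has at most one outer and one inner wall at each corner of `T`. -/

open Finset

namespace Pool.Agent.TC

variable {d : ℤ} {S K : Finset Tr} {C : Finset (V × V)}

/-- `p` can carry a wall around the corner `s`: it is on the boundary, or has a chord to the
earlier side `s + 1` -/
def Wl (d : ℤ) (C : Finset (V × V)) (s : Fin 3) (p : V) : Prop :=
  ¬ Ins d p ∨ ∃ z, (p, z) ∈ C ∧ co d (s + 1) z = 0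

theorem Psia_sum (d : ℤ) (s : Fin 3) (p : V) : co d s p + co d (s + 1) p + co d (s + 2) p = d := by
  fin_cases s <;> simp [co] <;> ring

theorem Psia_inT {p : V} (hp : InT d p) (s : Fin 3) : 0 ≤ co d s p := by
  unfold InT at hp
  fin_cases s <;> simp [co] <;> omega

theorem Psia_ins {p : V} (hp : Ins d p) (s : Fin 3) : 0 < co d s p := by
  unfold Ins at hp
  fin_cases s <;> simp [co] <;> omega

theorem Psia_ev (hd : d % 2 = 0) {p : V} (s : Fin 3) (h1 : co d s p = 0)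
    (h2 : co d (s + 1) p = 0) : Ev p := by
  unfold Ev
  fin_cases s <;> simp [co] at h1 h2 <;> omega

theorem Psia_ext {u v : V} (t : Fin 3) (h1 : co d t u = co d t v)
    (h2 : co d (t + 2) u = co d (t + 2) v) : u = v := by
  fin_cases t <;> simp [co] at h1 h2 <;> ext <;> omega

theorem Psia_bd {u v : V} (t : Fin 3) (h1 : co d t u = 0) (h2 : co d t v = 0)
    (h3 : co d (t + 2) v = co d (t + 2) u + 1) :
    BdU d u v ∧ ∀ w, det (v - u) (w - u) = co d t w := by
  obtain ⟨u1, u2⟩ := u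
  obtain ⟨v1, v2⟩ := v
  fin_cases t
  · simp [co] at h1 h2 h3
    subst h1 h2 h3
    exact ⟨Or.inl ⟨rfl, rfl⟩, fun w => by simp [det, co]⟩
  · simp [co] at h1 h2 h3
    obtain rfl : v1 = u1 - 1 := by omega
    obtain rfl : d = u1 + u2 := by omega
    subst h3
    exact ⟨Or.inr (Or.inl ⟨rfl, rfl⟩), fun w => by simp [det, co]; ring⟩
  · simp [co] at h1 h2 h3
    obtain rfl : v2 = u2 - 1 := by omega
    subst h1 h2
    exact ⟨Or.inr (Or.inr ⟨rfl, rfl⟩), fun w => by simp [det, co]⟩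

theorem Psia_pt (t : Fin 3) {k : ℤ} (h0 : 0 ≤ k) (h1 : k ≤ d) :
    ∃ u, InT d u ∧ co d t u = 0 ∧ co d (t + 2) u = k := by
  fin_cases t
  · exact ⟨(k, 0), ⟨h0, le_rfl, by simpa using h1⟩, by simp [co], by simp [co]⟩
  · exact ⟨(d - k, k), ⟨by simpa using h1, h0, by simp⟩, by simp [co], by simp [co]⟩
  · exact ⟨(0, d - k), ⟨le_rfl, by simpa using h1, by simpa using h0⟩, by simp [co], by simp [co]⟩

/-- three vectors in the half plane over the side `t` -/
theorem Psia_half (t : Fin 3) {z p a b : V} (hz : co d t z = 0) (hp : 0 < co d t p)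
    (ha : 0 ≤ co d t a) (hb : 0 ≤ co d t b) (h1 : det (a - z) (b - z) = 1)
    (h2 : 0 ≤ det (p - z) (a - z)) : 0 < det (p - z) (b - z) := by
  have key : co d t a * det (p - z) (b - z) =
      co d t p * det (a - z) (b - z) + co d t b * det (p - z) (a - z) := by
    fin_cases t <;> simp [co, det] at hz ⊢
    · rw [hz]; ring
    · obtain rfl : d = z.1 + z.2 := by omega
      ring
    · rw [hz]; ring
  rw [h1] at key
  by_contra hn
  nlinarith [mul_nonneg hb h2, mul_nonneg ha (neg_nonneg.2 (not_lt.1 hn))]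

theorem Psia_fwd (h : Tri d S) {I : Tr → ZMod 2} (hI : RotInv S I) (t : Fin 3) {k : ℤ}
    (hk : 0 ≤ k) {c : ZMod 2}
    (hg : ∀ v a b a' b', (v, a, b) ∈ S → (v, a', b') ∈ S → co d t v = 0 → k < co d (t + 2) v →
      I (v, a, b) = I (v, a', b'))
    (hb : ∀ u v r, (u, v, r) ∈ S → co d t u = 0 → co d (t + 2) u = k →
      (∀ w, det (v - u) (w - u) = co d t w) → I (u, v, r) = c)
    {v a b : V} (hv : (v, a, b) ∈ S) (h1 : co d t v = 0) (h2 : k < co d (t + 2) v) :
    I (v, a, b) = c := by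
  obtain ⟨n, hn⟩ : ∃ n : ℕ, co d (t + 2) v = k + 1 + n := ⟨(co d (t + 2) v - k - 1).toNat, by omega⟩
  induction n generalizing v a b with
  | zero =>
    have := Psia_sum d t v
    have := Psia_inT (h.inT _ _ _ hv) (t + 1)
    obtain ⟨u, u1, u2, u3⟩ := Psia_pt (d := d) t hk (by omega)
    obtain ⟨b1, b2⟩ := Psia_bd t u2 h1 (by omega)
    obtain ⟨r, hr⟩ := h.bd_exists u1 (h.inT _ _ _ hv) b1
    rw [hg _ _ _ _ _ hv (h.rot _ _ _ hr) h1 h2, hI _ _ _ hr]
    exact hb _ _ _ hr u2 u3 b2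
  | succ n ih =>
    have := Psia_sum d t v
    have := Psia_inT (h.inT _ _ _ hv) (t + 1)
    obtain ⟨u, u1, u2, u3⟩ := Psia_pt (d := d) t (k := k + 1 + n) (by omega) (by omega)
    obtain ⟨b1, -⟩ := Psia_bd t u2 h1 (by omega)
    obtain ⟨r, hr⟩ := h.bd_exists u1 (h.inT _ _ _ hv) b1
    rw [hg _ _ _ _ _ hv (h.rot _ _ _ hr) h1 h2, hI _ _ _ hr]
    exact ih hr u2 (by omega) u3

theorem Psia_bwd (h : Tri d S) {I : Tr → ZMod 2} (hI : RotInv S I) (t : Fin 3) {k : ℤ}
    (hk : k ≤ d) {c : ZMod 2}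
    (hg : ∀ v a b a' b', (v, a, b) ∈ S → (v, a', b') ∈ S → co d t v = 0 → co d (t + 2) v < k →
      I (v, a, b) = I (v, a', b'))
    (hb : ∀ v u r, (v, u, r) ∈ S → co d t u = 0 → co d (t + 2) u = k →
      (∀ w, det (u - v) (w - v) = co d t w) → co d t v = 0 → I (u, r, v) = c)
    {v a b : V} (hv : (v, a, b) ∈ S) (h1 : co d t v = 0) (h2 : co d (t + 2) v < k) :
    I (v, a, b) = c := by
  obtain ⟨n, hn⟩ : ∃ n : ℕ, co d (t + 2) v = k - 1 - n := ⟨(k - 1 - co d (t + 2) v).toNat, by omega⟩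
  induction n generalizing v a b with
  | zero =>
    have := Psia_inT (h.inT _ _ _ hv) (t + 2)
    obtain ⟨u, u1, u2, u3⟩ := Psia_pt (d := d) t (k := k) (by omega) hk
    obtain ⟨b1, b2⟩ := Psia_bd t h1 u2 (by omega)
    obtain ⟨r, hr⟩ := h.bd_exists (h.inT _ _ _ hv) u1 b1
    rw [hg _ _ _ _ _ hv hr h1 h2, ← hI _ _ _ hr]
    exact hb _ _ _ hr u2 u3 b2 h1
  | succ n ih =>
    have := Psia_inT (h.inT _ _ _ hv) (t + 2)
    obtain ⟨u, u1, u2, u3⟩ := Psia_pt (d := d) t (k := k - 1 - n) (by omega) (by omega)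
    obtain ⟨b1, -⟩ := Psia_bd t h1 u2 (by omega)
    obtain ⟨r, hr⟩ := h.bd_exists (h.inT _ _ _ hv) u1 b1
    rw [hg _ _ _ _ _ hv hr h1 h2, ← hI _ _ _ hr]
    exact ih (h.rot _ _ _ hr) u2 (by omega) u3

/-- the wall with its second foot `q` -/
theorem Psia_wall (h : Tri d S) (hC : Ch d S C) {s : Fin 3} {p z : V}
    (hc : (p, z) ∈ C) (ho : Out d s p z) (hw : Wl d C s p) :
    ∃ (I : Tr → ZMod 2) (q : V), RotInv S I ∧ co d (s + 1) q = 0 ∧ ¬ Ev q ∧
      ∀ a b r r', (a, b, r) ∈ S → (b, a, r') ∈ S →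
        (((a, b) ∉ C ∨ (a ≠ p ∧ a ≠ z ∧ a ≠ q) ∨ (a = z ∧ b ≠ p)) → I (a, b, r) = I (b, a, r')) ∧
        (a = z → b = p → I (a, b, r) + I (b, a, r') = 1) := by
  have e : ∀ x y : ZMod 2, x + y = 0 → x = y := by decide
  have hz : ¬ Ins d z := fun hi => (Psia_ins hi (s + 2)).ne' ho.2.1
  have hc' := hC.symm _ _ hc
  by_cases hp : Ins d p
  · obtain ⟨q, hq, hq0⟩ := hw.resolve_left (not_not.2 hp)
    have hq' := hC.symm _ _ hq
    have hne : z ≠ q := fun h' => ho.2.2.ne' (h' ▸ hq0)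
    have hzp : z ≠ p := fun h' => hz (h' ▸ hp)
    obtain ⟨I, h1, h2⟩ := h.wall_star hC hc hq hne hp
    refine ⟨I, q, h1, hq0, hC.odd _ _ hq', fun a b r r' ha hb => ⟨fun hab => e _ _ ?_, ?_⟩⟩
    · rw [h2 _ _ _ _ ha hb, if_neg]
      rintro (⟨rfl, rfl | rfl⟩ | ⟨rfl, rfl | rfl⟩) <;> simp_all
    · rintro rfl rfl
      rw [h2 _ _ _ _ ha hb, if_pos (Or.inr ⟨rfl, Or.inl rfl⟩)]
  · have hq0 := (ho.1.resolve_left fun h' => hp h'.1).1
    have hzp : z ≠ p := fun h' => ho.2.2.ne' (h' ▸ hq0)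
    obtain ⟨I, h1, h2⟩ := h.wall_cut hp hz
    refine ⟨I, p, h1, hq0, hC.odd _ _ hc, fun a b r r' ha hb => ⟨fun hab => e _ _ ?_, ?_⟩⟩
    · rw [h2 _ _ _ _ ha hb, if_neg]
      rintro (⟨rfl, rfl⟩ | ⟨rfl, rfl⟩) <;> simp_all
    · rintro rfl rfl
      rw [h2 _ _ _ _ ha hb, if_pos (Or.inr ⟨rfl, rfl⟩)]

/-- the wall through the chord `(p, z)` -/
theorem wall_fun (hd : d % 2 = 0) (h : Tri d S) (hC : Ch d S C) {s : Fin 3} {p z : V}
    (hc : (p, z) ∈ C) (ho : Out d s p z) (hw : Wl d C s p) :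
    ∃ I : Tr → ZMod 2, RotInv S I ∧
      (∀ a b r r', (a, b, r) ∈ S → (b, a, r') ∈ S → (a, b) ∉ C → I (a, b, r) = I (b, a, r')) ∧
      (∀ v a b a' b', (v, a, b) ∈ S → (v, a', b') ∈ S → Ins d v → v ≠ p →
        I (v, a, b) = I (v, a', b')) ∧
      (∀ v a b, (v, a, b) ∈ S → co d (s + 2) v = 0 → co d (s + 1) v < co d (s + 1) z →
        I (v, a, b) = 1) ∧
      (∀ v a b, (v, a, b) ∈ S → co d (s + 2) v = 0 → co d (s + 1) z < co d (s + 1) v →
        I (v, a, b) = 0) ∧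
      (∀ v a b, (v, a, b) ∈ S → co d s v = 0 → I (v, a, b) = 0) ∧
      (∀ a b, (z, a, b) ∈ S → 0 ≤ det (p - z) (a - z) → I (z, a, b) = 1) ∧
      (∀ a b, (z, a, b) ∈ S → 0 ≤ det (b - z) (p - z) → I (z, a, b) = 0) := by
  obtain ⟨I, q, hI, hq0, hqo, hj⟩ := Psia_wall h hC hc ho hw
  have e1 : s + 2 + 1 = s := by fin_cases s <;> rfl
  have e2 : s + 2 + 2 = s + 1 := by fin_cases s <;> rfl
  have e3 : s + 1 + 1 = s + 2 := by fin_cases s <;> rfl
  have hc' := hC.symm _ _ hc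
  obtain ⟨r1, hr1⟩ := hC.dart _ _ hc'
  have hE : Edge S z p := Or.inl ⟨r1, hr1⟩
  have hz0 : co d (s + 2) z = 0 := ho.2.1
  have hz1 : co d s z ≠ 0 := fun h0 => hC.odd _ _ hc' (Psia_ev hd (s + 2) hz0 (e1.symm ▸ h0))
  have hzs : 0 ≤ co d s z := Psia_inT (h.inT _ _ _ hr1) s
  have hq1 : co d s q ≠ 0 := fun h0 => hqo (Psia_ev hd s h0 hq0)
  have hq2 : co d (s + 2) q ≠ 0 := fun h0 => hqo (Psia_ev hd (s + 1) hq0 (e3.symm ▸ h0))
  have hp1 : 0 < co d s p := ho.1.elim (fun h' => Psia_ins h'.1 s) fun h' => h'.2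
  have hp2 : 0 < co d (s + 2) p := by
    rcases ho.1 with h' | h'
    · exact Psia_ins h'.1 _
    · exact (Psia_inT (h.inT2 hr1) _).lt_of_ne' fun h0 =>
        hC.odd _ _ hc (Psia_ev hd (s + 1) h'.1 (e3.symm ▸ h0))
  have good : ∀ v a b a' b', (v, a, b) ∈ S → (v, a', b') ∈ S → v ≠ p → v ≠ z → v ≠ q →
      I (v, a, b) = I (v, a', b') := fun v a b a' b' h1 h2 n1 n2 n3 =>
    h.fan_conn I (fun x r t hx ht => by
      rw [(hj _ _ _ _ hx (h.rot2 ht)).1 (Or.inr (Or.inl ⟨n1, n2, n3⟩)), hI _ _ _ (h.rot2 ht)])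
      h1 h2
  have half : ∀ a b, (z, a, b) ∈ S → 0 ≤ det (p - z) (a - z) → 0 < det (p - z) (b - z) :=
    fun a b hab h0 => Psia_half (s + 2) hz0 hp2 (Psia_inT (h.inT2 hab) _)
      (Psia_inT (h.inT3 hab) _) (h.uni _ _ _ hab) h0
  have anti : ∀ x y : V, det x y = -det y x := fun x y => by simp [det, mul_comm]
  have atz : ∀ a b, (z, a, b) ∈ S → I (z, a, b) + (if 0 ≤ det (p - z) (a - z) then 1 else 0) =
      I (z, p, r1) + (if 0 ≤ det (p - z) (p - z) then 1 else 0) := fun a b hab =>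
    h.fan_conn (fun t => I t + if 0 ≤ det (p - z) (t.2.1 - z) then 1 else 0) (fun x r t hx ht => by
      have k := hj _ _ _ _ hx (h.rot2 ht)
      have u := h.uni _ _ _ ht
      rw [← hI _ _ _ (h.rot2 ht)] at k
      by_cases hxp : x = p
      · subst hxp
        have k2 := k.2 rfl rfl
        have a1 : 0 ≤ det (x - z) (x - z) := by simp [det, mul_comm]
        have a2 : ¬ 0 ≤ det (x - z) (t - z) := by rw [anti]; omega
        simp only [if_pos a1, if_neg a2]
        revert k2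
        generalize I (z, x, r) = i1
        generalize I (z, t, x) = i2
        revert i1 i2
        decide
      · simp only [k.1 (Or.inr (Or.inr ⟨rfl, hxp⟩))]
        congr 1
        refine if_congr ⟨fun h0 => ?_, fun h0 => (half _ _ ht h0).le⟩ rfl rfl
        by_contra h1
        have h2 : 0 < det (t - z) (p - z) := by rw [anti]; omega
        rcases h0.eq_or_lt with h3 | h3
        · refine hxp (h.edge_eq hE (Or.inl ⟨r, hx⟩) h3.symm ?_).symm
          generalize p - z = P at *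
          generalize x - z = X at *
          generalize t - z = T at *
          simp only [det] at h2 h3 u
          have c1 : P.1 = (T.1 * P.2 - T.2 * P.1) * X.1 := by
            linear_combination (-P.1) * u - T.1 * h3
          have c2 : P.2 = (T.1 * P.2 - T.2 * P.1) * X.2 := by
            linear_combination (-P.2) * u - T.2 * h3
          generalize T.1 * P.2 - T.2 * P.1 = m at *
          have c3 : 0 < X.1 * X.1 + X.2 * X.2 := by
            by_contra c4
            have x1 : X.1 = 0 := by nlinarith [mul_self_nonneg X.1, mul_self_nonneg X.2]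
            have x2 : X.2 = 0 := by nlinarith [mul_self_nonneg X.1, mul_self_nonneg X.2]
            simp [x1, x2] at u
          rw [c1, c2]
          nlinarith [mul_pos h2 c3]
        · exact h.not_cone_edge ht hE ⟨h2, h3⟩) hab hr1
  have a0 : 0 ≤ det (p - z) (p - z) := by simp [det, mul_comm]
  have f : ∀ x y : ZMod 2, (x + 1 = y + 1 → x + (y + 1) = 1) ∧
      (x + 0 = y + 1 → x + (y + 1) = 0) := by decide
  have z1 : ∀ a b, (z, a, b) ∈ S → 0 ≤ det (p - z) (a - z) →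
      I (z, a, b) + (I (z, p, r1) + 1) = 1 := fun a b hab h0 => (f _ _).1 (by
    simpa only [if_pos h0, if_pos a0] using atz a b hab)
  have z0 : ∀ a b, (z, a, b) ∈ S → ¬ 0 ≤ det (p - z) (a - z) →
      I (z, a, b) + (I (z, p, r1) + 1) = 0 := fun a b hab h0 => (f _ _).2 (by
    simpa only [if_neg h0, if_pos a0] using atz a b hab)
  have hJ : RotInv S fun t => I t + (I (z, p, r1) + 1) := fun a b r ha => by
    simp only [hI _ _ _ ha]
  have gs : ∀ v a b a' b', (v, a, b) ∈ S → (v, a', b') ∈ S → co d (s + 2) v = 0 →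
      co d (s + 1) v ≠ co d (s + 1) z →
      I (v, a, b) + (I (z, p, r1) + 1) = I (v, a', b') + (I (z, p, r1) + 1) :=
    fun v a b a' b' h1 h2 h3 h4 => by
      rw [good v a b a' b' h1 h2 (fun e => hp2.ne' (e ▸ h3)) (fun e => h4 (e ▸ rfl))
        fun e => hq2 (e ▸ h3)]
  have sz := Psia_sum d s z
  have out : ∀ v a b, (v, a, b) ∈ S → co d (s + 2) v = 0 → co d (s + 1) z < co d (s + 1) v →
      I (v, a, b) + (I (z, p, r1) + 1) = 0 := fun v a b hv h1 h2 =>
    Psia_fwd h hJ (s + 2) (k := co d (s + 1) z) ho.2.2.le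
      (fun v a b a' b' k1 k2 k3 k4 => gs v a b a' b' k1 k2 k3 (by rw [e2] at k4; omega))
      (fun u v r k1 k2 k3 k4 => by
        obtain rfl : u = z := Psia_ext (s + 2) (k2.trans hz0.symm) (by rw [k3, e2])
        refine z0 _ _ k1 ?_
        rw [anti, k4]
        omega) hv h1 (e2.symm ▸ h2)
  refine ⟨fun t => I t + (I (z, p, r1) + 1), hJ, fun a b r r' h1 h2 h3 => ?_,
    fun v a b a' b' h1 h2 h3 h4 => ?_, fun v a b hv h1 h2 => ?_, out, fun v a b hv h1 => ?_, z1,
    fun a b hab h0 => z0 a b hab fun h1 => ?_⟩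
  · simp only [(hj _ _ _ _ h1 h2).1 (Or.inl h3)]
  · simp only [good v a b a' b' h1 h2 h4 (fun e => (Psia_ins h3 (s + 2)).ne' (e ▸ hz0))
      fun e => (Psia_ins h3 (s + 1)).ne' (e ▸ hq0)]
  · refine Psia_bwd h hJ (s + 2) (k := co d (s + 1) z) (by omega)
      (fun v a b a' b' k1 k2 k3 k4 => gs v a b a' b' k1 k2 k3 (by rw [e2] at k4; omega))
      (fun v u r k1 k2 k3 k4 _ => ?_) hv h1 (e2.symm ▸ h2)
    obtain rfl : u = z := Psia_ext (s + 2) (k2.trans hz0.symm) (by rw [k3, e2])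
    have k5 := h.rot _ _ _ k1
    refine z1 _ _ k5 ?_
    by_contra k6
    refine h.not_cone_edge k5 hE ⟨by rw [anti]; omega, ?_⟩
    have k7 : det (p - u) (v - u) = det (u - v) (p - v) := by simp [det]; ring
    rw [k7, k4]
    exact hp2
  · have cn : ∀ u v r, (u, v, r) ∈ S → co d s u = 0 → co d (s + 2) u = 0 →
        I (u, v, r) + (I (z, p, r1) + 1) = 0 := fun u v r k1 k2 k3 =>
      out u v r k1 k3 (by have := Psia_sum d s u; omega)
    rcases (Psia_inT (h.inT _ _ _ hv) (s + 2)).eq_or_lt with h2 | h2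
    · exact cn _ _ _ hv h1 h2.symm
    · refine Psia_fwd h hJ s le_rfl (fun v a b a' b' k1 k2 k3 _ => ?_)
        (fun u v r k1 k2 k3 _ => cn u v r k1 k2 k3) hv h1 h2
      simp only [good v a b a' b' k1 k2 (fun e => hp1.ne' (e ▸ k3)) (fun e => hz1 (e ▸ k3))
        fun e => hq1 (e ▸ k3)]
  · have := half a b hab h1
    rw [anti] at this
    omega

end Pool.Agent.TC

end

section

/-! Planarity: a zone has at most one outer and one inner wall at each corner of `T`. -/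

open Finset

namespace Pool.Agent.TC

variable {d : ℤ} {S K : Finset Tr} {C : Finset (V × V)}

theorem Psib_co0 (d : ℤ) (p : V) : co d 0 p = p.2 := rfl
theorem Psib_co1 (d : ℤ) (p : V) : co d 1 p = d - p.1 - p.2 := rfl
theorem Psib_co2 (d : ℤ) (p : V) : co d 2 p = p.1 := rfl

theorem Psib_s (s : Fin 3) : (s = 0 ∧ s + 1 = 1 ∧ s + 2 = 2) ∨ (s = 1 ∧ s + 1 = 2 ∧ s + 2 = 0) ∨
    (s = 2 ∧ s + 1 = 0 ∧ s + 2 = 1) := by
  revert s; decide

theorem Psib_det_self (u : V) : det u u = 0 := by unfold det; ring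

theorem Psib_det_anti (u v : V) : det u v = -det v u := by unfold det; ring

/-- two points of the later side at the same distance coincide -/
theorem Psib_eq {s : Fin 3} {z z' : V} (h : co d (s + 2) z = 0) (h' : co d (s + 2) z' = 0)
    (e : co d (s + 1) z = co d (s + 1) z') : z = z' := by
  rcases Psib_s s with ⟨_, e1, e2⟩ | ⟨_, e1, e2⟩ | ⟨_, e1, e2⟩ <;> rw [e1] at e <;>
    rw [e2] at h h' <;> simp only [Psib_co0, Psib_co1, Psib_co2] at * <;>
    exact Prod.ext (by omega) (by omega)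

/-- the tail of a chord is off the later side -/
theorem Psib_pos (hd : d % 2 = 0) {s : Fin 3} {p : V} (hp : InT d p) (he : Early d s p)
    (ho : ¬ Ev p) : 0 < co d (s + 2) p := by
  unfold Early Ins at he
  unfold InT at hp
  unfold Ev at ho
  rcases Psib_s s with ⟨e0, e1, e2⟩ | ⟨e0, e1, e2⟩ | ⟨e0, e1, e2⟩ <;> rw [e1] at he <;>
    rw [e2] <;> rw [e0] at he <;> simp only [Psib_co0, Psib_co1, Psib_co2] at * <;> omega

/-- an outer boundary dart starts at the corner -/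
theorem Psib_bd {s : Fin 3} {p z : V} (o : Out d s p z) (hb : BdU d p z) :
    co d (s + 1) p = 0 ∧ co d (s + 2) p = 0 ∧ co d (s + 1) z = 1 := by
  obtain ⟨he, hl⟩ := o
  unfold Early Ins at he
  unfold Late at hl
  obtain ⟨z1, z2⟩ := z
  unfold BdU at hb
  simp only [Prod.mk.injEq] at hb
  rcases Psib_s s with ⟨e0, e1, e2⟩ | ⟨e0, e1, e2⟩ | ⟨e0, e1, e2⟩ <;> rw [e1] at he <;>
    rw [e1, e2] at hl <;> rw [e1, e2] <;> rw [e0] at he <;>
    simp only [Psib_co0, Psib_co1, Psib_co2] at * <;> omega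

theorem Psib_nbd {s : Fin 3} {p z : V} (o : Out d s p z) (hb : BdU d z p) : False := by
  obtain ⟨he, hl⟩ := o
  unfold Early Ins at he
  unfold Late at hl
  obtain ⟨p1, p2⟩ := p
  unfold BdU at hb
  simp only [Prod.mk.injEq] at hb
  rcases Psib_s s with ⟨e0, e1, e2⟩ | ⟨e0, e1, e2⟩ | ⟨e0, e1, e2⟩ <;> rw [e1] at he <;>
    rw [e1, e2] at hl <;> rw [e0] at he <;>
    simp only [Psib_co0, Psib_co1, Psib_co2] at * <;> omega

/-- the direction to the corner is the last one at `z` -/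
theorem Psib_det_corner {s : Fin 3} {p p' z : V} (hp : 0 < co d (s + 2) p)
    (h1 : co d (s + 1) p' = 0) (h2 : co d (s + 2) p' = 0) (h3 : co d (s + 1) z = 1)
    (h4 : co d (s + 2) z = 0) : 0 < det (p - z) (p' - z) := by
  obtain ⟨a, b⟩ := p
  obtain ⟨a', b'⟩ := p'
  obtain ⟨z1, z2⟩ := z
  rcases Psib_s s with ⟨_, e1, e2⟩ | ⟨_, e1, e2⟩ | ⟨_, e1, e2⟩ <;> rw [e1] at h1 h3 <;>
    rw [e2] at hp h2 h4 <;>
    simp only [Psib_co0, Psib_co1, Psib_co2, det, Prod.fst_sub, Prod.snd_sub] at *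
  · have e3 : a' - z1 = 0 := by omega
    have e4 : b' - z2 = 1 := by omega
    rw [e3, e4]; omega
  · have e3 : a' - z1 = -1 := by omega
    have e4 : b' - z2 = 0 := by omega
    rw [e3, e4]; omega
  · have e3 : a' - z1 = 1 := by omega
    have e4 : b' - z2 = -1 := by omega
    rw [e3, e4]; omega

theorem Psib_dot0 {u1 u2 v1 v2 α β : ℤ} (hu : 0 < α * u1 + β * u2) (hv : 0 < α * v1 + β * v2)
    (h : u1 * v2 - u2 * v1 = 0) : 0 < u1 * v1 + u2 * v2 := by
  have e : (α * u1 + β * u2) * (u1 * v1 + u2 * v2) = (α * v1 + β * v2) * (u1 ^ 2 + u2 ^ 2) := by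
    linear_combination (α * u2 - β * u1) * h
  have hn : 0 < u1 ^ 2 + u2 ^ 2 := by
    rcases eq_or_ne u1 0 with h1 | h1
    · rcases eq_or_ne u2 0 with h2 | h2
      · rw [h1, h2] at hu; simp at hu
      · positivity
    · positivity
  have := mul_pos hv hn
  rw [← e] at this
  exact (pos_iff_pos_of_mul_pos this).mp hu

theorem Psib_dot {s : Fin 3} {p p' z : V} (hp : 0 < co d (s + 2) p) (hp' : 0 < co d (s + 2) p')
    (hz : co d (s + 2) z = 0) (h : det (p - z) (p' - z) = 0) :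
    0 < (p - z).1 * (p' - z).1 + (p - z).2 * (p' - z).2 := by
  rcases Psib_s s with ⟨_, _, e2⟩ | ⟨_, _, e2⟩ | ⟨_, _, e2⟩ <;> rw [e2] at hp hp' hz <;>
    simp only [Psib_co0, Psib_co1, Psib_co2, det, Prod.fst_sub, Prod.snd_sub] at *
  · exact Psib_dot0 (α := 1) (β := 0) (by omega) (by omega) h
  · exact Psib_dot0 (α := 0) (β := 1) (by omega) (by omega) h
  · exact Psib_dot0 (α := -1) (β := -1) (by omega) (by omega) h

theorem Psib_out_key (hd : d % 2 = 0) (h : St d C S K) {s : Fin 3} {p z r p' z' r' : V}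
    (hc : (p, z) ∈ C) (t1 : (p, z, r) ∈ K) (o1 : Out d s p z) (w1 : Wl d C s p)
    (t2 : (p', z', r') ∈ K) (hz' : co d (s + 2) z' = 0) :
    co d (s + 1) z ≤ co d (s + 1) z' ∧ (z' = z → det (p - z) (p' - z) ≤ 0) := by
  obtain ⟨I, hI, h2, -, h4, -, -, h7, h8⟩ := wall_fun hd h.tri h.ch hc o1 w1
  have k1 := h.cl.rot _ _ _ t1
  have k2 := h.cl.rot _ _ _ t2
  have e : I (z, r, p) = I (z', r', p') :=
    h.const I hI (fun a b x y ha hb hn => h2 a b x y (h.cl.sub ha) hb hn) k1 k2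
  have e0 : I (z, r, p) = 0 := h8 r p (h.cl.sub k1) (by rw [Psib_det_self])
  rw [e0] at e
  constructor
  · by_contra hlt
    rw [h4 z' r' p' (h.cl.sub k2) hz' (by omega)] at e
    exact absurd e (by decide)
  · rintro rfl
    by_contra hlt
    have hn := h.tri.not_cone_edge (h.cl.sub k2) (x := p) (Or.inr ⟨r, h.cl.sub t1⟩)
    unfold Cone at hn
    have h9 : 0 ≤ det (p - z') (r' - z') := by
      rw [Psib_det_anti]
      by_contra h10
      exact hn ⟨by omega, by omega⟩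
    rw [h7 r' p' (h.cl.sub k2) h9] at e
    exact absurd e (by decide)

theorem Psib_in_key (hd : d % 2 = 0) (h : St d C S K) {s : Fin 3} {p z r p' z' r' : V}
    (hc : (p, z) ∈ C) (t1 : (z, p, r) ∈ K) (o1 : Out d s p z) (w1 : Wl d C s p)
    (t2 : (z', p', r') ∈ K) (hz' : co d (s + 2) z' = 0) :
    co d (s + 1) z' ≤ co d (s + 1) z ∧ (z' = z → 0 ≤ det (p - z) (p' - z)) := by
  obtain ⟨I, hI, h2, -, -, h5, -, h7, h8⟩ := wall_fun hd h.tri h.ch hc o1 w1
  have e : I (z, p, r) = I (z', p', r') :=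
    h.const I hI (fun a b x y ha hb hn => h2 a b x y (h.cl.sub ha) hb hn) t1 t2
  have e0 : I (z, p, r) = 1 := h7 p r (h.cl.sub t1) (by rw [Psib_det_self])
  rw [e0] at e
  constructor
  · by_contra hlt
    rw [h5 z' p' r' (h.cl.sub t2) hz' (by omega)] at e
    exact absurd e (by decide)
  · rintro rfl
    by_contra hlt
    have hn := h.tri.not_cone_edge (h.cl.sub t2) (x := p) (Or.inl ⟨r, h.cl.sub t1⟩)
    unfold Cone at hn
    have h9 : 0 ≤ det (r' - z') (p - z') := by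
      rw [Psib_det_anti]
      by_contra h10
      exact hn ⟨by rw [Psib_det_anti]; omega, by omega⟩
    rw [h8 p' r' (h.cl.sub t2) h9] at e
    exact absurd e (by decide)

/-- at most one wall-carrying outer dart (`St.const` and `wall_fun`; the boundary dart from the
corner of `T` is the innermost one; two darts with the same head are compared by `det`) -/
theorem St.out_unique (hd : d % 2 = 0) (h : St d C S K) {s : Fin 3} {p z p' z' : V}
    (h1 : (p, z) ∈ bdK d C K) (o1 : Out d s p z) (w1 : Wl d C s p)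
    (h2 : (p', z') ∈ bdK d C K) (o2 : Out d s p' z') (w2 : Wl d C s p') : p = p' ∧ z = z' := by
  obtain ⟨⟨r, t1⟩, c1⟩ := mem_bdK.mp h1
  obtain ⟨⟨r', t2⟩, c2⟩ := mem_bdK.mp h2
  have mixed : ∀ {p z r p' z' r' : V}, (p, z) ∈ C → (p, z, r) ∈ K → Out d s p z → Wl d C s p →
      (p', z', r') ∈ K → Out d s p' z' → Bd d p' z' → False := by
    intro p z r p' z' r' hc t1 o1 w1 t2 o2 hb
    obtain ⟨b1, b2, b3⟩ := Psib_bd o2 (h.tri.bdU (h.cl.sub t2) hb)
    obtain ⟨k1, k2⟩ := Psib_out_key hd h hc t1 o1 w1 t2 o2.2.1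
    have hz := o1.2.2
    have e : z' = z := Psib_eq o2.2.1 o1.2.1 (by omega)
    have hp := Psib_pos hd (h.tri.inT _ _ _ (h.cl.sub t1)) o1.1 (h.ch.odd _ _ hc)
    have := Psib_det_corner hp b1 b2 (by rw [← e]; exact b3) o1.2.1
    have := k2 e
    omega
  rcases c1 with c1 | c1 <;> rcases c2 with c2 | c2
  · obtain ⟨k1, k2⟩ := Psib_out_key hd h c1 t1 o1 w1 t2 o2.2.1
    obtain ⟨k3, k4⟩ := Psib_out_key hd h c2 t2 o2 w2 t1 o1.2.1
    have e : z' = z := Psib_eq o2.2.1 o1.2.1 (by omega)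
    subst e
    have k5 := k2 rfl
    have k6 := k4 rfl
    rw [Psib_det_anti] at k6
    have hp := Psib_pos hd (h.tri.inT _ _ _ (h.cl.sub t1)) o1.1 (h.ch.odd _ _ c1)
    have hp' := Psib_pos hd (h.tri.inT _ _ _ (h.cl.sub t2)) o2.1 (h.ch.odd _ _ c2)
    have h0 : det (p - z') (p' - z') = 0 := by omega
    exact ⟨h.tri.edge_eq (Or.inr ⟨r, h.cl.sub t1⟩) (Or.inr ⟨r', h.cl.sub t2⟩) h0
      (Psib_dot hp hp' o1.2.1 h0), rfl⟩
  · exact (mixed c1 t1 o1 w1 t2 o2 c2).elim
  · exact (mixed c2 t2 o2 w2 t1 o1 c1).elim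
  · obtain ⟨b1, b2, b3⟩ := Psib_bd o1 (h.tri.bdU (h.cl.sub t1) c1)
    obtain ⟨b4, b5, b6⟩ := Psib_bd o2 (h.tri.bdU (h.cl.sub t2) c2)
    exact ⟨Psib_eq b2 b5 (by omega), Psib_eq o1.2.1 o2.2.1 (by omega)⟩

theorem Psib_in_chord (h : St d C S K) {s : Fin 3} {p z : V} (h1 : (z, p) ∈ bdK d C K)
    (o1 : Out d s p z) : (p, z) ∈ C ∧ ∃ r, (z, p, r) ∈ K := by
  obtain ⟨⟨r, t1⟩, c1⟩ := mem_bdK.mp h1
  rcases c1 with c1 | c1
  · exact ⟨h.ch.symm _ _ c1, r, t1⟩
  · exact (Psib_nbd o1 (h.tri.bdU (h.cl.sub t1) c1)).elim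

theorem St.in_unique (hd : d % 2 = 0) (h : St d C S K) {s : Fin 3} {p z p' z' : V}
    (h1 : (z, p) ∈ bdK d C K) (o1 : Out d s p z) (w1 : Wl d C s p)
    (h2 : (z', p') ∈ bdK d C K) (o2 : Out d s p' z') (w2 : Wl d C s p') : p = p' ∧ z = z' := by
  obtain ⟨c1, r, t1⟩ := Psib_in_chord h h1 o1
  obtain ⟨c2, r', t2⟩ := Psib_in_chord h h2 o2
  obtain ⟨k1, k2⟩ := Psib_in_key hd h c1 t1 o1 w1 t2 o2.2.1
  obtain ⟨k3, k4⟩ := Psib_in_key hd h c2 t2 o2 w2 t1 o1.2.1
  have e : z' = z := Psib_eq o2.2.1 o1.2.1 (by omega)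
  subst e
  have k5 := k2 rfl
  have k6 := k4 rfl
  rw [Psib_det_anti] at k6
  have hp := Psib_pos hd (h.tri.inT2 (h.cl.sub t1)) o1.1 (h.ch.odd _ _ c1)
  have hp' := Psib_pos hd (h.tri.inT2 (h.cl.sub t2)) o2.1 (h.ch.odd _ _ c2)
  have h0 : det (p - z') (p' - z') = 0 := by omega
  exact ⟨h.tri.edge_eq (Or.inl ⟨r, h.cl.sub t1⟩) (Or.inl ⟨r', h.cl.sub t2⟩) h0
    (Psib_dot hp hp' o1.2.1 h0), rfl⟩

theorem Psib_ev (hd : d % 2 = 0) {s s' : Fin 3} (hs : s' ≠ s) {p : V} (hi : Ins d p)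
    (h1 : Early d s p) (h2 : Early d s' p) : Ev p := by
  unfold Early at h1 h2
  unfold Ins at *
  unfold Ev
  rcases Psib_s s with ⟨e0, e1, -⟩ | ⟨e0, e1, -⟩ | ⟨e0, e1, -⟩ <;>
    rcases Psib_s s' with ⟨f0, f1, -⟩ | ⟨f0, f1, -⟩ | ⟨f0, f1, -⟩ <;>
    first
      | exact absurd (f0.trans e0.symm) hs
      | (rw [e1, e0] at h1; rw [f1, f0] at h2
         simp only [Psib_co0, Psib_co1, Psib_co2] at h1 h2; omega)

theorem Psib_early_bd {s : Fin 3} {p : V} (hi : ¬ Ins d p) (h1 : Early d s p) :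
    co d (s + 1) p = 0 := by
  rcases h1 with h1 | h1
  · exact absurd h1.1 hi
  · exact h1.1

/-- a zone inside a wall at the corner `s` has no wall-carrying dart at another corner: such a
dart has an end on the side `s`, or its interior end has a chord to the side `s` -/
theorem St.in_excl (hd : d % 2 = 0) (h : St d C S K) {s s' : Fin 3} (hs : s' ≠ s)
    {p z p' z' : V} (h1 : (z, p) ∈ bdK d C K) (o1 : Out d s p z) (w1 : Wl d C s p)
    (h2 : (p', z') ∈ bdK d C K ∨ (z', p') ∈ bdK d C K) (o2 : Out d s' p' z')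
    (w2 : Wl d C s' p') : False := by
  obtain ⟨c1, r, t1⟩ := Psib_in_chord h h1 o1
  obtain ⟨I, hI, h2', h3, -, -, h6, h7, -⟩ := wall_fun hd h.tri h.ch c1 o1 w1
  have e0 : I (z, p, r) = 1 := h7 p r (h.cl.sub t1) (by rw [Psib_det_self])
  have e : ∀ t ∈ K, I t = 1 := fun t ht =>
    (h.const I hI (fun a b x y ha hb hn => h2' a b x y (h.cl.sub ha) hb hn) ht t1).trans e0
  have no : ∀ v a b, (v, a, b) ∈ K → co d s v = 0 → False := by
    intro v a b ht hv
    have := e _ ht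
    rw [h6 v a b (h.cl.sub ht) hv] at this
    exact absurd this (by decide)
  obtain ⟨⟨a, b, ta⟩, ⟨a', b', tb⟩⟩ : (∃ a b, (p', a, b) ∈ K) ∧ ∃ a b, (z', a, b) ∈ K := by
    rcases h2 with h2 | h2 <;> obtain ⟨⟨r', t2⟩, -⟩ := mem_bdK.mp h2
    · exact ⟨⟨_, _, t2⟩, _, _, h.cl.rot _ _ _ t2⟩
    · exact ⟨⟨_, _, h.cl.rot _ _ _ t2⟩, _, _, t2⟩
  have hss : s' + 2 = s ∨ s' + 1 = s :=
    (by decide : ∀ a b : Fin 3, b ≠ a → b + 2 = a ∨ b + 1 = a) s s' hs
  rcases hss with hss | hss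
  · exact no _ _ _ tb (by rw [← hss]; exact o2.2.1)
  · by_cases hi : Ins d p'
    · rcases w2 with w2 | ⟨y, cy, hy⟩
      · exact w2 hi
      · by_cases hpp : p' = p
        · subst hpp
          exact h.ch.odd _ _ c1 (Psib_ev hd hs hi o1.1 o2.1)
        · obtain ⟨x, tx⟩ := h.ch.dart _ _ cy
          have e1 := h3 p' a b y x (h.cl.sub ta) tx hi hpp
          have e2 := hI _ _ _ tx
          rw [e _ ta, ← e2, h6 y x p' (h.tri.rot _ _ _ tx) (by rw [← hss]; exact hy)] at e1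
          exact absurd e1 (by decide)
    · exact no _ _ _ ta (by rw [← hss]; exact Psib_early_bd hi o2.1)

end Pool.Agent.TC

end

section

/-! Planarity: a zone has at most one outer and one inner wall at each corner of `T`. -/

open Finset

namespace Pool.Agent.TC

variable {d : ℤ} {S K : Finset Tr} {C : Finset (V × V)}

/-- a chord at an early point that carries no wall goes to the later side -/
theorem Psi_chord (hd : d % 2 = 0) (h : Tri d S) (hC : Ch d S C) {s : Fin 3} {p q : V}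
    (hp : Early d s p) (hw : ¬ Wl d C s p) (hc : (p, q) ∈ C) : Late d s q := by
  have h1 : Ins d p := by
    by_contra h'
    exact hw (Or.inl h')
  have h2 : co d (s + 1) q ≠ 0 := fun h' => hw (Or.inr ⟨q, hc, h'⟩)
  have h3 : ¬ Ins d q := fun h' => hC.bd p q hc ⟨h1, h'⟩
  obtain ⟨r, hr⟩ := hC.dart p q hc
  have h4 := h.inT2 hr
  have h5 := h.uni _ _ _ hr
  have h6 := hC.odd p q hc
  have h7 := hC.odd q p (hC.symm p q hc)
  have h8 : ¬ ((q.1 - p.1) % 2 = 0 ∧ (q.2 - p.2) % 2 = 0) := by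
    rintro ⟨a, b⟩
    obtain ⟨a', ha⟩ := Int.dvd_of_emod_eq_zero a
    obtain ⟨b', hb⟩ := Int.dvd_of_emod_eq_zero b
    simp only [det, Prod.fst_sub, Prod.snd_sub] at h5
    rw [ha, hb] at h5
    have h9 : 2 * (a' * (r.2 - p.2) - b' * (r.1 - p.1)) = 1 := by linarith
    omega
  obtain ⟨p1, p2⟩ := p
  obtain ⟨q1, q2⟩ := q
  fin_cases s <;> simp [Early, Late, co, Ins, InT, Ev] at * <;> omega

theorem Psi_late (hd : d % 2 = 0) (h : Tri d S) (hC : Ch d S C) {s : Fin 3} {p q : V}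
    (hp : Early d s p) (hw : ¬ Wl d C s p)
    (hx : (p, q) ∈ bdK d C K ∨ (q, p) ∈ bdK d C K) : Late d s q := by
  have h1 : Ins d p := by
    by_contra h'
    exact hw (Or.inl h')
  refine Psi_chord hd h hC hp hw ?_
  rcases hx with hx | hx
  · refine (mem_bdK.1 hx).2.resolve_right fun hb => ?_
    simp only [Ins, Bd] at h1 hb
    omega
  · refine hC.symm _ _ ((mem_bdK.1 hx).2.resolve_right fun hb => ?_)
    simp only [Ins, Bd] at h1 hb
    omega

open Classical in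
/-- wall-carrying outer darts -/
noncomputable def Psi_O (d : ℤ) (C : Finset (V × V)) (K : Finset Tr) (s : Fin 3) :
    Finset (V × V) :=
  (bdK d C K).filter fun x => Out d s x.1 x.2 ∧ Wl d C s x.1

open Classical in
/-- wall-carrying inner darts -/
noncomputable def Psi_I (d : ℤ) (C : Finset (V × V)) (K : Finset Tr) (s : Fin 3) :
    Finset (V × V) :=
  (bdK d C K).filter fun x => Out d s x.2 x.1 ∧ Wl d C s x.2

theorem Psi_mem_O {s : Fin 3} {x : V × V} :
    x ∈ Psi_O d C K s ↔ x ∈ bdK d C K ∧ Out d s x.1 x.2 ∧ Wl d C s x.1 := by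
  simp only [Psi_O, mem_filter]

theorem Psi_mem_I {s : Fin 3} {x : V × V} :
    x ∈ Psi_I d C K s ↔ x ∈ bdK d C K ∧ Out d s x.2 x.1 ∧ Wl d C s x.2 := by
  simp only [Psi_I, mem_filter]

/-- only wall-carrying darts count -/
theorem Psi_sum (hd : d % 2 = 0) (h : Tri d S) (hC : Ch d S C) (hK : Cl S C K) (s : Fin 3)
    (f : V → ℤ) :
    ∑ x ∈ bdK d C K, ((if Out d s x.1 x.2 then f x.1 else 0) -
      if Out d s x.2 x.1 then f x.2 else 0) =
      ∑ x ∈ Psi_O d C K s, f x.1 - ∑ x ∈ Psi_I d C K s, f x.2 := by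
  classical
  have hb := balance h hC.symm hK fun v => if Early d s v ∧ ¬ Wl d C s v then f v else 0
  rw [Psi_O, Psi_I, sum_filter, sum_filter, ← sum_sub_distrib, ← sub_eq_zero, ← sum_sub_distrib,
    ← neg_eq_zero, ← sum_neg_distrib]
  refine (sum_congr rfl fun x hx => ?_).trans hb
  have h1 : Early d s x.1 ∧ ¬ Wl d C s x.1 ↔ Out d s x.1 x.2 ∧ ¬ Wl d C s x.1 :=
    ⟨fun h' => ⟨⟨h'.1, Psi_late hd h hC h'.1 h'.2 (Or.inl hx)⟩, h'.2⟩, fun h' => ⟨h'.1.1, h'.2⟩⟩
  have h2 : Early d s x.2 ∧ ¬ Wl d C s x.2 ↔ Out d s x.2 x.1 ∧ ¬ Wl d C s x.2 :=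
    ⟨fun h' => ⟨⟨h'.1, Psi_late hd h hC h'.1 h'.2 (Or.inr hx)⟩, h'.2⟩, fun h' => ⟨h'.1.1, h'.2⟩⟩
  simp only [h1, h2]
  by_cases a1 : Out d s x.1 x.2 <;> by_cases a2 : Wl d C s x.1 <;>
    by_cases a3 : Out d s x.2 x.1 <;> by_cases a4 : Wl d C s x.2 <;> simp [a1, a2, a3, a4]

theorem Psi_ph (d : ℤ) (s : Fin 3) (p : V) : |ph d s p| ≤ 1 := by
  unfold ph
  split_ifs <;> simp

theorem Psi_abs (d : ℤ) (s : Fin 3) (A : Finset (V × V)) (g : V × V → V) :
    |∑ x ∈ A, ph d s (g x)| ≤ A.card := by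
  refine (abs_sum_le_sum_abs _ _).trans ((sum_le_sum fun x _ => Psi_ph d s (g x)).trans ?_)
  simp

/-- Plan: by `not_wl_cancel` only wall-carrying darts count in `mm s` and in the `ps` sum. Let
`O s, I s ∈ {0,1}` be their numbers; `mm = O s - I s` for all `s` (`mm_eq`). If some `I s = 1` the
other corners have none, `mm = 0`, `Psi ≤ 2`. Otherwise `mm = O s`, `Psi ≤ 1 + 3`. -/
theorem St.psi_bound (hd : d % 2 = 0) (h : St d C S K) :
    0 ≤ mm d 1 (bdK d C K) ∧ Psi d (bdK d C K) ≤ 4 ∧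
      (Psi d (bdK d C K) = 4 → ∃ p q, (p, q) ∈ bdK d C K ∧ Ins d p) := by
  have hm : ∀ s, mm d 1 (bdK d C K) = (Psi_O d C K s).card - (Psi_I d C K s).card := fun s => by
    have h1 := Psi_sum hd h.tri h.ch h.cl s fun _ => 1
    rw [← mm_eq hd h.tri h.ch h.cl s]
    simpa only [mm, mo, sum_const, nsmul_eq_mul, mul_one] using h1
  have hp : ∑ x ∈ bdK d C K, ps d x.1 x.2 = ∑ s, (∑ x ∈ Psi_I d C K s, ph d s x.2 -
      ∑ x ∈ Psi_O d C K s, ph d s x.1) := by
    simp only [ps]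
    rw [sum_comm]
    refine sum_congr rfl fun s _ => ?_
    rw [← neg_sub, ← Psi_sum hd h.tri h.ch h.cl s (ph d s), ← sum_neg_distrib]
    simp only [neg_sub]
  have hO : ∀ s, ((Psi_O d C K s).card : ℤ) ≤ 1 := fun s => by
    refine Nat.cast_le_one.2 (card_le_one.2 fun x hx y hy => ?_)
    obtain ⟨a1, a2, a3⟩ := Psi_mem_O.1 hx
    obtain ⟨b1, b2, b3⟩ := Psi_mem_O.1 hy
    obtain ⟨c1, c2⟩ := h.out_unique hd a1 a2 a3 b1 b2 b3
    exact Prod.ext c1 c2
  have hI : ∀ s, ((Psi_I d C K s).card : ℤ) ≤ 1 := fun s => by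
    refine Nat.cast_le_one.2 (card_le_one.2 fun x hx y hy => ?_)
    obtain ⟨a1, a2, a3⟩ := Psi_mem_I.1 hx
    obtain ⟨b1, b2, b3⟩ := Psi_mem_I.1 hy
    obtain ⟨c1, c2⟩ := h.in_unique hd a1 a2 a3 b1 b2 b3
    exact Prod.ext c2 c1
  have hck : ck d = 1 ∨ ck d = -1 := by
    unfold ck
    split_ifs <;> simp
  have aO := fun s => abs_le.1 (Psi_abs d s (Psi_O d C K s) fun x => x.1)
  have aI := fun s => abs_le.1 (Psi_abs d s (Psi_I d C K s) fun x => x.2)
  rw [Psi, hp]
  by_cases hc : ∃ s, (Psi_I d C K s).Nonempty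
  · obtain ⟨s, x, hx⟩ := hc
    obtain ⟨a1, a2, a3⟩ := Psi_mem_I.1 hx
    have e : ∀ s', s' ≠ s → Psi_O d C K s' = ∅ ∧ Psi_I d C K s' = ∅ := fun s' hs => by
      refine ⟨eq_empty_of_forall_notMem fun y hy => ?_, eq_empty_of_forall_notMem fun y hy => ?_⟩
      · obtain ⟨b1, b2, b3⟩ := Psi_mem_O.1 hy
        exact h.in_excl hd hs a1 a2 a3 (Or.inl b1) b2 b3
      · obtain ⟨b1, b2, b3⟩ := Psi_mem_I.1 hy
        exact h.in_excl hd hs a1 a2 a3 (Or.inr b1) b2 b3
    have m0 : mm d 1 (bdK d C K) = 0 := by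
      obtain ⟨s', hs⟩ := exists_ne s
      rw [hm s', (e s' hs).1, (e s' hs).2]
      simp
    rw [m0, mul_zero, zero_add, sum_eq_single s (fun s' _ hs => by
      rw [(e s' hs).1, (e s' hs).2]
      simp) (by simp)]
    have b1 := (aO s).1
    have b2 := (aI s).2
    have b3 := hO s
    have b4 := hI s
    exact ⟨le_rfl, by linarith, fun h4 => by linarith⟩
  · have e : ∀ s, Psi_I d C K s = ∅ := fun s => not_nonempty_iff_eq_empty.1 fun h' => hc ⟨s, h'⟩
    have m1 := hm 1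
    simp only [e, card_empty, Nat.cast_zero, sub_zero, sum_empty, zero_sub, Fin.sum_univ_three]
      at m1 ⊢
    have b0 : (0 : ℤ) ≤ (Psi_O d C K 1).card := Nat.cast_nonneg _
    have b1 : ck d * mm d 1 (bdK d C K) ≤ 1 := by
      have := hO 1
      rcases hck with e' | e' <;> rw [e', m1] <;> linarith
    have c0 := (aO 0).1
    have c1 := (aO 1).1
    have c2 := (aO 2).1
    have d0 := hO 0
    have d1 := hO 1
    have d2 := hO 2
    refine ⟨by linarith, by linarith, fun h4 => ?_⟩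
    have f0 : ∑ x ∈ Psi_O d C K 0, ph d 0 x.1 ≠ 0 := by
      intro h5
      linarith
    obtain ⟨x, hx, hx'⟩ := exists_ne_zero_of_sum_ne_zero f0
    refine ⟨x.1, x.2, (Psi_mem_O.1 hx).1, ?_⟩
    by_contra h6
    exact hx' (if_neg h6)

end Pool.Agent.TC

end

section

/-! The local inequality `FF ≥ -4` and its equality case. -/

open Finset

namespace Pool.Agent.TC

variable {d : ℤ} {S K : Finset Tr} {C : Finset (V × V)}

open Classical in
/-- odd vertices of `K` -/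
noncomputable def odK (K : Finset Tr) : Finset V := (K.image fun t => t.1).filter fun v => ¬ Ev v

theorem LIa_mem_odK {v : V} : v ∈ odK K ↔ (∃ a b, (v, a, b) ∈ K) ∧ ¬ Ev v := by
  simp only [odK, mem_filter, mem_image]
  constructor
  · rintro ⟨⟨⟨a, b, c⟩, h1, rfl⟩, h2⟩
    exact ⟨⟨b, c, h1⟩, h2⟩
  · rintro ⟨⟨a, b, h1⟩, h2⟩
    exact ⟨⟨_, h1, rfl⟩, h2⟩

theorem LIa_mem_evK {v : V} : v ∈ evK K ↔ (∃ a b, (v, a, b) ∈ K) ∧ Ev v := by
  simp only [evK, mem_filter, mem_image]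
  constructor
  · rintro ⟨⟨a, b, c⟩, ⟨h1, h2⟩, rfl⟩
    exact ⟨⟨b, c, h1⟩, h2⟩
  · rintro ⟨⟨a, b, h1⟩, h2⟩
    exact ⟨_, ⟨h1, h2⟩, rfl⟩

theorem LIa_mem_chgAt {v : V} {t : Tr} : t ∈ chgAt S C K v ↔
    t ∈ K ∧ t.1 = v ∧ ¬ Ev t.2.1 ∧ (v, t.2.1) ∉ C ∧ Chg S v t.2.1 := by
  simp only [chgAt, mem_filter]

theorem LIa_mem_dblAt {v : V} {t : Tr} : t ∈ dblAt S C K v ↔
    t ∈ K ∧ t.1 = v ∧ ¬ Ev t.2.1 ∧ ¬ Ev t.2.2 ∧ (v, t.2.1) ∉ C ∧ (v, t.2.2) ∉ C ∧
      Chg S v t.2.1 ∧ Chg S v t.2.2 := by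
  simp only [dblAt, mem_filter]

open Classical in
/-- the third vertex of a dart -/
noncomputable def LIa_third (S : Finset Tr) (p q : V) : V :=
  if h : ∃ s, (p, q, s) ∈ S then h.choose else 0

theorem LIa_third_eq (h : Tri d S) {p q r : V} (ht : (p, q, r) ∈ S) : LIa_third S p q = r := by
  have hex : ∃ s, (p, q, s) ∈ S := ⟨r, ht⟩
  unfold LIa_third
  rw [dif_pos hex]
  exact h.uniq _ _ _ _ hex.choose_spec ht

theorem LIa_not_bd (hd : d % 2 = 0) (h : Tri d S) {p q r : V} (ht : (p, q, r) ∈ S)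
    (hp : ¬ Ev p) (hq : ¬ Ev q) : ¬ Bd d p q := by
  intro hb
  have hu := h.bdU ht hb
  obtain ⟨p1, p2⟩ := p
  obtain ⟨q1, q2⟩ := q
  simp only [BdU, Ev, Prod.mk.injEq] at hu hp hq
  omega

theorem LIa_chg_iff (h : Tri d S) {p q r s : V} (h1 : (p, q, r) ∈ S) (h2 : (q, p, s) ∈ S) :
    Chg S p q ↔ det (s - p) (r - p) ≤ 0 := by
  constructor
  · rintro ⟨r', s', a1, a2, a3⟩
    rw [h.uniq _ _ _ _ h1 a1, h.uniq _ _ _ _ h2 a2]
    exact a3
  · intro a
    exact ⟨r, s, h1, h2, a⟩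

theorem LIa_chg_xor (h : Tri d S) {p q r s : V} (h1 : (p, q, r) ∈ S) (h2 : (q, p, s) ∈ S)
    (hne : r + s ≠ p + q) : Chg S q p ↔ ¬ Chg S p q := by
  rw [LIa_chg_iff h h1 h2, LIa_chg_iff h h2 h1]
  obtain ⟨e1, e2⟩ := h.opp_eq h1 h2
  have hm : det (s - p) (r - p) ≠ 1 := by
    intro hm
    rw [hm, one_smul] at e1
    apply hne
    have : r + s = (s - p + (r - p)) + p + p := by abel
    rw [this, e1]; abel
  omega

theorem LIa_bdU_bd {p q : V} (hb : BdU d p q) : Bd d p q := by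
  obtain ⟨p1, p2⟩ := p
  obtain ⟨q1, q2⟩ := q
  simp only [BdU, Bd, Prod.mk.injEq] at *
  omega

theorem LIa_exists_next (hd : 0 < d) {e : V} (he : InT d e) (hi : ¬ Ins d e) :
    ∃ q, InT d q ∧ BdU d e q := by
  obtain ⟨x, y⟩ := e
  simp only [InT, Ins] at he hi
  by_cases h1 : y = 0 ∧ x < d
  · exact ⟨(x + 1, 0), by simp only [InT]; omega, Or.inl ⟨h1.1, rfl⟩⟩
  by_cases h2 : x = 0
  · exact ⟨(0, y - 1), by simp only [InT]; omega, Or.inr (Or.inr ⟨h2, rfl⟩)⟩
  · exact ⟨(x - 1, y + 1), by simp only [InT]; omega, Or.inr (Or.inl ⟨by simp only; omega, rfl⟩)⟩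

theorem LIa_exists_prev (hd : 0 < d) {e : V} (he : InT d e) (hi : ¬ Ins d e) :
    ∃ p, InT d p ∧ BdU d p e := by
  obtain ⟨x, y⟩ := e
  simp only [InT, Ins] at he hi
  by_cases h1 : y = 0 ∧ 0 < x
  · exact ⟨(x - 1, 0), by simp only [InT]; omega,
      Or.inl ⟨rfl, by simp only [Prod.mk.injEq]; omega⟩⟩
  by_cases h2 : x = 0 ∧ y < d
  · exact ⟨(0, y + 1), by simp only [InT]; omega,
      Or.inr (Or.inr ⟨rfl, by simp only [Prod.mk.injEq]; omega⟩)⟩
  · exact ⟨(x + 1, y - 1), by simp only [InT]; omega,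
      Or.inr (Or.inl ⟨by simp only; omega, by simp only [Prod.mk.injEq]; omega⟩)⟩

/-- in a reduced zone exactly one dart of each odd-odd non-chord edge is charged (`m ≠ 1`,
`opp_eq`; odd-odd edges are never boundary edges) -/
theorem card_chg (hd : d % 2 = 0) (h : Tri d S) (hC : Ch d S C) (hK : Cl S C K) (hr : Red S C K) :
    (K.filter fun t => ¬ Ev t.1 ∧ ¬ Ev t.2.1 ∧ (t.1, t.2.1) ∉ C).card =
      2 * ∑ v ∈ odK K, (chgAt S C K v).card := by
  classical
  set A := K.filter fun t => ¬ Ev t.1 ∧ ¬ Ev t.2.1 ∧ (t.1, t.2.1) ∉ C with hA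
  have memA : ∀ p q r, (p, q, r) ∈ A ↔ (p, q, r) ∈ K ∧ ¬ Ev p ∧ ¬ Ev q ∧ (p, q) ∉ C := by
    intro p q r
    simp only [hA, mem_filter]
  have key : ∀ p q r, (p, q, r) ∈ A → ∃ s, (q, p, s) ∈ A ∧ LIa_third S q p = s ∧
      LIa_third S p q = r ∧ (Chg S q p ↔ ¬ Chg S p q) := by
    intro p q r ht
    obtain ⟨a1, a2, a3, a4⟩ := (memA p q r).1 ht
    have b1 := hK.sub a1
    obtain ⟨s, hs⟩ := h.opp p q r b1 (LIa_not_bd hd h b1 a2 a3)
    refine ⟨s, (memA q p s).2 ⟨hK.cl p q r s a1 hs a4, a3, a2, fun hc => a4 (hC.symm _ _ hc)⟩,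
      LIa_third_eq h hs, LIa_third_eq h b1, LIa_chg_xor h b1 hs (hr p q r s a1 hs a4 a2 a3)⟩
  have e1 : (A.filter fun t => Chg S t.1 t.2.1).card =
      ∑ v ∈ odK K, (chgAt S C K v).card := by
    rw [card_eq_sum_card_fiberwise (f := fun t : Tr => t.1) (t := odK K)]
    · refine sum_congr rfl fun v hv => ?_
      congr 1
      ext ⟨p, q, r⟩
      rw [LIa_mem_chgAt, mem_filter, mem_filter, memA]
      have hv' := (LIa_mem_odK.1 hv).2
      constructor
      · rintro ⟨⟨⟨a1, -, a3, a4⟩, a5⟩, rfl⟩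
        exact ⟨a1, rfl, a3, a4, a5⟩
      · rintro ⟨a1, rfl, a3, a4, a5⟩
        exact ⟨⟨⟨a1, hv', a3, a4⟩, a5⟩, rfl⟩
    · rintro ⟨p, q, r⟩ ht
      have ht' := (memA p q r).1 (mem_filter.1 (mem_coe.1 ht)).1
      exact mem_coe.2 (LIa_mem_odK.2 ⟨⟨q, r, ht'.1⟩, ht'.2.1⟩)
  have e2 : (A.filter fun t => Chg S t.1 t.2.1).card =
      (A.filter fun t => ¬ Chg S t.1 t.2.1).card := by
    refine card_nbij' (fun t => (t.2.1, t.1, LIa_third S t.2.1 t.1))
      (fun t => (t.2.1, t.1, LIa_third S t.2.1 t.1)) ?_ ?_ ?_ ?_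
    · rintro ⟨p, q, r⟩ ht
      obtain ⟨a1, a2⟩ := mem_filter.1 (mem_coe.1 ht)
      obtain ⟨s, b1, b2, -, b4⟩ := key p q r a1
      refine mem_coe.2 (mem_filter.2 ⟨?_, ?_⟩)
      · simpa only [b2] using b1
      · exact fun hc => b4.1 hc a2
    · rintro ⟨p, q, r⟩ ht
      obtain ⟨a1, a2⟩ := mem_filter.1 (mem_coe.1 ht)
      obtain ⟨s, b1, b2, -, b4⟩ := key p q r a1
      refine mem_coe.2 (mem_filter.2 ⟨?_, ?_⟩)
      · simpa only [b2] using b1
      · exact b4.2 a2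
    · rintro ⟨p, q, r⟩ ht
      obtain ⟨a1, -⟩ := mem_filter.1 (mem_coe.1 ht)
      obtain ⟨s, -, -, b3, -⟩ := key p q r a1
      simp only [b3]
    · rintro ⟨p, q, r⟩ ht
      obtain ⟨a1, -⟩ := mem_filter.1 (mem_coe.1 ht)
      obtain ⟨s, -, -, b3, -⟩ := key p q r a1
      simp only [b3]
  have e3 := card_filter_add_card_filter_not (s := A) (fun t => Chg S t.1 t.2.1)
  omega

/-- each even boundary point of `K` is the tail of exactly one boundary dart and the head of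
exactly one (`Cl.fan`, `bd_exists`, `bdU`) -/
theorem card_bd_ev (hd : d % 2 = 0) (h : Tri d S) (hC : Ch d S C) (hK : Cl S C K) :
    (K.filter fun t => Ev t.1 ∧ Bd d t.1 t.2.1).card =
        ((evK K).filter fun e => ¬ Ins d e).card ∧
      (K.filter fun t => Ev t.2.1 ∧ Bd d t.1 t.2.1).card =
        ((evK K).filter fun e => ¬ Ins d e).card := by
  have hpos := h.pos
  have hfan : ∀ e, e ∈ evK K → ∀ a b, (e, a, b) ∈ S → (e, a, b) ∈ K := by
    intro e he a b hab
    obtain ⟨⟨a', b', h1⟩, h2⟩ := LIa_mem_evK.1 he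
    exact hK.fan h hC.symm (fun z hz => hC.odd _ _ hz h2) h1 hab
  have hin : ∀ e, e ∈ evK K → InT d e := by
    intro e he
    obtain ⟨⟨a', b', h1⟩, -⟩ := LIa_mem_evK.1 he
    exact h.inT _ _ _ (hK.sub h1)
  constructor
  · refine card_bij (fun t _ => t.1) ?_ ?_ ?_
    · rintro ⟨p, q, r⟩ ht
      obtain ⟨a1, a2, a3⟩ := mem_filter.1 ht
      refine mem_filter.2 ⟨LIa_mem_evK.2 ⟨⟨q, r, a1⟩, a2⟩, ?_⟩
      simp only [Bd, Ins] at a3 ⊢
      omega
    · rintro ⟨p, q, r⟩ ht ⟨p', q', r'⟩ ht' (rfl : p = p')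
      obtain ⟨a1, -, a3⟩ := mem_filter.1 ht
      obtain ⟨b1, -, b3⟩ := mem_filter.1 ht'
      have u1 := h.bdU (hK.sub a1) a3
      have u2 := h.bdU (hK.sub b1) b3
      have i1 := h.inT2 (hK.sub a1)
      have i2 := h.inT2 (hK.sub b1)
      have hq : q = q' := by
        obtain ⟨p1, p2⟩ := p
        obtain ⟨q1, q2⟩ := q
        obtain ⟨q1', q2'⟩ := q'
        simp only [BdU, InT, Prod.mk.injEq] at u1 u2 i1 i2 ⊢
        omega
      subst hq
      rw [h.uniq _ _ _ _ (hK.sub a1) (hK.sub b1)]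
    · intro e he
      obtain ⟨a1, a2⟩ := mem_filter.1 he
      obtain ⟨q, q1, q2⟩ := LIa_exists_next hpos (hin e a1) a2
      obtain ⟨r, hr⟩ := h.bd_exists (hin e a1) q1 q2
      exact ⟨(e, q, r), mem_filter.2 ⟨hfan e a1 q r hr, (LIa_mem_evK.1 a1).2, LIa_bdU_bd q2⟩, rfl⟩
  · refine card_bij (fun t _ => t.2.1) ?_ ?_ ?_
    · rintro ⟨p, q, r⟩ ht
      obtain ⟨a1, a2, a3⟩ := mem_filter.1 ht
      refine mem_filter.2 ⟨LIa_mem_evK.2 ⟨⟨r, p, hK.rot _ _ _ a1⟩, a2⟩, ?_⟩
      simp only [Bd, Ins] at a3 ⊢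
      omega
    · rintro ⟨p, q, r⟩ ht ⟨p', q', r'⟩ ht' (rfl : q = q')
      obtain ⟨a1, -, a3⟩ := mem_filter.1 ht
      obtain ⟨b1, -, b3⟩ := mem_filter.1 ht'
      have u1 := h.bdU (hK.sub a1) a3
      have u2 := h.bdU (hK.sub b1) b3
      have i1 := h.inT _ _ _ (hK.sub a1)
      have i2 := h.inT _ _ _ (hK.sub b1)
      have hp : p = p' := by
        obtain ⟨p1, p2⟩ := p
        obtain ⟨q1, q2⟩ := q
        obtain ⟨p1', p2'⟩ := p'
        simp only [BdU, InT, Prod.mk.injEq] at u1 u2 i1 i2 ⊢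
        omega
      subst hp
      rw [h.uniq _ _ _ _ (hK.sub a1) (hK.sub b1)]
    · intro e he
      obtain ⟨a1, a2⟩ := mem_filter.1 he
      obtain ⟨p, p1, p2⟩ := LIa_exists_prev hpos (hin e a1) a2
      obtain ⟨r, hr⟩ := h.bd_exists p1 (hin e a1) p2
      exact ⟨(p, e, r), mem_filter.2 ⟨hK.rot2 (hfan e a1 r p (h.rot _ _ _ hr)),
        (LIa_mem_evK.1 a1).2, LIa_bdU_bd p2⟩, rfl⟩

open Classical in
/-- two chord darts of `K` for each interior vertex with chords (`touch`, `Ch.bd`) -/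
theorem St.card_chord (h : St d C S K) :
    2 * ((odK K).filter fun v => Ins d v ∧ ∃ z, (v, z) ∈ C).card ≤
      (K.filter fun t => (t.1, t.2.1) ∈ C).card := by
  set W := (odK K).filter fun v => Ins d v ∧ ∃ z, (v, z) ∈ C with hW
  set D := K.filter fun t => (t.1, t.2.1) ∈ C with hD
  have hT : ∀ v ∈ W, Ins d v ∧ (∃ z r, (v, z, r) ∈ K ∧ (v, z) ∈ C) ∧
      ∃ z r, (z, v, r) ∈ K ∧ (z, v) ∈ C := by
    intro v hv
    obtain ⟨a1, a2, z, a3⟩ := mem_filter.1 hv
    obtain ⟨⟨a, b, hab⟩, -⟩ := LIa_mem_odK.1 a1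
    exact ⟨a2, h.touch a2 a3 hab⟩
  have e1 : W.card ≤ (D.filter fun t => Ins d t.1).card := by
    refine le_trans (card_le_card ?_) (card_image_le (f := fun t : Tr => t.1))
    intro v hv
    obtain ⟨a1, ⟨z, r, a2, a3⟩, -⟩ := hT v hv
    exact mem_image.2 ⟨(v, z, r), mem_filter.2 ⟨mem_filter.2 ⟨a2, a3⟩, a1⟩, rfl⟩
  have e2 : W.card ≤ (D.filter fun t => ¬ Ins d t.1).card := by
    refine le_trans (card_le_card ?_) (card_image_le (f := fun t : Tr => t.2.1))
    intro v hv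
    obtain ⟨a1, -, z, r, a2, a3⟩ := hT v hv
    exact mem_image.2 ⟨(z, v, r), mem_filter.2 ⟨mem_filter.2 ⟨a2, a3⟩,
      fun hz => h.ch.bd _ _ a3 ⟨hz, a1⟩⟩, rfl⟩
  have e3 := card_filter_add_card_filter_not (s := D) (fun t => Ins d t.1)
  omega

/-- `3 ∑ dbl ≤ #odd triples`, with equality only if every odd triangle is double somewhere -/
theorem sum_dbl (h : Tri d S) (hK : Cl S C K) :
    3 * ∑ v ∈ odK K, (dblAt S C K v).card ≤
        (K.filter fun t => ¬ Ev t.1 ∧ ¬ Ev t.2.1 ∧ ¬ Ev t.2.2).card ∧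
      (3 * ∑ v ∈ odK K, (dblAt S C K v).card =
        (K.filter fun t => ¬ Ev t.1 ∧ ¬ Ev t.2.1 ∧ ¬ Ev t.2.2).card →
        ∀ p q r, (p, q, r) ∈ K → ¬ Ev p → ¬ Ev q → ¬ Ev r → (p, q, r) ∈ dblAt S C K p ∨
          (q, r, p) ∈ dblAt S C K q ∨ (r, p, q) ∈ dblAt S C K r) := by
  classical
  set O := K.filter fun t => ¬ Ev t.1 ∧ ¬ Ev t.2.1 ∧ ¬ Ev t.2.2 with hO
  have memO : ∀ p q r, (p, q, r) ∈ O ↔ (p, q, r) ∈ K ∧ ¬ Ev p ∧ ¬ Ev q ∧ ¬ Ev r := by
    intro p q r
    simp only [hO, mem_filter]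
  have rotO : ∀ p q r, (p, q, r) ∈ O → (q, r, p) ∈ O := by
    intro p q r ht
    obtain ⟨a1, a2, a3, a4⟩ := (memO p q r).1 ht
    exact (memO _ _ _).2 ⟨hK.rot _ _ _ a1, a3, a4, a2⟩
  set D0 := O.filter fun t => t ∈ dblAt S C K t.1 with hD0
  set D1 := O.filter fun t => (t.2.1, t.2.2, t.1) ∈ dblAt S C K t.2.1 with hD1
  set D2 := O.filter fun t => (t.2.2, t.1, t.2.1) ∈ dblAt S C K t.2.2 with hD2
  have e0 : D0.card = ∑ v ∈ odK K, (dblAt S C K v).card := by
    rw [card_eq_sum_card_fiberwise (f := fun t : Tr => t.1) (t := odK K)]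
    · refine sum_congr rfl fun v hv => ?_
      congr 1
      ext ⟨p, q, r⟩
      rw [mem_filter, hD0, mem_filter, memO]
      have hv' := (LIa_mem_odK.1 hv).2
      constructor
      · rintro ⟨⟨-, a5⟩, rfl⟩
        exact a5
      · intro a
        obtain ⟨a1, rfl, a3, a4, -⟩ := LIa_mem_dblAt.1 a
        exact ⟨⟨⟨a1, hv', a3, a4⟩, a⟩, rfl⟩
    · rintro ⟨p, q, r⟩ ht
      have ht' := (memO p q r).1 (mem_filter.1 (mem_coe.1 ht)).1
      exact mem_coe.2 (LIa_mem_odK.2 ⟨⟨q, r, ht'.1⟩, ht'.2.1⟩)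
  have e1 : D1.card = D0.card := by
    refine card_nbij' (fun t => (t.2.1, t.2.2, t.1)) (fun t => (t.2.2, t.1, t.2.1)) ?_ ?_ ?_ ?_
    · rintro ⟨p, q, r⟩ ht
      obtain ⟨a1, a2⟩ := mem_filter.1 (mem_coe.1 ht)
      exact mem_coe.2 (mem_filter.2 ⟨rotO _ _ _ a1, a2⟩)
    · rintro ⟨p, q, r⟩ ht
      obtain ⟨a1, a2⟩ := mem_filter.1 (mem_coe.1 ht)
      exact mem_coe.2 (mem_filter.2 ⟨rotO _ _ _ (rotO _ _ _ a1), a2⟩)
    · rintro ⟨p, q, r⟩ -
      rfl
    · rintro ⟨p, q, r⟩ -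
      rfl
  have e2 : D2.card = D0.card := by
    refine card_nbij' (fun t => (t.2.2, t.1, t.2.1)) (fun t => (t.2.1, t.2.2, t.1)) ?_ ?_ ?_ ?_
    · rintro ⟨p, q, r⟩ ht
      obtain ⟨a1, a2⟩ := mem_filter.1 (mem_coe.1 ht)
      exact mem_coe.2 (mem_filter.2 ⟨rotO _ _ _ (rotO _ _ _ a1), a2⟩)
    · rintro ⟨p, q, r⟩ ht
      obtain ⟨a1, a2⟩ := mem_filter.1 (mem_coe.1 ht)
      exact mem_coe.2 (mem_filter.2 ⟨rotO _ _ _ a1, a2⟩)
    · rintro ⟨p, q, r⟩ -
      rfl
    · rintro ⟨p, q, r⟩ -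
      rfl
  have d01 : Disjoint D0 D1 := by
    rw [disjoint_left]
    rintro ⟨p, q, r⟩ a b
    exact (dbl_once h hK.sub (mem_filter.1 a).2).1 (mem_filter.1 b).2
  have d2 : Disjoint (D0 ∪ D1) D2 := by
    rw [disjoint_left]
    rintro ⟨p, q, r⟩ a b
    rcases mem_union.1 a with a | a
    · exact (dbl_once h hK.sub (mem_filter.1 a).2).2 (mem_filter.1 b).2
    · exact (dbl_once h hK.sub (mem_filter.1 a).2).1 (mem_filter.1 b).2
  have hc : (D0 ∪ D1 ∪ D2).card = 3 * ∑ v ∈ odK K, (dblAt S C K v).card := by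
    rw [card_union_of_disjoint d2, card_union_of_disjoint d01]
    omega
  have hsub : D0 ∪ D1 ∪ D2 ⊆ O :=
    union_subset (union_subset (filter_subset _ _) (filter_subset _ _)) (filter_subset _ _)
  refine ⟨hc ▸ card_le_card hsub, fun heq p q r a1 a2 a3 a4 => ?_⟩
  have hU : D0 ∪ D1 ∪ D2 = O := eq_of_subset_of_card_le hsub (by omega)
  have hm : (p, q, r) ∈ D0 ∪ D1 ∪ D2 := hU ▸ (memO p q r).2 ⟨a1, a2, a3, a4⟩
  rcases mem_union.1 hm with a | a
  · rcases mem_union.1 a with a | a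
    · exact Or.inl (mem_filter.1 a).2
    · exact Or.inr (Or.inl (mem_filter.1 a).2)
  · exact Or.inr (Or.inr (mem_filter.1 a).2)

end Pool.Agent.TC

end

section

/-! The local inequality `FF ≥ -4` and its equality case. -/

open Finset

namespace Pool.Agent.TC

variable {d : ℤ} {S K : Finset Tr} {C : Finset (V × V)}

theorem LI_mem_odK {v : V} : v ∈ odK K ↔ (∃ a b, (v, a, b) ∈ K) ∧ ¬ Ev v := by
  simp only [odK, mem_filter, mem_image]
  constructor
  · rintro ⟨⟨⟨p, a, b⟩, h1, rfl⟩, h2⟩; exact ⟨⟨a, b, h1⟩, h2⟩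
  · rintro ⟨⟨a, b, h1⟩, h2⟩; exact ⟨⟨_, h1, rfl⟩, h2⟩

theorem LI_mem_evK {v : V} : v ∈ evK K ↔ (∃ a b, (v, a, b) ∈ K) ∧ Ev v := by
  simp only [evK, mem_filter, mem_image]
  constructor
  · rintro ⟨⟨p, a, b⟩, ⟨h1, h2⟩, rfl⟩; exact ⟨⟨a, b, h1⟩, h2⟩
  · rintro ⟨⟨a, b, h1⟩, h2⟩; exact ⟨_, ⟨h1, h2⟩, rfl⟩

theorem LI_wt (K : Finset Tr) : ∑ e ∈ evK K, wt d e ≤
    4 * ((evK K).filter (Ins d)).card + 2 * ((evK K).filter fun e => ¬ Ins d e).card := by
  rw [← sum_filter_add_sum_filter_not (evK K) (Ins d)]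
  refine add_le_add ?_ ?_
  · refine (sum_le_card_nsmul _ _ 4 fun e he => ?_).trans (by simp [mul_comm])
    simp [wt, (mem_filter.1 he).2]
  · refine (sum_le_card_nsmul _ _ 2 fun e he => ?_).trans (by simp [mul_comm])
    simp only [wt, (mem_filter.1 he).2, if_false]
    split_ifs <;> norm_num

theorem LI_bd (hd : d % 2 = 0) (h : Tri d S) (hC : Ch d S C) (hK : Cl S C K) :
    ∑ v ∈ (odK K).filter (fun v => ¬ Ins d v), (chgAt S C K v).card ≤
      ((evK K).filter fun e => ¬ Ins d e).card := by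
  classical
  set A := (odK K).filter (fun v => ¬ Ins d v)
  have hA : ∀ v ∈ A, ¬ Ins d v ∧ ¬ Ev v ∧ InT d v := fun v hv => by
    obtain ⟨h1, h2⟩ := mem_filter.1 hv
    obtain ⟨⟨a, b, h3⟩, h4⟩ := LI_mem_odK.1 h1
    exact ⟨h2, h4, h.inT _ _ _ (hK.sub h3)⟩
  calc ∑ v ∈ A, (chgAt S C K v).card
      ≤ ∑ v ∈ A, if (chgAt S C K v).Nonempty then 1 else 0 := by
        refine sum_le_sum fun v hv => ?_
        split_ifs with hn
        · exact (cap_bd hd h hC hK (hA v hv).1 (hA v hv).2.1).1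
        · simp [not_nonempty_iff_eq_empty.1 hn]
    _ = (A.filter fun v => (chgAt S C K v).Nonempty).card := by rw [card_filter]
    _ ≤ _ := by
        refine card_le_card_of_injOn (nxt d) (fun v hv => ?_) fun v hv v' hv' he => ?_
        · obtain ⟨h1, h2⟩ := mem_filter.1 (mem_coe.1 hv)
          obtain ⟨h3, h4, h5⟩ := (cap_bd hd h hC hK (hA v h1).1 (hA v h1).2.1).2.2 h2
          exact mem_coe.2 (mem_filter.2 ⟨LI_mem_evK.2 ⟨h5, h3⟩, h4⟩)
        · have h1 := hA v (mem_filter.1 (mem_coe.1 hv)).1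
          have h2 := hA v' (mem_filter.1 (mem_coe.1 hv')).1
          exact nxt_inj h1.2.2 h2.2.2 h1.1 h2.1 he

theorem LI_split (A : Finset V) (f : V → ℕ) [DecidablePred fun v => ∃ z, (v, z) ∈ C] :
    ∑ v ∈ A, f v = ∑ v ∈ A.filter (fun v => Ins d v ∧ ¬ ∃ z, (v, z) ∈ C), f v +
      ∑ v ∈ A.filter (fun v => Ins d v ∧ ∃ z, (v, z) ∈ C), f v +
      ∑ v ∈ A.filter (fun v => ¬ Ins d v), f v := by
  simp only [sum_filter, ← sum_add_distrib]
  refine sum_congr rfl fun v _ => ?_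
  by_cases h1 : Ins d v <;> by_cases h2 : ∃ z, (v, z) ∈ C <;> simp [h1, h2]

/-- Plan. `t_e` even triangles, `3 t_o` odd triples, `E` charged darts, `c` chord darts, `I`, `B`
interior / boundary even points, `W` interior chord-free odd points, `ρ` apexes.
`|K| = 3 t_e + 3 t_o`, `t_e + 3 t_o = c + 2 E`, non-chord interior darts `= 2E + 2 (t_e - B)`,
Euler: `t_e + t_o + W + I ≤ E + t_e - B + 1`; `FF ≥ t_e + t_o - 4 I - 2 B`;
`E ≤ (2 W + ρ + ∑ dbl) + B` (`cap_free`, `cap_apex`, `cap_bd` with `nxt_inj`), `c ≥ 2 ρ`,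
`∑ dbl ≤ t_o`. Hence `FF ≥ -4`, and equality forces equality termwise. -/
theorem St.li (hd : d % 2 = 0) (h : St d C S K) (hr : Red S C K) :
    -4 ≤ FF d (bdK d C K) ∧ (FF d (bdK d C K) = -4 → Tight0 d C S K) := by
  classical
  have hT := h.tri
  have hC := h.ch
  have hK := h.cl
  have e1 := FF_eq hd hT hC hK
  have e2 := LI_wt (d := d) K
  obtain ⟨e3, e4, e5⟩ := hK.card_split hT
  have e6 := h.euler
  have e7 := card_chg hd hT hC hK hr
  obtain ⟨e8, e9⟩ := card_bd_ev hd hT hC hK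
  have e10 := h.card_chord
  obtain ⟨e11, e12⟩ := sum_dbl (C := C) hT hK
  have e13 := LI_bd hd hT hC hK
  have e14 := LI_split (d := d) (C := C) (odK K) fun v => (chgAt S C K v).card
  have e15 := LI_split (d := d) (C := C) (odK K) fun v => (dblAt S C K v).card
  set Fr := (odK K).filter fun v => Ins d v ∧ ¬ ∃ z, (v, z) ∈ C with hFr
  set Ap := (odK K).filter fun v => Ins d v ∧ ∃ z, (v, z) ∈ C with hAp
  have lF : ∀ v ∈ Fr, (chgAt S C K v).card ≤ 2 + (dblAt S C K v).card :=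
    fun v _ => cap_free hT hC hK v
  have lA : ∀ v ∈ Ap, (chgAt S C K v).card ≤ 1 + (dblAt S C K v).card := fun v hv => by
    obtain ⟨z, hz⟩ := (mem_filter.1 hv).2.2
    exact h.cap_apex hz
  have e16 := sum_le_sum lF
  have e17 := sum_le_sum lA
  have e16' : ∑ v ∈ Fr, (2 + (dblAt S C K v).card) =
      2 * Fr.card + ∑ v ∈ Fr, (dblAt S C K v).card := by
    rw [sum_add_distrib]; simp [mul_comm]
  have e17' : ∑ v ∈ Ap, (1 + (dblAt S C K v).card) =
      Ap.card + ∑ v ∈ Ap, (dblAt S C K v).card := by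
    rw [sum_add_distrib]; simp
  -- odd-odd darts are chords or non-chords
  have e18 : (K.filter fun t => (t.1, t.2.1) ∈ C).card +
      (K.filter fun t => ¬ Ev t.1 ∧ ¬ Ev t.2.1 ∧ (t.1, t.2.1) ∉ C).card =
      (K.filter fun t => ¬ Ev t.1 ∧ ¬ Ev t.2.1).card := by
    rw [← card_filter_add_card_filter_not (s := K.filter fun t => ¬ Ev t.1 ∧ ¬ Ev t.2.1)
      (fun t => (t.1, t.2.1) ∈ C), filter_filter, filter_filter]
    congr 2
    · refine filter_congr fun t _ => ⟨fun hc => ⟨⟨hC.odd _ _ hc, hC.odd _ _ (hC.symm _ _ hc)⟩, hc⟩,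
        fun hc => hc.2⟩
    · exact filter_congr fun t _ => and_assoc.symm
  have e19 : (K.filter fun t => Ev t.1 ∧ Bd d t.1 t.2.1).card +
      (K.filter fun t => Ev t.1 ∧ ¬ Bd d t.1 t.2.1).card = (K.filter fun t => Ev t.1).card := by
    rw [← card_filter_add_card_filter_not (s := K.filter fun t => Ev t.1)
      (fun t => Bd d t.1 t.2.1), filter_filter, filter_filter]
  have e20 : (K.filter fun t => Ev t.2.1 ∧ Bd d t.1 t.2.1).card +
      (K.filter fun t => Ev t.2.1 ∧ ¬ Bd d t.1 t.2.1).card =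
      (K.filter fun t => Ev t.2.1).card := by
    rw [← card_filter_add_card_filter_not (s := K.filter fun t => Ev t.2.1)
      (fun t => Bd d t.1 t.2.1), filter_filter, filter_filter]
  have e21 : (K.filter fun t => (t.1, t.2.1) ∉ C ∧ ¬ Bd d t.1 t.2.1).card ≤
      (K.filter fun t => ¬ Ev t.1 ∧ ¬ Ev t.2.1 ∧ (t.1, t.2.1) ∉ C).card +
      (K.filter fun t => Ev t.1 ∧ ¬ Bd d t.1 t.2.1).card +
      (K.filter fun t => Ev t.2.1 ∧ ¬ Bd d t.1 t.2.1).card := by
    refine le_trans (card_le_card fun t ht => ?_) ((card_union_le _ _).trans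
      (add_le_add_left (card_union_le _ _) _))
    simp only [mem_union, mem_filter] at ht ⊢
    tauto
  have e22 : Fr.card + ((evK K).filter (Ins d)).card ≤
      ((K.image fun t => t.1).filter fun v => Ins d v ∧ ∀ z, (v, z) ∉ C).card := by
    rw [← card_union_of_disjoint]
    · refine card_le_card fun v hv => ?_
      rcases mem_union.1 hv with hv | hv
      · obtain ⟨h1, h2, h3⟩ := mem_filter.1 hv
        exact mem_filter.2 ⟨(mem_filter.1 h1).1, h2, fun z hz => h3 ⟨z, hz⟩⟩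
      · obtain ⟨h1, h2⟩ := mem_filter.1 hv
        obtain ⟨⟨a, b, h3⟩, h4⟩ := LI_mem_evK.1 h1
        exact mem_filter.2 ⟨mem_image.2 ⟨_, h3, rfl⟩, h2, fun z hz => hC.odd _ _ hz h4⟩
    · refine disjoint_left.2 fun v h1 h2 => ?_
      exact (LI_mem_odK.1 (mem_filter.1 h1).1).2 (LI_mem_evK.1 (mem_filter.1 h2).1).2
  refine ⟨by omega, fun hF => ⟨e12 (by omega), fun v z r h1 h2 h3 => ?_,
    fun w a b h1 h2 h3 h4 => ?_⟩⟩
  · exact (sum_eq_sum_iff_of_le lA).1 (by omega) v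
      (mem_filter.2 ⟨LI_mem_odK.2 ⟨⟨z, r, h1⟩, hC.odd _ _ h2⟩, h3, z, h2⟩)
  · exact (sum_eq_sum_iff_of_le lF).1 (by omega) w
      (mem_filter.2 ⟨LI_mem_odK.2 ⟨⟨a, b, h1⟩, h3⟩, h2, fun ⟨z, hz⟩ => h4 z hz⟩)

end Pool.Agent.TC

end

section

/-! Exceptional zones; heads of charged edges. -/

open Finset

namespace Pool.Agent.TC

variable {d : ℤ} {S K : Finset Tr} {C : Finset (V × V)}

/-- `reduce`, `li`, `FF_cong`, `psi_bound` -/
theorem St.psi_le_or (hd : d % 2 = 0) (h : St d C S K) :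
    Psi d (bdK d C K) ≤ FF d (bdK d C K) ∨
      (FF d (bdK d C K) = -4 ∧ Psi d (bdK d C K) = 4) := by
  obtain ⟨S', K', h', hs, hr, -⟩ := h.reduce
  have h1 := (h'.li hd hr).1
  rw [← hs.1] at h1
  have h2 := FF_cong hd h.tri h.ch h.cl
  have h3 := (h.psi_bound hd).2.1
  unfold Int.ModEq at h2
  omega

theorem Head_mem {v : V} {t : Tr} : t ∈ chgAt S C K v ↔
    t ∈ K ∧ t.1 = v ∧ ¬ Ev t.2.1 ∧ (v, t.2.1) ∉ C ∧ Chg S v t.2.1 := by
  simp only [chgAt, mem_filter]

/-- a closed set with `FF < Psi` contains an exceptional zone -/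
theorem Head_zone (hd : d % 2 = 0) (h : Tri d S) (hC : Ch d S C) (hK : Cl S C K) :
    Psi d (bdK d C K) ≤ FF d (bdK d C K) ∨
      ∃ K₁ ⊆ K, St d C S K₁ ∧ FF d (bdK d C K₁) = -4 := by
  refine Cl.induction h hC (fun K => Psi d (bdK d C K) ≤ FF d (bdK d C K) ∨
    ∃ K₁ ⊆ K, St d C S K₁ ∧ FF d (bdK d C K₁) = -4) (Or.inl ?_) ?_ hK
  · simp [Psi, FF, mm, bdK]
  · intro K₁ K₂ h1 h2 hdis ih
    rcases h1.psi_le_or hd with a | a
    · rcases ih with b | ⟨K₃, b1, b2⟩
      · left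
        unfold Psi FF mm at *
        simp only [sum_bdK_union h h1.cl.sub h2.sub hdis]
        linarith
      · exact Or.inr ⟨K₃, b1.trans subset_union_right, b2⟩
    · exact Or.inr ⟨K₁, subset_union_left, h1, a.1⟩

theorem Head_ch (hC : Ch d S C) {v z y r s : V} (hz : (v, z) ∈ C) (h1 : (v, y, r) ∈ S)
    (h2 : (y, v, s) ∈ S) (ho : ¬ Ev y) (hn : (v, y) ∉ C) (hi : ¬ Ins d y) :
    Ch d S (insert (v, y) (insert (y, v) C)) := by
  have key : ∀ p q, (p, q) ∈ insert (v, y) (insert (y, v) C) →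
      (p = v ∧ q = y) ∨ (p = y ∧ q = v) ∨ (p, q) ∈ C := fun p q hpq => by
    simpa only [mem_insert, Prod.mk.injEq] using hpq
  refine ⟨fun p q hpq => ?_, fun p q hpq => ?_, fun p q hpq => ?_, fun p q hpq => ?_,
    fun p q hpq hp => ?_⟩ <;> rcases key p q hpq with ⟨rfl, rfl⟩ | ⟨rfl, rfl⟩ | hc
  · exact mem_insert_of_mem (mem_insert_self _ _)
  · exact mem_insert_self _ _
  · exact mem_insert_of_mem (mem_insert_of_mem (hC.symm p q hc))
  · exact ⟨r, h1⟩
  · exact ⟨s, h2⟩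
  · exact hC.dart p q hc
  · exact hC.odd _ z hz
  · exact ho
  · exact hC.odd p q hc
  · exact fun hh => hi hh.2
  · exact fun hh => hi hh.1
  · exact hC.bd p q hc
  · exact ⟨z, fun e => hn (e ▸ hz), mem_insert_of_mem (mem_insert_of_mem hz)⟩
  · exact absurd hp hi
  · obtain ⟨q', a, b⟩ := hC.two p q hc hp
    exact ⟨q', a, mem_insert_of_mem (mem_insert_of_mem b)⟩

/-- Plan. If `y` is on the boundary, add the chord `vy`: `C'` is a chord system, `K` is closed
for `C'`, and `add_chord` keeps `FF = -4`, `Psi = 4`. By `Cl.induction` and `psi_le_or` some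
`C'`-zone `K₁ ⊆ K` has `FF = -4`; it is reduced, hence tight; it contains one of the two triangles
at `vy` (else it is `C`-closed, so equal to `K`), so by `touch` `v` has a charged dart in `K₁`
other than `vy`: two elements of `chgAt S C K v`. If `y` is interior without chords, `Tight.free`
says that the edge is charged at both ends (`opp_eq`). -/
theorem St.head (hd : d % 2 = 0) (h : St d C S K) (hr : Red S C K)
    (hF : FF d (bdK d C K) = -4) (hP : Psi d (bdK d C K) = 4) {v z y r : V} (hv : Ins d v)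
    (hz : (v, z) ∈ C) (hy : (v, y, r) ∈ chgAt S C K v) :
    Ins d y ∧ ∃ z', (y, z') ∈ bdK d C K := by
  obtain ⟨y1, -, y2, y3, r', s, y4, y5, y6⟩ := Head_mem.mp hy
  simp only at y2 y3 y4 y5
  obtain rfl : r = r' := h.tri.uniq _ _ _ _ (h.cl.sub y1) y4
  have y7 : (y, v, s) ∈ K := h.cl.cl _ _ _ _ y1 y5 y3
  have ov : ¬ Ev v := h.ch.odd v z hz
  have ht : Tight d C S K := ((h.li hd hr).2 hF).tight hd h
  by_cases hi : Ins d y
  · refine ⟨hi, ?_⟩
    by_cases hc : ∃ z', (y, z') ∈ C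
    · obtain ⟨z', hc⟩ := hc
      obtain ⟨⟨z₁, r₁, a, b⟩, -⟩ := h.touch hi hc y7
      exact ⟨z₁, mem_bdK.mpr ⟨⟨r₁, a⟩, Or.inl b⟩⟩
    · obtain ⟨r₁, s₁, a, b, c⟩ := ht.free y v s y7 hi y2 (fun z' e => hc ⟨z', e⟩) ov
      obtain rfl : s = r₁ := h.tri.uniq _ _ _ _ y5 a
      obtain rfl : r = s₁ := h.tri.uniq _ _ _ _ y4 b
      have := (h.tri.opp_eq y4 y5).2
      omega
  · exfalso
    have hC' := Head_ch h.ch hz y4 y5 y2 y3 hi
    obtain ⟨e1, e2⟩ := add_chord h.tri h.cl.sub y1 y7 y3 (fun e => y3 (h.ch.symm _ _ e)) hd ov y2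
    have c1 : (v, y) ∈ Insert.insert (v, y) (Insert.insert (y, v) C) := mem_insert_self _ _
    have c2 : ∀ x ∈ C, x ∈ Insert.insert (v, y) (Insert.insert (y, v) C) := fun x hx =>
      mem_insert_of_mem (mem_insert_of_mem hx)
    have c3 : ∀ p q, (p, q) ∈ Insert.insert (v, y) (Insert.insert (y, v) C) → (p, q) ∉ C →
        (p = v ∧ q = y) ∨ (p = y ∧ q = v) := fun p q a b => by
      simpa only [mem_insert, Prod.mk.injEq, b, or_false] using a
    generalize Insert.insert (v, y) (Insert.insert (y, v) C) = C' at *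
    have hK' : Cl S C' K := ⟨h.cl.sub, h.cl.rot, fun p q r s a b c =>
      h.cl.cl p q r s a b fun e => c (c2 _ e)⟩
    rcases Head_zone hd h.tri hC' hK' with a | ⟨K₁, k1, k2, k3⟩
    · omega
    have ht' : Tight d C' S K₁ := ((k2.li hd fun p q r s a b c =>
      hr p q r s (k1 a) b fun e => c (c2 _ e)).2 k3).tight hd k2
    have k4 : ∃ a b, (v, a, b) ∈ K₁ := by
      by_contra hn
      have k5 : Cl S C K₁ := ⟨k2.cl.sub, k2.cl.rot, fun p q r s a b c => by
        by_cases e : (p, q) ∈ C'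
        · rcases c3 p q e c with ⟨rfl, rfl⟩ | ⟨rfl, rfl⟩
          · exact absurd ⟨_, _, a⟩ hn
          · exact absurd ⟨_, _, k2.cl.rot _ _ _ a⟩ hn
        · exact k2.cl.cl p q r s a b e⟩
      exact hn ⟨y, r, (h.min K₁ k1 k5 k2.ne).symm ▸ y1⟩
    obtain ⟨a, b, k4⟩ := k4
    obtain ⟨⟨z₁, r₁, t1, t2⟩, -⟩ := k2.touch hv c1 k4
    obtain ⟨t, t3⟩ := card_pos.mp ((ht'.apex v z₁ r₁ t1 t2 hv).symm ▸ one_pos)
    obtain ⟨u1, u2, u3, u4, u5⟩ := Head_mem.mp t3
    have t4 : t ∈ chgAt S C K v := Head_mem.mpr ⟨k1 u1, u2, u3, fun e => u4 (c2 _ e), u5⟩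
    obtain ⟨⟨z₂, r₂, t5, t6⟩, -⟩ := h.touch hv hz y1
    have t7 := card_le_one.mp (ht.apex v z₂ r₂ t5 t6 hv).le _ t4 _ hy
    rw [t7] at u4
    exact u4 c1

end Pool.Agent.TC

end

section

/-! The gap at an apex of an exceptional zone. -/

open Finset

namespace Pool.Agent.TC

variable {d : ℤ} {S K S' K' : Finset Tr} {C : Finset (V × V)} {v y r0 r1 : V}

/-- a reduced triangulation `S'` of the same zone in which `v` is adjacent to all even points it
can see, with the charged edge `v y` and its two even opposite vertices -/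
structure Best (d : ℤ) (C : Finset (V × V)) (K S' K' : Finset Tr) (v y r0 r1 : V) : Prop where
  st : St d C S' K'
  same : Same d C K K'
  left : (v, y, r1) ∈ K'
  right : (y, v, r0) ∈ S'
  nc : (v, y) ∉ C
  ov : ¬ Ev v
  oy : ¬ Ev y
  e0 : Ev r0
  e1 : Ev r1
  chg : det (r0 - v) (r1 - v) ≤ 0
  all : ∀ S₁, Tri d S₁ → Ch d S₁ C → ∀ e, Ev e → Edge S₁ v e → Edge S' v e

theorem Besta_edge (h : Tri d S) {p q : V} (he : Edge S p q) :
    InT d q ∧ ∃ a, det (q - p) a = 1 := by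
  rcases he with ⟨r, hr⟩ | ⟨r, hr⟩
  · exact ⟨h.inT2 hr, _, h.uni _ _ _ hr⟩
  · refine ⟨h.inT _ _ _ hr, q - r, ?_⟩
    rw [← h.uni _ _ _ hr]
    simp only [det, Prod.fst_sub, Prod.snd_sub]
    ring

theorem Besta_dot {A Y X : V} (h1 : det A Y = 1) (h2 : det X Y = 0) (h3 : 0 < det A X) :
    0 < X.1 * Y.1 + X.2 * Y.2 := by
  have a1 : X.1 = det A X * Y.1 := by
    simp only [det] at *; linear_combination (-X.1) * h1 + A.1 * h2
  have a2 : X.2 = det A X * Y.2 := by
    simp only [det] at *; linear_combination (-X.2) * h1 + A.2 * h2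
  have a3 : 0 < Y.1 * Y.1 + Y.2 * Y.2 := by
    by_contra hn
    have b1 : Y.1 = 0 := by nlinarith [mul_self_nonneg Y.1, mul_self_nonneg Y.2]
    have b2 : Y.2 = 0 := by nlinarith [mul_self_nonneg Y.1, mul_self_nonneg Y.2]
    simp [det, b1, b2] at h1
  have : X.1 * Y.1 + X.2 * Y.2 = det A X * (Y.1 * Y.1 + Y.2 * Y.2) := by
    linear_combination Y.1 * a1 + Y.2 * a2
  rw [this]
  exact mul_pos h3 a3

/-- Plan: among reduced `(S', K')` with `St`, `Same` (exist by `reduce`) maximize the number of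
even `e ∈ pts d` with `Edge S' v e`; `insert` (no chord crosses `v e` by `not_cross` in `S₁`;
edges at `v` do not cross `v e`) and `reduce` give `all`. `li`, `tight` give the charged dart;
`r0`, `r1` are even by `noOdd`. -/
theorem St.exists_best (hd : d % 2 = 0) (h : St d C S K) (hF : FF d (bdK d C K) = -4) {v z : V}
    (hv : Ins d v) (hz : (v, z) ∈ bdK d C K) : ∃ S' K' y r0 r1, Best d C K S' K' v y r0 r1 := by
  classical
  let f : Finset Tr → Finset V := fun T => (pts d).filter fun e => Ev e ∧ Edge T v e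
  let P : Set ℕ := {n | ∃ S' K', St d C S' K' ∧ Same d C K K' ∧ Red S' C K' ∧ n = (f S').card}
  have hne : P.Nonempty := by
    obtain ⟨S', K', a, b, c, -⟩ := h.reduce
    exact ⟨_, S', K', a, b, c, rfl⟩
  have hb : BddAbove P := ⟨(pts d).card, by
    rintro n ⟨S', K', -, -, -, rfl⟩
    exact card_filter_le _ _⟩
  obtain ⟨S', K', hs, hsame, hred, hn⟩ := Nat.sSup_mem hne hb
  have hz' : (v, z) ∈ bdK d C K' := hsame.1 ▸ hz
  obtain ⟨⟨r, hr⟩, hc⟩ := mem_bdK.1 hz'
  have hc' : (v, z) ∈ C := hc.resolve_right (by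
    obtain ⟨a, b, c⟩ := hv
    unfold Bd
    omega)
  have ht : Tight d C S' K' := ((hs.li hd hred).2 (hsame.1 ▸ hF)).tight hd hs
  obtain ⟨⟨v', y, r1⟩, hm⟩ := card_pos.1 (by rw [ht.apex v z r hr hc' hv]; exact one_pos)
  simp only [chgAt, mem_filter] at hm
  obtain ⟨h1, rfl, hy, hnc, r', r0, h2, h3, h4⟩ := hm
  obtain rfl := hs.tri.uniq _ _ _ _ h2 (hs.cl.sub h1)
  have ho : ¬ Ev v' := hs.ch.odd _ _ hc'
  refine ⟨S', K', y, r0, r', hs, hsame, h1, h3, hnc, ho, hy, ?_, ?_, h4, ?_⟩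
  · exact ((ht.noOdd _ _ _ (hs.cl.cl _ _ _ _ h1 h3 hnc)).resolve_left hy).resolve_left ho
  · exact ((ht.noOdd _ _ _ h1).resolve_left ho).resolve_left hy
  intro S₁ t1 c1 e he hed
  obtain ⟨hin, a, ha⟩ := Besta_edge t1 hed
  have hvT : InT d v' := by
    obtain ⟨a, b, c⟩ := hv
    exact ⟨a.le, b.le, c.le⟩
  obtain ⟨S₂, K₂, s2, m2, e2, k2⟩ := hs.insert hvT hin ha fun a b hab =>
    t1.not_cross hed (Or.inl (c1.dart a b hab))
  obtain ⟨S₃, K₃, s3, m3, r3, k3, -⟩ := s2.reduce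
  have hsub : Insert.insert e (f S') ⊆ f S₃ := by
    intro x hx
    rcases mem_insert.1 hx with rfl | hx
    · exact mem_filter.2 ⟨mem_pts.2 hin, he, k3 _ _ e2 (Or.inr he)⟩
    · obtain ⟨x1, x2, x3⟩ := mem_filter.1 hx
      refine mem_filter.2 ⟨x1, x2, k3 _ _ (k2 _ _ x3 ?_) (Or.inr x2)⟩
      simp [Cross, det]
  have hle : (f S₃).card ≤ (f S').card :=
    hn ▸ le_csSup hb ⟨S₃, K₃, s3, (hsame.trans m2).trans m3, r3, rfl⟩
  by_contra hno
  have : e ∉ f S' := fun hx => hno (mem_filter.1 hx).2.2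
  have := card_le_card hsub
  rw [card_insert_of_notMem ‹_›] at this
  omega

/-- all other edges at `v` lie in the closed cone complementary to the two corners at `v y`
(write `x - v = a (r0 - v) + b (y - v)`; `not_cone_edge`, `edge_eq`, `opp_eq`) -/
theorem Best.outer (h : Best d C K S' K' v y r0 r1) {x : V} (hx : Edge S' v x) (hne : x ≠ y) :
    det (r0 - v) (x - v) ≤ 0 ∧ det (x - v) (r1 - v) ≤ 0 := by
  have t := h.st.tri
  have l1 := h.st.cl.sub h.left
  have l0 := t.rot _ _ _ h.right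
  have u0 := t.uni _ _ _ l0
  have u1 := t.uni _ _ _ l1
  have c0 := t.not_cone_edge l0 hx
  have c1 := t.not_cone_edge l1 hx
  have hm := h.chg
  have he := fun a b => hne (t.edge_eq hx (Or.inl ⟨_, l1⟩) a b)
  generalize r0 - v = A at *
  generalize r1 - v = B at *
  generalize y - v = Y at *
  generalize x - v = X at *
  have k : det X B = det X Y * det A B + det A X := by
    have e1 : det X B * det A Y = det X Y * det A B + det A X * det Y B := by
      simp only [det]; ring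
    rwa [u0, u1, mul_one, mul_one] at e1
  have k2 : det Y X = -det X Y := by simp only [det]; ring
  unfold Cone at c0 c1
  rcases lt_trichotomy (det X Y) 0 with ha | ha | ha
  · have : det X B ≤ 0 := by omega
    have := mul_nonneg_of_nonpos_of_nonpos ha.le hm
    omega
  · have : det A X ≤ 0 := by
      by_contra hb
      refine he ha (Besta_dot u0 ha (by omega))
    rw [k, ha]
    omega
  · have : det A X ≤ 0 := by omega
    have := mul_nonpos_of_nonneg_of_nonpos ha.le hm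
    omega

/-- parity: the determinant of an odd-even and an odd-odd primitive direction is odd -/
theorem det_odd {v e x a : V} (hv : ¬ Ev v) (he : Ev e) (hx : ¬ Ev x)
    (h1 : det (x - v) a = 1) : det (e - v) (x - v) % 2 = 1 := by
  obtain ⟨v1, v2⟩ := v
  obtain ⟨e1, e2⟩ := e
  obtain ⟨x1, x2⟩ := x
  obtain ⟨a1, a2⟩ := a
  simp only [det, Ev, Prod.fst_sub, Prod.snd_sub] at *
  have h2 : ¬ ((x1 - v1) % 2 = 0 ∧ (x2 - v2) % 2 = 0) := by
    rintro ⟨p, q⟩
    have := congrArg (· % 2) h1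
    simp [Int.sub_emod ((x1 - v1) * a2), Int.mul_emod, p, q] at this
  rw [Int.sub_emod, Int.mul_emod, Int.mul_emod (e2 - v2)]
  rcases Int.emod_two_eq_zero_or_one (e1 - v1) with p1 | p1 <;>
  rcases Int.emod_two_eq_zero_or_one (e2 - v2) with p2 | p2 <;>
  rcases Int.emod_two_eq_zero_or_one (x1 - v1) with p3 | p3 <;>
  rcases Int.emod_two_eq_zero_or_one (x2 - v2) with p4 | p4 <;>
  first | (rw [p1, p2, p3, p4]; rfl) | omega

/-- Stern-Brocot: if no even neighbour of `v` lies in the open cone of `(e, y)` but the neighbour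
`x` does, then `x - v = j (e - v) + (y - v)`. Induction on `i` with the cone of
`(e, y + i (e - v))`, `mediant` twice (the mediant of two consecutive `y + i (e - v)` is even). The
second part is the mirror image. -/
theorem Tri.sb (h : Tri d S) {v e y x : V} (hv : ¬ Ev v) (he : Ev e) (h1 : Edge S v e)
    (h2 : Edge S v y) (h3 : Edge S v x) :
    (det (e - v) (y - v) = 1 → Cone (e - v) (y - v) (x - v) →
      (∀ e', Ev e' → Edge S v e' → ¬ Cone (e - v) (y - v) (e' - v)) → det (e - v) (x - v) = 1) ∧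
    (det (y - v) (e - v) = 1 → Cone (y - v) (e - v) (x - v) →
      (∀ e', Ev e' → Edge S v e' → ¬ Cone (y - v) (e - v) (e' - v)) →
        det (x - v) (e - v) = 1) := by
  constructor
  · intro hd hc hno
    have key : ∀ i : ℕ, det (e - v) (x - v) = 1 ∨ (Edge S v (y + (i : ℤ) • (e - v)) ∧
        0 < det (x - v) (y + (i : ℤ) • (e - v) - v)) := by
      intro i
      induction i with
      | zero => exact Or.inr (by simpa using ⟨h2, hc.2⟩)
      | succ i ih =>
        rcases ih with ih | ⟨i1, i2⟩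
        · exact Or.inl ih
        have q : y + ((i + 1 : ℕ) : ℤ) • (e - v) = e + (y + (i : ℤ) • (e - v)) - v := by
          push_cast; rw [add_smul, one_smul]; abel
        have d1 : ∀ j : ℤ, det (e - v) (y + j • (e - v) - v) = 1 := fun j => by
          rw [← hd]; simp only [det, Prod.fst_sub, Prod.snd_sub, Prod.fst_add, Prod.snd_add,
            Prod.smul_fst, Prod.smul_snd, smul_eq_mul]; ring
        have m1 := h.mediant h1 i1 h3 (d1 i) ⟨hc.1, i2⟩
        rw [← q] at m1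
        rcases lt_trichotomy (det (x - v) (y + ((i + 1 : ℕ) : ℤ) • (e - v) - v)) 0 with g | g | g
        · exfalso
          have m2 := h.mediant m1 i1 h3 (by
            rw [← hd]; simp only [det, Prod.fst_sub, Prod.snd_sub, Prod.fst_add, Prod.snd_add,
              Prod.smul_fst, Prod.smul_snd, smul_eq_mul]; push_cast; ring)
            ⟨by simp only [det] at g ⊢; linarith, i2⟩
          refine hno _ ?_ m2 ?_
          · obtain ⟨a, b⟩ := he
            simp only [Ev, Prod.fst_sub, Prod.snd_sub, Prod.fst_add, Prod.snd_add,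
              Prod.smul_fst, Prod.smul_snd, smul_eq_mul]
            push_cast
            rw [add_mul, add_mul]
            omega
          · simp only [Cone, det, Prod.fst_sub, Prod.snd_sub, Prod.fst_add, Prod.snd_add,
              Prod.smul_fst, Prod.smul_snd, smul_eq_mul] at hd ⊢
            push_cast
            have : (0 : ℤ) ≤ i := Int.natCast_nonneg i
            constructor
            · linarith [show (0 : ℤ) < 2 by norm_num]
            · nlinarith
        · left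
          rw [h.edge_eq h3 m1 g (Besta_dot (d1 _) g hc.1)]
          exact d1 _
        · exact Or.inr ⟨m1, g⟩
    rcases key (det (x - v) (y - v)).toNat with k | ⟨-, k⟩
    · exact k
    exfalso
    obtain ⟨c1, c2⟩ := hc
    rw [Int.toNat_of_nonneg c2.le] at k
    have : det (x - v) (y + det (x - v) (y - v) • (e - v) - v) =
        det (x - v) (y - v) * (1 - det (e - v) (x - v)) := by
      generalize hg : det (x - v) (y - v) = a
      simp only [det, Prod.fst_sub, Prod.snd_sub, Prod.fst_add, Prod.snd_add,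
        Prod.smul_fst, Prod.smul_snd, smul_eq_mul] at hg ⊢
      linear_combination hg
    nlinarith
  · intro hd hc hno
    have key : ∀ i : ℕ, det (x - v) (e - v) = 1 ∨ (Edge S v (y + (i : ℤ) • (e - v)) ∧
        0 < det (y + (i : ℤ) • (e - v) - v) (x - v)) := by
      intro i
      induction i with
      | zero => exact Or.inr (by simpa using ⟨h2, hc.1⟩)
      | succ i ih =>
        rcases ih with ih | ⟨i1, i2⟩
        · exact Or.inl ih
        have q : y + ((i + 1 : ℕ) : ℤ) • (e - v) = y + (i : ℤ) • (e - v) + e - v := by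
          push_cast; rw [add_smul, one_smul]; abel
        have d1 : ∀ j : ℤ, det (y + j • (e - v) - v) (e - v) = 1 := fun j => by
          rw [← hd]; simp only [det, Prod.fst_sub, Prod.snd_sub, Prod.fst_add, Prod.snd_add,
            Prod.smul_fst, Prod.smul_snd, smul_eq_mul]; ring
        have m1 := h.mediant i1 h1 h3 (d1 i) ⟨i2, hc.2⟩
        rw [← q] at m1
        rcases lt_trichotomy (det (y + ((i + 1 : ℕ) : ℤ) • (e - v) - v) (x - v)) 0 with g | g | g
        · exfalso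
          have m2 := h.mediant i1 m1 h3 (by
            rw [← hd]; simp only [det, Prod.fst_sub, Prod.snd_sub, Prod.fst_add, Prod.snd_add,
              Prod.smul_fst, Prod.smul_snd, smul_eq_mul]; push_cast; ring)
            ⟨i2, by simp only [det] at g ⊢; linarith⟩
          refine hno _ ?_ m2 ?_
          · obtain ⟨a, b⟩ := he
            simp only [Ev, Prod.fst_sub, Prod.snd_sub, Prod.fst_add, Prod.snd_add,
              Prod.smul_fst, Prod.smul_snd, smul_eq_mul]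
            push_cast
            rw [add_mul, add_mul]
            omega
          · simp only [Cone, det, Prod.fst_sub, Prod.snd_sub, Prod.fst_add, Prod.snd_add,
              Prod.smul_fst, Prod.smul_snd, smul_eq_mul] at hd ⊢
            push_cast
            have : (0 : ℤ) ≤ i := Int.natCast_nonneg i
            constructor
            · nlinarith
            · linarith [show (0 : ℤ) < 2 by norm_num]
        · left
          have g' : det (x - v) (y + ((i + 1 : ℕ) : ℤ) • (e - v) - v) = 0 := by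
            simp only [det] at g ⊢; linarith
          have n1 : ∀ a b : V, det (-a) b = det b a := fun a b => by simp only [det]; simp; ring
          rw [h.edge_eq h3 m1 g' (Besta_dot (A := -(e - v)) (by rw [n1]; exact d1 _) g'
            (by rw [n1]; exact hc.2))]
          exact d1 _
        · exact Or.inr ⟨m1, g⟩
    rcases key (det (y - v) (x - v)).toNat with k | ⟨-, k⟩
    · exact k
    exfalso
    obtain ⟨c1, c2⟩ := hc
    rw [Int.toNat_of_nonneg c1.le] at k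
    have : det (y + det (y - v) (x - v) • (e - v) - v) (x - v) =
        det (y - v) (x - v) * (1 - det (x - v) (e - v)) := by
      generalize hg : det (y - v) (x - v) = a
      simp only [det, Prod.fst_sub, Prod.snd_sub, Prod.fst_add, Prod.snd_add,
        Prod.smul_fst, Prod.smul_snd, smul_eq_mul] at hg ⊢
      linear_combination hg
    nlinarith

end Pool.Agent.TC

end

section

/-! The gap at an apex of an exceptional zone. -/

open Finset

namespace Pool.Agent.TC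

variable {d : ℤ} {S K S' K' : Finset Tr} {C : Finset (V × V)} {v y r0 r1 : V}

theorem Bestb_cram {a b c : V} (h : det a b = 1) (h' : det a c = 1) (h0 : det c b = 0) :
    c = b := by
  obtain ⟨a1, a2⟩ := a
  obtain ⟨b1, b2⟩ := b
  obtain ⟨c1, c2⟩ := c
  simp only [det, Prod.mk.injEq] at *
  constructor
  · linear_combination (-c1) * h + b1 * h' + a1 * h0
  · linear_combination (-c2) * h + b2 * h' + a2 * h0

theorem Bestb_anti (a b : V) : det a b = -det b a := by simp only [det]; ring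

theorem Bestb_edge {p q r : V} (h : (p, q, r) ∈ S) : Edge S p q := Or.inl ⟨r, h⟩

theorem Bestb_edge3 (h : Tri d S) {p q r : V} (ht : (p, q, r) ∈ S) : Edge S p r :=
  Or.inr ⟨q, h.rot2 ht⟩

/-- even neighbours of `v` lie in the outer cone -/
theorem Bestb_ev (h : Best d C K S' K' v y r0 r1) {S₁ : Finset Tr} (h1 : Tri d S₁)
    (hC : Ch d S₁ C) {e : V} (he : Ev e) (hx : Edge S₁ v e) :
    det (r0 - v) (e - v) ≤ 0 ∧ det (e - v) (r1 - v) ≤ 0 :=
  h.outer (h.all S₁ h1 hC e he hx) fun e1 => h.oy (e1 ▸ he)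

/-- chords at `v` lie in the outer cone -/
theorem Bestb_chord (h : Best d C K S' K' v y r0 r1) {z : V} (hz : (v, z) ∈ C) :
    det (r0 - v) (z - v) ≤ 0 ∧ det (z - v) (r1 - v) ≤ 0 :=
  h.outer (Or.inl (h.st.ch.dart _ _ hz)) fun e1 => h.nc (e1 ▸ hz)

theorem Bestb_flip_edge (h : Tri d S) {p q r s : V} (h1 : (p, q, r) ∈ S) (h2 : (q, p, s) ∈ S)
    (hp : r + s = p + q) {b : V} (hb : Edge S p b) (hne : b ≠ q) : Edge (flp S p q r s) p b := by
  have hpq : p ≠ q := by
    rintro rfl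
    have := h.uni _ _ _ h1
    simp [det] at this
  rcases hb with hb | hb
  · refine Or.inl ((h.flip_dart h1 h2 hp p b).mpr (Or.inl ⟨hb, ?_, ?_⟩))
    · exact fun e => hne (Prod.mk.inj e).2
    · exact fun e => hpq (Prod.mk.inj e).1
  · refine Or.inr ((h.flip_dart h1 h2 hp b p).mpr (Or.inl ⟨hb, ?_, ?_⟩))
    · exact fun e => hpq (Prod.mk.inj e).2
    · exact fun e => hne (Prod.mk.inj e).1

theorem Bestb_flip_lt (h : Tri d S) {p q r s : V} (h1 : (p, q, r) ∈ S) (h2 : (q, p, s) ∈ S)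
    (hp : r + s = p + q) :
    ∑ t ∈ flp S p q r s, (if t.1 = p then 1 else 0 : ℕ) <
      ∑ t ∈ S, (if t.1 = p then 1 else 0 : ℕ) := by
  have e := h.flip_sum h1 h2 hp (fun a _ => (if a = p then 1 else 0 : ℕ))
  have hr : r ≠ p := by
    rintro rfl
    have := h.uni _ _ _ h1
    simp [det] at this
  have hs : s ≠ p := by
    rintro rfl
    have := h.uni _ _ _ h2
    simp only [det] at this
    have : (0 : ℤ) = 1 := by linear_combination this
    omega
  simp only [if_true, if_neg hr, if_neg hs] at e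
  omega

theorem Bestb_step (h : Best d C K S' K' v y r0 r1) (hv : Ins d v) (hm : r0 + r1 = v + v)
    {S₁ K₁ : Finset Tr} (h1 : St d C S₁ K₁) {x : V} (e0 : Edge S₁ v r0)
    (e1 : Edge S₁ v r1) (ex : Edge S₁ v x) (hx : det (r0 - v) (x - v) = 1)
    (hn : ¬ ((v, x, r1) ∈ S₁ ∧ (x, v, r0) ∈ S₁)) :
    ∃ p r s, (v, p, r) ∈ S₁ ∧ (p, v, s) ∈ S₁ ∧ r + s = v + p ∧ p ≠ x ∧
      det (r0 - v) (p - v) = 1 := by
  have T := h1.tri
  have hB : r1 - v = -(r0 - v) := by linear_combination hm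
  have hneg : ∀ u : V, det u (r1 - v) = det (r0 - v) u := fun u => by
    rw [hB]; simp only [det, Prod.fst_neg, Prod.snd_neg]; ring
  by_cases c0 : (x, v, r0) ∈ S₁
  · have c1 : (v, x, r1) ∉ S₁ := fun c1 => hn ⟨c1, c0⟩
    obtain ⟨s, hs⟩ := (T.edge_ins hv e1).2
    have hs' : (v, s, r1) ∈ S₁ := T.rot _ _ _ hs
    have hsx : s ≠ x := fun e => c1 (e ▸ hs')
    have u1 : det (r0 - v) (s - v) = 1 := by rw [← hneg]; exact T.uni _ _ _ hs'
    have es : Edge S₁ v s := Bestb_edge hs'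
    have j0 : det (x - v) (s - v) ≠ 0 := fun e =>
      hsx (sub_left_injective (Bestb_cram u1 hx e)).symm
    have j1 : ¬ 0 < det (s - v) (x - v) := fun e =>
      T.not_cone_edge hs' ex ⟨e, by rw [hneg, hx]; exact one_pos⟩
    have j2 : 0 < det (x - v) (s - v) := by
      have := Bestb_anti (s - v) (x - v); omega
    have em : Edge S₁ v (r0 + s - v) := T.mediant e0 es ex u1 ⟨by rw [hx]; exact one_pos, j2⟩
    obtain ⟨u, hu⟩ := (T.edge_ins hv es).2
    have hu' : (v, u, s) ∈ S₁ := T.rot _ _ _ hu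
    have u2 : det (u - v) (s - v) = 1 := T.uni _ _ _ hu'
    have u3 : det (r0 + s - v - v) (s - v) = 1 := by
      rw [← u1]; simp only [det, Prod.fst_sub, Prod.snd_sub, Prod.fst_add, Prod.snd_add]; ring
    have k1 : ¬ 0 < det (u - v) (r0 + s - v - v) := fun e =>
      T.not_cone_edge hu' em ⟨e, by rw [u3]; exact one_pos⟩
    have k2 : ¬ 0 < det (r0 + s - v - v) (u - v) := fun e => by
      have em2 := T.mediant em es (Bestb_edge hu') u3 ⟨e, by rw [u2]; exact one_pos⟩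
      have hev : Ev (r0 + s - v + s - v) := by
        have := h.e0
        simp only [Ev, Prod.fst_sub, Prod.snd_sub, Prod.fst_add, Prod.snd_add] at this ⊢
        omega
      have := (Bestb_ev h T h1.ch hev em2).1
      have e2 : det (r0 - v) (r0 + s - v + s - v - v) = 2 * det (r0 - v) (s - v) := by
        simp only [det, Prod.fst_sub, Prod.snd_sub, Prod.fst_add, Prod.snd_add]; ring
      omega
    have k3 : u - v = r0 + s - v - v := by
      have a1 := Bestb_anti (u - v) (r0 + s - v - v)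
      have a2 := Bestb_anti (s - v) (u - v)
      have a3 := Bestb_anti (s - v) (r0 + s - v - v)
      have := Bestb_cram (a := -(s - v)) (b := r0 + s - v - v) (c := u - v)
        (by rw [← u3]; simp only [det, Prod.fst_neg, Prod.snd_neg]; ring)
        (by rw [← u2]; simp only [det, Prod.fst_neg, Prod.snd_neg]; ring) (by omega)
      exact this
    refine ⟨s, r1, u, hs', hu, ?_, hsx, u1⟩
    linear_combination k3 + hm
  · obtain ⟨p, hp⟩ := (T.edge_ins hv e0).1
    have hp' : (p, v, r0) ∈ S₁ := T.rot2 hp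
    have hpx : p ≠ x := fun e => c0 (e ▸ hp')
    have u1 : det (r0 - v) (p - v) = 1 := T.uni _ _ _ hp
    have ep : Edge S₁ v p := Bestb_edge3 T hp
    have j0 : det (x - v) (p - v) ≠ 0 := fun e =>
      hpx (sub_left_injective (Bestb_cram u1 hx e)).symm
    have j1 : ¬ 0 < det (x - v) (p - v) := fun e =>
      T.not_cone_edge hp ex ⟨by rw [hx]; exact one_pos, e⟩
    have j2 : 0 < det (p - v) (x - v) := by
      have := Bestb_anti (p - v) (x - v); omega
    have em : Edge S₁ v (p + r1 - v) :=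
      T.mediant ep e1 ex (by rw [hneg, u1]) ⟨j2, by rw [hneg, hx]; exact one_pos⟩
    obtain ⟨u, hu⟩ := (T.edge_ins hv ep).1
    have u2 : det (p - v) (u - v) = 1 := T.uni _ _ _ hu
    have u3 : det (p - v) (p + r1 - v - v) = 1 := by
      rw [← u1, ← hneg]
      simp only [det, Prod.fst_sub, Prod.snd_sub, Prod.fst_add, Prod.snd_add]; ring
    have k1 : ¬ 0 < det (p + r1 - v - v) (u - v) := fun e =>
      T.not_cone_edge hu em ⟨by rw [u3]; exact one_pos, e⟩
    have k2 : ¬ 0 < det (u - v) (p + r1 - v - v) := fun e => by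
      have em2 := T.mediant ep em (Bestb_edge3 T hu) u3 ⟨by rw [u2]; exact one_pos, e⟩
      have hev : Ev (p + (p + r1 - v) - v) := by
        have := h.e1
        simp only [Ev, Prod.fst_sub, Prod.snd_sub, Prod.fst_add, Prod.snd_add] at this ⊢
        omega
      have := (Bestb_ev h T h1.ch hev em2).2
      have e2 : det (p + (p + r1 - v) - v - v) (r1 - v) = 2 * det (p - v) (r1 - v) := by
        simp only [det, Prod.fst_sub, Prod.snd_sub, Prod.fst_add, Prod.snd_add]; ring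
      rw [e2, hneg, u1] at this
      omega
    have k3 : u - v = p + r1 - v - v := by
      have a1 := Bestb_anti (u - v) (p + r1 - v - v)
      exact Bestb_cram u3 u2 (by omega)
    refine ⟨p, u, r0, hu, hp', ?_, hpx, u1⟩
    linear_combination k3 + hm

/-- straight case `r0 + r1 = 2 v`: every visible point `x` at height one can be made the only
neighbour on its side. Plan: among `(S₂, K₂)` with `St`, `Same`, edges `v r0`, `v r1`, `v x`
minimize the number of triples at `v`. If the corner `(v, r0, p)` has `p ≠ x`, then `p` has height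
one, `p + r1 - v` is a neighbour (`mediant` for `p`, `r1`), the corner after `v p` is
`(v, p, p + r1 - v)` (else the even mediant of these two is a neighbour of height two,
contradicting `all` + `outer`), and `v p` (not a chord, by `outer`) can be flipped. Same on the
other side. -/
theorem Best.straight (h : Best d C K S' K' v y r0 r1) (hv : Ins d v) (hm : r0 + r1 = v + v)
    {S₁ K₁ : Finset Tr} (h1 : St d C S₁ K₁) (hs : Same d C K K₁) {x : V} (e0 : Edge S₁ v r0)
    (e1 : Edge S₁ v r1) (ex : Edge S₁ v x) (hx : det (r0 - v) (x - v) = 1) :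
    ∃ S₂ K₂, St d C S₂ K₂ ∧ Same d C K K₂ ∧ (v, x, r1) ∈ S₂ ∧ (x, v, r0) ∈ S₂ := by
  induction hn : ∑ t ∈ S₁, (if t.1 = v then 1 else 0 : ℕ) using Nat.strong_induction_on
    generalizing S₁ K₁ with
  | _ n ih =>
  by_cases c : (v, x, r1) ∈ S₁ ∧ (x, v, r0) ∈ S₁
  · exact ⟨S₁, K₁, h1, hs, c.1, c.2⟩
  obtain ⟨p, r, s, t1, t2, hp, hpx, hh⟩ := Bestb_step h hv hm h1 e0 e1 ex hx c
  have hc : (v, p) ∉ C := fun hc => by
    have := (Bestb_chord h hc).1
    omega
  obtain ⟨K₂, h2, hs2⟩ := h1.flip t1 t2 hp hc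
  have n0 : r0 ≠ p := by
    rintro rfl
    simp only [det] at hh
    have : (0 : ℤ) = 1 := by linear_combination hh
    omega
  have n1 : r1 ≠ p := by
    rintro rfl
    have hB : r1 - v = -(r0 - v) := by linear_combination hm
    rw [hB] at hh
    simp only [det, Prod.fst_neg, Prod.snd_neg] at hh
    have : (0 : ℤ) = 1 := by linear_combination hh
    omega
  exact ih _ (hn ▸ Bestb_flip_lt h1.tri t1 t2 hp) h2 (hs.trans hs2)
    (Bestb_flip_edge h1.tri t1 t2 hp e0 n0) (Bestb_flip_edge h1.tri t1 t2 hp e1 n1)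
    (Bestb_flip_edge h1.tri t1 t2 hp ex hpx.symm) rfl

end Pool.Agent.TC

end

section

/-! The gap at an apex of an exceptional zone. -/

open Finset

namespace Pool.Agent.TC

variable {d : ℤ} {S K S' K' : Finset Tr} {C : Finset (V × V)} {v y r0 r1 : V}

theorem Best_prim (h : Tri d S) {p q : V} (he : Edge S p q) :
    InT d p ∧ InT d q ∧ ∃ u, det (q - p) u = 1 := by
  rcases he with ⟨r, hr⟩ | ⟨r, hr⟩
  · exact ⟨h.inT _ _ _ hr, h.inT2 hr, _, h.uni _ _ _ hr⟩
  · refine ⟨h.inT2 hr, h.inT _ _ _ hr, -(r - q), ?_⟩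
    rw [← h.uni _ _ _ hr]
    simp only [det, Prod.fst_sub, Prod.snd_sub, Prod.fst_neg, Prod.snd_neg]; ring

theorem Best_nc (v x b : V) : ¬ Cross v x v b := by
  rintro ⟨h, -⟩
  simp [det] at h

/-- the edge can be made the only one between `r0` and `r1` -/
theorem Best_core (h : Best d C K S' K' v y r0 r1) (hv : Ins d v) {S₁ : Finset Tr}
    (h1 : Tri d S₁) (hC : Ch d S₁ C) {x : V} (hx : Edge S₁ v x)
    (hp : 0 < det (r0 - v) (x - v) + det (x - v) (r1 - v)) :
    ∃ S₂ K₂, St d C S₂ K₂ ∧ Same d C K K₂ ∧ (v, x, r1) ∈ S₂ ∧ (x, v, r0) ∈ S₂ := by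
  have T := h.st.tri
  have hl : (v, y, r1) ∈ S' := h.st.cl.sub h.left
  by_cases hxy : x = y
  · subst hxy
    exact ⟨S', K', h.st, h.same, hl, h.right⟩
  obtain ⟨iv, ix, u, hu⟩ := Best_prim h1 hx
  obtain ⟨S₃, K₃, h3, s3, ex, keep⟩ := h.st.insert iv ix hu fun a b hab =>
    h1.not_cross hx (Or.inl (hC.dart _ _ hab))
  have hr : (v, r0, y) ∈ S' := T.rot _ _ _ h.right
  have e0 : Edge S₃ v r0 := keep _ _ (Bestb_edge hr) (Best_nc _ _ _)
  have e1 : Edge S₃ v r1 := keep _ _ (Bestb_edge3 T hl) (Best_nc _ _ _)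
  have ey : Edge S₃ v y := keep _ _ (Bestb_edge hl) (Best_nc _ _ _)
  have u0 : det (r0 - v) (y - v) = 1 := T.uni _ _ _ hr
  have u1 : det (y - v) (r1 - v) = 1 := T.uni _ _ _ hl
  have hm := (T.opp_eq hl h.right).1
  have hm0 := h.chg
  generalize det (r0 - v) (r1 - v) = m at hm hm0
  have hB : r1 - v = m • (y - v) - (r0 - v) := by linear_combination hm
  have hγ : det (x - v) (r1 - v) = m * det (x - v) (y - v) + det (r0 - v) (x - v) := by
    rw [hB]
    simp only [det, Prod.fst_sub, Prod.snd_sub, Prod.smul_fst, Prod.smul_snd, smul_eq_mul]; ring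
  have hev : m % 2 = 0 := by
    have a1 := congrArg Prod.fst hm
    have a2 := congrArg Prod.snd hm
    have b0 := h.e0
    have b1 := h.e1
    simp only [Ev, det, Prod.fst_sub, Prod.snd_sub, Prod.fst_add, Prod.snd_add, Prod.smul_fst,
      Prod.smul_snd, smul_eq_mul] at a1 a2 b0 b1 u0
    obtain ⟨i, hi⟩ : ∃ i, m * (y.1 - v.1) = 2 * i := ⟨(r0.1 + r1.1) / 2 - v.1, by omega⟩
    obtain ⟨j, hj⟩ : ∃ j, m * (y.2 - v.2) = 2 * j := ⟨(r0.2 + r1.2) / 2 - v.2, by omega⟩
    have : m = 2 * ((r0.1 - v.1) * j - (r0.2 - v.2) * i) := by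
      linear_combination (-m) * u0 + (r0.1 - v.1) * hj - (r0.2 - v.2) * hi
    omega
  have key : m = 0 ∧ det (r0 - v) (x - v) = 1 := by
    rcases lt_trichotomy (det (x - v) (y - v)) 0 with ha | ha | ha
    · have ha' : 0 < det (y - v) (x - v) := by
        have := Bestb_anti (y - v) (x - v); omega
      have hma : 0 ≤ m * det (x - v) (y - v) := mul_nonneg_of_nonpos_of_nonpos hm0 ha.le
      have hg : det (x - v) (r1 - v) = 1 :=
        (h3.tri.sb h.ov h.e1 e1 ey ex).2 u1 ⟨ha', by omega⟩ fun e he hE hc => by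
          have := (Bestb_ev h h3.tri h3.ch he hE).2
          have := hc.2
          omega
      have hm1 : m = 0 := by
        by_contra hne
        have : m ≤ -2 := by omega
        nlinarith
      subst hm1
      exact ⟨rfl, by omega⟩
    · exfalso
      have hb : 0 < det (r0 - v) (x - v) := by rw [ha] at hγ; omega
      have hX : x - v = det (r0 - v) (x - v) • (y - v) := by
        simp only [det, Prod.fst_sub, Prod.snd_sub] at ha u0
        ext
        · simp only [det, Prod.fst_sub, Prod.snd_sub, Prod.smul_fst, smul_eq_mul]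
          linear_combination (-(x.1 - v.1)) * u0 + (r0.1 - v.1) * ha
        · simp only [det, Prod.fst_sub, Prod.snd_sub, Prod.smul_snd, smul_eq_mul]
          linear_combination (-(x.2 - v.2)) * u0 + (r0.2 - v.2) * ha
      generalize det (r0 - v) (x - v) = b at hX hb
      have hb1 : b * det (y - v) u = 1 := by
        rw [← hu, hX]
        simp only [det, Prod.smul_fst, Prod.smul_snd, smul_eq_mul]; ring
      have : b = 1 := Int.eq_one_of_mul_eq_one_right hb.le hb1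
      rw [this, one_smul] at hX
      exact hxy (sub_left_injective hX)
    · have hma : m * det (x - v) (y - v) ≤ 0 := mul_nonpos_of_nonpos_of_nonneg hm0 ha.le
      have hg : det (r0 - v) (x - v) = 1 :=
        (h3.tri.sb h.ov h.e0 e0 ey ex).1 u0 ⟨by omega, ha⟩ fun e he hE hc => by
          have := (Bestb_ev h h3.tri h3.ch he hE).1
          have := hc.1
          omega
      refine ⟨?_, hg⟩
      by_contra hne
      have : m ≤ -2 := by omega
      nlinarith
  obtain ⟨rfl, hx1⟩ := key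
  rw [zero_smul] at hm
  exact h.straight hv (by linear_combination hm) h3 (h.same.trans s3) e0 e1 ex hx1

/-- edges with positive value. Plan: `x = y`, or insert `v x` into `S'`; `sb` and
`r1 - v = m (y - v) - (r0 - v)` with `m ≤ 0` even give value `j m + 2`, so `m = 0`; `straight`,
`reduce`; the triangle is in the zone because a generic direction next to `r1 - v` lies in both
`(v, y, r1)` and `(v, x, r1)`; `v x` is not a chord by `outer`. -/
theorem Best.pos (h : Best d C K S' K' v y r0 r1) (hv : Ins d v) {S₁ : Finset Tr}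
    (h1 : Tri d S₁) (hC : Ch d S₁ C) {x : V} (hx : Edge S₁ v x)
    (hp : 0 < det (r0 - v) (x - v) + det (x - v) (r1 - v)) :
    det (r0 - v) (x - v) + det (x - v) (r1 - v) = 2 ∧ ¬ Ev x ∧
      ∃ S₂ K₂, St d C S₂ K₂ ∧ Same d C K K₂ ∧ Red S₂ C K₂ ∧ (v, x, r1) ∈ chgAt S₂ C K₂ v ∧
        (x, v, r0) ∈ S₂ := by
  have ox : ¬ Ev x := fun he => by
    have := Bestb_ev h h1 hC he hx
    omega
  have nc : (v, x) ∉ C := fun hc => by
    have := Bestb_chord h hc
    omega
  obtain ⟨S₂, K₂, h2, s2, t1, t2⟩ := Best_core h hv h1 hC hx hp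
  have u0 : det (r0 - v) (x - v) = 1 := h2.tri.uni _ _ _ (h2.tri.rot _ _ _ t2)
  have u1 : det (x - v) (r1 - v) = 1 := h2.tri.uni _ _ _ t1
  obtain ⟨S₄, K₄, h4, s4, red, -, keep⟩ := h2.reduce
  obtain ⟨t3, t4⟩ := keep _ _ _ _ t1 t2 h.e1 h.e0
  refine ⟨by omega, ox, S₄, K₄, h4, s2.trans s4, red, ?_, t4⟩
  have T := h.st.tri
  have hl : (v, y, r1) ∈ S' := h.st.cl.sub h.left
  have w1 : det (y - v) (r1 - v) = 1 := T.uni _ _ _ hl
  have w2 : det (r1 - v) (y - v) = -1 := by rw [Bestb_anti, w1]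
  obtain ⟨ξ, hg, hξ⟩ := exists_gen d (x := r1 - v) (y := y - v) (by omega)
  have iv := T.inT _ _ _ hl
  have c0 : 0 < det ξ (r1 - v) := by
    have := ((hξ (r1 - v) (iv.bnd (T.inT3 hl))).2.2 (by simp only [det]; ring)).2 (by omega)
    have := Bestb_anti ξ (r1 - v)
    omega
  have c1 : Cone (y - v) (r1 - v) ξ := ⟨(hξ _ (iv.bnd (T.inT2 hl))).1 (by omega), c0⟩
  have c2 : Cone (x - v) (r1 - v) ξ := ⟨(hξ _ (iv.bnd (h4.tri.inT2 t3))).1 (by omega), c0⟩
  obtain ⟨a, b, hab, c3⟩ :=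
    ((h.same.symm.trans (s2.trans s4)).2 v ξ hg).mp ⟨y, r1, h.left, c1⟩
  obtain ⟨rfl, rfl⟩ := h4.tri.corner_unique (h4.cl.sub hab) t3 c3 c2
  classical
  simp only [chgAt, mem_filter]
  exact ⟨hab, trivial, ox, nc, _, _, t3, t4, h.chg⟩

end Pool.Agent.TC

end

section

/-! Regular triangulations have no exceptional zone; the bound for a colour class. -/

open Finset

namespace Pool.Agent.TC

variable {d : ℤ} {S K : Finset Tr} {C : Finset (V × V)} {ω : V → V → ℝ}

private theorem Stressa_chord {v z : V} (hv : Ins d v) (hz : (v, z) ∈ bdK d C K) :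
    (v, z) ∈ C := by
  refine (mem_bdK.1 hz).2.resolve_right fun hb => ?_
  simp only [Ins, Bd] at hv hb; omega

private theorem Stressa_det (r0 r1 v x : V) :
    det (r0 - r1) (x - v) = det (r0 - v) (x - v) + det (x - v) (r1 - v) := by
  simp only [det, Prod.fst_sub, Prod.snd_sub]; ring

/-- the value at the other end of an edge with positive value -/
private theorem Stressa_back {S₂ Sx Kx : Finset Tr} {v x r0 r1 y a0 a1 : V} (h2 : Tri d S₂)
    (hC : Ch d S₂ C) (hl : (v, x, r1) ∈ S₂) (hr : (x, v, r0) ∈ S₂) (hv : ¬ Ev v) (e0 : Ev r0)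
    (e1 : Ev r1) (hm : det (r0 - v) (r1 - v) ≤ 0) (b : Best d C K Sx Kx x y a0 a1) :
    det (a0 - a1) (v - x) ≤ -2 := by
  have o0 := b.outer (b.all S₂ h2 hC r0 e0 (.inr ⟨_, h2.rot2 hr⟩)) fun e => b.oy (e ▸ e0)
  have o1 := b.outer (b.all S₂ h2 hC r1 e1 (.inl ⟨_, h2.rot _ _ _ hl⟩)) fun e => b.oy (e ▸ e1)
  obtain ⟨q1, q2⟩ := h2.opp_eq hr hl
  have u := h2.uni _ _ _ hr
  have p0 := det_odd b.ov b.e0 hv u
  have p1 := det_odd b.ov b.e1 hv u
  generalize det (r1 - x) (r0 - x) = m at q1 q2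
  have hm2 : 2 ≤ m := by omega
  have s0 : m * det (a0 - x) (v - x) = det (a0 - x) (r1 - x) + det (a0 - x) (r0 - x) := by
    have f1 := congrArg Prod.fst q1
    have f2 := congrArg Prod.snd q1
    simp only [det, Prod.fst_sub, Prod.snd_sub, Prod.fst_add, Prod.snd_add, Prod.smul_fst,
      Prod.smul_snd, smul_eq_mul] at f1 f2 ⊢
    linear_combination (a0.2 - x.2) * f1 - (a0.1 - x.1) * f2
  have s1 : m * det (v - x) (a1 - x) = det (r1 - x) (a1 - x) + det (r0 - x) (a1 - x) := by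
    have f1 := congrArg Prod.fst q1
    have f2 := congrArg Prod.snd q1
    simp only [det, Prod.fst_sub, Prod.snd_sub, Prod.fst_add, Prod.snd_add, Prod.smul_fst,
      Prod.smul_snd, smul_eq_mul] at f1 f2 ⊢
    linear_combination (a1.1 - x.1) * f2 - (a1.2 - x.2) * f1
  have t0 : det (a0 - x) (v - x) ≤ 0 := by
    by_contra hc
    have : 0 < m * det (a0 - x) (v - x) := mul_pos (by omega) (by omega)
    omega
  have t1 : det (v - x) (a1 - x) ≤ 0 := by
    by_contra hc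
    have : 0 < m * det (v - x) (a1 - x) := mul_pos (by omega) (by omega)
    omega
  have t2 : det (a1 - x) (v - x) = -det (v - x) (a1 - x) := by simp only [det]; ring
  rw [Stressa_det a0 a1 x v]
  omega

/-- Plan. Otherwise `FF = -4`, `Psi = 4`. Let `A` be the (nonempty) set of interior tails of
darts of `bdK`; choose `Best` data at each `v ∈ A`, `ℓ v x = det (r0 - r1) (x - v)` for `v ∈ A`,
`0` otherwise. `Stress.eq` gives `∑_{t ∈ S} ω ℓ = 0`. For an interior edge `ℓ v x + ℓ x v ≤ 0`: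
if `ℓ v x > 0` then it is `2` (`pos`), `x ∈ A` (`head`), `r0`, `r1` are neighbours of `x` in its
best triangulation (`all`), so lie in its outer cone (`outer`), and so does `v` since
`(r0 - x) + (r1 - x) = (2 - m) (v - x)`; `det_odd` gives `ℓ x v ≤ -2`. For a chord at `v ∈ A`
the sum is `≤ -2`. Boundary darts give `0`. -/
theorem St.psi_le (hd : d % 2 = 0) (h : St d C S K) (hω : Stress d S ω) :
    Psi d (bdK d C K) ≤ FF d (bdK d C K) := by
  classical
  refine (h.psi_le_or hd).resolve_right ?_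
  rintro ⟨hF, hP⟩
  let A : V → Prop := fun v => Ins d v ∧ ∃ z, (v, z) ∈ bdK d C K
  have hex : ∀ v, ∃ S' K' y r0 r1, A v → Best d C K S' K' v y r0 r1 := by
    intro v
    by_cases hv : A v
    · obtain ⟨hi, z, hz⟩ := hv
      obtain ⟨S', K', y, r0, r1, hb⟩ := h.exists_best hd hF hi hz
      exact ⟨S', K', y, r0, r1, fun _ => hb⟩
    · exact ⟨∅, ∅, 0, 0, 0, fun hv' => absurd hv' hv⟩
  choose S' K' y r0 r1 hb using hex
  let l : V → V → ℤ := fun v x => if A v then det (r0 v - r1 v) (x - v) else 0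
  have l0 : ∀ v x, ¬ A v → l v x = 0 := fun v x hv => if_neg hv
  have l1 : ∀ v x, A v → l v x = det (r0 v - r1 v) (x - v) := fun v x hv => if_pos hv
  have half : ∀ v x, Edge S v x → 0 < l v x → l v x + l x v ≤ 0 := by
    intro v x he hp
    have hv : A v := by
      by_contra hv
      rw [l0 v x hv] at hp; exact lt_irrefl _ hp
    rw [l1 v x hv, Stressa_det] at hp ⊢
    obtain ⟨e2, -, S₂, K₂, st, sm, rd, hc, hr⟩ := (hb v hv).pos hv.1 h.tri h.ch he hp
    obtain ⟨hi, z, hz⟩ := id hv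
    have hx : A x := by
      have := st.head hd rd (sm.1 ▸ hF) (sm.1 ▸ hP) hi (Stressa_chord hi hz) hc
      exact ⟨this.1, sm.1 ▸ this.2⟩
    have hl : (v, x, r1 v) ∈ S₂ := st.cl.sub (@mem_filter _ _ (_) _ _ |>.1 hc).1
    have := Stressa_back st.tri st.ch hl hr (hb v hv).ov (hb v hv).e0 (hb v hv).e1
      (hb v hv).chg (hb x hx)
    rw [l1 x v hx]; omega
  have edge : ∀ v x, Edge S v x → l v x + l x v ≤ 0 := by
    intro v x he
    by_cases h1 : 0 < l v x
    · exact half v x he h1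
    by_cases h2 : 0 < l x v
    · have := half x v he.symm h2; omega
    · omega
  have bdA : ∀ p q, Bd d p q → ¬ A p ∧ ¬ A q := fun p q hb =>
    ⟨fun hA => by have := hA.1; simp only [Ins, Bd] at this hb; omega,
      fun hA => by have := hA.1; simp only [Ins, Bd] at this hb; omega⟩
  let f : V → V → ℝ := fun p q => ω p q * (l p q : ℤ)
  have s1 : ∑ t ∈ S, f t.1 t.2.1 = 0 := by
    rw [← sum_fiberwise_of_maps_to (g := fun t : Tr => t.1) (t := S.image fun t => t.1)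
      fun t ht => mem_image_of_mem _ ht]
    refine sum_eq_zero fun v _ => ?_
    by_cases hv : A v
    · rw [← hω.eq v (r0 v - r1 v) hv.1]
      refine sum_congr rfl fun t ht => ?_
      obtain rfl := (mem_filter.1 ht).2
      simp only [f, l1 _ _ hv]
    · refine sum_eq_zero fun t ht => ?_
      obtain rfl := (mem_filter.1 ht).2
      simp [f, l0 _ _ hv]
  have s2 : ∑ t ∈ S, (f t.1 t.2.1 - f t.2.1 t.1) = 0 := by
    rw [sum_bdK (C := ∅) h.tri (by simp) ⟨subset_rfl, h.tri.rot, fun _ _ _ _ _ h _ => h⟩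
      (fun p q => f p q - f q p) (fun p q => by ring) (fun p => by ring)]
    refine sum_eq_zero fun x hx => ?_
    have hb := bdA x.1 x.2 ((mem_bdK.1 hx).2.resolve_left (by simp))
    simp [f, l0 _ _ hb.1, l0 _ _ hb.2]
  have s3 : ∑ t ∈ S, ω t.1 t.2.1 * ((l t.1 t.2.1 + l t.2.1 t.1 : ℤ) : ℝ) = 0 := by
    have : ∀ t ∈ S, ω t.1 t.2.1 * ((l t.1 t.2.1 + l t.2.1 t.1 : ℤ) : ℝ) =
        2 * f t.1 t.2.1 - (f t.1 t.2.1 - f t.2.1 t.1) := fun t _ => by
      simp only [f, hω.symm t.2.1 t.1]; push_cast; ring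
    rw [sum_congr rfl this, sum_sub_distrib, ← mul_sum, s1, s2]; ring
  have le : ∀ t ∈ S, ω t.1 t.2.1 * ((l t.1 t.2.1 + l t.2.1 t.1 : ℤ) : ℝ) ≤ 0 := by
    rintro ⟨p, q, r⟩ ht
    by_cases hb : Bd d p q
    · simp [l0 _ _ (bdA p q hb).1, l0 _ _ (bdA p q hb).2]
    · obtain ⟨s, hs⟩ := h.tri.opp _ _ _ ht hb
      exact mul_nonpos_of_nonneg_of_nonpos (hω.pos _ _ _ _ ht hs).le
        (by exact_mod_cast edge p q (.inl ⟨r, ht⟩))
  obtain ⟨v, z, hz, hv⟩ := (h.psi_bound hd).2.2 hP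
  have hA : A v := ⟨hv, z, hz⟩
  have hc := Stressa_chord hv hz
  obtain ⟨r, hr⟩ := h.ch.dart _ _ hc
  obtain ⟨s, hs⟩ := h.ch.dart _ _ (h.ch.symm _ _ hc)
  have z0 := (sum_eq_zero_iff_of_nonpos le).1 s3 _ hr
  have b := hb v hA
  have o := b.outer (.inl (b.st.ch.dart _ _ hc)) fun e => b.nc (e ▸ hc)
  have od := det_odd b.ov b.e0 (h.ch.odd _ _ (h.ch.symm _ _ hc)) (h.tri.uni _ _ _ hr)
  have lz : l z v = 0 := l0 _ _ fun hz' => h.ch.bd _ _ hc ⟨hv, hz'.1⟩
  have lv : l v z + l z v < 0 := by rw [lz, l1 v z hA, Stressa_det]; omega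
  have := mul_neg_of_pos_of_neg (hω.pos _ _ _ _ hr hs)
    (show ((l v z + l z v : ℤ) : ℝ) < 0 by exact_mod_cast lv)
  exact this.ne z0

/-- for a closed set: sum over the zones -/
theorem Cl.psi_le (hd : d % 2 = 0) (h : Tri d S) (hC : Ch d S C) (hK : Cl S C K)
    (hω : Stress d S ω) :
    Psi d (bdK d C K) ≤ FF d (bdK d C K) ∧ 0 ≤ mm d 1 (bdK d C K) := by
  refine hK.induction h hC
    (fun K => Psi d (bdK d C K) ≤ FF d (bdK d C K) ∧ 0 ≤ mm d 1 (bdK d C K)) ?_ ?_
  · simp [bdK, Psi, FF, mm]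
  · intro K₁ K₂ h1 h2 hdj ih
    have a := h1.psi_le hd hω
    have b := (h1.psi_bound hd).1
    simp only [Psi, FF, mm, sum_bdK_union h h1.cl.sub h2.sub hdj] at a b ih ⊢
    constructor
    · rw [mul_add]; linarith [ih.1]
    · linarith [ih.2]

end Pool.Agent.TC

end

section

/-! Regular triangulations have no exceptional zone; the bound for a colour class. -/

open Finset

namespace Pool.Agent.TC

variable {d : ℤ} {S K : Finset Tr} {C : Finset (V × V)} {ω : V → V → ℝ}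

theorem Stress_det_anti (u v : V) : det u v = -det v u := by
  simp only [det]; ring

/-- the directions from an interior point to the two ends of the side `s + 2` -/
theorem Stress_ends (hd : d % 2 = 0) (s : Fin 3) {p : V} (hp : Ins d p) :
    ∃ a b : V, Bnd d a ∧ Bnd d b ∧ 0 < det a b ∧ ∀ x, InT d x → ¬ Ins d x → ¬ Ev x →
      (Late d s x → 0 < det a (x - p) ∧ 0 < det (x - p) b) ∧
      (¬ Late d s x → det a (x - p) < 0 ∨ det (x - p) b < 0) := by
  obtain ⟨p1, p2⟩ := p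
  obtain ⟨h1, h2, h3⟩ := hp
  simp only at h1 h2 h3
  have hd0 : 0 < d := by omega
  fin_cases s
  · refine ⟨(-p1, d - p2), (-p1, -p2), ?_, ?_, ?_, ?_⟩
    · simp only [Bnd, abs_le]; omega
    · simp only [Bnd, abs_le]; omega
    · have : det (-p1, d - p2) (-p1, -p2) = p1 * d := by simp only [det]; ring
      rw [this]; positivity
    · rintro ⟨x1, x2⟩ hx hi he
      simp only [InT, Ins, Ev] at hx hi he
      have hL : Late d ((fun i => i) (⟨0, by norm_num⟩ : Fin 3)) (x1, x2) ↔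
          x1 = 0 ∧ 0 < d - x1 - x2 := Iff.rfl
      rw [hL]
      simp only [det, Prod.fst_sub, Prod.snd_sub]
      refine ⟨fun ⟨e1, e2⟩ => ?_, fun hn => ?_⟩
      · subst e1
        have : 0 < x2 := by omega
        constructor <;> nlinarith [mul_pos h1 this, mul_pos h1 e2]
      · by_cases e : x2 = 0
        · subst e
          have : 0 < x1 := by omega
          right; nlinarith [mul_pos h2 this]
        · have e2 : x2 = d - x1 := by omega
          have : 0 < x1 := by omega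
          have h4 : 0 < d - p1 - p2 := by omega
          subst e2
          left; nlinarith [mul_pos h4 this]
  · refine ⟨(-p1, -p2), (d - p1, -p2), ?_, ?_, ?_, ?_⟩
    · simp only [Bnd, abs_le]; omega
    · simp only [Bnd, abs_le]; omega
    · have : det (-p1, -p2) (d - p1, -p2) = p2 * d := by simp only [det]; ring
      rw [this]; positivity
    · rintro ⟨x1, x2⟩ hx hi he
      simp only [InT, Ins, Ev] at hx hi he
      have hL : Late d ((fun i => i) (⟨1, by norm_num⟩ : Fin 3)) (x1, x2) ↔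
          x2 = 0 ∧ 0 < x1 := Iff.rfl
      rw [hL]
      simp only [det, Prod.fst_sub, Prod.snd_sub]
      refine ⟨fun ⟨e1, e2⟩ => ?_, fun hn => ?_⟩
      · subst e1
        have : 0 < d - x1 := by omega
        constructor <;> nlinarith [mul_pos h2 this, mul_pos h2 e2]
      · have h5 : 0 < x2 := by omega
        by_cases e : x1 = 0
        · subst e
          left; nlinarith [mul_pos h1 h5]
        · have e2 : x1 = d - x2 := by omega
          have h4 : 0 < d - p1 - p2 := by omega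
          subst e2
          right; nlinarith [mul_pos h4 h5]
  · refine ⟨(d - p1, -p2), (-p1, d - p2), ?_, ?_, ?_, ?_⟩
    · simp only [Bnd, abs_le]; omega
    · simp only [Bnd, abs_le]; omega
    · have : det (d - p1, -p2) (-p1, d - p2) = (d - p1 - p2) * d := by simp only [det]; ring
      have h4 : 0 < d - p1 - p2 := by omega
      rw [this]; positivity
    · rintro ⟨x1, x2⟩ hx hi he
      simp only [InT, Ins, Ev] at hx hi he
      have hL : Late d ((fun i => i) (⟨2, by norm_num⟩ : Fin 3)) (x1, x2) ↔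
          d - x1 - x2 = 0 ∧ 0 < x2 := Iff.rfl
      rw [hL]
      simp only [det, Prod.fst_sub, Prod.snd_sub]
      have h4 : 0 < d - p1 - p2 := by omega
      refine ⟨fun ⟨e1, e2⟩ => ?_, fun hn => ?_⟩
      · have e3 : x1 = d - x2 := by omega
        have : 0 < d - x2 := by omega
        subst e3
        constructor <;> nlinarith [mul_pos h4 this, mul_pos h4 e2]
      · by_cases e : x2 = 0
        · subst e
          have : 0 < d - x1 := by omega
          left; nlinarith [mul_pos h2 this]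
        · have e2 : x1 = 0 := by omega
          have : 0 < d - x2 := by omega
          subst e2
          right; nlinarith [mul_pos h1 this]

/-- generic directions whose cone sees exactly the odd points of the later side -/
theorem Stress_cone (hd : d % 2 = 0) (s : Fin 3) {p : V} (hp : Ins d p) :
    ∃ ξ ξ' : V, Gen d ξ ∧ Gen d ξ' ∧ 0 < det ξ ξ' ∧ ∀ x, InT d x → ¬ Ins d x → ¬ Ev x →
      (Cone ξ ξ' (x - p) ↔ Late d s x) := by
  obtain ⟨a, b, ha, hb, hab, hx⟩ := Stress_ends hd s hp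
  have hba : det b a < 0 := by rw [Stress_det_anti]; omega
  have hba' : 0 < det b (-a) := by
    have : det b (-a) = det a b := by simp only [det, Prod.fst_neg, Prod.snd_neg]; ring
    omega
  obtain ⟨ξ, g1, k1⟩ := exists_gen d (x := a) (y := b) hab.ne'
  obtain ⟨ξ', g2, k2⟩ := exists_gen d (x := b) (y := -a) hba'.ne'
  have haa : det a a = 0 := by simp only [det]; ring
  have hbb : det b b = 0 := by simp only [det]; ring
  have e1 : 0 < det a ξ := ((k1 a ha).2.2 haa).1 hab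
  have e2 : det b ξ < 0 := (k1 b hb).2.1 hba
  have e3 : 0 < det a ξ' := (k2 a ha).1 hab
  have e4 : 0 < det b ξ' := ((k2 b hb).2.2 hbb).1 hba'
  have pl : det ξ ξ' * det a b = det a ξ * det b ξ' + (-det b ξ) * det a ξ' := by
    simp only [det]; ring
  have e5 : 0 < det ξ ξ' := by
    have : 0 < det ξ ξ' * det a b := by
      rw [pl]; exact add_pos (mul_pos e1 e4) (mul_pos (by omega) e3)
    exact (mul_pos_iff_of_pos_right hab).1 this
  refine ⟨ξ, ξ', g1, g2, e5, fun x h1 h2 h3 => ?_⟩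
  have hpT : InT d p := by
    obtain ⟨a1, a2, a3⟩ := hp
    exact ⟨a1.le, a2.le, a3.le⟩
  have hu : Bnd d (x - p) := hpT.bnd h1
  obtain ⟨l1, l2⟩ := hx x h1 h2 h3
  have a1 := Stress_det_anti a (x - p)
  have a2 := Stress_det_anti ξ (x - p)
  constructor
  · rintro ⟨c1, c2⟩
    by_contra hn
    rcases l2 hn with c | c
    · have := (k1 _ hu).1 (by omega); omega
    · have := (k2 _ hu).2.1 c; omega
  · intro hl
    obtain ⟨c1, c2⟩ := l1 hl
    have := (k1 _ hu).2.1 (by omega)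
    exact ⟨by omega, (k2 _ hu).1 c2⟩

theorem Stress_not_bd {p q : V} (hp : Ins d p) : ¬ Bd d p q ∧ ¬ Bd d q p := by
  simp only [Ins, Bd] at *; omega

/-- If exactly one side of each chord is in `K` and the number of chords from `p` to the later
side is even, the outer and inner darts at `p` cancel. Plan: `fan_sum` with the indicator of `K`
between generic directions next to the two ends of the side `s + 2` (the cone contains the
directions to all points `z` with `Late`, odd, and no other chord direction) shows that the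
difference has absolute value `≤ 1`; the sum is even. -/
theorem star_cancel (hd : d % 2 = 0) (h : Tri d S) (hC : Ch d S C) (hK : Cl S C K)
    (hx : ∀ p q r s, (p, q) ∈ C → (p, q, r) ∈ S → (q, p, s) ∈ S →
      ((p, q, r) ∈ K ↔ (q, p, s) ∉ K))
    {s : Fin 3} {p : V} (hp : Ins d p)
    (he : Even ((C.filter fun x => x.1 = p ∧ Out d s x.1 x.2).card)) :
    ((bdK d C K).filter fun x => x.1 = p ∧ Out d s x.1 x.2).card =
      ((bdK d C K).filter fun x => x.2 = p ∧ Out d s x.2 x.1).card := by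
  classical
  by_cases hE : Early d s p
  swap
  · rw [filter_eq_empty_iff.2, filter_eq_empty_iff.2]
    · rintro x - ⟨rfl, ho⟩; exact hE ho.1
    · rintro x - ⟨rfl, ho⟩; exact hE ho.1
  have m1 : ∀ x, (p, x) ∈ bdK d C K ↔ (∃ r, (p, x, r) ∈ K) ∧ (p, x) ∈ C := fun x => by
    rw [mem_bdK]; simp [(Stress_not_bd (q := x) hp).1]
  have m2 : ∀ x, (x, p) ∈ bdK d C K ↔ (∃ r, (x, p, r) ∈ K) ∧ (x, p) ∈ C := fun x => by
    rw [mem_bdK]; simp [(Stress_not_bd (q := x) hp).2]
  set A := (bdK d C K).filter fun x => x.1 = p ∧ Out d s x.1 x.2 with hA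
  set B := (bdK d C K).filter fun x => x.2 = p ∧ Out d s x.2 x.1 with hB
  -- the sum
  have hsum : A.card + B.card = (C.filter fun x => x.1 = p ∧ Out d s x.1 x.2).card := by
    rw [← card_filter_add_card_filter_not (s := C.filter fun x => x.1 = p ∧ Out d s x.1 x.2)
      (fun x => x ∈ bdK d C K)]
    congr 1
    · congr 1
      ext ⟨u, x⟩
      simp only [hA, mem_filter]
      constructor
      · rintro ⟨h1, rfl, h2⟩; exact ⟨⟨((m1 x).1 h1).2, rfl, h2⟩, h1⟩
      · rintro ⟨⟨-, h1, h2⟩, h3⟩; exact ⟨h3, h1, h2⟩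
    · refine card_bij (fun x _ => x.swap) ?_ ?_ ?_
      · rintro ⟨x, u⟩ hxu
        simp only [hB, mem_filter] at hxu
        obtain ⟨h1, rfl, h2⟩ := hxu
        obtain ⟨⟨r, hr⟩, hc⟩ := (m2 x).1 h1
        simp only [mem_filter, Prod.swap_prod_mk]
        refine ⟨⟨hC.symm _ _ hc, trivial, h2⟩, fun h3 => ?_⟩
        obtain ⟨⟨r', hr'⟩, hc'⟩ := (m1 x).1 h3
        exact (hx _ _ _ _ hc' (hK.sub hr') (hK.sub hr)).1 hr' hr
      · intro a _ b _ hab; exact Prod.swap_injective hab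
      · rintro ⟨u, x⟩ hux
        simp only [mem_filter] at hux
        obtain ⟨⟨hc, rfl, h2⟩, h3⟩ := hux
        obtain ⟨r, hr⟩ := hC.dart _ _ hc
        obtain ⟨r', hr'⟩ := hC.dart _ _ (hC.symm _ _ hc)
        refine ⟨(x, u), ?_, rfl⟩
        simp only [hB, mem_filter]
        refine ⟨(m2 x).2 ⟨⟨r', ?_⟩, hC.symm _ _ hc⟩, trivial, h2⟩
        by_contra hn
        exact h3 ((m1 x).2 ⟨⟨r, (hx _ _ _ _ hc hr hr').2 hn⟩, hc⟩)
  -- the difference
  obtain ⟨ξ, ξ', g1, g2, hξ, hcone⟩ := Stress_cone hd s hp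
  have hpT : InT d p := by
    obtain ⟨a1, a2, a3⟩ := hp
    exact ⟨a1.le, a2.le, a3.le⟩
  have hinto : ∀ η, Into d p η := fun η => by
    obtain ⟨a1, a2, a3⟩ := hp
    exact ⟨fun e => by omega, fun e => by omega, fun e => by omega⟩
  have hch : ∀ x, (p, x) ∈ C → (Cone ξ ξ' (x - p) ↔ Out d s p x) := fun x hc => by
    obtain ⟨r, hr⟩ := hC.dart _ _ hc
    rw [hcone x (h.inT2 hr) (fun hi => hC.bd _ _ hc ⟨hp, hi⟩) (hC.odd _ _ (hC.symm _ _ hc))]
    exact ⟨fun hl => ⟨hE, hl⟩, fun ho => ho.2⟩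
  obtain ⟨a, b, h1, c1⟩ := h.exists_corner hpT g1 (hinto ξ)
  obtain ⟨a', b', h2, c2⟩ := h.exists_corner hpT g2 (hinto ξ')
  have key := h.fan_sum g1 g2 hξ h1 h2 c1 c2 (fun t => if t ∈ K then (1 : ℤ) else 0)
    (fun x => (if (p, x) ∈ bdK d C K then (1 : ℤ) else 0) -
      if (x, p) ∈ bdK d C K then (1 : ℤ) else 0) (by
      intro x r t hr ht _
      have ht' : (x, p, t) ∈ S := h.rot2 ht
      have e2 : (p, t, x) ∈ K ↔ (x, p, t) ∈ K := ⟨fun k => hK.rot2 k, fun k => hK.rot _ _ _ k⟩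
      by_cases hc : (p, x) ∈ C
      · have e3 : (p, x) ∈ bdK d C K ↔ (p, x, r) ∈ K := by
          rw [m1]
          exact ⟨fun ⟨⟨r', k⟩, _⟩ => h.uniq _ _ _ _ (hK.sub k) hr ▸ k, fun k => ⟨⟨r, k⟩, hc⟩⟩
        have e4 : (x, p) ∈ bdK d C K ↔ (x, p, t) ∈ K := by
          rw [m2]
          exact ⟨fun ⟨⟨r', k⟩, _⟩ => h.uniq _ _ _ _ (hK.sub k) ht' ▸ k,
            fun k => ⟨⟨t, k⟩, hC.symm _ _ hc⟩⟩
        simp only [e2, e3, e4]
      · have hc' : (x, p) ∉ C := fun k => hc (hC.symm _ _ k)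
        have e3 : (p, x) ∉ bdK d C K := fun k => hc ((m1 x).1 k).2
        have e4 : (x, p) ∉ bdK d C K := fun k => hc' ((m2 x).1 k).2
        have e5 : (p, x, r) ∈ K ↔ (x, p, t) ∈ K :=
          ⟨fun k => hK.cl _ _ _ _ k ht' hc, fun k => hK.cl _ _ _ _ k hr hc'⟩
        simp only [e2, e3, e4, e5, if_false, sub_self])
  rw [sum_sub_distrib, sum_boole, sum_boole] at key
  have kA : ((S.filter fun t => t.1 = p ∧ Cone ξ ξ' (t.2.1 - p)).filter
      fun t => (p, t.2.1) ∈ bdK d C K).card = A.card := by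
    refine card_bij (fun t _ => (t.1, t.2.1)) ?_ ?_ ?_
    · rintro ⟨u, x, r⟩ ht
      simp only [mem_filter] at ht
      obtain ⟨⟨-, rfl, k2⟩, k3⟩ := ht
      simp only [hA, mem_filter]
      exact ⟨k3, trivial, (hch x ((m1 x).1 k3).2).1 k2⟩
    · rintro ⟨u, x, r⟩ ht ⟨u', x', r'⟩ ht' e
      simp only [mem_filter] at ht ht'
      obtain ⟨rfl, rfl⟩ := Prod.mk.inj e
      rw [h.uniq _ _ _ _ ht.1.1 ht'.1.1]
    · rintro ⟨u, x⟩ hux
      simp only [hA, mem_filter] at hux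
      obtain ⟨k1, rfl, k2⟩ := hux
      obtain ⟨⟨r, hr⟩, hc⟩ := (m1 x).1 k1
      refine ⟨(u, x, r), ?_, rfl⟩
      simp only [mem_filter]
      exact ⟨⟨hK.sub hr, trivial, (hch x hc).2 k2⟩, k1⟩
  have kB : ((S.filter fun t => t.1 = p ∧ Cone ξ ξ' (t.2.1 - p)).filter
      fun t => (t.2.1, p) ∈ bdK d C K).card = B.card := by
    refine card_bij (fun t _ => (t.2.1, t.1)) ?_ ?_ ?_
    · rintro ⟨u, x, r⟩ ht
      simp only [mem_filter] at ht
      obtain ⟨⟨-, rfl, k2⟩, k3⟩ := ht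
      simp only [hB, mem_filter]
      exact ⟨k3, trivial, (hch x (hC.symm _ _ ((m2 x).1 k3).2)).1 k2⟩
    · rintro ⟨u, x, r⟩ ht ⟨u', x', r'⟩ ht' e
      simp only [mem_filter] at ht ht'
      obtain ⟨rfl, rfl⟩ := Prod.mk.inj e
      rw [h.uniq _ _ _ _ ht.1.1 ht'.1.1]
    · rintro ⟨x, u⟩ hux
      simp only [hB, mem_filter] at hux
      obtain ⟨k1, rfl, k2⟩ := hux
      have hc := hC.symm _ _ ((m2 x).1 k1).2
      obtain ⟨r, hr⟩ := hC.dart _ _ hc
      refine ⟨(u, x, r), ?_, rfl⟩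
      simp only [mem_filter]
      exact ⟨⟨hr, trivial, (hch x hc).2 k2⟩, k1⟩
  rw [kA, kB] at key
  rw [← hsum] at he
  obtain ⟨n, hn⟩ := he
  split_ifs at key <;> omega

/-- colour classes: `Psi = ck * mm` by `star_cancel`, `0 ≤ mm ≤ 1` (the complement `S \ K` is
closed too, `mm_all`, `sum_bdK_union`) -/
theorem colour_bound (hd : d % 2 = 0) (h : Tri d S) (hC : Ch d S C) (hK : Cl S C K)
    (hω : Stress d S ω)
    (hx : ∀ p q r s, (p, q) ∈ C → (p, q, r) ∈ S → (q, p, s) ∈ S →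
      ((p, q, r) ∈ K ↔ (q, p, s) ∉ K))
    (he : ∀ s p, Ins d p → Even ((C.filter fun x => x.1 = p ∧ Out d s x.1 x.2).card)) :
    -1 ≤ FF d (bdK d C K) := by
  classical
  have hK' : Cl S C (S \ K) := by
    refine ⟨sdiff_subset, fun p q r k => ?_, fun p q r s k k' hc => ?_⟩
    · rw [mem_sdiff] at k ⊢
      exact ⟨h.rot _ _ _ k.1, fun k2 => k.2 (hK.rot2 k2)⟩
    · rw [mem_sdiff] at k ⊢
      exact ⟨k', fun k2 => k.2 (hK.cl _ _ _ _ k2 k.1 fun k3 => hc (hC.symm _ _ k3))⟩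
  obtain ⟨p1, p2⟩ := hK.psi_le hd h hC hω
  obtain ⟨-, p3⟩ := hK'.psi_le hd h hC hω
  have p4 : mm d 1 (bdK d C K) + mm d 1 (bdK d C (S \ K)) = 1 := by
    rw [← mm_all hd h hC]
    conv_rhs => rw [← union_sdiff_of_subset hK.sub]
    unfold mm
    rw [sum_bdK_union h hK.sub hK'.sub disjoint_sdiff]
  have hT : ∀ x ∈ bdK d C K, x.1 ∈ pts d ∧ x.2 ∈ pts d := by
    rintro ⟨u, x⟩ k
    obtain ⟨⟨r, hr⟩, -⟩ := mem_bdK.1 k
    exact ⟨mem_pts.2 (h.inT _ _ _ (hK.sub hr)), mem_pts.2 (h.inT2 (hK.sub hr))⟩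
  have p5 : ∑ x ∈ bdK d C K, ps d x.1 x.2 = 0 := by
    unfold ps
    rw [sum_comm]
    refine sum_eq_zero fun s _ => ?_
    rw [sum_sub_distrib, sub_eq_zero,
      ← sum_fiberwise_of_maps_to (g := fun x : V × V => x.2) (fun x k => (hT x k).2),
      ← sum_fiberwise_of_maps_to (s := bdK d C K) (g := fun x : V × V => x.1)
        (fun x k => (hT x k).1)]
    refine sum_congr rfl fun p _ => ?_
    have e1 : (∑ x ∈ bdK d C K with x.2 = p, if Out d s x.2 x.1 then ph d s x.2 else 0) =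
        ((bdK d C K).filter fun x => x.2 = p ∧ Out d s x.2 x.1).card * ph d s p := by
      rw [← sum_filter, filter_filter, ← nsmul_eq_mul, ← sum_const]
      exact sum_congr rfl fun x k => by rw [(mem_filter.1 k).2.1]
    have e2 : (∑ x ∈ bdK d C K with x.1 = p, if Out d s x.1 x.2 then ph d s x.1 else 0) =
        ((bdK d C K).filter fun x => x.1 = p ∧ Out d s x.1 x.2).card * ph d s p := by
      rw [← sum_filter, filter_filter, ← nsmul_eq_mul, ← sum_const]
      exact sum_congr rfl fun x k => by rw [(mem_filter.1 k).2.1]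
    rw [e1, e2]
    by_cases hp : Ins d p
    · rw [star_cancel hd h hC hK hx hp (he s p hp)]
    · simp [ph, hp]
  unfold Psi at p1
  rw [p5] at p1
  have p6 : mm d 1 (bdK d C K) = 0 ∨ mm d 1 (bdK d C K) = 1 := by omega
  unfold ck at p1
  rcases p6 with e | e <;> rw [e] at p1 <;> split_ifs at p1 <;> omega

end Pool.Agent.TC

end
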