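import Pool.Agent.MP_e73476_ag.T.Geo

section

/-! Haas' conditions for a maximal sign distribution. -/

open Finset

namespace Pool.Agent.TC

variable {d : ℤ} {S : Finset Tr} {e : V → ZMod 2}

/-- functions on the copies of the vertices that respect the gluing and are constant on edges
whose ends have the same sign -/
def LocC (d : ℤ) (S : Finset Tr) (e : V → ZMod 2) (φ : (Fin 3 → ZMod 2) → V → ZMod 2) : Prop :=
  (∀ l l' p, InT d p → (∀ s, ex d p s ≠ 0 → l s = l' s) → φ l p = φ l' p) ∧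
    ∀ l p q r, (p, q, r) ∈ S → bit d e l p = bit d e l q → φ l p = φ l q

/-- the graph on the sphere is connected -/
theorem Tri.sphere_conn {G : Type} (h : Tri d S) (φ : (Fin 3 → ZMod 2) → V → G)
    (h1 : ∀ l l' p, InT d p → (∀ s, ex d p s ≠ 0 → l s = l' s) → φ l p = φ l' p)
    (h2 : ∀ l p q r, (p, q, r) ∈ S → φ l p = φ l q) {l l' : Fin 3 → ZMod 2} {p p' : V}
    (hp : InT d p) (hp' : InT d p') : φ l p = φ l' p' := by
  classical
  have key : ∀ l x y, InT d x → InT d y → φ l x = φ l y := by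
    intro l x y hx hy
    obtain ⟨a, b, hab⟩ := h.exists_tri hx
    obtain ⟨a', b', hab'⟩ := h.exists_tri hy
    have hK : Cl S ∅ (S.filter fun t => φ l t.1 = φ l x) := by
      refine ⟨filter_subset _ _, ?_, ?_⟩
      · intro p q r ht
        rw [mem_filter] at ht ⊢
        exact ⟨h.rot _ _ _ ht.1, (h2 l p q r ht.1).symm.trans ht.2⟩
      · intro p q r s ht hs _
        rw [mem_filter] at ht ⊢
        exact ⟨hs, (h2 l p q r ht.1).symm.trans ht.2⟩
    have hE := h.conn hK ⟨(x, a, b), mem_filter.2 ⟨hab, rfl⟩⟩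
    rw [← hE, mem_filter] at hab'
    exact hab'.2.symm
  have hd := h.pos
  have c1 : InT d (d, 0) := by simp only [InT]; omega
  have c2 : InT d (0, d) := by simp only [InT]; omega
  have e1 : φ l (d, 0) = φ ![l 0, l' 1, 0] (d, 0) := by
    refine h1 _ _ _ c1 fun s hs => ?_
    fin_cases s
    · rfl
    · simp [ex] at hs
    · simp [ex] at hs
  have e2 : φ ![l 0, l' 1, 0] (0, d) = φ l' (0, d) := by
    refine h1 _ _ _ c2 fun s hs => ?_
    fin_cases s
    · simp [ex] at hs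
    · rfl
    · simp [ex] at hs
  exact (key l p _ hp c1).trans (e1.trans ((key _ _ _ c1 c2).trans (e2.trans (key l' _ p' c2 hp'))))

/-- the octant `![a, b, 0]` in which the sign of `p` differs from the signs of `q` and `r`
(Cramer's rule modulo 2) -/
def iso (e : V → ZMod 2) (p q r : V) : Fin 3 → ZMod 2 :=
  ![(1 + e p + e q) * ((r - p).2 : ℤ) + (1 + e p + e r) * ((q - p).2 : ℤ),
    (1 + e p + e q) * ((r - p).1 : ℤ) + (1 + e p + e r) * ((q - p).1 : ℤ), 0]

theorem Haasa_two : (2 : ZMod 2) = 0 := by decide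

theorem Haasa_bit (d : ℤ) (e : V → ZMod 2) (a b : ZMod 2) (p q : V) :
    bit d e ![a, b, 0] q = bit d e ![a, b, 0] p +
      (e p + e q + a * ((q - p).1 : ℤ) + b * ((q - p).2 : ℤ)) := by
  simp only [bit, ex, Fin.sum_univ_three, Matrix.cons_val_zero, Matrix.cons_val_one,
    Matrix.cons_val_two, Matrix.head_cons, Matrix.tail_cons, Prod.fst_sub, Prod.snd_sub,
    Int.cast_sub, zero_mul, add_zero]
  linear_combination (-e p) * Haasa_two

theorem Haasa_det {u v : V} (hd : det u v = 1) :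
    ((u.1 : ℤ) : ZMod 2) * (v.2 : ℤ) - ((u.2 : ℤ) : ZMod 2) * (v.1 : ℤ) = 1 := by
  have := congrArg (Int.cast : ℤ → ZMod 2) hd
  simpa only [det, Int.cast_sub, Int.cast_mul, Int.cast_one] using this

theorem Haasa_uniq {p q r : V} (hd : det (q - p) (r - p) = 1) {a b : ZMod 2}
    (h1 : bit d e ![a, b, 0] q = bit d e ![a, b, 0] p + 1)
    (h2 : bit d e ![a, b, 0] r = bit d e ![a, b, 0] p + 1) : iso e p q r = ![a, b, 0] := by
  rw [Haasa_bit d e a b p q, add_right_inj] at h1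
  rw [Haasa_bit d e a b p r, add_right_inj] at h2
  have h3 := Haasa_det hd
  have key : ∀ x y z u1 u2 v1 v2 a b : ZMod 2, u1 * v2 - u2 * v1 = 1 →
      x + y + a * u1 + b * u2 = 1 → x + z + a * v1 + b * v2 = 1 →
      (1 + x + y) * v2 + (1 + x + z) * u2 = a ∧ (1 + x + y) * v1 + (1 + x + z) * u1 = b := by
    decide
  obtain ⟨k1, k2⟩ := key _ _ _ _ _ _ _ _ _ h3 h1 h2
  rw [iso, k1, k2]

set_option synthInstance.maxSize 2000 in
theorem Haasa_sum (g : ZMod 2 → ZMod 2 → ZMod 2) {c u1 u2 a1 b1 a2 b2 : ZMod 2}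
    (hu : u1 ≠ 0 ∨ u2 ≠ 0) (hne : a1 ≠ a2 ∨ b1 ≠ b2) (h1 : c + a1 * u1 + b1 * u2 = 1)
    (h2 : c + a2 * u1 + b2 * u2 = 1) (hg : ∀ a b, c + a * u1 + b * u2 = 0 → g a b = 0) :
    ∑ a, ∑ b, g a b = g a1 b1 + g a2 b2 := by
  have key : ∀ c u1 u2 a1 b1 a2 b2 a b : ZMod 2, u1 ≠ 0 ∨ u2 ≠ 0 → a1 ≠ a2 ∨ b1 ≠ b2 →
      c + a1 * u1 + b1 * u2 = 1 → c + a2 * u1 + b2 * u2 = 1 → (a, b) ≠ (a1, b1) →
      (a, b) ≠ (a2, b2) → c + a * u1 + b * u2 = 0 := by
    decide +kernel
  rw [← Fintype.sum_prod_type']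
  refine Fintype.sum_eq_add (a1, b1) (a2, b2) ?_ ?_
  · intro hc
    obtain ⟨rfl, rfl⟩ := Prod.mk.inj hc
    simp at hne
  · rintro ⟨a, b⟩ ⟨k1, k2⟩
    exact hg a b (key _ _ _ _ _ _ _ a b hu hne h1 h2 k1 k2)

theorem iso_spec {p q r : V} (hd : det (q - p) (r - p) = 1) :
    bit d e (iso e p q r) q = bit d e (iso e p q r) p + 1 ∧
      bit d e (iso e p q r) r = bit d e (iso e p q r) p + 1 := by
  have h3 := Haasa_det hd
  have key : ∀ x y z u1 u2 v1 v2 : ZMod 2, u1 * v2 - u2 * v1 = 1 →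
      x + y + ((1 + x + y) * v2 + (1 + x + z) * u2) * u1 +
        ((1 + x + y) * v1 + (1 + x + z) * u1) * u2 = 1 ∧
      x + z + ((1 + x + y) * v2 + (1 + x + z) * u2) * v1 +
        ((1 + x + y) * v1 + (1 + x + z) * u1) * v2 = 1 := by
    decide
  obtain ⟨k1, k2⟩ := key (e p) (e q) (e r) _ _ _ _ h3
  rw [iso, Haasa_bit d e _ _ p q, Haasa_bit d e _ _ p r, k1, k2]
  exact ⟨rfl, rfl⟩

/-- value of `φ` on the arc of the curve that cuts off the corner `p` -/
def arc (e : V → ZMod 2) (φ : (Fin 3 → ZMod 2) → V → ZMod 2) (t : Tr) : ZMod 2 :=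
  φ (iso e t.1 t.2.1 t.2.2) t.1 + φ (iso e t.1 t.2.1 t.2.2) t.2.1

def tot (φ : (Fin 3 → ZMod 2) → V → ZMod 2) (p : V) : ZMod 2 :=
  ∑ a : ZMod 2, ∑ b : ZMod 2, φ ![a, b, 0] p

/-- the two octants `![a,b,0]` in which `p`, `q` have different signs are `iso e p q r` and
`iso e q r p`; in the other two `φ` agrees at `p`, `q` -/
theorem arc_add (h : Tri d S) {φ} (hφ : LocC d S e φ) {p q r : V} (ht : (p, q, r) ∈ S) :
    arc e φ (p, q, r) + arc e φ (q, r, p) = tot φ p + tot φ q := by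
  have hd := h.uni _ _ _ ht
  have hd' := h.uni _ _ _ (h.rot _ _ _ ht)
  obtain ⟨s1, s2⟩ := iso_spec (d := d) (e := e) hd
  obtain ⟨s3, s4⟩ := iso_spec (d := d) (e := e) hd'
  have e0 : φ (iso e q r p) r = φ (iso e q r p) p :=
    hφ.2 _ _ _ _ (h.rot2 ht) (s3.trans s4.symm)
  have z1 : ∀ x y : ZMod 2, y = x + 1 → x = y + 1 := by decide
  have z2 : ∀ x : ZMod 2, x ≠ x + 1 := by decide
  have s5 := z1 _ _ s4
  obtain ⟨a1, b1, i1⟩ : ∃ a b, iso e p q r = ![a, b, 0] := ⟨_, _, rfl⟩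
  obtain ⟨a2, b2, i2⟩ : ∃ a b, iso e q r p = ![a, b, 0] := ⟨_, _, rfl⟩
  simp only [arc, tot]
  rw [e0, ← sum_add_distrib]
  simp only [← sum_add_distrib]
  rw [i1] at s1 s2 ⊢
  rw [i2] at s3 s4 s5 ⊢
  have hne : a1 ≠ a2 ∨ b1 ≠ b2 := by
    by_contra hc
    push Not at hc
    obtain ⟨rfl, rfl⟩ := hc
    exact z2 _ ((s4.trans s3.symm).trans s2)
  have hu : (((q - p).1 : ℤ) : ZMod 2) ≠ 0 ∨ (((q - p).2 : ℤ) : ZMod 2) ≠ 0 := by
    by_contra hc
    push Not at hc
    have h3 := Haasa_det hd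
    rw [hc.1, hc.2, zero_mul, zero_mul, sub_zero] at h3
    exact zero_ne_one h3
  rw [Haasa_bit d e _ _ p q, add_right_inj] at s1 s5
  rw [Haasa_sum (fun a b => φ ![a, b, 0] p + φ ![a, b, 0] q) hu hne s1 s5, add_comm (φ _ q)]
  intro a b hab
  have hb : bit d e ![a, b, 0] p = bit d e ![a, b, 0] q := by
    rw [Haasa_bit d e a b p q, hab, add_zero]
  rw [hφ.2 _ _ _ _ ht hb]
  exact CharTwo.add_self_eq_zero _

/-- continuation of the arc across the edge `pq` -/
theorem arc_cross (h : Tri d S) {φ} (hφ : LocC d S e φ) {p q r s : V} (h1 : (p, q, r) ∈ S)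
    (h2 : (q, p, s) ∈ S) :
    arc e φ (p, q, r) = if tw e p q r s = 0 then arc e φ (p, s, q) else arc e φ (q, p, s) := by
  obtain ⟨s1, s2⟩ := iso_spec (d := d) (e := e) (h.uni _ _ _ h1)
  obtain ⟨a, b, i1⟩ : ∃ a b, iso e p q r = ![a, b, 0] := ⟨_, _, rfl⟩
  rw [i1] at s1 s2
  have ho := (h.opp_eq h1 h2).1
  have o1 := congrArg (fun x : V => ((x.1 : ℤ) : ZMod 2)) ho
  have o2 := congrArg (fun x : V => ((x.2 : ℤ) : ZMod 2)) ho
  simp only [Prod.fst_add, Prod.snd_add, Prod.smul_fst, Prod.smul_snd, smul_eq_mul, Int.cast_add,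
    Int.cast_mul] at o1 o2
  have s3 : bit d e ![a, b, 0] s = bit d e ![a, b, 0] p + (tw e p q r s + 1) := by
    rw [Haasa_bit d e _ _ p q, add_right_inj] at s1
    rw [Haasa_bit d e _ _ p r, add_right_inj] at s2
    rw [Haasa_bit d e _ _ p s, add_right_inj, tw]
    have key : ∀ x y z w u1 u2 v1 v2 t1 t2 a b δ : ZMod 2, x + y + a * u1 + b * u2 = 1 →
        x + z + a * v1 + b * v2 = 1 → t1 + v1 = δ * u1 → t2 + v2 = δ * u2 →
        x + w + a * t1 + b * t2 = z + w + δ * (1 + x + y) + 1 := by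
      intro x y z w u1 u2 v1 v2 t1 t2 a b δ k1 k2 k3 k4
      linear_combination a * k3 + b * k4 + δ * k1 - k2 +
        (x - δ * x - δ * y - 1) * Haasa_two
    exact key _ _ _ _ _ _ _ _ _ _ _ _ _ s1 s2 o1 o2
  have h3 := h.rot _ _ _ h2
  split_ifs with ht
  · rw [ht, zero_add] at s3
    have i2 := Haasa_uniq (h.uni _ _ _ h3) s3 s1
    simp only [arc]
    rw [i1, i2, hφ.2 _ _ _ _ (h.rot _ _ _ h3) (s3.trans s1.symm)]
  · have z1 : ∀ x y : ZMod 2, y = x + 1 → x = y + 1 := by decide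
    have z2 : ∀ x : ZMod 2, x ≠ 0 → x + 1 = 0 := by decide
    rw [z2 _ ht, add_zero] at s3
    have s4 := z1 _ _ s1
    have i2 := Haasa_uniq (h.uni _ _ _ h2) s4 (s3.trans s4)
    simp only [arc]
    rw [i1, i2, add_comm]

end Pool.Agent.TC

end

section

/-! Haas' conditions for a maximal sign distribution. -/

open Finset

namespace Pool.Agent.TC

variable {d : ℤ} {S : Finset Tr} {e : V → ZMod 2}

theorem Haas_lin {Q F Y : Type} [AddCommGroup Q] [AddCommGroup F] [AddCommGroup Y]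
    [Module (ZMod 2) Q] [Module (ZMod 2) F] [Module (ZMod 2) Y] [Module.Finite (ZMod 2) Q]
    [Module.Finite (ZMod 2) Y] (f s : Q →ₗ[ZMod 2] F) (hf : ∀ x, f x = 0 → x = 0)
    (P : Submodule (ZMod 2) F) (Θ : F →ₗ[ZMod 2] Y) (h1 : ∀ x, s x ∈ P)
    (h2 : ∀ x, s x = 0 → f x ∈ P) (h3 : ∀ φ ∈ P, Θ φ = 0 → φ = 0)
    (hc : 2 * Module.finrank (ZMod 2) Y ≤ Module.finrank (ZMod 2) Q + 1) (y : Y) :
    ∃ φ ∈ P, Θ φ = y := by
  have e1 := LinearMap.finrank_range_add_finrank_ker (Θ ∘ₗ s)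
  have e2 : Module.finrank (ZMod 2) (LinearMap.range (Θ ∘ₗ s)) ≤
      Module.finrank (ZMod 2) (P.map Θ) :=
    Submodule.finrank_mono (by rintro _ ⟨x, rfl⟩; exact ⟨s x, h1 x, rfl⟩)
  have hk : ∀ x : LinearMap.ker (Θ ∘ₗ s), f x ∈ P := fun x => h2 x (h3 _ (h1 x) x.2)
  have e3 : Module.finrank (ZMod 2) (LinearMap.ker (Θ ∘ₗ s)) ≤
      Module.finrank (ZMod 2) (P.map Θ) := by
    refine LinearMap.finrank_le_finrank_of_injective
      (f := (Θ ∘ₗ f ∘ₗ (LinearMap.ker (Θ ∘ₗ s)).subtype).codRestrict (P.map Θ)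
        fun x => ⟨f x, hk x, rfl⟩) ((injective_iff_map_eq_zero _).2 fun x hx => ?_)
    exact Subtype.ext (hf _ (h3 _ (hk x) (congrArg Subtype.val hx)))
  have e4 := Submodule.finrank_le (P.map Θ)
  have e5 : P.map Θ = ⊤ := Submodule.eq_top_of_finrank_eq (by omega)
  exact (e5 ▸ Submodule.mem_top : y ∈ P.map Θ)

theorem Haas_two (a : ZMod 2) : a = 0 ∨ a = 1 := by revert a; decide

theorem Haas_sum (f : ZMod 2 → ZMod 2) : ∑ a, f a = f 0 + f 1 := Fin.sum_univ_two f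

theorem Haas_anti (hd : d % 2 = 0) (l : Fin 3 → ZMod 2) (p : V) :
    bit d e (l + 1) p = bit d e l p := by
  have h : ((d : ℤ) : ZMod 2) = 0 := (ZMod.intCast_zmod_eq_zero_iff_dvd d 2).2 (by omega)
  simp only [bit, ex, Fin.sum_univ_three, Pi.add_apply, Pi.one_apply, Matrix.cons_val_zero,
    Matrix.cons_val_one, Matrix.cons_val]
  push_cast
  linear_combination h

theorem Haas_glue {l l' : Fin 3 → ZMod 2} {p : V} (h : ∀ s, ex d p s ≠ 0 → l s = l' s) :
    bit d e l p = bit d e l' p := by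
  refine congrArg _ (sum_congr rfl fun s _ => ?_)
  by_cases hs : ex d p s = 0
  · simp [hs]
  · rw [h s hs]

theorem Haas_iso {l : Fin 3 → ZMod 2} {p q r : V} (hd : det (q - p) (r - p) = 1) (h2 : l 2 = 0)
    (hq : bit d e l q = bit d e l p + 1) (hr : bit d e l r = bit d e l p + 1) :
    l = iso e p q r := by
  obtain ⟨hq', hr'⟩ := iso_spec (d := d) (e := e) hd
  have h2' : iso e p q r 2 = 0 := rfl
  generalize iso e p q r = l' at *
  have hd' := congrArg (Int.cast : ℤ → ZMod 2) hd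
  simp only [det, Prod.fst_sub, Prod.snd_sub] at hd'
  simp only [bit, ex, Fin.sum_univ_three, Matrix.cons_val_zero, Matrix.cons_val_one,
    Matrix.cons_val, h2, h2', zero_mul, add_zero] at hq hr hq' hr'
  push_cast at hd'
  funext s
  fin_cases s
  · show l 0 = l' 0
    linear_combination (-(l 0 - l' 0)) * hd' + ((r.2 : ZMod 2) - p.2) * (hq - hq') -
      ((q.2 : ZMod 2) - p.2) * (hr - hr')
  · show l 1 = l' 1
    linear_combination (-(l 1 - l' 1)) * hd' - ((r.1 : ZMod 2) - p.1) * (hq - hq') +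
      ((q.1 : ZMod 2) - p.1) * (hr - hr')
  · exact h2.trans h2'.symm

theorem Haas_tot {φ : (Fin 3 → ZMod 2) → V → ZMod 2} (hφ : LocC d S e φ)
    (ha : ∀ l p, φ (l + 1) p = φ l p) {p : V} (hp : InT d p) (hn : ¬ Ins d p) : tot φ p = 0 := by
  have h0 : p.1 = 0 ∨ p.2 = 0 ∨ d - p.1 - p.2 = 0 := by
    simp only [InT, Ins] at hp hn; omega
  have two : (2 : ZMod 2) = 0 := rfl
  simp only [tot, Haas_sum]
  rcases h0 with h0 | h0 | h0
  · have h : ∀ b, φ ![1, b, 0] p = φ ![0, b, 0] p := fun b => hφ.1 _ _ p hp fun s hs => by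
      fin_cases s <;> simp_all [ex]
    linear_combination h 0 + h 1 + (φ ![0, 0, 0] p + φ ![0, 1, 0] p) * two
  · have h : ∀ b, φ ![b, 1, 0] p = φ ![b, 0, 0] p := fun b => hφ.1 _ _ p hp fun s hs => by
      fin_cases s <;> simp_all [ex]
    linear_combination h 0 + h 1 + (φ ![0, 0, 0] p + φ ![1, 0, 0] p) * two
  · have h : ∀ a b, φ ![a, b, 0] p = φ ![a, b, 1] p := fun a b =>
      hφ.1 _ _ p hp fun s hs => by fin_cases s <;> simp_all [ex]
    have h1 : φ ![1, 1, 0] p = φ ![0, 0, 0] p := by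
      rw [h, show (![1, 1, 1] : Fin 3 → ZMod 2) = ![0, 0, 0] + 1 by decide, ha]
    have h2 : φ ![1, 0, 0] p = φ ![0, 1, 0] p := by
      rw [h, show (![1, 0, 1] : Fin 3 → ZMod 2) = ![0, 1, 0] + 1 by decide, ha]
    linear_combination h1 + h2 + (φ ![0, 0, 0] p + φ ![0, 1, 0] p) * two

theorem Haas_ker (h : Tri d S) {φ : (Fin 3 → ZMod 2) → V → ZMod 2}
    (hφ : LocC d S e φ) (ha : ∀ l p, φ (l + 1) p = φ l p) (h0 : ∀ p, InT d p → tot φ p = 0)
    {t : Tr} (ht : t ∈ S) (h1 : arc e φ t = 0) {l l' : Fin 3 → ZMod 2} {p p' : V}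
    (hp : InT d p) (hp' : InT d p') : φ l p = φ l' p' := by
  have two : (2 : ZMod 2) = 0 := rfl
  have hrot : ∀ p q r, (p, q, r) ∈ S → arc e φ (q, r, p) = arc e φ (p, q, r) := fun p q r hs => by
    have := arc_add h hφ hs
    rw [h0 p (h.inT _ _ _ hs), h0 q (h.inT2 hs)] at this
    linear_combination this - arc e φ (p, q, r) * two
  have hK : S.filter (fun t => arc e φ t = 0) = S := by
    refine h.conn ⟨filter_subset _ _, fun p q r hs => ?_, fun p q r s hs hs' _ => ?_⟩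
      ⟨t, mem_filter.2 ⟨ht, h1⟩⟩
    · rw [mem_filter] at hs ⊢
      exact ⟨h.rot _ _ _ hs.1, (hrot _ _ _ hs.1).trans hs.2⟩
    · rw [mem_filter] at hs ⊢
      have := arc_cross h hφ hs.1 hs'
      rw [hrot _ _ _ hs', ite_self] at this
      exact ⟨hs', this.symm.trans hs.2⟩
  have hz : ∀ t ∈ S, arc e φ t = 0 := fun t ht => (mem_filter.1 (hK.ge ht)).2
  have key : ∀ (l : Fin 3 → ZMod 2) p q r, (p, q, r) ∈ S → l 2 = 0 → φ l p = φ l q := by
    intro l p q r hs h2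
    by_cases hb : bit d e l p = bit d e l q
    · exact hφ.2 l p q r hs hb
    have hb' : ∀ a b c : ZMod 2, a ≠ b → (b = a + 1 ∧ c = a + 1) ∨ (c = b + 1 ∧ a = b + 1) := by
      decide
    rcases hb' _ _ (bit d e l r) hb with hb | hb
    · have e1 := hz _ hs
      simp only [arc, ← Haas_iso (h.uni _ _ _ hs) h2 hb.1 hb.2] at e1
      linear_combination e1 - φ l q * two
    · have e1 := hz _ (h.rot _ _ _ hs)
      simp only [arc, ← Haas_iso (h.uni _ _ _ (h.rot _ _ _ hs)) h2 hb.1 hb.2] at e1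
      have e2 := hφ.2 l r p q (h.rot2 hs) (hb.1.trans hb.2.symm)
      linear_combination e1 - e2 - φ l q * two
  refine h.sphere_conn φ hφ.1 (fun l p q r hs => ?_) hp hp'
  rcases Haas_two (l 2) with h2 | h2
  · exact key l p q r hs h2
  · rw [← ha l p, ← ha l q]
    exact key _ p q r hs (by rw [Pi.add_apply, h2]; rfl)

/-- the component of a copy of a vertex -/
def Haas_cl (S : Finset Tr) (d : ℤ) (e : V → ZMod 2) (l : Fin 3 → ZMod 2) (p : V) (hp : InT d p) :
    Σ b : ZMod 2, Quot (Rel S (d := d) (e := e) (b := b)) :=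
  ⟨bit d e l p, Quot.mk _ ⟨(l, p), hp, rfl⟩⟩

theorem Haas_cl_eq {l : Fin 3 → ZMod 2} {p : V} (hp : InT d p) {b : ZMod 2}
    (hb : bit d e l p = b) : Haas_cl S d e l p hp = ⟨b, Quot.mk _ ⟨(l, p), hp, hb⟩⟩ := by
  subst hb
  rfl

/-- functions on the components as functions on the copies of the vertices -/
def Haas_ev (S : Finset Tr) (d : ℤ) (e : V → ZMod 2) :
    ((Σ b : ZMod 2, Quot (Rel S (d := d) (e := e) (b := b))) → ZMod 2) →ₗ[ZMod 2]
      ((Fin 3 → ZMod 2) → V → ZMod 2) where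
  toFun ψ l p := if hp : InT d p then ψ (Haas_cl S d e l p hp) else 0
  map_add' ψ ψ' := by
    funext l p
    by_cases hp : InT d p <;> simp [hp]
  map_smul' c ψ := by
    funext l p
    by_cases hp : InT d p <;> simp [hp]

theorem Haas_ev_apply (ψ) (l : Fin 3 → ZMod 2) (p : V) :
    Haas_ev S d e ψ l p = if hp : InT d p then ψ (Haas_cl S d e l p hp) else 0 := rfl

theorem Haas_ev_loc (h : Tri d S) (ψ) : LocC d S e (Haas_ev S d e ψ) := by
  refine ⟨fun l l' p hp hl => ?_, fun l p q r hs hb => ?_⟩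
  · rw [Haas_ev_apply, Haas_ev_apply, dif_pos hp, dif_pos hp, Haas_cl_eq hp (Haas_glue hl),
      Haas_cl_eq hp rfl]
    exact congrArg (fun x => ψ ⟨_, x⟩) (Quot.sound (Or.inl ⟨rfl, hl⟩))
  · rw [Haas_ev_apply, Haas_ev_apply, dif_pos (h.inT _ _ _ hs), dif_pos (h.inT2 hs),
      Haas_cl_eq _ hb, Haas_cl_eq _ rfl]
    exact congrArg (fun x => ψ ⟨_, x⟩) (Quot.sound (Or.inr ⟨rfl, r, hs⟩))

/-- the invariant functions -/
def Haas_P (S : Finset Tr) (d : ℤ) (e : V → ZMod 2) :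
    Submodule (ZMod 2) ((Fin 3 → ZMod 2) → V → ZMod 2) where
  carrier := {φ | LocC d S e φ ∧ (∀ l p, φ (l + 1) p = φ l p) ∧ ∀ l p, ¬ InT d p → φ l p = 0}
  add_mem' := by
    rintro φ φ' ⟨h1, h2, h3⟩ ⟨h1', h2', h3'⟩
    refine ⟨⟨fun l l' p hp hl => ?_, fun l p q r hs hb => ?_⟩, fun l p => ?_, fun l p hp => ?_⟩
    · simp only [Pi.add_apply, h1.1 l l' p hp hl, h1'.1 l l' p hp hl]
    · simp only [Pi.add_apply, h1.2 l p q r hs hb, h1'.2 l p q r hs hb]
    · simp only [Pi.add_apply, h2, h2']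
    · simp only [Pi.add_apply, h3 l p hp, h3' l p hp, add_zero]
  zero_mem' := ⟨⟨fun _ _ _ _ _ => rfl, fun _ _ _ _ _ _ => rfl⟩, fun _ _ => rfl, fun _ _ _ => rfl⟩
  smul_mem' := by
    rintro c φ ⟨h1, h2, h3⟩
    refine ⟨⟨fun l l' p hp hl => ?_, fun l p q r hs hb => ?_⟩, fun l p => ?_, fun l p hp => ?_⟩
    · simp only [Pi.smul_apply, h1.1 l l' p hp hl]
    · simp only [Pi.smul_apply, h1.2 l p q r hs hb]
    · simp only [Pi.smul_apply, h2]
    · simp only [Pi.smul_apply, h3 l p hp, smul_zero]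

/-- the antipode -/
def Haas_a : ((Fin 3 → ZMod 2) → V → ZMod 2) →ₗ[ZMod 2] ((Fin 3 → ZMod 2) → V → ZMod 2) where
  toFun φ l := φ (l + 1)
  map_add' _ _ := rfl
  map_smul' _ _ := rfl

/-- the data that determine an invariant function -/
def Haas_th (d : ℤ) (e : V → ZMod 2) (t : Tr) : ((Fin 3 → ZMod 2) → V → ZMod 2) →ₗ[ZMod 2]
    (((pts d).filter (Ins d) → ZMod 2) × ZMod 2 × ZMod 2) where
  toFun φ := (fun p => tot φ p, arc e φ t, φ 0 t.1)
  map_add' φ φ' := by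
    refine Prod.ext (funext fun p => ?_) (Prod.ext ?_ rfl)
    · simp only [tot, Pi.add_apply, sum_add_distrib, Prod.fst_add]
    · simp only [arc, Pi.add_apply, Prod.fst_add, Prod.snd_add]
      ring
  map_smul' c φ := by
    refine Prod.ext (funext fun p => ?_) (Prod.ext ?_ rfl)
    · simp only [tot, Pi.smul_apply, smul_eq_mul, RingHom.id_apply, Prod.smul_fst, mul_sum]
    · simp only [arc, Pi.smul_apply, smul_eq_mul, RingHom.id_apply, Prod.smul_fst, Prod.smul_snd]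
      ring

/-- Plan: the space `Φ` of `LocC` functions (restricted to `T`) has dimension
`≥ cc 0 + cc 1 ≥ 2 g + 3`; the subspace invariant under `l ↦ l + 1` (it preserves `bit`, `d` even)
has dimension `≥ g + 2` (`φ ↦ φ + φ ∘ antipode` has it as kernel and maps into it). On it `tot`
vanishes at boundary points, and the kernel of `tot` on interior points has dimension `≤ 2`
(`arc` is then constant by `arc_add`, `arc_cross`, `Tri.conn`; subtract `c * bit`,
`sphere_conn`). So `tot` is onto the functions on the `g` interior points (`card_ins`). -/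
theorem exists_locC (hd : d % 2 = 0) (h : Tri d S)
    (hM : (d - 1) * (d - 2) + 3 ≤ (cc S d e 0 + cc S d e 1 : ℕ)) {v : V} (hv : Ins d v) :
    ∃ φ, LocC d S e φ ∧ ∀ p, InT d p → tot φ p = if p = v then 1 else 0 := by
  obtain ⟨t, ht⟩ := h.ne
  have two : (2 : ZMod 2) = 0 := rfl
  have hll : ∀ l : Fin 3 → ZMod 2, l + 1 + 1 = l := fun l => funext fun s => by
    simp only [Pi.add_apply, Pi.one_apply]
    linear_combination two
  have hI : ∀ p, InT d p → Ins d p → p ∈ (pts d).filter (Ins d) := fun p hp hi =>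
    mem_filter.2 ⟨mem_pts.2 hp, hi⟩
  have := Fintype.ofFinite (Σ b : ZMod 2, Quot (Rel S (d := d) (e := e) (b := b)))
  obtain ⟨φ, ⟨hφ, ha, -⟩, hφ'⟩ := Haas_lin (Haas_ev S d e)
    (Haas_ev S d e + Haas_a ∘ₗ Haas_ev S d e)
    (fun ψ hψ => by
      funext ⟨b, x⟩
      obtain ⟨⟨⟨l, p⟩, hp, hb⟩, rfl⟩ := Quot.exists_rep x
      have h1 := congrFun (congrFun hψ l) p
      rwa [Haas_ev_apply, dif_pos hp, Haas_cl_eq hp hb] at h1)
    (Haas_P S d e) (Haas_th d e t)
    (fun ψ => by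
      obtain ⟨h1, h2⟩ := Haas_ev_loc (e := e) h ψ
      have e1 : ∀ l p, (Haas_ev S d e + Haas_a ∘ₗ Haas_ev S d e) ψ l p =
        Haas_ev S d e ψ l p + Haas_ev S d e ψ (l + 1) p := fun _ _ => rfl
      refine ⟨⟨fun l l' p hp hl => ?_, fun l p q r hs hb => ?_⟩, fun l p => ?_, fun l p hp => ?_⟩
      · rw [e1, e1, h1 l l' p hp hl, h1 (l + 1) (l' + 1) p hp fun s hs => by
          rw [Pi.add_apply, Pi.add_apply, hl s hs]]
      · rw [e1, e1, h2 l p q r hs hb, h2 (l + 1) p q r hs (by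
          rw [Haas_anti hd, Haas_anti hd, hb])]
      · rw [e1, e1, hll, add_comm]
      · rw [e1, Haas_ev_apply, Haas_ev_apply, dif_neg hp, dif_neg hp, add_zero])
    (fun ψ hψ => ⟨Haas_ev_loc h ψ, fun l p => by
      have h1 : Haas_ev S d e ψ l p + Haas_ev S d e ψ (l + 1) p = 0 := congrFun (congrFun hψ l) p
      linear_combination h1 - Haas_ev S d e ψ l p * two, fun l p hp => dif_neg hp⟩)
    (fun φ ⟨hφ, ha, h0⟩ hz => by
      have z1 : ∀ p : (pts d).filter (Ins d), tot φ p = 0 := congrFun (congrArg Prod.fst hz)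
      have z2 : arc e φ t = 0 := congrArg (fun x => x.2.1) hz
      have z3 : φ 0 t.1 = 0 := congrArg (fun x => x.2.2) hz
      funext l p
      by_cases hp : InT d p
      · refine (Haas_ker h hφ ha (fun q hq => ?_) ht z2 hp (h.inT _ _ _ ht)).trans z3
        by_cases hi : Ins d q
        · exact z1 ⟨q, hI q hq hi⟩
        · exact Haas_tot hφ ha hq hi
      · exact h0 l p hp)
    (by
      have e1 := card_ins h.pos
      have e2 : Fintype.card (Σ b : ZMod 2, Quot (Rel S (d := d) (e := e) (b := b))) =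
          cc S d e 0 + cc S d e 1 := by
        rw [← Nat.card_eq_fintype_card, Nat.card_sigma]
        exact Fin.sum_univ_two _
      rw [Module.finrank_prod, Module.finrank_prod, Module.finrank_self,
        Module.finrank_fintype_fun_eq_card, Module.finrank_fintype_fun_eq_card, Fintype.card_coe, e2]
      omega)
    (fun p => if p.1 = v then 1 else 0, 0, 0)
  refine ⟨φ, hφ, fun p hp => ?_⟩
  by_cases hi : Ins d p
  · exact congrFun (congrArg Prod.fst hφ') ⟨p, hI p hp hi⟩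
  · rw [Haas_tot hφ ha hp hi, if_neg fun hpv : p = v => hi (hpv ▸ hv)]

/-- `a t = arc t + [t.1 = v]` -/
theorem haas (hd : d % 2 = 0) (h : Tri d S)
    (hM : (d - 1) * (d - 2) + 3 ≤ (cc S d e 0 + cc S d e 1 : ℕ)) {v : V} (hv : Ins d v) :
    ∃ a : Tr → ZMod 2, RotInv S a ∧ ∀ p q r s, (p, q, r) ∈ S → (q, p, s) ∈ S →
      a (p, q, r) + a (q, p, s) = if p = v ∨ q = v then tw e p q r s else 0 := by
  obtain ⟨φ, hφ, ht⟩ := exists_locC hd h hM hv
  have two : (2 : ZMod 2) = 0 := rfl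
  refine ⟨fun t => arc e φ t + if t.1 = v then 1 else 0, fun p q r hs => ?_,
    fun p q r s hs hs' => ?_⟩
  · have h1 := arc_add h hφ hs
    rw [ht p (h.inT _ _ _ hs), ht q (h.inT2 hs)] at h1
    dsimp only
    linear_combination h1 + ((if q = v then 1 else 0) - arc e φ (p, q, r)) * two
  · have h1 := arc_add h hφ hs'
    have h2 := arc_cross h hφ hs hs'
    rw [ht p (h.inT _ _ _ hs), ht q (h.inT2 hs)] at h1
    dsimp only
    rcases Haas_two (tw e p q r s) with h3 | h3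
    · rw [if_pos h3] at h2
      rw [h3, ite_self]
      linear_combination h1 + h2 + ((if q = v then 1 else 0) + if p = v then 1 else 0) * two
    · rw [if_neg (by rw [h3]; decide)] at h2
      have hpq : p ≠ q := fun hpq => by
        have := h.uni _ _ _ hs
        simp [hpq, det] at this
      have h4 : ((if p = v then 1 else 0) + if q = v then 1 else 0 : ZMod 2) =
          if p = v ∨ q = v then 1 else 0 := by
        by_cases hp : p = v <;> by_cases hq : q = v <;> simp_all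
      rw [h3]
      linear_combination h2 + h4 + arc e φ (q, p, s) * two

end Pool.Agent.TC

end

section

/-! `b₁(X_b) ≥ c_{b+1} - 1` for the subcomplex of the sphere spanned by the sign `b`. -/

open Finset

namespace Pool.Agent.TC

variable {d : ℤ} {S : Finset Tr} {e : V → ZMod 2}

theorem Chia_ev (p : V) : Ev p ↔ ((p.1 : ZMod 2) = 0 ∧ (p.2 : ZMod 2) = 0) := by
  have h : ∀ x : ℤ, (x : ZMod 2) = 0 ↔ x % 2 = 0 := fun x => by
    rw [ZMod.intCast_zmod_eq_zero_iff_dvd]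
    push_cast
    omega
  simp only [Ev, h]

theorem Chia_d (hd : d % 2 = 0) : (d : ZMod 2) = 0 := by
  rw [ZMod.intCast_zmod_eq_zero_iff_dvd]
  push_cast
  omega

theorem Chia_bit (hd : d % 2 = 0) (l : Fin 3 → ZMod 2) (p : V) :
    bit d e l p = e p + (l 0 * (p.1 : ZMod 2) + l 1 * (p.2 : ZMod 2) +
      l 2 * (0 - (p.1 : ZMod 2) - (p.2 : ZMod 2))) := by
  simp [bit, ex, Fin.sum_univ_three, Chia_d hd]

theorem Chia_k1 : ∀ a1 a2 b1 b2 x y b : ZMod 2, ¬ (b1 - a1 = 0 ∧ b2 - a2 = 0) →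
    (univ.filter fun l : Fin 3 → ZMod 2 =>
      x + (l 0 * a1 + l 1 * a2 + l 2 * (0 - a1 - a2)) = b ∧
      y + (l 0 * b1 + l 1 * b2 + l 2 * (0 - b1 - b2)) = b).card =
      if a1 = 0 ∧ a2 = 0 then (if x = b then 4 else 0)
      else if b1 = 0 ∧ b2 = 0 then (if y = b then 4 else 0) else 2 := by
  decide +kernel

theorem Chia_k2 : ∀ a1 a2 b1 b2 c1 c2 : ZMod 2,
    (b1 - a1) * (c2 - a2) - (b2 - a2) * (c1 - a1) = 1 → ∀ x y z b : ZMod 2,
    (univ.filter fun l : Fin 3 → ZMod 2 =>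
      x + (l 0 * a1 + l 1 * a2 + l 2 * (0 - a1 - a2)) = b ∧
      y + (l 0 * b1 + l 1 * b2 + l 2 * (0 - b1 - b2)) = b ∧
      z + (l 0 * c1 + l 1 * c2 + l 2 * (0 - c1 - c2)) = b).card =
      if (a1 = 0 ∧ a2 = 0) ∨ (b1 = 0 ∧ b2 = 0) ∨ (c1 = 0 ∧ c2 = 0) then
        (if (if a1 = 0 ∧ a2 = 0 then x else if b1 = 0 ∧ b2 = 0 then y
          else if c1 = 0 ∧ c2 = 0 then z else 1 + x + y + z) = b then 2 else 0)
      else (if (if a1 = 0 ∧ a2 = 0 then x else if b1 = 0 ∧ b2 = 0 then y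
          else if c1 = 0 ∧ c2 = 0 then z else 1 + x + y + z) = b then 0 else 2) := by
  decide +kernel

set_option synthInstance.maxSize 1024 in
theorem Chia_k3 : ∀ (z0 z1 z2 : Bool) (a1 a2 x b : ZMod 2), (z0 = true → a1 = 0) →
    (z1 = true → a2 = 0) → (z2 = true → 0 - a1 - a2 = 0) →
    ¬ (z0 = true ∧ z1 = true ∧ z2 = true) →
    ((univ.filter fun l : Fin 3 → ZMod 2 =>
      x + (l 0 * a1 + l 1 * a2 + l 2 * (0 - a1 - a2)) = b ∧
      (z0 = true → l 0 = 0) ∧ (z1 = true → l 1 = 0) ∧ (z2 = true → l 2 = 0)).card : ℤ) =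
      if a1 = 0 ∧ a2 = 0 then (if x = b then 2 * (if z0 = false ∧ z1 = false ∧ z2 = false then 4
        else if (z0 = true ∧ z1 = true) ∨ (z1 = true ∧ z2 = true) ∨ (z0 = true ∧ z2 = true)
          then 1 else 2) else 0)
      else (if z0 = false ∧ z1 = false ∧ z2 = false then 4
        else if (z0 = true ∧ z1 = true) ∨ (z1 = true ∧ z2 = true) ∨ (z0 = true ∧ z2 = true)
          then 1 else 2) := by
  decide +kernel

/-- octants in which a dart has both ends of sign `b` (finite check on parities) -/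
theorem card_oct_edge {p q y : V} (hd : d % 2 = 0) (hy : det (q - p) y = 1) (b : ZMod 2) :
    (univ.filter fun l => bit d e l p = b ∧ bit d e l q = b).card =
      if Ev p then (if e p = b then 4 else 0) else if Ev q then (if e q = b then 4 else 0)
      else 2 := by
  have h := Chia_k1 (p.1 : ZMod 2) p.2 q.1 q.2 (e p) (e q) b (by
    rintro ⟨h1, h2⟩
    have h3 := congrArg (Int.cast : ℤ → ZMod 2) hy
    simp only [det, Prod.fst_sub, Prod.snd_sub] at h3
    push_cast at h3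
    rw [h1, h2] at h3
    simp at h3)
  simp only [Chia_bit hd, Chia_ev]
  exact h

theorem card_oct_tri {p q r : V} (hd : d % 2 = 0) (hy : det (q - p) (r - p) = 1) (b : ZMod 2) :
    (univ.filter fun l => bit d e l p = b ∧ bit d e l q = b ∧ bit d e l r = b).card =
      if Ev p ∨ Ev q ∨ Ev r then (if col e (p, q, r) = b then 2 else 0)
      else (if col e (p, q, r) = b then 0 else 2) := by
  have h := Chia_k2 (p.1 : ZMod 2) p.2 q.1 q.2 r.1 r.2 (by
    have h3 := congrArg (Int.cast : ℤ → ZMod 2) hy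
    simp only [det, Prod.fst_sub, Prod.snd_sub] at h3
    push_cast at h3
    exact h3) (e p) (e q) (e r) b
  simp only [Chia_bit hd, col, Chia_ev]
  exact h

/-- normalized copies (`l s = 0` where the exponent vanishes) of a vertex with sign `b` -/
theorem card_oct_pt {p : V} (hd : d % 2 = 0) (hd0 : 0 < d) (hp : InT d p) (b : ZMod 2) :
    ((univ.filter fun l => bit d e l p = b ∧ ∀ s, ex d p s = 0 → l s = 0).card : ℤ) =
      if Ev p then (if e p = b then 2 * wt d p else 0) else wt d p := by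
  have h := Chia_k3 (decide (p.1 = 0)) (decide (p.2 = 0)) (decide (d - p.1 - p.2 = 0))
    (p.1 : ZMod 2) p.2 (e p) b (by
      intro h
      simp [of_decide_eq_true h]) (by
      intro h
      simp [of_decide_eq_true h]) (by
      intro h
      have h3 := congrArg (Int.cast : ℤ → ZMod 2) (of_decide_eq_true h)
      push_cast at h3
      rwa [Chia_d hd] at h3) (by
      simp only [decide_eq_true_eq]
      omega)
  have hw : wt d p = (if decide (p.1 = 0) = false ∧ decide (p.2 = 0) = false ∧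
        decide (d - p.1 - p.2 = 0) = false then 4
      else if (decide (p.1 = 0) = true ∧ decide (p.2 = 0) = true) ∨
        (decide (p.2 = 0) = true ∧ decide (d - p.1 - p.2 = 0) = true) ∨
        (decide (p.1 = 0) = true ∧ decide (d - p.1 - p.2 = 0) = true) then 1 else 2) := by
    obtain ⟨p1, p2⟩ := p
    simp only [InT] at hp
    simp only [wt, Ins, decide_eq_true_eq, decide_eq_false_iff_not, Prod.mk.injEq]
    refine if_congr (by omega) rfl (if_congr (by omega) rfl rfl)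
  rw [← hw] at h
  simp only [Chia_bit hd, Chia_ev]
  rw [← h]
  congr 2
  ext l
  simp [ex, Fin.forall_fin_succ]

end Pool.Agent.TC

end

section

/-! `b₁(X_b) ≥ c_{b+1} - 1` for the subcomplex of the sphere spanned by the sign `b`. -/

open Finset

namespace Pool.Agent.TC

variable {d : ℤ} {S : Finset Tr} {e : V → ZMod 2}

theorem Chib_abs {A X N Q : Type} [Fintype A] [Fintype X] [Fintype Q] [DecidableEq N]
    (ι ρ : A → A) (tl : A → N) (Wf : Finset N) (f : A → X) (π : Wf → Q)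
    (hι : ∀ a, ι (ι a) = a) (hne : ∀ a, ι a ≠ a) (hρ : Function.Bijective ρ)
    (ht : ∀ a, tl (ρ a) = tl (ι a)) (hf : Function.Surjective f) (hf1 : ∀ a, f (ρ a) = f a)
    (hf2 : ∀ a, ¬ (tl a ∈ Wf ∧ tl (ι a) ∈ Wf) → f (ι a) = f a)
    (hc : ∀ u : X → ZMod 2, (∀ a, u (f (ι a)) = u (f a)) → ∀ a a', u (f a) = u (f a'))
    (h1 : ∀ φ : Wf → ZMod 2,
      (∀ a (h : tl a ∈ Wf) (h' : tl (ι a) ∈ Wf), φ ⟨_, h⟩ = φ ⟨_, h'⟩) →
        ∃ ψ : Q → ZMod 2, ∀ w, φ w = ψ (π w)) :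
    2 * (Fintype.card X + Wf.card) ≤
      (univ.filter fun a => tl a ∈ Wf ∧ tl (ι a) ∈ Wf).card + 2 + 2 * Fintype.card Q := by
  classical
  let P : A → Prop := fun a => tl a ∈ Wf ∧ tl (ι a) ∈ Wf
  have hP : ∀ a, P a → P (ι a) := fun a ha => ⟨ha.2, by rw [hι]; exact ha.1⟩
  have hιb : Function.Bijective ι := Function.Involutive.bijective hι
  have key := ael (D := {a // P a}) (X := X) (W := Wf) (Q := Q)
    (fun x => ⟨ι x.1, hP _ x.2⟩) (fun x => f x.1) (fun x => some ⟨tl x.1, x.2.1⟩)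
    (fun w => some (π w)) (fun x => Subtype.ext (hι _))
    (fun x hx => hne x.1 (congrArg Subtype.val hx)) ?_ ?_ ?_
  · rw [Fintype.card_coe, Fintype.card_subtype] at key
    exact key
  · intro u w
    have e1 : ∑ x : {a // P a} with (some ⟨tl x.1, x.2.1⟩ : Option Wf) = some w,
        (u (f x.1) + u (f (ι x.1))) =
        ∑ a : A, if tl a = w.1 then u (f a) + u (f (ι a)) else 0 := by
      rw [sum_filter, ← Fintype.sum_subtype_add_sum_subtype P]
      have z : ∑ x : {a // ¬ P a}, (if tl x.1 = w.1 then u (f x.1) + u (f (ι x.1)) else 0) = 0 := by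
        refine sum_eq_zero fun x _ => ?_
        rw [hf2 _ x.2, CharTwo.add_self_eq_zero, ite_self]
      rw [z, add_zero]
      refine sum_congr rfl fun x _ => ?_
      simp only [Option.some.injEq, Subtype.ext_iff]
    have e2 : ∑ a : A, (if tl a = w.1 then u (f (ι a)) else 0) =
        ∑ a : A, if tl a = w.1 then u (f a) else 0 := by
      rw [← hιb.sum_comp fun a => if tl a = w.1 then u (f (ι a)) else 0,
        ← hρ.sum_comp fun a => if tl a = w.1 then u (f a) else 0]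
      refine sum_congr rfl fun a _ => ?_
      rw [hι, ht, hf1]
    have e3 : ∑ a : A, (if tl a = w.1 then u (f a) + u (f (ι a)) else 0) =
        ∑ a : A, (if tl a = w.1 then u (f a) else 0) +
          ∑ a : A, (if tl a = w.1 then u (f (ι a)) else 0) := by
      rw [← sum_add_distrib]
      refine sum_congr rfl fun a _ => ?_
      split_ifs <;> simp
    exact e1.trans (by rw [e3, e2, CharTwo.add_self_eq_zero])
  · intro u hu a b
    obtain ⟨a, rfl⟩ := hf a
    obtain ⟨b, rfl⟩ := hf b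
    refine hc u (fun a => ?_) a b
    by_cases h : P a
    · exact (hu ⟨a, h⟩).symm
    · rw [hf2 a h]
  · intro φ hφ
    exact h1 φ fun a h h' => hφ ⟨a, h, h'⟩


def Chib_dl (d : ℤ) (p q : V) : Fin 3 → ZMod 2 :=
  fun s => if ex d p s = 0 ∧ ex d q s = 0 then 1 else 0

def Chib_nm (d : ℤ) (l : Fin 3 → ZMod 2) (p : V) : (Fin 3 → ZMod 2) × V :=
  (fun s => if ex d p s = 0 then 0 else l s, p)

theorem Chib_bit_congr {l l' : Fin 3 → ZMod 2} {p : V} (h : ∀ s, ex d p s ≠ 0 → l s = l' s) :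
    bit d e l p = bit d e l' p := by
  unfold bit
  congr 1
  refine sum_congr rfl fun s _ => ?_
  by_cases hs : ex d p s = 0
  · simp [hs]
  · rw [h s hs]

theorem Chib_nm_congr {l l' : Fin 3 → ZMod 2} {p : V} (h : ∀ s, ex d p s ≠ 0 → l s = l' s) :
    Chib_nm d l p = Chib_nm d l' p := by
  unfold Chib_nm
  congr 1
  funext s
  by_cases hs : ex d p s = 0
  · simp [hs]
  · simp [hs, h s hs]

theorem Chib_bit_nm (l : Fin 3 → ZMod 2) (p : V) :
    bit d e (Chib_nm d l p).1 p = bit d e l p :=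
  Chib_bit_congr fun s hs => by simp [Chib_nm, hs]

theorem Chib_dl_left (l : Fin 3 → ZMod 2) (p q : V) (s : Fin 3) (hs : ex d p s ≠ 0) :
    (l + Chib_dl d p q) s = l s := by simp [Chib_dl, hs]

theorem Chib_dl_right (l : Fin 3 → ZMod 2) (p q : V) (s : Fin 3) (hs : ex d q s ≠ 0) :
    (l + Chib_dl d p q) s = l s := by simp [Chib_dl, hs]

theorem Chib_dl_sum {p q : V} (hp : InT d p) (hq : InT d q) (hb : BdU d p q) :
    ∑ s, Chib_dl d p q s = 1 := by
  obtain ⟨p1, p2⟩ := p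
  obtain ⟨q1, q2⟩ := q
  simp only [InT, BdU, Prod.mk.injEq] at hp hq hb
  simp only [Fin.sum_univ_three, Chib_dl, ex, Matrix.cons_val_zero, Matrix.cons_val_one,
    Matrix.cons_val]
  split_ifs <;> first | omega | simp

theorem Chib_oct (g : (Fin 3 → ZMod 2) → ZMod 2) (h0 : ∀ l, g (l + ![1, 0, 0]) = g l)
    (h1 : ∀ l, g (l + ![0, 1, 0]) = g l) (h2 : ∀ l, g (l + ![0, 0, 1]) = g l) (l) : g l = g 0 := by
  have : ∀ l : Fin 3 → ZMod 2, l = 0 ∨ l = 0 + ![1, 0, 0] ∨ l = 0 + ![0, 1, 0] ∨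
      l = 0 + ![0, 0, 1] ∨ l = 0 + ![1, 0, 0] + ![0, 1, 0] ∨ l = 0 + ![1, 0, 0] + ![0, 0, 1] ∨
      l = 0 + ![0, 1, 0] + ![0, 0, 1] ∨ l = 0 + ![1, 0, 0] + ![0, 1, 0] + ![0, 0, 1] := by
    decide
  rcases this l with h | h | h | h | h | h | h | h <;> rw [h] <;> simp only [h0, h1, h2]

/-- rotation of a dart -/
def Chib_R (h : Tri d S) (a : (Fin 3 → ZMod 2) × S) : (Fin 3 → ZMod 2) × S :=
  (a.1, ⟨rot a.2.1, h.rot _ _ _ a.2.2⟩)

theorem Chib_R3 (h : Tri d S) (a) : Chib_R h (Chib_R h (Chib_R h a)) = a := rfl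

/-- the opposite dart -/
def Chib_Opp (d : ℤ) (a a' : (Fin 3 → ZMod 2) × S) : Prop :=
  (Bd d a.2.1.1 a.2.1.2.1 ∧ a' = (a.1 + Chib_dl d a.2.1.1 a.2.1.2.1, a.2)) ∨
    (¬ Bd d a.2.1.1 a.2.1.2.1 ∧ a'.1 = a.1 ∧ a'.2.1.1 = a.2.1.2.1 ∧ a'.2.1.2.1 = a.2.1.1)

theorem Chib_exists_opp (h : Tri d S) (a : (Fin 3 → ZMod 2) × S) : ∃ a', Chib_Opp d a a' := by
  by_cases hb : Bd d a.2.1.1 a.2.1.2.1
  · exact ⟨_, Or.inl ⟨hb, rfl⟩⟩
  · obtain ⟨s, hs⟩ := h.opp _ _ _ a.2.2 hb
    exact ⟨(a.1, ⟨_, hs⟩), Or.inr ⟨hb, rfl, rfl, rfl⟩⟩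

theorem Chib_bd_symm {p q : V} (h : Bd d p q) : Bd d q p := by
  unfold Bd at *; tauto

theorem Chib_opp_inv (h : Tri d S) {a a' a'' : (Fin 3 → ZMod 2) × S} (h1 : Chib_Opp d a a')
    (h2 : Chib_Opp d a' a'') : a'' = a := by
  obtain ⟨l, ⟨p, q, r⟩, ht⟩ := a
  rcases h1 with ⟨hb, rfl⟩ | ⟨hb, e1, e2, e3⟩
  · rcases h2 with ⟨-, rfl⟩ | ⟨hb', -⟩
    · simp only [add_assoc, Prod.mk.injEq, and_true]
      funext s
      simp [CharTwo.add_self_eq_zero]
    · exact absurd hb hb'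
  · rcases h2 with ⟨hb', -⟩ | ⟨-, f1, f2, f3⟩
    · rw [e2, e3] at hb'
      exact absurd (Chib_bd_symm hb') hb
    · obtain ⟨l'', ⟨p'', q'', r''⟩, ht''⟩ := a''
      simp only at e1 e2 e3 f1 f2 f3
      rw [e1] at f1; rw [e3] at f2; rw [e2] at f3
      subst f1 f2 f3
      obtain rfl := h.uniq _ _ _ _ ht ht''
      rfl

theorem Chib_ne (h : Tri d S) {p q r : V} (ht : (p, q, r) ∈ S) : p ≠ q := by
  rintro rfl
  have := h.uni _ _ _ ht
  simp [det] at this

theorem Chib_par (h : Tri d S) (a : (Fin 3 → ZMod 2) × S) (hb : Bd d a.2.1.1 a.2.1.2.1) :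
    ∑ s, (a.1 + Chib_dl d a.2.1.1 a.2.1.2.1) s = ∑ s, a.1 s + 1 := by
  rw [← Chib_dl_sum (h.inT _ _ _ a.2.2) (h.inT2 a.2.2) (h.bdU a.2.2 hb), ← sum_add_distrib]
  rfl

theorem Chib_opp_ne (h : Tri d S) {a a' : (Fin 3 → ZMod 2) × S} (h1 : Chib_Opp d a a') :
    a' ≠ a := by
  rintro rfl
  rcases h1 with ⟨hb, e1⟩ | ⟨-, -, e2, -⟩
  · have := Chib_par h a' hb
    have e2 : a'.1 + Chib_dl d a'.2.1.1 a'.2.1.2.1 = a'.1 := (congrArg Prod.fst e1).symm
    rw [e2] at this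
    simp at this
  · exact Chib_ne h a'.2.2 e2

theorem Chib_conn (h : Tri d S) (U : (Fin 3 → ZMod 2) × S → ZMod 2)
    (hR : ∀ a, U (Chib_R h a) = U a) (hO : ∀ a, ∃ a', Chib_Opp d a a' ∧ U a' = U a) (a a') :
    U a = U a' := by
  classical
  have h1 : ∀ l t t', U (l, t) = U (l, t') := by
    intro l t t'
    have hK : Cl S ∅ (S.filter fun x => ∃ hx : x ∈ S, U (l, ⟨x, hx⟩) = U (l, t')) := by
      refine ⟨filter_subset _ _, fun p q r hm => ?_, fun p q r s hm hs _ => ?_⟩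
      · obtain ⟨hS, _, hx⟩ := mem_filter.1 hm
        exact mem_filter.2 ⟨h.rot _ _ _ hS, h.rot _ _ _ hS, (hR (l, ⟨_, hS⟩)).trans hx⟩
      · obtain ⟨hS, _, hx⟩ := mem_filter.1 hm
        refine mem_filter.2 ⟨hs, hs, ?_⟩
        obtain ⟨⟨l', ⟨p', q', r'⟩, ht'⟩, ⟨hb, -⟩ | ⟨-, e1, e2, e3⟩, hU⟩ := hO (l, ⟨_, hS⟩)
        · exact absurd hb (h.not_bd hS hs)
        · simp only at e1 e2 e3
          subst e1 e2 e3
          obtain rfl := h.uniq _ _ _ _ hs ht'
          exact hU.trans hx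
    have := h.conn hK ⟨t'.1, mem_filter.2 ⟨t'.2, t'.2, rfl⟩⟩
    exact (mem_filter.1 (this.symm.subset t.2)).2.2
  have hd := h.pos
  have h2 : ∀ p q, InT d p → InT d q → BdU d p q → Bd d p q → ∀ l,
      U (l + Chib_dl d p q, a'.2) = U (l, a'.2) := by
    intro p q hp hq hu hb l
    obtain ⟨r, hr⟩ := h.bd_exists hp hq hu
    obtain ⟨x, ⟨-, rfl⟩ | ⟨hb', -⟩, hU⟩ := hO (l, ⟨_, hr⟩)
    · exact (h1 _ _ _).trans (hU.trans (h1 _ _ _))
    · exact absurd hb hb'
  have e0 : Chib_dl d (0, 1) (0, 0) = ![1, 0, 0] := by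
    funext s; fin_cases s <;> simp [Chib_dl, ex]; omega
  have e1 : Chib_dl d (0, 0) (1, 0) = ![0, 1, 0] := by
    funext s; fin_cases s <;> simp [Chib_dl, ex]; omega
  have e2 : Chib_dl d (d, 0) (d - 1, 1) = ![0, 0, 1] := by
    funext s; fin_cases s <;> simp [Chib_dl, ex]; omega
  have h3 := Chib_oct (fun l => U (l, a'.2))
    (e0 ▸ h2 (0, 1) (0, 0) (by simp [InT]; omega) (by simp [InT]; omega) (by simp [BdU])
      (by simp [Bd]))
    (e1 ▸ h2 (0, 0) (1, 0) (by simp [InT]; omega) (by simp [InT]; omega) (by simp [BdU])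
      (by simp [Bd]))
    (e2 ▸ h2 (d, 0) (d - 1, 1) (by simp [InT]; omega) (by simp [InT]; omega) (by simp [BdU])
      (by simp [Bd]))
  exact (h1 a.1 a.2 a'.2).trans ((h3 a.1).trans (h3 a'.1).symm)


theorem Chib_card (P : (Fin 3 → ZMod 2) → Tr → Prop) [∀ l t, Decidable (P l t)] :
    (univ.filter fun a : (Fin 3 → ZMod 2) × S => P a.1 a.2.1).card =
      ∑ t ∈ S, (univ.filter fun l => P l t).card := by
  simp only [card_filter]
  rw [Fintype.sum_prod_type_right]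
  exact sum_coe_sort S fun t => ∑ l, if P l t then 1 else 0

/-- the darts of the triangles with all signs `b` -/
def Chib_A3 (S : Finset Tr) (d : ℤ) (e : V → ZMod 2) (b : ZMod 2) :
    Finset ((Fin 3 → ZMod 2) × S) :=
  univ.filter fun a => bit d e a.1 a.2.1.1 = b ∧ bit d e a.1 a.2.1.2.1 = b ∧
    bit d e a.1 a.2.1.2.2 = b

def Chib_G (h : Tri d S) (a : (Fin 3 → ZMod 2) × S) : Finset ((Fin 3 → ZMod 2) × S) :=
  {a, Chib_R h a, Chib_R h (Chib_R h a)}

theorem Chib_G_R (h : Tri d S) (a) : Chib_G h (Chib_R h a) = Chib_G h a := by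
  ext x
  simp only [Chib_G, Chib_R3, mem_insert, mem_singleton]
  exact or_rotate.symm

noncomputable def Chib_X (h : Tri d S) (e : V → ZMod 2) (b : ZMod 2) :
    Finset (Finset ((Fin 3 → ZMod 2) × S)) :=
  @image _ _ (Classical.decEq _) (Chib_G h) (Chib_A3 S d e b)

theorem Chib_mem_X (h : Tri d S) {b : ZMod 2} {y} :
    y ∈ Chib_X h e b ↔ ∃ a ∈ Chib_A3 S d e b, Chib_G h a = y :=
  @mem_image _ _ (Classical.decEq _) _ _ _

theorem Chib_card_A3 (h : Tri d S) (b : ZMod 2) :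
    (Chib_A3 S d e b).card ≤ 3 * (Chib_X h e b).card := by
  refine @card_le_mul_card_image _ _ (Classical.decEq _) _ _ _ fun y hy => ?_
  obtain ⟨a, -, rfl⟩ := (Chib_mem_X h).1 hy
  refine (card_le_card fun x hx => ?_).trans (card_le_three (a := a) (b := Chib_R h a)
    (c := Chib_R h (Chib_R h a)))
  have := ((@mem_filter _ _ (_) _ _).1 hx).2
  change x ∈ Chib_G h a
  rw [← this]
  simp [Chib_G]

theorem Chib_face (h : Tri d S) (b : ZMod 2) :
    ∃ f : (Fin 3 → ZMod 2) × S → (Chib_X h e b) ⊕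
        Quot (Rel S (d := d) (e := e) (b := b + 1)),
      Function.Surjective f ∧ (∀ a, f (Chib_R h a) = f a) ∧
      ∀ a a', Chib_Opp d a a' → ¬ (bit d e a.1 a.2.1.1 = b ∧ bit d e a.1 a.2.1.2.1 = b) →
        f a' = f a := by
  have hb : ∀ x : ZMod 2, x ≠ b → x = b + 1 := by revert b; decide
  have hb' : ∀ x : ZMod 2, x = b + 1 → x ≠ b := by revert b; decide
  have ex1 : ∀ a : (Fin 3 → ZMod 2) × S, ∃ x : (Chib_X h e b) ⊕
      Quot (Rel S (d := d) (e := e) (b := b + 1)),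
      (∀ ha : a ∈ Chib_A3 S d e b, x = .inl ⟨Chib_G h a, (Chib_mem_X h).2 ⟨a, ha, rfl⟩⟩) ∧
      ∀ v (hv : InT d v ∧ bit d e a.1 v = b + 1), v = a.2.1.1 ∨ v = a.2.1.2.1 ∨ v = a.2.1.2.2 →
        x = .inr (Quot.mk _ ⟨(a.1, v), hv⟩) := by
    rintro ⟨l, ⟨p, q, r⟩, ht⟩
    by_cases ha : (l, ⟨_, ht⟩) ∈ Chib_A3 S d e b
    · refine ⟨.inl ⟨_, (Chib_mem_X h).2 ⟨_, ha, rfl⟩⟩, fun _ => rfl, fun v hv hh => ?_⟩
      obtain ⟨h1, h2, h3⟩ := (mem_filter.1 ha).2
      exfalso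
      rcases hh with rfl | rfl | rfl
      exacts [hb' _ hv.2 h1, hb' _ hv.2 h2, hb' _ hv.2 h3]
    · have key : ∀ v (hv : InT d v ∧ bit d e l v = b + 1) v' (hv' : InT d v' ∧ bit d e l v' = b + 1),
          (v = p ∨ v = q ∨ v = r) → (v' = p ∨ v' = q ∨ v' = r) →
          Quot.mk (Rel S (d := d) (e := e) (b := b + 1)) ⟨(l, v), hv⟩ =
            Quot.mk _ ⟨(l, v'), hv'⟩ := by
        intro v hv v' hv' h1 h2
        have t2 := h.rot _ _ _ ht
        have t3 := h.rot2 ht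
        rcases h1 with rfl | rfl | rfl <;> rcases h2 with rfl | rfl | rfl <;>
          first
          | rfl
          | exact Quot.sound (Or.inr ⟨rfl, _, by assumption⟩)
          | exact Eq.symm (Quot.sound (Or.inr ⟨rfl, _, by assumption⟩))
      have : ∃ v, (InT d v ∧ bit d e l v = b + 1) ∧ (v = p ∨ v = q ∨ v = r) := by
        by_contra hn
        refine ha (mem_filter.2 ⟨mem_univ _, ?_, ?_, ?_⟩) <;> by_contra hc
        · exact hn ⟨p, ⟨h.inT _ _ _ ht, hb _ hc⟩, by simp⟩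
        · exact hn ⟨q, ⟨h.inT2 ht, hb _ hc⟩, by simp⟩
        · exact hn ⟨r, ⟨h.inT3 ht, hb _ hc⟩, by simp⟩
      obtain ⟨v, hv, hh⟩ := this
      exact ⟨.inr (Quot.mk _ ⟨(l, v), hv⟩), fun hc => absurd hc ha,
        fun v' hv' hh' => congrArg _ (key v hv v' hv' hh hh')⟩
  choose f f1 f2 using ex1
  refine ⟨f, ?_, fun a => ?_, fun a a' ho hn => ?_⟩
  · rintro (⟨y, hy⟩ | x)
    · obtain ⟨a, ha, rfl⟩ := (Chib_mem_X h).1 hy
      exact ⟨a, f1 a ha⟩
    · obtain ⟨⟨⟨l, v⟩, hv⟩, rfl⟩ := x.exists_rep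
      obtain ⟨p, q, ht⟩ := h.exists_tri hv.1
      exact ⟨(l, ⟨_, ht⟩), f2 (l, ⟨_, ht⟩) v hv (Or.inl rfl)⟩
  · by_cases ha : a ∈ Chib_A3 S d e b
    · have h3 := (mem_filter.1 ha).2
      have ha' : Chib_R h a ∈ Chib_A3 S d e b := by
        unfold Chib_A3
        rw [mem_filter]
        exact ⟨mem_univ _, h3.2.1, h3.2.2, h3.1⟩
      rw [f1 _ ha, f1 _ ha']
      exact congrArg _ (Subtype.ext (Chib_G_R h a))
    · have : ∃ v, (InT d v ∧ bit d e a.1 v = b + 1) ∧
          (v = a.2.1.1 ∨ v = a.2.1.2.1 ∨ v = a.2.1.2.2) := by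
        by_contra hn
        refine ha (mem_filter.2 ⟨mem_univ _, ?_, ?_, ?_⟩) <;> by_contra hc
        · exact hn ⟨_, ⟨h.inT _ _ _ a.2.2, hb _ hc⟩, by simp⟩
        · exact hn ⟨_, ⟨h.inT2 a.2.2, hb _ hc⟩, by simp⟩
        · exact hn ⟨_, ⟨h.inT3 a.2.2, hb _ hc⟩, by simp⟩
      obtain ⟨v, hv, hh⟩ := this
      rw [f2 a v hv hh]
      exact f2 (Chib_R h a) v hv (or_rotate.1 hh)
  · have : ∃ v, (InT d v ∧ bit d e a.1 v = b + 1) ∧ (v = a.2.1.1 ∨ v = a.2.1.2.1) := by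
      by_contra hn'
      refine hn ⟨?_, ?_⟩ <;> by_contra hc
      · exact hn' ⟨_, ⟨h.inT _ _ _ a.2.2, hb _ hc⟩, by simp⟩
      · exact hn' ⟨_, ⟨h.inT2 a.2.2, hb _ hc⟩, by simp⟩
    obtain ⟨v, hv, hh⟩ := this
    rw [f2 a v hv (hh.imp_right Or.inl)]
    rcases ho with ⟨-, rfl⟩ | ⟨-, e1, e2, e3⟩
    · have hl : ∀ s, ex d v s ≠ 0 → (a.1 + Chib_dl d a.2.1.1 a.2.1.2.1) s = a.1 s := by
        rcases hh with rfl | rfl
        exacts [Chib_dl_left _ _ _, Chib_dl_right _ _ _]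
      rw [f2 (_, a.2) v ⟨hv.1, (Chib_bit_congr hl).trans hv.2⟩ (hh.imp_right Or.inl)]
      exact congrArg _ (Quot.sound (Or.inl ⟨rfl, hl⟩))
    · rw [f2 a' v ⟨hv.1, e1 ▸ hv.2⟩ (by rw [e2, e3]; exact hh.symm.imp_right Or.inl)]
      exact congrArg _ (congrArg _ (Subtype.ext (Prod.ext e1 rfl)))

/-- tail of a dart on the oriented sphere -/
def Chib_tl (d : ℤ) (a : (Fin 3 → ZMod 2) × S) : (Fin 3 → ZMod 2) × V :=
  if ∑ s, a.1 s = 0 then Chib_nm d a.1 a.2.1.1 else Chib_nm d a.1 a.2.1.2.1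

theorem Chib_tl_opp (h : Tri d S) {a a' : (Fin 3 → ZMod 2) × S} (ho : Chib_Opp d a a') :
    Chib_tl d a' =
      if ∑ s, a.1 s = 0 then Chib_nm d a.1 a.2.1.2.1 else Chib_nm d a.1 a.2.1.1 := by
  rcases ho with ⟨hb, rfl⟩ | ⟨-, e1, e2, e3⟩
  · unfold Chib_tl
    simp only
    rw [Chib_par h a hb, Chib_nm_congr (Chib_dl_left _ _ _), Chib_nm_congr (Chib_dl_right _ _ _)]
    have : ∀ x : ZMod 2, x + 1 = 0 ↔ ¬ x = 0 := by decide
    simp only [this, ite_not]
  · unfold Chib_tl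
    rw [e1, e2, e3]

/-- The Euler inequality on the sphere. `ael` with: `D` the pairs `(l, (p,q,r))`, both ends of
sign `b`; `ι (l,(p,q,r)) = (l,(q,p,s))` for an interior edge and `(l + δ_s, (p,q,r))` for a dart
on the side `ex s = 0`; `tl` = the normalized copy of `p` if `∑ l = 0`, of `q` otherwise (so that
`ι` swaps the two ends); `X` = (octant, triangle `{p,q,r}`) with all signs `b`, plus the
components of sign `b + 1` (`tri` = the component of `r` if `r` has sign `b + 1`); `Q` the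
components of sign `b`. `h0`: extend `u` to all `(l, t)` (component of any vertex of sign `b+1`);
the extension agrees across the darts not in `D`, and the rotation matches tails with heads.
`h2`: `Tri.conn` in each octant and the boundary gluing. -/
theorem euler_sphere (hd : d % 2 = 0) (h : Tri d S) (b : ZMod 2) :
    2 * (∑ t ∈ S, (univ.filter fun l => bit d e l t.1 = b ∧ bit d e l t.2.1 = b ∧
        bit d e l t.2.2 = b).card) + 6 * cc S d e (b + 1) +
      6 * ∑ p ∈ pts d, (univ.filter fun l => bit d e l p = b ∧ ∀ s, ex d p s = 0 → l s = 0).card ≤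
    3 * (∑ t ∈ S, (univ.filter fun l => bit d e l t.1 = b ∧ bit d e l t.2.1 = b).card) + 6 +
      6 * cc S d e b := by
  classical
  choose ι hι using Chib_exists_opp h
  obtain ⟨f, f1, f2, f3⟩ := Chib_face (e := e) h b
  let Wf : Finset ((Fin 3 → ZMod 2) × V) := (univ ×ˢ pts d).filter fun x =>
    bit d e x.1 x.2 = b ∧ ∀ s, ex d x.2 s = 0 → x.1 s = 0
  have hW : ∀ l p, InT d p → (Chib_nm d l p ∈ Wf ↔ bit d e l p = b) := by
    intro l p hp
    rw [← Chib_bit_nm l p]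
    simp only [Wf, mem_filter, mem_product, mem_univ, true_and, mem_pts]
    exact ⟨fun x => x.2.1, fun x => ⟨hp, x, fun s hs => if_pos hs⟩⟩
  have hD : ∀ a, (Chib_tl d a ∈ Wf ∧ Chib_tl d (ι a) ∈ Wf) ↔
      bit d e a.1 a.2.1.1 = b ∧ bit d e a.1 a.2.1.2.1 = b := by
    intro a
    rw [Chib_tl_opp h (hι a), Chib_tl]
    have h1 := hW a.1 _ (h.inT _ _ _ a.2.2)
    have h2 := hW a.1 _ (h.inT2 a.2.2)
    split_ifs
    · rw [h1, h2]
    · rw [h1, h2, and_comm]
  let ρ : (Fin 3 → ZMod 2) × S → (Fin 3 → ZMod 2) × S := fun a =>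
    if ∑ s, a.1 s = 0 then Chib_R h a else Chib_R h (Chib_R h a)
  let _ := Fintype.ofFinite (Quot (Rel S (d := d) (e := e) (b := b)))
  let _ := Fintype.ofFinite (Quot (Rel S (d := d) (e := e) (b := b + 1)))
  have key := Chib_abs ι ρ (Chib_tl d) Wf f
    (fun w => Quot.mk (Rel S (d := d) (e := e) (b := b))
      ⟨w.1, mem_pts.1 (mem_product.1 (mem_filter.1 w.2).1).2, (mem_filter.1 w.2).2.1⟩)
    (fun a => Chib_opp_inv h (hι a) (hι _)) (fun a => Chib_opp_ne h (hι a)) ?_ ?_ f1 ?_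
    (fun a ha => f3 a _ (hι a) (by rwa [hD] at ha))
    (fun u hu => Chib_conn h (fun a => u (f a)) (fun a => by simp only [f2])
      fun a => ⟨_, hι a, hu a⟩) ?_
  · have c1 := Chib_card_A3 (e := e) h b
    have c2 : (Chib_A3 S d e b).card = _ := Chib_card (S := S) fun l t =>
      bit d e l t.1 = b ∧ bit d e l t.2.1 = b ∧ bit d e l t.2.2 = b
    have c3 := Chib_card (S := S) fun l t => bit d e l t.1 = b ∧ bit d e l t.2.1 = b
    have c4 : Wf.card = ∑ p ∈ pts d,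
        (univ.filter fun l => bit d e l p = b ∧ ∀ s, ex d p s = 0 → l s = 0).card := by
      simp only [Wf, card_filter]
      rw [sum_product_right]
    rw [filter_congr fun a _ => hD a, Fintype.card_sum, Fintype.card_coe, c3, c4,
      ← Nat.card_eq_fintype_card, ← Nat.card_eq_fintype_card] at key
    unfold cc
    omega
  · refine Finite.injective_iff_bijective.1 (Function.LeftInverse.injective
      (g := fun a => ρ (ρ a)) fun a => ?_)
    change ρ (ρ (ρ a)) = a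
    by_cases ha : ∑ s, a.1 s = 0
    · have e1 : ∀ x : (Fin 3 → ZMod 2) × S, x.1 = a.1 → ρ x = Chib_R h x := fun x hx =>
        if_pos (hx ▸ ha)
      rw [e1 a rfl, e1 (Chib_R h a) rfl]
      exact e1 _ rfl
    · have e1 : ∀ x : (Fin 3 → ZMod 2) × S, x.1 = a.1 → ρ x = Chib_R h (Chib_R h x) :=
        fun x hx => if_neg (hx ▸ ha)
      rw [e1 a rfl, e1 (Chib_R h (Chib_R h a)) rfl]
      exact e1 _ rfl
  · intro a
    rw [Chib_tl_opp h (hι a)]
    by_cases ha : ∑ s, a.1 s = 0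
    · rw [if_pos ha, show ρ a = _ from if_pos ha]
      exact if_pos ha
    · rw [if_neg ha, show ρ a = _ from if_neg ha]
      exact if_neg ha
  · intro a
    simp only [ρ]
    split_ifs <;> simp only [f2]
  · intro φ hφ
    let φ' : Nd d e b → ZMod 2 := fun x => φ ⟨Chib_nm d x.1.1 x.1.2, (hW _ _ x.2.1).2 x.2.2⟩
    refine ⟨Quot.lift φ' ?_, fun w => ?_⟩
    · rintro ⟨⟨l, p⟩, hp⟩ ⟨⟨l', q⟩, hq⟩ (⟨e1, e2⟩ | ⟨e1, r, hr⟩)
      · simp only at e1 e2
        subst e1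
        exact congrArg φ (Subtype.ext (Chib_nm_congr e2))
      · simp only at e1 hr
        subst e1
        have hm := (hD (l, ⟨_, hr⟩)).2 ⟨hp.2, hq.2⟩
        have := hφ _ hm.1 hm.2
        have t1 := Chib_tl_opp h (hι (l, ⟨_, hr⟩))
        by_cases ha : ∑ s, l s = 0
        · exact (congrArg φ (Subtype.ext (if_pos ha).symm)).trans
            (this.trans (congrArg φ (Subtype.ext (t1.trans (if_pos ha)))))
        · exact ((congrArg φ (Subtype.ext (if_neg ha).symm)).trans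
            (this.trans (congrArg φ (Subtype.ext (t1.trans (if_neg ha)))))).symm
    · obtain ⟨⟨l, p⟩, hw⟩ := w
      refine congrArg φ (Subtype.ext (Prod.ext (funext fun s => ?_) rfl))
      have := (mem_filter.1 hw).2.2 s
      simp only [Chib_nm] at this ⊢
      split_ifs with hs
      exacts [this hs, rfl]

end Pool.Agent.TC

end

section

/-! `b₁(X_b) ≥ c_{b+1} - 1` for the subcomplex of the sphere spanned by the sign `b`. -/

open Finset

namespace Pool.Agent.TC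

variable {d : ℤ} {S : Finset Tr} {e : V → ZMod 2}

theorem Chi_sum_rot (h : Tri d S) (g : V → ℤ) :
    ∑ t ∈ S, g t.2.1 = ∑ t ∈ S, g t.1 ∧ ∑ t ∈ S, g t.2.2 = ∑ t ∈ S, g t.1 := by
  constructor
  · exact sum_nbij' (fun t => (t.2.1, t.2.2, t.1)) (fun t => (t.2.2, t.1, t.2.1))
      (fun t ht => h.rot _ _ _ ht) (fun t ht => h.rot2 ht) (fun _ _ => rfl) (fun _ _ => rfl)
      fun _ _ => rfl
  · exact sum_nbij' (fun t => (t.2.2, t.1, t.2.1)) (fun t => (t.2.1, t.2.2, t.1))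
      (fun t ht => h.rot2 ht) (fun t ht => h.rot _ _ _ ht) (fun _ _ => rfl) (fun _ _ => rfl)
      fun _ _ => rfl

/-- the local contribution of an even vertex -/
def Chi_g (e : V → ZMod 2) (b : ZMod 2) (x : V) : ℤ :=
  if Ev x then (if e x = b then 2 else -2) else 0

theorem Chi_local (hd : d % 2 = 0) (h : Tri d S) (b : ZMod 2) {t : Tr} (ht : t ∈ S) :
    3 * ((univ.filter fun l => bit d e l t.1 = b ∧ bit d e l t.2.1 = b).card : ℤ) -
      2 * ((univ.filter fun l => bit d e l t.1 = b ∧ bit d e l t.2.1 = b ∧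
        bit d e l t.2.2 = b).card : ℤ) =
      4 * (if col e t = b then 1 else 0) + 2 +
        (Chi_g e b t.1 + Chi_g e b t.2.1 - 2 * Chi_g e b t.2.2) := by
  obtain ⟨p, q, r⟩ := t
  have hu := h.uni p q r ht
  dsimp only
  rw [card_oct_edge hd hu, card_oct_tri hd hu]
  by_cases hp : Ev p
  · obtain ⟨hq, hr⟩ := h.ev_two ht hp
    by_cases hb : e p = b <;> simp [Chi_g, col, hp, hq, hr, hb]
  · by_cases hq : Ev q
    · obtain ⟨hr, -⟩ := h.ev_two (h.rot _ _ _ ht) hq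
      by_cases hb : e q = b <;> simp [Chi_g, col, hp, hq, hr, hb]
    · by_cases hr : Ev r
      · by_cases hb : e r = b <;> simp [Chi_g, col, hp, hq, hr, hb]
      · by_cases hb : col e (p, q, r) = b <;> simp [Chi_g, hp, hq, hr, hb]

theorem Chi_pts {k : ℤ} (hk : 0 < k) (b : ZMod 2) :
    ∑ p ∈ pts (2 * k), ((univ.filter fun l => bit (2 * k) e l p = b ∧
        ∀ s, ex (2 * k) p s = 0 → l s = 0).card : ℤ) =
      2 * ∑ p ∈ (pts (2 * k)).filter (fun p => Ev p ∧ e p = b), wt (2 * k) p + 6 * k ^ 2 := by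
  have h1 := sum_wt (d := 2 * k) (by omega)
  have h2 := sum_wt_ev hk
  have h3 : ∑ p ∈ pts (2 * k), ((univ.filter fun l => bit (2 * k) e l p = b ∧
        ∀ s, ex (2 * k) p s = 0 → l s = 0).card : ℤ) =
      ∑ p ∈ pts (2 * k), (2 * (if Ev p ∧ e p = b then wt (2 * k) p else 0) + wt (2 * k) p -
        if Ev p then wt (2 * k) p else 0) := by
    refine sum_congr rfl fun p hp => ?_
    rw [card_oct_pt (by omega) (by omega) (mem_pts.1 hp)]
    by_cases h : Ev p <;> by_cases hb : e p = b <;> simp [h, hb]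
  rw [h3, sum_sub_distrib, sum_add_distrib, ← mul_sum, ← sum_filter, ← sum_filter, h1, h2]
  ring

/-- arithmetic from the four statements above, `card_split`, `Tri.card`, `sum_wt`, `sum_wt_ev`;
`χ_b = 2 k² - 2 f_b` -/
theorem chi_ineq {k : ℤ} (h : Tri (2 * k) S) (b : ZMod 2) :
    3 * ((cc S (2 * k) e (b + 1) : ℤ) + 2 * k ^ 2) ≤ 3 * ((cc S (2 * k) e b : ℤ) + 1) +
      2 * (((S.filter fun t => col e t = b).card : ℤ) -
        3 * ∑ p ∈ (pts (2 * k)).filter (fun p => Ev p ∧ e p = b), wt (2 * k) p) := by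
  have hk : 0 < k := by have := h.pos; omega
  have hd : 2 * k % 2 = 0 := by omega
  have h1 := (Int.ofNat_le.2 (euler_sphere (e := e) hd h b))
  push_cast at h1
  rw [Chi_pts hk] at h1
  have h2 := sum_congr rfl fun t ht => Chi_local (e := e) hd h b (t := t) ht
  obtain ⟨r1, r2⟩ := Chi_sum_rot h (Chi_g e b)
  rw [sum_sub_distrib, ← mul_sum, ← mul_sum, sum_add_distrib, sum_add_distrib, ← mul_sum,
    sum_sub_distrib, sum_add_distrib, ← mul_sum, r1, r2, sum_boole, sum_const, nsmul_eq_mul,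
    h.card] at h2
  linarith

end Pool.Agent.TC

end
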