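import Pool.Agent.MP_e73476_ag.T.Geo

section

/-! The cochain `H`: coboundary and values modulo 8. -/

open Finset

namespace Pool.Agent.TC

variable {d : ℤ}

theorem Hform_det (e p q : V) : det (p - q) (e - q) = -det (q - p) (e - p) := by
  simp only [det, Prod.fst_sub, Prod.snd_sub]; ring

theorem Hform_wp_anti (e p q : V) : wp e q p = -wp e p q := by
  unfold wp
  rw [Hform_det e p q]
  split_ifs <;> omega

theorem Hform_wm_anti (e p q : V) : wm e q p = -wm e p q := by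
  unfold wm
  rw [Hform_det e p q]
  split_ifs <;> omega

theorem H_anti (d : ℤ) (p q : V) : H d q p = -H d p q := by
  unfold H
  have h : ∑ e ∈ evBox d, (wp e q p + wm e q p) = -∑ e ∈ evBox d, (wp e p q + wm e p q) := by
    rw [← sum_neg_distrib]
    exact sum_congr rfl fun e _ => by rw [Hform_wp_anti, Hform_wm_anti]; ring
  rw [h]
  simp only [det]; ring

/-- the direction used in `wp`, `wm` -/
def xi0 (d : ℤ) : V := (2 * d + 1, 1)

theorem Hform_sign {u : V} (hu : Bnd d u) :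
    (0 < u.2 → det u (xi0 d) < 0) ∧ (u.2 < 0 → 0 < det u (xi0 d)) ∧
      (u.2 = 0 → det u (xi0 d) = u.1) := by
  obtain ⟨h1, h2⟩ := hu
  rw [abs_le] at h1 h2
  simp only [det, xi0]
  refine ⟨fun h => ?_, fun h => ?_, fun h => by rw [h]; ring⟩
  · nlinarith [mul_nonneg (show 0 ≤ u.2 - 1 by omega) (show 0 ≤ d by omega)]
  · nlinarith [mul_nonneg (show 0 ≤ -u.2 - 1 by omega) (show 0 ≤ d by omega)]

theorem Hform_neg (u ξ : V) : det u (-ξ) = -det u ξ := by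
  simp only [det, Prod.fst_neg, Prod.snd_neg]; ring

theorem gen_xi0 (hd : 0 ≤ d) : Gen d (xi0 d) ∧ Gen d (-xi0 d) := by
  have h : Gen d (xi0 d) := by
    intro u hu hb
    obtain ⟨h1, h2, h3⟩ := Hform_sign hb
    rcases lt_trichotomy u.2 0 with h | h | h
    · exact (h2 h).ne'
    · rw [h3 h]
      exact fun h0 => hu (Prod.ext h0 h)
    · exact (h1 h).ne
  exact ⟨h, fun u hu hb => by rw [Hform_neg]; exact neg_ne_zero.2 (h u hu hb)⟩

theorem Hform_lin (N : ℤ) (e ξ p q : V) :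
    det (q - p) (N • e + ξ - N • p) = N * det (q - p) (e - p) + det (q - p) ξ := by
  simp only [det, Prod.fst_sub, Prod.snd_sub, Prod.fst_add, Prod.snd_add, Prod.smul_fst,
    Prod.smul_snd, smul_eq_mul]
  ring

theorem Hform_cmp {N D x : ℤ} (h : |x| < N) :
    (0 < N * D + x ↔ 0 < D ∨ (D = 0 ∧ 0 < x)) ∧ (N * D + x < 0 ↔ D < 0 ∨ (D = 0 ∧ x < 0)) := by
  rw [abs_lt] at h
  have hN : 0 ≤ N := by omega
  rcases lt_trichotomy D 0 with hD | hD | hD
  · have := mul_le_mul_of_nonneg_left (show D ≤ -1 by omega) hN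
    omega
  · subst hD; omega
  · have := mul_le_mul_of_nonneg_left (show 1 ≤ D by omega) hN
    omega

theorem Hform_row {N a b x : ℤ} (h : |x| < N) :
    (N * a < N * b + x ↔ a < b ∨ (a = b ∧ 0 < x)) ∧
      (N * b + x < N * a ↔ b < a ∨ (a = b ∧ x < 0)) := by
  obtain ⟨h1, h2⟩ := Hform_cmp (D := b - a) h
  rw [mul_sub] at h1 h2
  omega

theorem Hform_wp {N : ℤ} (e : V) {p q : V} (hu : Bnd d (q - p)) (hN : |det (q - p) (xi0 d)| < N)
    (h1 : 1 < N) : w N (N • e + xi0 d) p q = wp e p q := by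
  obtain ⟨s1, s2, -⟩ := Hform_sign hu
  obtain ⟨c1, c2⟩ := Hform_cmp (D := det (q - p) (e - p)) hN
  obtain ⟨a1, a2⟩ := Hform_row (a := p.2) (b := e.2) (x := 1) (N := N) (by simpa using h1)
  obtain ⟨b1, b2⟩ := Hform_row (a := q.2) (b := e.2) (x := 1) (N := N) (by simpa using h1)
  have hz : (N • e + xi0 d).2 = N * e.2 + 1 := rfl
  rw [Prod.snd_sub] at s1 s2
  unfold w wp
  rw [Hform_lin, hz]
  simp only [c1, c2, a1, a2, b1, b2]
  split_ifs <;> omega

theorem Hform_wm {N : ℤ} (e : V) {p q : V} (hu : Bnd d (q - p)) (hN : |det (q - p) (-xi0 d)| < N)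
    (h1 : 1 < N) : w N (N • e + -xi0 d) p q = wm e p q := by
  obtain ⟨s1, s2, -⟩ := Hform_sign hu
  obtain ⟨c1, c2⟩ := Hform_cmp (D := det (q - p) (e - p)) hN
  obtain ⟨a1, a2⟩ := Hform_row (a := p.2) (b := e.2) (x := -1) (N := N) (by simpa using h1)
  obtain ⟨b1, b2⟩ := Hform_row (a := q.2) (b := e.2) (x := -1) (N := N) (by simpa using h1)
  have hz : (N • e + -xi0 d).2 = N * e.2 + -1 := rfl
  have hn := Hform_neg (q - p) (xi0 d)
  rw [Prod.snd_sub] at s1 s2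
  unfold w wm
  rw [Hform_lin, hz]
  simp only [c1, c2, a1, a2, b1, b2]
  split_ifs <;> omega

theorem Hform_tri {e p q r ξ : V} {N : ℤ} (hp : InT d p) (hq : InT d q) (hr : InT d r)
    (hd : det (q - p) (r - p) = 1) (hg : Gen d ξ) (hξ : ξ.2 ≠ 0) (h0 : |ξ.2| < N)
    (h1 : |det (q - p) ξ| < N) (h2 : |det (r - q) ξ| < N) (h3 : |det (p - r) ξ| < N) :
    w N (N • e + ξ) p q + w N (N • e + ξ) q r + w N (N • e + ξ) r p =
      (if e = p ∧ Cone (q - p) (r - p) ξ then 1 else 0) +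
      (if e = q ∧ Cone (r - q) (p - q) ξ then 1 else 0) +
      (if e = r ∧ Cone (p - r) (q - r) ξ then 1 else 0) := by
  have n1 : q ≠ p := by rintro rfl; simp [det] at hd
  have n2 : r ≠ q := by rintro rfl; simp [det, mul_comm] at hd
  have n3 : p ≠ r := by rintro rfl; simp [det] at hd
  have key : ∀ a b : V, InT d a → InT d b → b ≠ a → |det (b - a) ξ| < N →
      det (b - a) (N • e + ξ - N • a) ≠ 0 := by
    intro a b ha hb hab h
    have := hg _ (sub_ne_zero.2 hab) (ha.bnd hb)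
    obtain ⟨c1, c2⟩ := Hform_cmp (D := det (b - a) (e - a)) h
    rw [Hform_lin]
    omega
  have row : ∀ a : V, (N • e + ξ).2 ≠ N * a.2 := by
    intro a
    obtain ⟨c1, c2⟩ := Hform_row (a := a.2) (b := e.2) h0
    have hz : (N • e + ξ).2 = N * e.2 + ξ.2 := rfl
    rw [hz]
    omega
  rw [w_tri ((abs_nonneg _).trans_lt h0) (by omega) (key _ _ hp hq n1 h1) (key _ _ hq hr n2 h2)
    (key _ _ hr hp n3 h3) (row p) (row q) (row r)]
  simp only [inside_iff hd h1 h2 h3]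
  by_cases e1 : e = p
  · subst e1; simp [n1.symm, n3]
  by_cases e2 : e = q
  · subst e2; simp [n1, n2.symm]
  simp [e1, e2]

/-- `wp e = w N (N e + ξ₀)`, `wm e = w N (N e - ξ₀)` for large `N`; then `w_tri`, `inside_iff` -/
theorem wp_tri {e p q r : V} (hp : InT d p) (hq : InT d q) (hr : InT d r)
    (hd : det (q - p) (r - p) = 1) :
    (wp e p q + wp e q r + wp e r p =
      (if e = p ∧ Cone (q - p) (r - p) (xi0 d) then 1 else 0) +
      (if e = q ∧ Cone (r - q) (p - q) (xi0 d) then 1 else 0) +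
      (if e = r ∧ Cone (p - r) (q - r) (xi0 d) then 1 else 0)) ∧
    (wm e p q + wm e q r + wm e r p =
      (if e = p ∧ Cone (q - p) (r - p) (-xi0 d) then 1 else 0) +
      (if e = q ∧ Cone (r - q) (p - q) (-xi0 d) then 1 else 0) +
      (if e = r ∧ Cone (p - r) (q - r) (-xi0 d) then 1 else 0)) := by
  obtain ⟨g1, g2⟩ := gen_xi0 (d := d) (by obtain ⟨a, b, c⟩ := hp; omega)
  obtain ⟨N, h0, h1, h2, h3⟩ : ∃ N : ℤ, 1 < N ∧ |det (q - p) (xi0 d)| < N ∧
      |det (r - q) (xi0 d)| < N ∧ |det (p - r) (xi0 d)| < N := by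
    refine ⟨2 + |det (q - p) (xi0 d)| + |det (r - q) (xi0 d)| + |det (p - r) (xi0 d)|, ?_⟩
    have := abs_nonneg (det (q - p) (xi0 d))
    have := abs_nonneg (det (r - q) (xi0 d))
    have := abs_nonneg (det (p - r) (xi0 d))
    omega
  constructor
  · rw [← Hform_wp e (hp.bnd hq) h1 h0, ← Hform_wp e (hq.bnd hr) h2 h0,
      ← Hform_wp e (hr.bnd hp) h3 h0]
    exact Hform_tri hp hq hr hd g1 (by simp [xi0]) (by simpa [xi0] using h0) h1 h2 h3
  · rw [← abs_neg, ← Hform_neg] at h1 h2 h3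
    rw [← Hform_wm e (hp.bnd hq) h1 h0, ← Hform_wm e (hq.bnd hr) h2 h0,
      ← Hform_wm e (hr.bnd hp) h3 h0]
    exact Hform_tri hp hq hr hd g2 (by simp [xi0]) (by simpa [xi0] using h0) h1 h2 h3

theorem Hform_mem {e : V} :
    e ∈ evBox d ↔ (0 ≤ e.1 ∧ e.1 ≤ d) ∧ (0 ≤ e.2 ∧ e.2 ≤ d) ∧ e.1 % 2 = 0 ∧ e.2 % 2 = 0 := by
  simp only [evBox, Ev, mem_filter, mem_product, mem_Icc, and_assoc]

theorem Hform_count {x y : ℤ} (hx0 : 0 ≤ x) (hx : x ≤ d) (hy0 : 0 ≤ y) (hy : y ≤ d)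
    (hy2 : y % 2 = 0) :
    ∑ e ∈ evBox d, (if e.2 = y ∧ e.1 ≤ x then (1 : ℤ) else 0) = x / 2 + 1 := by
  rw [sum_boole]
  have h : (evBox d).filter (fun e => e.2 = y ∧ e.1 ≤ x) =
      (Icc 0 (x / 2)).image fun k => ((2 * k, y) : V) := by
    ext ⟨a, b⟩
    simp only [mem_filter, Hform_mem, mem_image, mem_Icc, Prod.mk.injEq]
    constructor
    · intro h
      exact ⟨a / 2, by omega, by omega, by omega⟩
    · rintro ⟨k, h1, h2, h3⟩
      omega
  rw [h, card_image_of_injective _ (fun a b hab => by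
    simp only [Prod.mk.injEq] at hab; omega), Int.card_Icc]
  omega

theorem H_bdA (i : ℤ) : H d (i, 0) (i + 1, 0) = 0 := by
  unfold H
  rw [sum_eq_zero fun e _ => by
    unfold wp wm
    split_ifs <;> simp only at * <;> omega]
  simp [det]

theorem H_bdB (hd : d % 2 = 0) {j : ℤ} (h0 : 0 ≤ j) (h1 : j < d) :
    H d (d - j, j) (d - j - 1, j + 1) = 2 * (j / 2) := by
  unfold H
  rw [sum_congr rfl (g := fun e => if e.2 = 2 * ((j + 1) / 2) ∧ e.1 ≤ d - j - 1 then (1 : ℤ) else 0)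
    fun e he => by
      rw [Hform_mem] at he
      have h : det (((d - j - 1, j + 1) : V) - (d - j, j)) (e - (d - j, j)) = d - e.1 - e.2 := by
        simp only [det, Prod.fst_sub, Prod.snd_sub]; ring
      unfold wp wm
      rw [h]
      split_ifs <;> simp only at * <;> omega,
    Hform_count (by omega) (by omega) (by omega) (by omega) (by omega)]
  have h : det ((d - j, j) : V) (d - j - 1, j + 1) = d := by simp only [det]; ring
  rw [h]
  omega

theorem H_bdC {j : ℤ} (h0 : 0 ≤ j) (h1 : j < d) : H d (0, j + 1) (0, j) = 2 * (j % 2) := by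
  unfold H
  have hv : ∀ e ∈ evBox d, wp e (0, j + 1) (0, j) + wm e (0, j + 1) (0, j) =
      -(if e.2 = j + 1 ∧ e.1 ≤ 0 then (1 : ℤ) else 0) := by
    intro e he
    rw [Hform_mem] at he
    have h : det (((0, j) : V) - (0, j + 1)) (e - (0, j + 1)) = e.1 := by
      simp only [det, Prod.fst_sub, Prod.snd_sub]; ring
    unfold wp wm
    rw [h]
    split_ifs <;> simp only at * <;> omega
  have h : det ((0, j + 1) : V) (0, j) = 0 := by simp [det]
  rw [sum_congr rfl hv, sum_neg_distrib, h]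
  rcases Int.emod_two_eq_zero_or_one j with hj | hj
  · rw [sum_eq_zero fun e he => by
      rw [Hform_mem] at he
      exact if_neg (by omega)]
    omega
  · rw [Hform_count le_rfl (by omega) (by omega) (by omega) (by omega)]
    omega

end Pool.Agent.TC

end

section

/-! Values of `H` modulo 8 on odd-odd primitive edges. -/

open Finset

namespace Pool.Agent.TC

variable {d : ℤ}

/-- Gauss-lemma type parity of the sum of the rounded quotients `round (c i / (2s+1))` -/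
theorem Hrowa_gauss {c s u v : ℤ} (hc : c * u + (2 * s + 1) * v = 1) :
    ∑ i ∈ Icc 1 s, ((2 * s + 1) + 2 * c * i) / (2 * (2 * s + 1)) ≡
      (c + 1) * ∑ i ∈ Icc 1 s, i [ZMOD 2] := by
  rcases lt_or_ge s 1 with hs | hs
  · rw [Icc_eq_empty (by omega)]; simp
  set ρ : ℤ → ℤ := fun i => ((2 * s + 1) + 2 * c * i) / (2 * (2 * s + 1)) with hρ
  set r : ℤ → ℤ := fun i => c * i - (2 * s + 1) * ρ i with hr
  have hb : ∀ i, -s ≤ r i ∧ r i ≤ s := by
    intro i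
    have h1 := Int.emod_add_mul_ediv ((2 * s + 1) + 2 * c * i) (2 * (2 * s + 1))
    have h2 := Int.emod_nonneg ((2 * s + 1) + 2 * c * i) (show 2 * (2 * s + 1) ≠ 0 by omega)
    have h3 := Int.emod_lt_of_pos ((2 * s + 1) + 2 * c * i) (show 0 < 2 * (2 * s + 1) by omega)
    have h4 : ((2 * s + 1) + 2 * c * i) % (2 * (2 * s + 1)) = (2 * s + 1) + 2 * r i := by
      simp only [hr, hρ]; linear_combination h1
    rw [h4] at h2 h3
    omega
  have hdiv : ∀ m k : ℤ, c * m = (2 * s + 1) * k → -(2 * s + 1) < m → m < 2 * s + 1 → m = 0 := by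
    intro m k h h1 h2
    have h3 : m = (2 * s + 1) * (k * u + m * v) := by linear_combination (-m) * hc + u * h
    rcases lt_trichotomy (k * u + m * v) 0 with h4 | h4 | h4
    · nlinarith
    · rw [h4] at h3; simpa using h3
    · nlinarith
  have hmem : ∀ i ∈ Icc (1 : ℤ) s, |r i| ∈ Icc (1 : ℤ) s := by
    intro i hi
    rw [mem_Icc] at hi ⊢
    have h0 : r i ≠ 0 := by
      intro h
      have := hdiv i (ρ i) (by simp only [hr] at h; linear_combination h) (by omega) (by omega)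
      omega
    have := hb i
    constructor
    · exact Int.one_le_abs h0
    · rw [abs_le]; exact this
  have hinj : Set.InjOn (fun i => |r i|) (Icc (1 : ℤ) s : Finset ℤ) := by
    intro i hi j hj h
    rw [mem_coe, mem_Icc] at hi hj
    rcases abs_eq_abs.1 h with h | h
    · have := hdiv (i - j) (ρ i - ρ j) (by simp only [hr] at h; linear_combination h)
        (by omega) (by omega)
      omega
    · have := hdiv (i + j) (ρ i + ρ j) (by simp only [hr] at h; linear_combination h)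
        (by omega) (by omega)
      omega
  have himg : (Icc (1 : ℤ) s).image (fun i => |r i|) = Icc (1 : ℤ) s := by
    apply eq_of_subset_of_card_le
    · intro y hy
      obtain ⟨i, hi, rfl⟩ := mem_image.1 hy
      exact hmem i hi
    · rw [card_image_of_injOn hinj]
  have hsum : ∑ i ∈ Icc (1 : ℤ) s, |r i| = ∑ i ∈ Icc (1 : ℤ) s, i := by
    conv_rhs => rw [← himg]
    rw [sum_image hinj]
  have hterm : ∀ i ∈ Icc (1 : ℤ) s, ρ i ≡ c * i + |r i| [ZMOD 2] := by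
    intro i _
    have h1 : c * i = r i + 2 * (s * ρ i) + ρ i := by simp only [hr]; ring
    rw [h1]
    unfold Int.ModEq
    rcases abs_cases (r i) with h | h <;> omega
  have := Int.ModEq.sum hterm
  rw [sum_add_distrib, hsum, ← mul_sum] at this
  rw [add_mul, one_mul]
  exact this

theorem Hrowa_sum_id {s : ℤ} (hs : 0 ≤ s) : 2 * ∑ i ∈ Icc 1 s, i = s * (s + 1) := by
  obtain ⟨n, rfl⟩ := Int.eq_ofNat_of_zero_le hs
  induction n with
  | zero => simp
  | succ n ih =>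
    have : Icc (1 : ℤ) ((n + 1 : ℕ) : ℤ) = insert ((n : ℤ) + 1) (Icc (1 : ℤ) n) := by
      ext i; simp only [mem_insert, mem_Icc]; push_cast; omega
    rw [this, sum_insert (by simp only [mem_Icc]; omega), mul_add, ih (by omega)]
    push_cast; ring

theorem Hrowa_shift {a x s : ℤ} (hs : 0 ≤ s) (ha : a % 2 = 1) :
    ∑ i ∈ Icc 1 s, (a * (2 * s + 1) + 2 * (x - a) * i) / (2 * (2 * s + 1)) =
      s * (a / 2) + ∑ i ∈ Icc 1 s, ((2 * s + 1) + 2 * (x - a) * i) / (2 * (2 * s + 1)) := by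
  have h : ∀ i ∈ Icc (1 : ℤ) s, (a * (2 * s + 1) + 2 * (x - a) * i) / (2 * (2 * s + 1)) =
      a / 2 + ((2 * s + 1) + 2 * (x - a) * i) / (2 * (2 * s + 1)) := by
    intro i _
    have h1 : a = 2 * (a / 2) + 1 := by omega
    have h2 : a * (2 * s + 1) + 2 * (x - a) * i =
        ((2 * s + 1) + 2 * (x - a) * i) + (2 * (2 * s + 1)) * (a / 2) := by
      linear_combination (2 * s + 1) * h1
    rw [h2, Int.add_mul_ediv_left _ _ (by omega), add_comm]
  rw [sum_congr rfl h, sum_add_distrib, sum_const, Int.card_Icc, nsmul_eq_mul,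
    Int.toNat_of_nonneg (by omega)]
  ring

/-- floor sum, case `x` odd. `a`, `x`, `y = 2s+1` odd, `gcd (x - a, y) = 1`.
Plan: with `δ' = (x - a)/2`, `i' = y - 2i` (odd, `1 ≤ i' < y`), the summand is
`(x-1)/2 - round (δ' i' / y)`; write `δ' i' = y ρ + r`, `0 < |r| ≤ s`; `ρ ≡ δ' + |r| (mod 2)` and
`i' ↦ |r|` is a bijection onto `1..s`. -/
theorem floor_sum_odd {a x s u v : ℤ} (hs : 0 ≤ s) (ha : a % 2 = 1) (hx : x % 2 = 1)
    (hc : (x - a) * u + (2 * s + 1) * v = 1) :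
    ∑ i ∈ Icc 1 s, (a * (2 * s + 1) + 2 * (x - a) * i) / (2 * (2 * s + 1)) ≡
      s * (x / 2) + s * ((x - a) / 2) + s * (s + 1) / 2 [ZMOD 2] := by
  rw [Hrowa_shift hs ha]
  have h1 := Hrowa_gauss hc
  have h2 := Hrowa_sum_id hs
  rw [← h2]
  obtain ⟨k, hk⟩ : ∃ k, x - a = 2 * k := ⟨(x - a) / 2, by omega⟩
  have h3 : x / 2 = a / 2 + k := by omega
  have h4 : (x - a) / 2 = k := by omega
  rw [h3, h4]
  generalize ∑ i ∈ Icc 1 s, ((2 * s + 1) + 2 * (x - a) * i) / (2 * (2 * s + 1)) = A at *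
  generalize ∑ i ∈ Icc 1 s, i = T at *
  have h5 : (x - a + 1) * T = 2 * (k * T) + T := by rw [hk]; ring
  rw [h5] at h1
  rw [mul_add]
  unfold Int.ModEq at *
  omega

/-- floor sum, case `x` even. Plan: the summand is `x/2 - ⌈δ i' / (2y)⌉`, `δ = x - a` odd;
`δ i' = 2 y q - r` with `0 < r < 2y` odd, `r ≠ y`; `i' ↦ min r (2y - r)` permutes the odd numbers
below `y`; work modulo 4. -/
theorem floor_sum_even {a x s u v : ℤ} (hs : 0 ≤ s) (ha : a % 2 = 1) (hx : x % 2 = 0)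
    (hc : (x - a) * u + (2 * s + 1) * v = 1) :
    ∑ i ∈ Icc 1 s, (a * (2 * s + 1) + 2 * (x - a) * i) / (2 * (2 * s + 1)) ≡
      s * (x / 2) + s * ((x - a + 1) / 2) [ZMOD 2] := by
  rw [Hrowa_shift hs ha]
  have h1 := Hrowa_gauss hc
  obtain ⟨k, hk⟩ : ∃ k, x - a + 1 = 2 * k := ⟨(x - a + 1) / 2, by omega⟩
  have h3 : x / 2 = a / 2 + k := by omega
  have h4 : (x - a + 1) / 2 = k := by omega
  rw [h3, h4]
  generalize ∑ i ∈ Icc 1 s, ((2 * s + 1) + 2 * (x - a) * i) / (2 * (2 * s + 1)) = A at *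
  generalize ∑ i ∈ Icc 1 s, i = T at *
  have h5 : (x - a + 1) * T = 2 * (k * T) := by rw [hk]; ring
  rw [h5] at h1
  rw [mul_add]
  unfold Int.ModEq at *
  omega

end Pool.Agent.TC

end

section

/-! Values of `H` modulo 8 on odd-odd primitive edges. -/

open Finset

namespace Pool.Agent.TC

variable {d : ℤ}

theorem Hrowb_count {a x b s σ j : ℤ} (hσ : σ = 1 ∨ σ = -1) (ha0 : 0 ≤ a) (ha1 : a ≤ d)
    (ha : a % 2 = 1) (hx0 : 0 ≤ x) (hx1 : x ≤ d) (hb : b % 2 = 0) (hb0 : 0 ≤ b) (hb1 : b ≤ d)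
    (hc0 : 0 ≤ b + σ * (2 * s + 1)) (hc1 : b + σ * (2 * s + 1) ≤ d) (hs : 0 ≤ s) (hj : 0 ≤ j) :
    ∑ e ∈ evBox d, (if 2 * j ≤ σ * (e.2 - b) ∧ σ * (e.2 - b) ≤ 2 * s ∧
        (2 * s + 1) * e.1 < a * (2 * s + 1) + (x - a) * (σ * (e.2 - b)) then (1 : ℤ) else 0) =
      ∑ i ∈ Icc j s, ((a * (2 * s + 1) + 2 * (x - a) * i) / (2 * (2 * s + 1)) + 1) := by
  have hδ : (0 : ℤ) < 2 * (2 * s + 1) := by omega
  have hN0 : ∀ i, 0 ≤ i → i ≤ s → 0 ≤ a * (2 * s + 1) + 2 * (x - a) * i := by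
    intro i h0 h1
    have h2 : 0 ≤ a * (2 * s + 1 - 2 * i) := mul_nonneg ha0 (by omega)
    have h3 : 0 ≤ x * i := mul_nonneg hx0 h0
    nlinarith only [h2, h3]
  have hN1 : ∀ i, 0 ≤ i → i ≤ s → a * (2 * s + 1) + 2 * (x - a) * i ≤ d * (2 * s + 1) := by
    intro i h0 h1
    have h2 : 0 ≤ (d - a) * (2 * s + 1 - 2 * i) := mul_nonneg (by omega) (by omega)
    have h3 : 0 ≤ (d - x) * i := mul_nonneg (by omega) h0
    nlinarith only [h2, h3]
  have hcard : ((evBox d).filter fun e => 2 * j ≤ σ * (e.2 - b) ∧ σ * (e.2 - b) ≤ 2 * s ∧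
      (2 * s + 1) * e.1 < a * (2 * s + 1) + (x - a) * (σ * (e.2 - b))).card =
      ((Icc j s).sigma fun i =>
        Icc (0 : ℤ) ((a * (2 * s + 1) + 2 * (x - a) * i) / (2 * (2 * s + 1)))).card := by
    refine Finset.card_nbij' (fun e => ⟨σ * (e.2 - b) / 2, e.1 / 2⟩)
      (fun p => (2 * p.2, b + 2 * σ * p.1)) ?_ ?_ ?_ ?_
    · rintro ⟨e1, e2⟩ he
      simp only [evBox, Ev, coe_filter, mem_filter, mem_product, mem_Icc, Set.mem_ofPred_eq] at he
      obtain ⟨⟨⟨⟨h1, h2⟩, h3, h4⟩, h5, h6⟩, h7, h8, h9⟩ := he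
      obtain ⟨k, rfl⟩ : ∃ k, e1 = 2 * k := ⟨e1 / 2, by omega⟩
      obtain ⟨i, hi⟩ : ∃ i, σ * (e2 - b) = 2 * i := by
        refine ⟨σ * (e2 - b) / 2, ?_⟩
        rcases hσ with rfl | rfl <;> omega
      rw [hi] at h7 h8 h9
      simp only [coe_sigma, Set.mem_sigma_iff, mem_coe, mem_Icc, hi]
      have e1 : 2 * i / 2 = i := by omega
      have e2 : 2 * k / 2 = k := by omega
      rw [e1, e2]
      refine ⟨⟨by omega, by omega⟩, by omega, ?_⟩
      rw [Int.le_ediv_iff_mul_le hδ]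
      nlinarith only [h9]
    · rintro ⟨i, k⟩ hp
      simp only [coe_sigma, Set.mem_sigma_iff, mem_coe, mem_Icc] at hp
      obtain ⟨⟨h1, h2⟩, h3, h4⟩ := hp
      rw [Int.le_ediv_iff_mul_le hδ] at h4
      have h5 := hN1 i (by omega) h2
      have hk : 2 * k ≤ d := by
        by_contra hcon
        have h6 : 0 < (2 * k - d) * (2 * s + 1) := mul_pos (by omega) (by omega)
        nlinarith only [h4, h5, h6]
      have hi : σ * (b + 2 * σ * i - b) = 2 * i := by rcases hσ with rfl | rfl <;> ring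
      simp only [evBox, Ev, coe_filter, mem_filter, mem_product, mem_Icc, Set.mem_ofPred_eq, hi]
      refine ⟨⟨⟨⟨by omega, hk⟩, ?_, ?_⟩, by omega, ?_⟩, by omega, by omega, ?_⟩
      · rcases hσ with rfl | rfl <;> omega
      · rcases hσ with rfl | rfl <;> omega
      · rcases hσ with rfl | rfl <;> omega
      · obtain ⟨a', rfl⟩ : ∃ a', a = 2 * a' + 1 := ⟨a / 2, by omega⟩
        have h6 : (2 * a' + 1) * (2 * s + 1) + (x - (2 * a' + 1)) * (2 * i) -
            (2 * s + 1) * (2 * k) =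
            2 * (2 * a' * s + a' + s + (x - (2 * a' + 1)) * i - (2 * s + 1) * k) + 1 := by ring
        have h7 : 0 ≤ (2 * a' + 1) * (2 * s + 1) + (x - (2 * a' + 1)) * (2 * i) -
            (2 * s + 1) * (2 * k) := by nlinarith only [h4]
        omega
    · rintro ⟨e1, e2⟩ he
      simp only [evBox, Ev, coe_filter, mem_filter, mem_product, mem_Icc, Set.mem_ofPred_eq] at he
      obtain ⟨⟨-, h5, h6⟩, -⟩ := he
      refine Prod.ext ?_ ?_
      · show 2 * (e1 / 2) = e1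
        omega
      · show b + 2 * σ * (σ * (e2 - b) / 2) = e2
        rcases hσ with rfl | rfl <;> omega
    · rintro ⟨i, k⟩ -
      have hi : σ * (b + 2 * σ * i - b) / 2 = i := by rcases hσ with rfl | rfl <;> omega
      have hk : 2 * k / 2 = k := by omega
      simp only [hi, hk]
  rw [Finset.sum_boole, hcard, Finset.card_sigma]
  push_cast
  refine Finset.sum_congr rfl fun i hi => ?_
  rw [mem_Icc] at hi
  have h1 : 0 ≤ (a * (2 * s + 1) + 2 * (x - a) * i) / (2 * (2 * s + 1)) :=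
    Int.ediv_nonneg (hN0 i (by omega) hi.2) hδ.le
  rw [Int.card_Icc]
  omega

theorem Hrowb_w {a x b s σ : ℤ} (hσ : σ = 1 ∨ σ = -1) (ha : a % 2 = 1) (hb : b % 2 = 0)
    (hs : 0 ≤ s) {e : V} (he : Ev e) :
    wp e (a, b) (x, b + σ * (2 * s + 1)) + wm e (a, b) (x, b + σ * (2 * s + 1)) =
      σ * ((if 2 * 0 ≤ σ * (e.2 - b) ∧ σ * (e.2 - b) ≤ 2 * s ∧
        (2 * s + 1) * e.1 < a * (2 * s + 1) + (x - a) * (σ * (e.2 - b)) then (1 : ℤ) else 0) +
      (if 2 * 1 ≤ σ * (e.2 - b) ∧ σ * (e.2 - b) ≤ 2 * s ∧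
        (2 * s + 1) * e.1 < a * (2 * s + 1) + (x - a) * (σ * (e.2 - b)) then (1 : ℤ) else 0)) := by
  obtain ⟨e1, e2⟩ := e
  obtain ⟨h1, h2⟩ := he
  simp only at h1 h2
  obtain ⟨k, rfl⟩ : ∃ k, e1 = 2 * k := ⟨e1 / 2, by omega⟩
  obtain ⟨i, rfl⟩ : ∃ i, e2 = b + 2 * i := ⟨(e2 - b) / 2, by omega⟩
  obtain ⟨a', rfl⟩ : ∃ a', a = 2 * a' + 1 := ⟨a / 2, by omega⟩
  obtain ⟨P, hP⟩ : ∃ P, P = (x - (2 * a' + 1)) * i := ⟨_, rfl⟩
  obtain ⟨Q, hQ⟩ : ∃ Q, Q = (2 * s + 1) * (k - a') := ⟨_, rfl⟩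
  rcases hσ with rfl | rfl
  · have hd : det ((x, b + 1 * (2 * s + 1)) - (2 * a' + 1, b)) ((2 * k, b + 2 * i) - (2 * a' + 1, b))
        = 2 * P - 2 * Q + (2 * s + 1) := by
      simp only [det, Prod.fst_sub, Prod.snd_sub, hP, hQ]; ring
    have hc : ((2 * s + 1) * (2 * k) <
        (2 * a' + 1) * (2 * s + 1) + (x - (2 * a' + 1)) * (1 * (b + 2 * i - b))) ↔
        0 < 2 * P - 2 * Q + (2 * s + 1) := by
      rw [hP, hQ]; constructor <;> intro h <;> nlinarith only [h]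
    simp only [wp, wm, hd, hc]
    split_ifs <;> omega
  · have hd : det ((x, b + -1 * (2 * s + 1)) - (2 * a' + 1, b))
        ((2 * k, b + 2 * i) - (2 * a' + 1, b)) = 2 * P + 2 * Q - (2 * s + 1) := by
      simp only [det, Prod.fst_sub, Prod.snd_sub, hP, hQ]; ring
    have hc : ((2 * s + 1) * (2 * k) <
        (2 * a' + 1) * (2 * s + 1) + (x - (2 * a' + 1)) * (-1 * (b + 2 * i - b))) ↔
        2 * P + 2 * Q - (2 * s + 1) < 0 := by
      rw [hP, hQ]; constructor <;> intro h <;> nlinarith only [h]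
    simp only [wp, wm, hd, hc]
    split_ifs <;> omega

theorem Hrowb_H {a x b s σ : ℤ} (hσ : σ = 1 ∨ σ = -1) (ha0 : 0 ≤ a) (ha1 : a ≤ d)
    (ha : a % 2 = 1) (hx0 : 0 ≤ x) (hx1 : x ≤ d) (hb : b % 2 = 0) (hb0 : 0 ≤ b) (hb1 : b ≤ d)
    (hc0 : 0 ≤ b + σ * (2 * s + 1)) (hc1 : b + σ * (2 * s + 1) ≤ d) (hs : 0 ≤ s) :
    H d (a, b) (x, b + σ * (2 * s + 1)) = b * (a - x) + σ * (2 * a * s - 1 - 4 * s -
      4 * ∑ i ∈ Icc 1 s, (a * (2 * s + 1) + 2 * (x - a) * i) / (2 * (2 * s + 1))) := by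
  have h0 := Hrowb_count (j := 0) hσ ha0 ha1 ha hx0 hx1 hb hb0 hb1 hc0 hc1 hs le_rfl
  have h1 := Hrowb_count (j := 1) hσ ha0 ha1 ha hx0 hx1 hb hb0 hb1 hc0 hc1 hs (by norm_num)
  have hI : Icc (0 : ℤ) s = insert 0 (Icc 1 s) := by
    ext i; simp only [mem_insert, mem_Icc]; omega
  have hz : (a * (2 * s + 1) + 2 * (x - a) * 0) / (2 * (2 * s + 1)) = a / 2 := by
    rw [mul_zero, add_zero]
    exact Int.mul_ediv_mul_of_pos_left a 2 (by omega)
  rw [hI, Finset.sum_insert (by simp), hz] at h0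
  have hn : ∑ _i ∈ Icc (1 : ℤ) s, (1 : ℤ) = s := by
    rw [Finset.sum_const, Int.card_Icc, nsmul_eq_mul, mul_one]
    omega
  rw [Finset.sum_add_distrib, hn] at h0 h1
  have hw : ∑ e ∈ evBox d, (wp e (a, b) (x, b + σ * (2 * s + 1)) +
      wm e (a, b) (x, b + σ * (2 * s + 1))) = σ * (a / 2 + 1 + 2 * (s +
        ∑ i ∈ Icc 1 s, (a * (2 * s + 1) + 2 * (x - a) * i) / (2 * (2 * s + 1)))) := by
    have hev : ∀ e ∈ evBox d, Ev e := fun e he => (mem_filter.1 he).2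
    rw [Finset.sum_congr rfl fun e he =>
      Hrowb_w (x := x) hσ ha hb hs (e := e) (hev e he), ← Finset.mul_sum,
      Finset.sum_add_distrib, h0, h1]
    ring
  obtain ⟨a', rfl⟩ : ∃ a', a = 2 * a' + 1 := ⟨a / 2, by omega⟩
  have ha3 : (2 * a' + 1) / 2 = a' := by omega
  rw [H, hw, ha3]
  simp only [det]
  ring

/-- edges with an endpoint `z` of class `(1,0)`. Plan: no even point is on the line (the
determinant is odd). If `u.2 - z.2 = 2s+1 > 0` then
`∑ (wp + wm) = (z.1+1)/2 + 2 ∑_{i=1}^s (⌊X_i/2⌋ + 1)` with `X_i = z.1 + (u.1 - z.1) 2i/(2s+1)`;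
if `z.2 - u.2 = 2s+1` the same sum with a minus sign. -/
theorem H_row {z u y : V} (hz : InT d z) (hu : InT d u) (h1 : z.1 % 2 = 1) (h2 : z.2 % 2 = 0)
    (h3 : u.2 % 2 = 1) (hy : det (u - z) y = 1) :
    H d z u ≡ z.2 * (z.1 - u.1) +
      (if u.1 % 2 = 1 then 2 * ((u.2 - z.2 - 1) / 2) ^ 2 - 1 else 3 * (u.2 - z.2) - 4)
      [ZMOD 8] := by
  obtain ⟨a, b⟩ := z
  obtain ⟨x, c⟩ := u
  obtain ⟨y1, y2⟩ := y
  simp only [InT, det, Prod.fst_sub, Prod.snd_sub] at hz hu h1 h2 h3 hy ⊢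
  obtain ⟨σ, s, hσ, hs, rfl⟩ : ∃ σ s : ℤ, (σ = 1 ∨ σ = -1) ∧ 0 ≤ s ∧ c = b + σ * (2 * s + 1) := by
    rcases le_total b c with h | h
    · exact ⟨1, (c - b) / 2, Or.inl rfl, by omega, by omega⟩
    · exact ⟨-1, (b - c) / 2, Or.inr rfl, by omega, by omega⟩
  have hc : (x - a) * y2 + (2 * s + 1) * (-σ * y1) = 1 := by linear_combination hy
  rw [Hrowb_H hσ hz.1 (by omega) h1 hu.1 (by omega) h2 hz.2.1 (by omega) hu.2.1 (by omega) hs]
  refine Int.ModEq.add_left _ ?_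
  obtain ⟨t, ht⟩ : ∃ t, s * (s + 1) = 2 * t := by
    obtain ⟨t, ht⟩ := Int.even_mul_succ_self s
    exact ⟨t, by omega⟩
  obtain ⟨a', rfl⟩ : ∃ a', a = 2 * a' + 1 := ⟨a / 2, by omega⟩
  split_ifs with hx
  · have hf := floor_sum_odd hs h1 hx hc
    obtain ⟨x', rfl⟩ : ∃ x', x = 2 * x' + 1 := ⟨x / 2, by omega⟩
    have e1 : (2 * x' + 1) / 2 = x' := by omega
    have e2 : (2 * x' + 1 - (2 * a' + 1)) / 2 = x' - a' := by omega
    have e3 : s * (s + 1) / 2 = t := by omega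
    rw [e1, e2, e3] at hf
    obtain ⟨n, hn⟩ := hf.dvd
    generalize ∑ i ∈ Icc 1 s, ((2 * a' + 1) * (2 * s + 1) + 2 * (2 * x' + 1 - (2 * a' + 1)) * i) /
      (2 * (2 * s + 1)) = F at hn ⊢
    have hF : F = s * x' + s * (x' - a') + t - 2 * n := by linarith only [hn]
    rcases hσ with rfl | rfl
    · have e4 : (b + 1 * (2 * s + 1) - b - 1) / 2 = s := by omega
      rw [e4, hF]
      refine Int.modEq_iff_dvd.2 ⟨s * x' - a' * s + t - n, ?_⟩
      linear_combination 2 * ht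
    · have e4 : (b + -1 * (2 * s + 1) - b - 1) / 2 = -(s + 1) := by omega
      rw [e4, hF]
      refine Int.modEq_iff_dvd.2 ⟨-(s * x') + a' * s + n, ?_⟩
      linear_combination 2 * ht
  · have hx' : x % 2 = 0 := by omega
    have hf := floor_sum_even hs h1 hx' hc
    obtain ⟨x', rfl⟩ : ∃ x', x = 2 * x' := ⟨x / 2, by omega⟩
    have e1 : (2 * x') / 2 = x' := by omega
    have e2 : (2 * x' - (2 * a' + 1) + 1) / 2 = x' - a' := by omega
    rw [e1, e2] at hf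
    obtain ⟨n, hn⟩ := hf.dvd
    generalize ∑ i ∈ Icc 1 s, ((2 * a' + 1) * (2 * s + 1) + 2 * (2 * x' - (2 * a' + 1)) * i) /
      (2 * (2 * s + 1)) = F at hn ⊢
    have hF : F = s * x' + s * (x' - a') - 2 * n := by linarith only [hn]
    rcases hσ with rfl | rfl
    · rw [hF]
      refine Int.modEq_iff_dvd.2 ⟨s * x' - a' * s + s - n, ?_⟩
      ring
    · rw [hF]
      refine Int.modEq_iff_dvd.2 ⟨-(s * x') + a' * s - s - 1 + n, ?_⟩
      ring

end Pool.Agent.TC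

end

section

/-! Values of `H` modulo 8 on odd-odd primitive edges. -/

open Finset

namespace Pool.Agent.TC

variable {d : ℤ}

private theorem Hrow_signs (a b x y : ℤ) :
    (0 ≤ y → y ≤ b → x ≤ 0 → x ≤ a → 0 ≤ a * y - b * x) ∧
    (0 ≤ y → y ≤ b → 0 ≤ x → a ≤ x → a * y - b * x ≤ 0) ∧
    (y ≤ 0 → b ≤ y → x ≤ 0 → x ≤ a → a * y - b * x ≤ 0) ∧
    (y ≤ 0 → b ≤ y → 0 ≤ x → a ≤ x → 0 ≤ a * y - b * x) ∧
    (0 ≤ x → x ≤ a → y ≤ 0 → y ≤ b → a * y - b * x ≤ 0) ∧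
    (0 ≤ x → x ≤ a → 0 ≤ y → b ≤ y → 0 ≤ a * y - b * x) ∧
    (x ≤ 0 → a ≤ x → y ≤ 0 → y ≤ b → 0 ≤ a * y - b * x) ∧
    (x ≤ 0 → a ≤ x → 0 ≤ y → b ≤ y → a * y - b * x ≤ 0) := by
  refine ⟨?_, ?_, ?_, ?_, ?_, ?_, ?_, ?_⟩ <;> intro h1 h2 h3 h4
  · nlinarith [mul_nonneg (sub_nonneg.2 h4) h1, mul_nonneg (neg_nonneg.2 h3) (sub_nonneg.2 h2)]
  · nlinarith [mul_nonneg (sub_nonneg.2 h4) h1, mul_nonneg h3 (sub_nonneg.2 h2)]
  · nlinarith [mul_nonneg (sub_nonneg.2 h4) (neg_nonneg.2 h1),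
      mul_nonneg (neg_nonneg.2 h3) (sub_nonneg.2 h2)]
  · nlinarith [mul_nonneg (sub_nonneg.2 h4) (neg_nonneg.2 h1), mul_nonneg h3 (sub_nonneg.2 h2)]
  · nlinarith [mul_nonneg (sub_nonneg.2 h4) h1, mul_nonneg (neg_nonneg.2 h3) (sub_nonneg.2 h2)]
  · nlinarith [mul_nonneg (sub_nonneg.2 h4) h1, mul_nonneg h3 (sub_nonneg.2 h2)]
  · nlinarith [mul_nonneg (sub_nonneg.2 h4) (neg_nonneg.2 h1),
      mul_nonneg (neg_nonneg.2 h3) (sub_nonneg.2 h2)]
  · nlinarith [mul_nonneg (sub_nonneg.2 h4) (neg_nonneg.2 h1), mul_nonneg h3 (sub_nonneg.2 h2)]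

private theorem Hrow_k1 {a b x y : ℤ} (h : a * y - b * x ≠ 0) :
    (if 0 ≤ y ∧ y < b ∧ 0 < a * y - b * x then (1 : ℤ)
      else if b ≤ y ∧ y < 0 ∧ a * y - b * x < 0 then -1 else 0) +
    (if 0 ≤ x ∧ x < a ∧ 0 < -(a * y - b * x) then (1 : ℤ)
      else if a ≤ x ∧ x < 0 ∧ -(a * y - b * x) < 0 then -1 else 0) =
    (if x < a ∧ y < b then 1 else 0) - (if x < 0 ∧ y < 0 then 1 else 0) := by
  split_ifs <;> by_cases c1 : x < 0 <;> by_cases c2 : x < a <;> by_cases c3 : y < 0 <;>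
    by_cases c4 : y < b <;>
    first
      | omega
      | (have := (Hrow_signs a b x y).1 (by omega) (by omega) (by omega) (by omega); omega)
      | (have := (Hrow_signs a b x y).2.1 (by omega) (by omega) (by omega) (by omega); omega)
      | (have := (Hrow_signs a b x y).2.2.1 (by omega) (by omega) (by omega) (by omega); omega)
      | (have := (Hrow_signs a b x y).2.2.2.1 (by omega) (by omega) (by omega) (by omega); omega)
      | (have := (Hrow_signs a b x y).2.2.2.2.1 (by omega) (by omega) (by omega) (by omega)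
         omega)
      | (have := (Hrow_signs a b x y).2.2.2.2.2.1 (by omega) (by omega) (by omega) (by omega)
         omega)
      | (have := (Hrow_signs a b x y).2.2.2.2.2.2.1 (by omega) (by omega) (by omega) (by omega)
         omega)
      | (have := (Hrow_signs a b x y).2.2.2.2.2.2.2 (by omega) (by omega) (by omega) (by omega)
         omega)

private theorem Hrow_k2 {a b x y : ℤ} (h : a * y - b * x ≠ 0) :
    (if 0 < y ∧ y ≤ b ∧ 0 ≤ a * y - b * x then (1 : ℤ)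
      else if b < y ∧ y ≤ 0 ∧ a * y - b * x ≤ 0 then -1 else 0) +
    (if 0 < x ∧ x ≤ a ∧ 0 ≤ -(a * y - b * x) then (1 : ℤ)
      else if a < x ∧ x ≤ 0 ∧ -(a * y - b * x) ≤ 0 then -1 else 0) =
    (if x ≤ a ∧ y ≤ b then 1 else 0) - (if x ≤ 0 ∧ y ≤ 0 then 1 else 0) := by
  split_ifs <;> by_cases c1 : x ≤ 0 <;> by_cases c2 : x ≤ a <;> by_cases c3 : y ≤ 0 <;>
    by_cases c4 : y ≤ b <;>
    first
      | omega
      | (have := (Hrow_signs a b x y).1 (by omega) (by omega) (by omega) (by omega); omega)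
      | (have := (Hrow_signs a b x y).2.1 (by omega) (by omega) (by omega) (by omega); omega)
      | (have := (Hrow_signs a b x y).2.2.1 (by omega) (by omega) (by omega) (by omega); omega)
      | (have := (Hrow_signs a b x y).2.2.2.1 (by omega) (by omega) (by omega) (by omega); omega)
      | (have := (Hrow_signs a b x y).2.2.2.2.1 (by omega) (by omega) (by omega) (by omega)
         omega)
      | (have := (Hrow_signs a b x y).2.2.2.2.2.1 (by omega) (by omega) (by omega) (by omega)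
         omega)
      | (have := (Hrow_signs a b x y).2.2.2.2.2.2.1 (by omega) (by omega) (by omega) (by omega)
         omega)
      | (have := (Hrow_signs a b x y).2.2.2.2.2.2.2 (by omega) (by omega) (by omega) (by omega)
         omega)

private theorem Hrow_swap {e p q : V} (h : det (q - p) (e - p) ≠ 0) :
    wp e p q + wm e p q + (wp e.swap p.swap q.swap + wm e.swap p.swap q.swap) =
      ((if e.1 < q.1 ∧ e.2 < q.2 then 1 else 0) +
        (if e.1 < q.1 + 1 ∧ e.2 < q.2 + 1 then 1 else 0)) -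
      ((if e.1 < p.1 ∧ e.2 < p.2 then 1 else 0) +
        (if e.1 < p.1 + 1 ∧ e.2 < p.2 + 1 then 1 else 0)) := by
  have hs : det (q.swap - p.swap) (e.swap - p.swap) = -det (q - p) (e - p) := by
    simp only [det, Prod.fst_sub, Prod.snd_sub, Prod.fst_swap, Prod.snd_swap]; ring
  have hD : (q.1 - p.1) * (e.2 - p.2) - (q.2 - p.2) * (e.1 - p.1) = det (q - p) (e - p) := rfl
  have k1 := Hrow_k1 (a := q.1 - p.1) (b := q.2 - p.2) (x := e.1 - p.1) (y := e.2 - p.2) h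
  have k2 := Hrow_k2 (a := q.1 - p.1) (b := q.2 - p.2) (x := e.1 - p.1) (y := e.2 - p.2) h
  rw [hD] at k1 k2
  simp only [sub_nonneg, sub_lt_sub_iff_right, sub_le_sub_iff_right, sub_lt_zero, sub_pos,
    sub_nonpos] at k1 k2
  simp only [wp, wm, hs, Prod.snd_swap, Int.lt_add_one_iff]
  linear_combination k1 + k2

private theorem Hrow_count1 {x : ℤ} (h0 : 0 ≤ x) (h1 : x ≤ d + 1) :
    ∑ i ∈ (Icc 0 d).filter (fun i : ℤ => i % 2 = 0), (if i < x then (1 : ℤ) else 0) =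
      (x + 1) / 2 := by
  rw [← Finset.sum_filter, Finset.sum_const, Finset.filter_filter]
  have : (Icc 0 d).filter (fun i : ℤ => i % 2 = 0 ∧ i < x) =
      (Ico 0 ((x + 1) / 2)).image fun i => 2 * i := by
    ext i
    simp only [mem_filter, mem_Icc, mem_image, mem_Ico]
    constructor
    · intro h; exact ⟨i / 2, by omega, by omega⟩
    · rintro ⟨j, hj, rfl⟩; omega
  rw [this, Finset.card_image_of_injective _ (fun a b h => by simpa using h), Int.card_Ico]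
  simp only [nsmul_eq_mul, mul_one]
  omega

private theorem Hrow_count {x y : ℤ} (h0 : 0 ≤ x) (h1 : x ≤ d + 1) (h2 : 0 ≤ y)
    (h3 : y ≤ d + 1) :
    ∑ e ∈ evBox d, (if e.1 < x ∧ e.2 < y then (1 : ℤ) else 0) = (x + 1) / 2 * ((y + 1) / 2) := by
  have : evBox d = (Icc 0 d).filter (fun i : ℤ => i % 2 = 0) ×ˢ
      (Icc 0 d).filter (fun i : ℤ => i % 2 = 0) := by
    ext e
    simp only [evBox, Ev, mem_filter, mem_product]
    tauto
  rw [this, Finset.sum_product, ← Hrow_count1 h0 h1, ← Hrow_count1 h2 h3, Finset.sum_mul_sum]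
  refine Finset.sum_congr rfl fun i _ => Finset.sum_congr rfl fun j _ => ?_
  by_cases a : i < x <;> by_cases b : j < y <;> simp [a, b]

/-- edges from class `(0,1)` to class `(1,1)`. Plan: for an even point `e` (not on the line)
`wp e p q + wp e.swap p.swap q.swap = [e.1 < q.1 ∧ e.2 < q.2] - [e.1 < p.1 ∧ e.2 < p.2]`, the same
for `wm` with `≤`; so `H d p q + H d p.swap q.swap = -2 (Q q - Q p)` with
`Q (x,y) = (x+1)(y+1)/2` for both classes; apply `H_row` to the swapped edge. -/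
theorem H_31 {p q y : V} (hp : InT d p) (hq : InT d q) (h1 : p.1 % 2 = 0) (h2 : p.2 % 2 = 1)
    (h3 : q.1 % 2 = 1) (h4 : q.2 % 2 = 1) (hy : det (q - p) y = 1) :
    H d p q ≡ -p.1 * (p.2 - q.2) - 2 * ((q.1 - p.1 - 1) / 2) ^ 2 + 1 - (q.1 + 1) * (q.2 + 1) +
      (p.1 + 1) * (p.2 + 1) [ZMOD 8] := by
  have hrow := H_row (d := d) (z := p.swap) (u := q.swap) (y := (-y.2, -y.1))
    (by simp only [InT, Prod.fst_swap, Prod.snd_swap] at *; omega)
    (by simp only [InT, Prod.fst_swap, Prod.snd_swap] at *; omega) h2 h1 h3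
    (by simp only [det, Prod.fst_sub, Prod.snd_sub, Prod.fst_swap, Prod.snd_swap] at *
        linear_combination hy)
  simp only [Prod.fst_swap, Prod.snd_swap, h4, if_true] at hrow
  have hsw : ∑ e ∈ evBox d, (wp e p.swap q.swap + wm e p.swap q.swap) =
      ∑ e ∈ evBox d, (wp e.swap p.swap q.swap + wm e.swap p.swap q.swap) := by
    refine (Finset.sum_equiv (Equiv.prodComm ℤ ℤ) (fun e => ?_) (fun e _ => rfl)).symm
    simp only [evBox, Ev, mem_filter, mem_product, Equiv.prodComm_apply, Prod.fst_swap,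
      Prod.snd_swap]
    tauto
  have hsum : H d p q + H d p.swap q.swap =
      -((q.1 + 1) * (q.2 + 1)) + (p.1 + 1) * (p.2 + 1) := by
    have e1 : ∑ e ∈ evBox d, (wp e p q + wm e p q) +
        ∑ e ∈ evBox d, (wp e p.swap q.swap + wm e p.swap q.swap) =
        ((q.1 + 1) / 2 * ((q.2 + 1) / 2) + (q.1 + 1 + 1) / 2 * ((q.2 + 1 + 1) / 2)) -
        ((p.1 + 1) / 2 * ((p.2 + 1) / 2) + (p.1 + 1 + 1) / 2 * ((p.2 + 1 + 1) / 2)) := by
      simp only [InT] at hp hq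
      rw [hsw, ← Finset.sum_add_distrib,
        ← Hrow_count (d := d) (x := q.1) (y := q.2) (by omega) (by omega) (by omega) (by omega),
        ← Hrow_count (d := d) (x := q.1 + 1) (y := q.2 + 1) (by omega) (by omega) (by omega)
          (by omega),
        ← Hrow_count (d := d) (x := p.1) (y := p.2) (by omega) (by omega) (by omega) (by omega),
        ← Hrow_count (d := d) (x := p.1 + 1) (y := p.2 + 1) (by omega) (by omega) (by omega)
          (by omega),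
        ← Finset.sum_add_distrib, ← Finset.sum_add_distrib, ← Finset.sum_sub_distrib]
      refine Finset.sum_congr rfl fun e he => Hrow_swap ?_
      obtain ⟨-, a1, a2⟩ := mem_filter.1 he
      intro h0
      simp only [det, Prod.fst_sub, Prod.snd_sub] at h0
      have o1 : Odd ((q.1 - p.1) * (e.2 - p.2)) :=
        Odd.mul (Int.odd_iff.2 (by omega)) (Int.odd_iff.2 (by omega))
      have o2 : Even ((q.2 - p.2) * (e.1 - p.1)) := Even.mul_left (Int.even_iff.2 (by omega)) _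
      rw [Int.odd_iff] at o1
      rw [Int.even_iff] at o2
      omega
    obtain ⟨a, ha⟩ : ∃ a, p.1 = 2 * a := ⟨p.1 / 2, by omega⟩
    obtain ⟨b, hb⟩ : ∃ b, p.2 = 2 * b + 1 := ⟨p.2 / 2, by omega⟩
    obtain ⟨c, hc⟩ : ∃ c, q.1 = 2 * c + 1 := ⟨q.1 / 2, by omega⟩
    obtain ⟨f, hf⟩ : ∃ f, q.2 = 2 * f + 1 := ⟨q.2 / 2, by omega⟩
    rw [show (q.1 + 1) / 2 = c + 1 by omega, show (q.2 + 1) / 2 = f + 1 by omega,
      show (q.1 + 1 + 1) / 2 = c + 1 by omega, show (q.2 + 1 + 1) / 2 = f + 1 by omega,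
      show (p.1 + 1) / 2 = a by omega, show (p.2 + 1) / 2 = b + 1 by omega,
      show (p.1 + 1 + 1) / 2 = a + 1 by omega, show (p.2 + 1 + 1) / 2 = b + 1 by omega] at e1
    simp only [H, det, Prod.fst_swap, Prod.snd_swap]
    rw [ha, hb, hc, hf]
    linear_combination (-2) * e1
  have : H d p q = (-((q.1 + 1) * (q.2 + 1)) + (p.1 + 1) * (p.2 + 1)) - H d p.swap q.swap := by
    linarith
  rw [this]
  refine (Int.ModEq.sub_left _ hrow).trans ?_
  exact congrArg (· % 8) (by ring)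

end Pool.Agent.TC

end

section

/-! Potentials for the boundary darts of zones (checked numerically for `d ≤ 14`). -/

open Finset

namespace Pool.Agent.TC

variable {d : ℤ}

/-- the potential -/
def pot (d : ℤ) (v : V) : ℤ :=
  if ¬ Ins d v then
    (if v.1 = 0 ∧ v.2 < d then -2 * (v.2 / 2) else if v.2 = 0 then 0
      else if v.2 % 2 = 1 then 2 * (v.2 / 2) ^ 2 else 2 * (v.2 / 2) * (v.2 / 2 - 1))
  else if v.1 % 2 = 0 then 3 * v.2 - 4
  else if v.2 % 2 = 1 then 2 * ((v.2 - 1) / 2) ^ 2 + 2 * ((v.1 - v.2) / 2) ^ 2 - 1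
  else -v.1 * v.2 + 3 * v.2 + 2 * (d / 2) ^ 2 - 1 + 2 * ((d - 2 * v.1 - v.2) / 2) ^ 2

theorem Hcong_early0 (p : V) : Early d 0 p ↔
    ((0 < p.1 ∧ 0 < p.2 ∧ p.1 + p.2 < d) ∧ p.2 % 2 = 0) ∨ (d - p.1 - p.2 = 0 ∧ 0 < p.2) := Iff.rfl
theorem Hcong_early1 (p : V) : Early d 1 p ↔
    ((0 < p.1 ∧ 0 < p.2 ∧ p.1 + p.2 < d) ∧ (d - p.1 - p.2) % 2 = 0) ∨
      (p.1 = 0 ∧ 0 < d - p.1 - p.2) := Iff.rfl
theorem Hcong_early2 (p : V) : Early d 2 p ↔
    ((0 < p.1 ∧ 0 < p.2 ∧ p.1 + p.2 < d) ∧ p.1 % 2 = 0) ∨ (p.2 = 0 ∧ 0 < p.1) := Iff.rfl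
theorem Hcong_late0 (q : V) : Late d 0 q ↔ q.1 = 0 ∧ 0 < d - q.1 - q.2 := Iff.rfl
theorem Hcong_late1 (q : V) : Late d 1 q ↔ q.2 = 0 ∧ 0 < q.1 := Iff.rfl
theorem Hcong_late2 (q : V) : Late d 2 q ↔ d - q.1 - q.2 = 0 ∧ 0 < q.2 := Iff.rfl
theorem Hcong_ph0 (p : V) : ph d 0 p =
    if Ins d p then (if (d - p.1 - p.2 - p.1) % 4 = 0 then 1 else -1) else 0 := rfl
theorem Hcong_ph1 (p : V) : ph d 1 p =
    if Ins d p then (if (p.1 - p.2) % 4 = 0 then 1 else -1) else 0 := rfl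
theorem Hcong_ph2 (p : V) : ph d 2 p =
    if Ins d p then (if (p.2 - (d - p.1 - p.2)) % 4 = 0 then 1 else -1) else 0 := rfl

theorem Hcong_ps (p q : V) : ps d p q =
    ((if Out d 0 q p then ph d 0 q else 0) - if Out d 0 p q then ph d 0 p else 0) +
    ((if Out d 1 q p then ph d 1 q else 0) - if Out d 1 p q then ph d 1 p else 0) +
    ((if Out d 2 q p then ph d 2 q else 0) - if Out d 2 p q then ph d 2 p else 0) := by
  unfold ps; rw [Fin.sum_univ_three]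

/-- a primitive edge joins different parity classes -/
theorem Hcong_par {p q y : V} (h : det (q - p) y = 1) :
    ¬ (p.1 % 2 = q.1 % 2 ∧ p.2 % 2 = q.2 % 2) := by
  rintro ⟨h1, h2⟩
  obtain ⟨a, ha⟩ : ∃ a, q.1 - p.1 = 2 * a := ⟨(q.1 - p.1) / 2, by omega⟩
  obtain ⟨b, hb⟩ : ∃ b, q.2 - p.2 = 2 * b := ⟨(q.2 - p.2) / 2, by omega⟩
  simp only [det, Prod.fst_sub, Prod.snd_sub, ha, hb] at h
  have : 2 * (a * y.2 - b * y.1) = 1 := by linear_combination h
  omega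

theorem Hcong_rev {p q y : V} (h : det (q - p) y = 1) : det (p - q) (-y) = 1 := by
  simp only [det, Prod.fst_sub, Prod.snd_sub, Prod.fst_neg, Prod.snd_neg] at *
  linear_combination h

/-- the type of a point: which of `Early`, `Late`, `Ins` hold -/
def Hcong_T (d : ℤ) (p : V) (e0 e1 e2 l0 l1 l2 i : Prop) : Prop :=
  (Early d 0 p ↔ e0) ∧ (Early d 1 p ↔ e1) ∧ (Early d 2 p ↔ e2) ∧
    (Late d 0 p ↔ l0) ∧ (Late d 1 p ↔ l1) ∧ (Late d 2 p ↔ l2) ∧ (Ins d p ↔ i)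

theorem Hcong_tA {p : V} (h1 : p.2 = 0) (h2 : 0 < p.1) :
    Hcong_T d p False False True False True False False := by
  simp only [Hcong_T, Hcong_early0, Hcong_early1, Hcong_early2, Hcong_late0, Hcong_late1,
    Hcong_late2, Ins, iff_false, iff_true]
  refine ⟨?_, ?_, ?_, ?_, ?_, ?_, ?_⟩ <;> omega

theorem Hcong_tB {p : V} (h1 : p.1 + p.2 = d) (h2 : 0 < p.2) :
    Hcong_T d p True False False False False True False := by
  simp only [Hcong_T, Hcong_early0, Hcong_early1, Hcong_early2, Hcong_late0, Hcong_late1,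
    Hcong_late2, Ins, iff_false, iff_true]
  refine ⟨?_, ?_, ?_, ?_, ?_, ?_, ?_⟩ <;> omega

theorem Hcong_tC {p : V} (h1 : p.1 = 0) (h2 : p.2 < d) :
    Hcong_T d p False True False True False False False := by
  simp only [Hcong_T, Hcong_early0, Hcong_early1, Hcong_early2, Hcong_late0, Hcong_late1,
    Hcong_late2, Ins, iff_false, iff_true]
  refine ⟨?_, ?_, ?_, ?_, ?_, ?_, ?_⟩ <;> omega

theorem Hcong_t0 (hd : d % 2 = 0) {p : V} (h : Ins d p) (h1 : p.1 % 2 = 1) (h2 : p.2 % 2 = 0) :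
    Hcong_T d p True False False False False False True := by
  simp only [Hcong_T, Hcong_early0, Hcong_early1, Hcong_early2, Hcong_late0, Hcong_late1,
    Hcong_late2, Ins, iff_false, iff_true] at *
  refine ⟨?_, ?_, ?_, ?_, ?_, ?_, ?_⟩ <;> omega

theorem Hcong_t1 (hd : d % 2 = 0) {p : V} (h : Ins d p) (h1 : p.1 % 2 = 1) (h2 : p.2 % 2 = 1) :
    Hcong_T d p False True False False False False True := by
  simp only [Hcong_T, Hcong_early0, Hcong_early1, Hcong_early2, Hcong_late0, Hcong_late1,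
    Hcong_late2, Ins, iff_false, iff_true] at *
  refine ⟨?_, ?_, ?_, ?_, ?_, ?_, ?_⟩ <;> omega

theorem Hcong_t2 (hd : d % 2 = 0) {p : V} (h : Ins d p) (h1 : p.1 % 2 = 0) (h2 : p.2 % 2 = 1) :
    Hcong_T d p False False True False False False True := by
  simp only [Hcong_T, Hcong_early0, Hcong_early1, Hcong_early2, Hcong_late0, Hcong_late1,
    Hcong_late2, Ins, iff_false, iff_true] at *
  refine ⟨?_, ?_, ?_, ?_, ?_, ?_, ?_⟩ <;> omega

/-- the right hand side -/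
def Hcong_R (d : ℤ) (p q : V) : ℤ :=
  pot d q - pot d p + mo d 1 p q - mo d 2 p q + (2 * (d / 2) ^ 2 - 1) * mo d 0 p q + ps d p q

theorem Hcong_R_anti (p q : V) : Hcong_R d q p = -Hcong_R d p q := by
  simp only [Hcong_R, mo, Hcong_ps]; ring

theorem Hcong_swap {p q : V} (h : H d p q ≡ Hcong_R d p q [ZMOD 8]) :
    H d q p ≡ Hcong_R d q p [ZMOD 8] := by
  rw [H_anti, Hcong_R_anti]; exact h.neg

theorem Hcong_potA {p : V} (h1 : p.2 = 0) (h2 : 0 < p.1) : pot d p = 0 := by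
  have : ¬ Ins d p := by unfold Ins; omega
  have h3 : ¬ p.1 = 0 := by omega
  simp [pot, this, h1, h3]

theorem Hcong_potB1 {p : V} {b : ℤ} (h1 : p.1 + p.2 = d) (h2 : p.2 = 2 * b + 1) :
    pot d p = 2 * b ^ 2 := by
  have : ¬ Ins d p := by unfold Ins; omega
  have h3 : ¬ (p.1 = 0 ∧ p.2 < d) := by omega
  have h4 : ¬ p.2 = 0 := by omega
  have h5 : p.2 % 2 = 1 := by omega
  have h6 : p.2 / 2 = b := by omega
  simp only [pot, this, h3, h4, h5, h6, not_false_eq_true, if_true, if_false]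

theorem Hcong_potB0 {p : V} {b : ℤ} (h1 : p.1 + p.2 = d) (h2 : p.2 = 2 * b) :
    pot d p = 2 * b * (b - 1) := by
  have : ¬ Ins d p := by unfold Ins; omega
  have h3 : ¬ (p.1 = 0 ∧ p.2 < d) := by omega
  have h5 : ¬ p.2 % 2 = 1 := by omega
  have h6 : p.2 / 2 = b := by omega
  simp only [pot, this, h3, h5, h6, not_false_eq_true, if_true, if_false]
  split_ifs with h
  · have : b = 0 := by omega
    simp [this]
  · rfl

theorem Hcong_potC {p : V} (h1 : p.1 = 0) (h2 : p.2 < d) : pot d p = -2 * (p.2 / 2) := by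
  have : ¬ Ins d p := by unfold Ins; omega
  simp only [pot, this, h1, h2, not_false_eq_true, if_true, and_self]

theorem Hcong_pot2 {p : V} (h : Ins d p) (h1 : p.1 % 2 = 0) : pot d p = 3 * p.2 - 4 := by
  simp only [pot, h, h1, not_true_eq_false, if_true, if_false]

theorem Hcong_pot1 {p : V} {x y : ℤ} (h : Ins d p) (h1 : p.1 = 2 * x + 1) (h2 : p.2 = 2 * y + 1) :
    pot d p = 2 * y ^ 2 + 2 * (x - y) ^ 2 - 1 := by
  have h3 : ¬ p.1 % 2 = 0 := by omega
  have h4 : p.2 % 2 = 1 := by omega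
  have h5 : (p.2 - 1) / 2 = y := by omega
  have h6 : (p.1 - p.2) / 2 = x - y := by omega
  simp only [pot, h, h3, h4, h5, h6, not_true_eq_false, if_true, if_false]

theorem Hcong_pot0 {p : V} {x y k : ℤ} (h : Ins d p) (h1 : p.1 = 2 * x + 1) (h2 : p.2 = 2 * y)
    (hk : d = 2 * k) : pot d p =
      -(2 * x + 1) * (2 * y) + 3 * (2 * y) + 2 * k ^ 2 - 1 + 2 * (k - 2 * x - 1 - y) ^ 2 := by
  have h3 : ¬ p.1 % 2 = 0 := by omega
  have h4 : ¬ p.2 % 2 = 1 := by omega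
  have h5 : d / 2 = k := by omega
  have h6 : (d - 2 * p.1 - p.2) / 2 = k - 2 * x - 1 - y := by omega
  simp only [pot, h, h3, h4, h5, h6, not_true_eq_false, if_false]
  rw [h1, h2]

/-- `H_row` with explicit parities, `u` of class `(1,1)` -/
theorem Hcong_row1 {z u y : V} {a b s t : ℤ} (hz : InT d z) (hu : InT d u) (h1 : z.1 = 2 * a + 1)
    (h2 : z.2 = 2 * b) (h3 : u.1 = 2 * s + 1) (h4 : u.2 = 2 * t + 1) (hy : det (u - z) y = 1) :
    H d z u ≡ 2 * b * (2 * a - 2 * s) + (2 * (t - b) ^ 2 - 1) [ZMOD 8] := by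
  have := H_row hz hu (by omega) (by omega) (by omega) hy
  have e1 : u.1 % 2 = 1 := by omega
  have e2 : (u.2 - z.2 - 1) / 2 = t - b := by omega
  have e3 : z.1 - u.1 = 2 * a - 2 * s := by omega
  rw [if_pos e1, e2, e3, h2] at this
  exact this

/-- `H_row` with explicit parities, `u` of class `(0,1)` -/
theorem Hcong_row0 {z u y : V} {a b s t : ℤ} (hz : InT d z) (hu : InT d u) (h1 : z.1 = 2 * a + 1)
    (h2 : z.2 = 2 * b) (h3 : u.1 = 2 * s) (h4 : u.2 = 2 * t + 1) (hy : det (u - z) y = 1) :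
    H d z u ≡ 2 * b * (2 * a + 1 - 2 * s) + (3 * (2 * t + 1 - 2 * b) - 4) [ZMOD 8] := by
  have := H_row hz hu (by omega) (by omega) (by omega) hy
  have e1 : ¬ u.1 % 2 = 1 := by omega
  rw [if_neg e1, h1, h2, h3, h4] at this
  exact this

/-- `H_31` with explicit parities -/
theorem Hcong_31 {p q y : V} {a b s t : ℤ} (hp : InT d p) (hq : InT d q) (h1 : p.1 = 2 * a)
    (h2 : p.2 = 2 * b + 1) (h3 : q.1 = 2 * s + 1) (h4 : q.2 = 2 * t + 1)
    (hy : det (q - p) y = 1) :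
    H d p q ≡ -(2 * a) * (2 * b - 2 * t) - 2 * (s - a) ^ 2 + 1 - (2 * s + 2) * (2 * t + 2) +
      (2 * a + 1) * (2 * b + 2) [ZMOD 8] := by
  have := H_31 hp hq (by omega) (by omega) (by omega) (by omega) hy
  have e2 : (q.1 - p.1 - 1) / 2 = s - a := by omega
  have e3 : p.2 - q.2 = 2 * b - 2 * t := by omega
  have e4 : q.1 + 1 = 2 * s + 2 := by omega
  have e5 : q.2 + 1 = 2 * t + 2 := by omega
  have e6 : p.2 + 1 = 2 * b + 2 := by omega
  rw [e2, e3, e4, e5, e6, h1] at this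
  exact this

theorem Hcong_sg {n t : ℤ} (h : n = 2 * t) :
    ∃ c, (if n % 4 = 0 then 1 else -1 : ℤ) = 1 - 2 * t ^ 2 + 8 * c := by
  rcases Int.even_or_odd' t with ⟨u, rfl | rfl⟩
  · rw [if_pos (by omega)]; exact ⟨u ^ 2, by ring⟩
  · rw [if_neg (by omega)]; exact ⟨u ^ 2 + u, by ring⟩

/-! the three cuts -/

theorem Hcong_AB (hd : d % 2 = 0) {p q y : V} (hp : InT d p) (hq : InT d q) (h1 : p.2 = 0)
    (h2 : p.1 % 2 = 1) (h3 : q.1 + q.2 = d) (h4 : q.2 % 2 = 1) (hy : det (q - p) y = 1) :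
    H d p q ≡ Hcong_R d p q [ZMOD 8] := by
  have hp' := hp; have hq' := hq
  unfold InT at hp' hq'
  obtain ⟨a0, a1, a2, a3, a4, a5, a6⟩ := Hcong_tA (d := d) h1 (by omega)
  obtain ⟨b0, b1, b2, b3, b4, b5, b6⟩ := Hcong_tB h3 (by omega)
  refine (Hcong_row1 (a := p.1 / 2) (b := 0) (s := q.1 / 2) (t := q.2 / 2) hp hq (by omega)
    (by omega) (by omega) (by omega) hy).trans ?_
  simp only [Hcong_R, mo, Hcong_ps, Out, ph, a0, a1, a2, a3, a4, a5, a6, b0, b1, b2, b3, b4, b5, b6,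
    Hcong_potA h1 (by omega), Hcong_potB1 (b := q.2 / 2) h3 (by omega)]
  simp

theorem Hcong_AC (hd : d % 2 = 0) {p q y : V} (hp : InT d p) (hq : InT d q) (h1 : p.2 = 0)
    (h2 : p.1 % 2 = 1) (h3 : q.1 = 0) (h4 : q.2 % 2 = 1) (hy : det (q - p) y = 1) :
    H d p q ≡ Hcong_R d p q [ZMOD 8] := by
  have hp' := hp; have hq' := hq
  unfold InT at hp' hq'
  obtain ⟨a0, a1, a2, a3, a4, a5, a6⟩ := Hcong_tA (d := d) h1 (by omega)
  obtain ⟨b0, b1, b2, b3, b4, b5, b6⟩ := Hcong_tC (d := d) h3 (by omega)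
  refine (Hcong_row0 (a := p.1 / 2) (b := 0) (s := 0) (t := q.2 / 2) hp hq (by omega)
    (by omega) (by omega) (by omega) hy).trans ?_
  simp only [Hcong_R, mo, Hcong_ps, Out, a0, a1, a2, a3, a4, a5, a6, b0, b1, b2, b3, b4, b5, b6,
    Hcong_ph0, Hcong_ph1, Hcong_ph2, and_true, and_false, if_true, if_false,
    Hcong_potA h1 (by omega), Hcong_potC (d := d) h3 (by omega)]
  rw [Int.modEq_iff_dvd]
  omega

theorem Hcong_CB (hd : d % 2 = 0) {p q y : V} (hp : InT d p) (hq : InT d q) (h1 : p.1 = 0)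
    (h2 : p.2 % 2 = 1) (h3 : q.1 + q.2 = d) (h4 : q.2 % 2 = 1) (hy : det (q - p) y = 1) :
    H d p q ≡ Hcong_R d p q [ZMOD 8] := by
  have hp' := hp; have hq' := hq
  unfold InT at hp' hq'
  obtain ⟨a0, a1, a2, a3, a4, a5, a6⟩ := Hcong_tC (d := d) h1 (by omega)
  obtain ⟨b0, b1, b2, b3, b4, b5, b6⟩ := Hcong_tB (d := d) h3 (by omega)
  refine (Hcong_31 (a := 0) (b := p.2 / 2) (s := d / 2 - q.2 / 2 - 1) (t := q.2 / 2) hp hq
    (by omega) (by omega) (by omega) (by omega) hy).trans ?_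
  simp only [Hcong_R, mo, Hcong_ps, Out, a0, a1, a2, a3, a4, a5, a6, b0, b1, b2, b3, b4, b5, b6,
    Hcong_ph0, Hcong_ph1, Hcong_ph2, and_true, and_false, if_true, if_false,
    Hcong_potC (d := d) h1 (by omega), Hcong_potB1 (b := q.2 / 2) h3 (by omega)]
  generalize p.2 / 2 = b
  generalize q.2 / 2 = t
  generalize d / 2 = k
  rw [Int.modEq_iff_dvd]
  rcases Int.even_or_odd' t with ⟨t, rfl | rfl⟩ <;> rcases Int.even_or_odd' k with ⟨k, rfl | rfl⟩ <;>
    ring_nf <;> omega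

/-! the six apex chords -/

theorem Hcong_A1 (hd : d % 2 = 0) {p q y : V} (hp : InT d p) (hq : InT d q) (h1 : p.2 = 0)
    (h2 : p.1 % 2 = 1) (hi : Ins d q) (h3 : q.1 % 2 = 1) (h4 : q.2 % 2 = 1)
    (hy : det (q - p) y = 1) : H d p q ≡ Hcong_R d p q [ZMOD 8] := by
  have hp' := hp; have hq' := hq
  unfold InT at hp' hq'
  obtain ⟨a0, a1, a2, a3, a4, a5, a6⟩ := Hcong_tA (d := d) h1 (by omega)
  obtain ⟨b0, b1, b2, b3, b4, b5, b6⟩ := Hcong_t1 hd hi h3 h4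
  refine (Hcong_row1 (a := p.1 / 2) (b := 0) (s := q.1 / 2) (t := q.2 / 2) hp hq (by omega)
    (by omega) (by omega) (by omega) hy).trans ?_
  obtain ⟨c, hc⟩ := Hcong_sg (n := q.1 - q.2) (t := q.1 / 2 - q.2 / 2) (by omega)
  simp only [Hcong_R, mo, Hcong_ps, Out, a0, a1, a2, a3, a4, a5, a6, b0, b1, b2, b3, b4, b5, b6,
    Hcong_ph0, Hcong_ph1, Hcong_ph2, and_true, and_false, if_true, if_false,
    Hcong_potA h1 (by omega), Hcong_pot1 (x := q.1 / 2) (y := q.2 / 2) hi (by omega) (by omega), hc]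
  generalize q.1 / 2 = s
  generalize q.2 / 2 = t
  rw [Int.modEq_iff_dvd]
  ring_nf
  omega

theorem Hcong_A2 (hd : d % 2 = 0) {p q y : V} (hp : InT d p) (hq : InT d q) (h1 : p.2 = 0)
    (h2 : p.1 % 2 = 1) (hi : Ins d q) (h3 : q.1 % 2 = 0) (h4 : q.2 % 2 = 1)
    (hy : det (q - p) y = 1) : H d p q ≡ Hcong_R d p q [ZMOD 8] := by
  have hp' := hp; have hq' := hq
  unfold InT at hp' hq'
  obtain ⟨a0, a1, a2, a3, a4, a5, a6⟩ := Hcong_tA (d := d) h1 (by omega)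
  obtain ⟨b0, b1, b2, b3, b4, b5, b6⟩ := Hcong_t2 hd hi h3 h4
  refine (Hcong_row0 (a := p.1 / 2) (b := 0) (s := q.1 / 2) (t := q.2 / 2) hp hq (by omega)
    (by omega) (by omega) (by omega) hy).trans ?_
  simp only [Hcong_R, mo, Hcong_ps, Out, a0, a1, a2, a3, a4, a5, a6, b0, b1, b2, b3, b4, b5, b6,
    Hcong_ph0, Hcong_ph1, Hcong_ph2, and_true, and_false, if_true, if_false,
    Hcong_potA h1 (by omega), Hcong_pot2 hi h3]
  rw [Int.modEq_iff_dvd]
  omega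

theorem Hcong_0B (hd : d % 2 = 0) {p q y : V} (hp : InT d p) (hq : InT d q) (hi : Ins d p)
    (h1 : p.1 % 2 = 1) (h2 : p.2 % 2 = 0) (h3 : q.1 + q.2 = d) (h4 : q.2 % 2 = 1)
    (hy : det (q - p) y = 1) : H d p q ≡ Hcong_R d p q [ZMOD 8] := by
  have hp' := hp; have hq' := hq
  unfold InT at hp' hq'
  obtain ⟨a0, a1, a2, a3, a4, a5, a6⟩ := Hcong_t0 hd hi h1 h2
  obtain ⟨b0, b1, b2, b3, b4, b5, b6⟩ := Hcong_tB (d := d) h3 (by omega)
  refine (Hcong_row1 (a := p.1 / 2) (b := p.2 / 2) (s := d / 2 - q.2 / 2 - 1) (t := q.2 / 2) hp hq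
    (by omega) (by omega) (by omega) (by omega) hy).trans ?_
  simp only [Hcong_R, mo, Hcong_ps, Out, a0, a1, a2, a3, a4, a5, a6, b0, b1, b2, b3, b4, b5, b6,
    Hcong_ph0, Hcong_ph1, Hcong_ph2, and_true, and_false, if_true, if_false,
    Hcong_potB1 (b := q.2 / 2) h3 (by omega),
    Hcong_pot0 (x := p.1 / 2) (y := p.2 / 2) (k := d / 2) hi (by omega) (by omega) (by omega)]
  generalize p.1 / 2 = a
  generalize p.2 / 2 = b
  generalize q.2 / 2 = t
  generalize d / 2 = k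
  rw [Int.modEq_iff_dvd]
  rcases Int.even_or_odd' b with ⟨b, rfl | rfl⟩ <;> rcases Int.even_or_odd' k with ⟨k, rfl | rfl⟩ <;>
    rcases Int.even_or_odd' a with ⟨a, rfl | rfl⟩ <;> ring_nf <;> omega

theorem Hcong_2B (hd : d % 2 = 0) {p q y : V} (hp : InT d p) (hq : InT d q) (hi : Ins d p)
    (h1 : p.1 % 2 = 0) (h2 : p.2 % 2 = 1) (h3 : q.1 + q.2 = d) (h4 : q.2 % 2 = 1)
    (hy : det (q - p) y = 1) : H d p q ≡ Hcong_R d p q [ZMOD 8] := by
  have hp' := hp; have hq' := hq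
  unfold InT at hp' hq'
  obtain ⟨a0, a1, a2, a3, a4, a5, a6⟩ := Hcong_t2 hd hi h1 h2
  obtain ⟨b0, b1, b2, b3, b4, b5, b6⟩ := Hcong_tB (d := d) h3 (by omega)
  refine (Hcong_31 (a := p.1 / 2) (b := p.2 / 2) (s := d / 2 - q.2 / 2 - 1) (t := q.2 / 2) hp hq
    (by omega) (by omega) (by omega) (by omega) hy).trans ?_
  obtain ⟨c, hc⟩ := Hcong_sg (n := p.2 - (d - p.1 - p.2))
    (t := 2 * (p.2 / 2) + 1 + p.1 / 2 - d / 2) (by omega)
  have e : 3 * p.2 - 4 = 6 * (p.2 / 2) - 1 := by omega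
  simp only [Hcong_R, mo, Hcong_ps, Out, a0, a1, a2, a3, a4, a5, a6, b0, b1, b2, b3, b4, b5, b6,
    Hcong_ph0, Hcong_ph1, Hcong_ph2, and_true, and_false, if_true, if_false,
    Hcong_potB1 (b := q.2 / 2) h3 (by omega), Hcong_pot2 hi h1, hc, e]
  generalize p.1 / 2 = a
  generalize p.2 / 2 = b
  generalize q.2 / 2 = t
  generalize d / 2 = k
  rw [Int.modEq_iff_dvd]
  rcases Int.even_or_odd' t with ⟨t, rfl | rfl⟩ <;> rcases Int.even_or_odd' k with ⟨k, rfl | rfl⟩ <;>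
    rcases Int.even_or_odd' a with ⟨a, rfl | rfl⟩ <;> rcases Int.even_or_odd' b with ⟨b, rfl | rfl⟩ <;>
    ring_nf <;> omega

theorem Hcong_0C (hd : d % 2 = 0) {p q y : V} (hp : InT d p) (hq : InT d q) (hi : Ins d p)
    (h1 : p.1 % 2 = 1) (h2 : p.2 % 2 = 0) (h3 : q.1 = 0) (h4 : q.2 % 2 = 1)
    (hy : det (q - p) y = 1) : H d p q ≡ Hcong_R d p q [ZMOD 8] := by
  have hp' := hp; have hq' := hq
  unfold InT at hp' hq'
  obtain ⟨a0, a1, a2, a3, a4, a5, a6⟩ := Hcong_t0 hd hi h1 h2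
  obtain ⟨b0, b1, b2, b3, b4, b5, b6⟩ := Hcong_tC (d := d) h3 (by omega)
  refine (Hcong_row0 (a := p.1 / 2) (b := p.2 / 2) (s := 0) (t := q.2 / 2) hp hq
    (by omega) (by omega) (by omega) (by omega) hy).trans ?_
  obtain ⟨c, hc⟩ := Hcong_sg (n := d - p.1 - p.2 - p.1)
    (t := d / 2 - 2 * (p.1 / 2) - 1 - p.2 / 2) (by omega)
  simp only [Hcong_R, mo, Hcong_ps, Out, a0, a1, a2, a3, a4, a5, a6, b0, b1, b2, b3, b4, b5, b6,
    Hcong_ph0, Hcong_ph1, Hcong_ph2, and_true, and_false, if_true, if_false,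
    Hcong_potC (d := d) h3 (by omega), hc,
    Hcong_pot0 (x := p.1 / 2) (y := p.2 / 2) (k := d / 2) hi (by omega) (by omega) (by omega)]
  generalize p.1 / 2 = a
  generalize p.2 / 2 = b
  generalize q.2 / 2 = t
  generalize d / 2 = k
  rw [Int.modEq_iff_dvd]
  ring_nf
  omega

theorem Hcong_C1 (hd : d % 2 = 0) {p q y : V} (hp : InT d p) (hq : InT d q) (h1 : p.1 = 0)
    (h2 : p.2 % 2 = 1) (hi : Ins d q) (h3 : q.1 % 2 = 1) (h4 : q.2 % 2 = 1)
    (hy : det (q - p) y = 1) : H d p q ≡ Hcong_R d p q [ZMOD 8] := by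
  have hp' := hp; have hq' := hq
  unfold InT at hp' hq'
  obtain ⟨a0, a1, a2, a3, a4, a5, a6⟩ := Hcong_tC (d := d) h1 (by omega)
  obtain ⟨b0, b1, b2, b3, b4, b5, b6⟩ := Hcong_t1 hd hi h3 h4
  refine (Hcong_31 (a := 0) (b := p.2 / 2) (s := q.1 / 2) (t := q.2 / 2) hp hq
    (by omega) (by omega) (by omega) (by omega) hy).trans ?_
  simp only [Hcong_R, mo, Hcong_ps, Out, a0, a1, a2, a3, a4, a5, a6, b0, b1, b2, b3, b4, b5, b6,
    Hcong_ph0, Hcong_ph1, Hcong_ph2, and_true, and_false, if_true, if_false,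
    Hcong_potC (d := d) h1 (by omega),
    Hcong_pot1 (x := q.1 / 2) (y := q.2 / 2) hi (by omega) (by omega)]
  generalize p.2 / 2 = b
  generalize q.1 / 2 = s
  generalize q.2 / 2 = t
  rw [Int.modEq_iff_dvd]
  rcases Int.even_or_odd' t with ⟨t, rfl | rfl⟩ <;> rcases Int.even_or_odd' s with ⟨s, rfl | rfl⟩ <;>
    ring_nf <;> omega

theorem Hcong_cls (hd0 : 0 < d) {p : V} (hp : InT d p) (h : ¬ Ev p ∨ ¬ Ins d p) :
    (p.2 = 0 ∧ 0 < p.1) ∨ (p.1 + p.2 = d ∧ 0 < p.2) ∨ (p.1 = 0 ∧ p.2 < d) ∨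
      (Ins d p ∧ p.1 % 2 = 1 ∧ p.2 % 2 = 0) ∨ (Ins d p ∧ p.1 % 2 = 1 ∧ p.2 % 2 = 1) ∨
      (Ins d p ∧ p.1 % 2 = 0 ∧ p.2 % 2 = 1) := by
  unfold InT Ev Ins at *
  omega

/-- chords with the end `q` on the boundary -/
theorem Hcong_chord (hd : d % 2 = 0) (hd0 : 0 < d) {p q y : V} (hp : InT d p) (hq : InT d q)
    (ep : ¬ Ev p) (eq : ¬ Ev q) (hi : ¬ Ins d q) (hy : det (q - p) y = 1) :
    H d p q ≡ Hcong_R d p q [ZMOD 8] := by
  have hpar := Hcong_par hy
  have hy' := Hcong_rev hy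
  have ep' := ep; have eq' := eq
  unfold Ev at ep' eq'
  rcases Hcong_cls hd0 hq (Or.inl eq) with ⟨q1, q2⟩ | ⟨q1, q2⟩ | ⟨q1, q2⟩ | h | h | h
  · rcases Hcong_cls hd0 hp (Or.inl ep) with ⟨p1, p2⟩ | ⟨p1, p2⟩ | ⟨p1, p2⟩ | ⟨pi, p1, p2⟩ |
      ⟨pi, p1, p2⟩ | ⟨pi, p1, p2⟩
    · omega
    · exact Hcong_swap (Hcong_AB hd hq hp q1 (by omega) p1 (by omega) hy')
    · exact Hcong_swap (Hcong_AC hd hq hp q1 (by omega) p1 (by omega) hy')
    · omega
    · exact Hcong_swap (Hcong_A1 hd hq hp q1 (by omega) pi p1 p2 hy')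
    · exact Hcong_swap (Hcong_A2 hd hq hp q1 (by omega) pi p1 p2 hy')
  · rcases Hcong_cls hd0 hp (Or.inl ep) with ⟨p1, p2⟩ | ⟨p1, p2⟩ | ⟨p1, p2⟩ | ⟨pi, p1, p2⟩ |
      ⟨pi, p1, p2⟩ | ⟨pi, p1, p2⟩
    · exact Hcong_AB hd hp hq p1 (by omega) q1 (by omega) hy
    · omega
    · exact Hcong_CB hd hp hq p1 (by omega) q1 (by omega) hy
    · exact Hcong_0B hd hp hq pi p1 p2 q1 (by omega) hy
    · omega
    · exact Hcong_2B hd hp hq pi p1 p2 q1 (by omega) hy
  · rcases Hcong_cls hd0 hp (Or.inl ep) with ⟨p1, p2⟩ | ⟨p1, p2⟩ | ⟨p1, p2⟩ | ⟨pi, p1, p2⟩ |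
      ⟨pi, p1, p2⟩ | ⟨pi, p1, p2⟩
    · exact Hcong_AC hd hp hq p1 (by omega) q1 (by omega) hy
    · exact Hcong_swap (Hcong_CB hd hq hp q1 (by omega) p1 (by omega) hy')
    · omega
    · exact Hcong_0C hd hp hq pi p1 p2 q1 (by omega) hy
    · exact Hcong_swap (Hcong_C1 hd hq hp q1 (by omega) pi p1 p2 hy')
    · omega
  all_goals exact absurd h.1 hi

theorem Hcong_cor {p : V} (h1 : ¬ (p.1 = 0 ∧ p.2 = 0)) (h2 : ¬ (p.1 = d ∧ p.2 = 0))
    (h3 : ¬ (p.1 = 0 ∧ p.2 = d)) : cor d p = 0 := by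
  obtain ⟨x, y⟩ := p
  simp only [cor, Prod.mk.injEq] at *
  rw [if_neg h1, if_neg (by tauto)]

theorem Hcong_bdA (hd0 : 0 < d) {i : ℤ} (h0 : 0 ≤ i) (h1 : i < d) :
    H d (i, 0) (i + 1, 0) + cor d (i, 0) = Hcong_R d (i, 0) (i + 1, 0) := by
  obtain ⟨b0, b1, b2, b3, b4, b5, b6⟩ := Hcong_tA (d := d) (p := (i + 1, 0)) rfl (by simp; omega)
  have hq : pot d (i + 1, 0) = 0 := Hcong_potA rfl (by simp; omega)
  rw [H_bdA]
  rcases h0.eq_or_lt with rfl | h0
  · obtain ⟨a0, a1, a2, a3, a4, a5, a6⟩ := Hcong_tC (d := d) (p := (0, 0)) rfl hd0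
    have hp : pot d (0, 0) = 0 := by rw [Hcong_potC (p := (0, 0)) rfl hd0]; rfl
    simp only [Hcong_R, mo, Hcong_ps, Out, a0, a1, a2, a3, a4, a5, a6, b0, b1, b2, b3, b4, b5, b6,
      Hcong_ph0, Hcong_ph1, Hcong_ph2, and_true, and_false, if_true, if_false,
      hp, hq]
    simp [cor]
  · obtain ⟨a0, a1, a2, a3, a4, a5, a6⟩ := Hcong_tA (d := d) (p := (i, 0)) rfl h0
    have hp : pot d (i, 0) = 0 := Hcong_potA rfl h0
    have hc : cor d (i, 0) = 0 := Hcong_cor (by simp; omega) (by simp; omega) (by simp; omega)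
    simp only [Hcong_R, mo, Hcong_ps, Out, a0, a1, a2, a3, a4, a5, a6, b0, b1, b2, b3, b4, b5, b6,
      Hcong_ph0, Hcong_ph1, Hcong_ph2, and_true, and_false, if_false,
      hp, hq, hc]
    simp

theorem Hcong_bdB (hd : d % 2 = 0) (hd0 : 0 < d) {j : ℤ} (h0 : 0 ≤ j) (h1 : j < d) :
    H d (d - j, j) (d - j - 1, j + 1) + cor d (d - j, j) =
      Hcong_R d (d - j, j) (d - j - 1, j + 1) := by
  obtain ⟨b0, b1, b2, b3, b4, b5, b6⟩ :=
    Hcong_tB (d := d) (p := (d - j - 1, j + 1)) (by simp) (by simp; omega)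
  rw [H_bdB hd h0 h1]
  rcases h0.eq_or_lt with rfl | h0
  · obtain ⟨a0, a1, a2, a3, a4, a5, a6⟩ := Hcong_tA (d := d) (p := (d - 0, 0)) rfl (by simpa)
    have hp : pot d (d - 0, 0) = 0 := Hcong_potA rfl (by simpa)
    have hq : pot d (d - 0 - 1, 0 + 1) = 2 * 0 ^ 2 := Hcong_potB1 (by simp) (by simp)
    simp only [Hcong_R, mo, Hcong_ps, Out, a0, a1, a2, a3, a4, a5, a6, b0, b1, b2, b3, b4, b5, b6,
      Hcong_ph0, Hcong_ph1, Hcong_ph2, and_true, and_false, if_true, if_false,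
      hp, hq]
    simp [cor, hd0.ne']
  · obtain ⟨a0, a1, a2, a3, a4, a5, a6⟩ := Hcong_tB (d := d) (p := (d - j, j)) (by simp) h0
    have hc : cor d (d - j, j) = 0 := Hcong_cor (by simp; omega) (by simp; omega) (by simp; omega)
    rcases Int.even_or_odd' j with ⟨b, rfl | rfl⟩
    · have hp : pot d (d - 2 * b, 2 * b) = 2 * b * (b - 1) := Hcong_potB0 (by simp) rfl
      have hq : pot d (d - 2 * b - 1, 2 * b + 1) = 2 * b ^ 2 := Hcong_potB1 (by simp) rfl
      have e : 2 * b / 2 = b := by omega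
      simp only [Hcong_R, mo, Hcong_ps, Out, a0, a1, a2, a3, a4, a5, a6, b0, b1, b2, b3, b4, b5, b6,
        Hcong_ph0, Hcong_ph1, Hcong_ph2, and_true, and_false, if_false,
        hp, hq, hc, e]
      ring
    · have hp : pot d (d - (2 * b + 1), 2 * b + 1) = 2 * b ^ 2 := Hcong_potB1 (by simp) rfl
      have hq : pot d (d - (2 * b + 1) - 1, 2 * b + 1 + 1) = 2 * (b + 1) * (b + 1 - 1) :=
        Hcong_potB0 (by simp) (by simp; ring)
      have e : (2 * b + 1) / 2 = b := by omega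
      simp only [Hcong_R, mo, Hcong_ps, Out, a0, a1, a2, a3, a4, a5, a6, b0, b1, b2, b3, b4, b5, b6,
        Hcong_ph0, Hcong_ph1, Hcong_ph2, and_true, and_false, if_false,
        hp, hq, hc, e]
      ring

theorem Hcong_bdC (hd : d % 2 = 0) {j : ℤ} (h0 : 0 ≤ j) (h1 : j < d) :
    H d (0, j + 1) (0, j) + cor d (0, j + 1) = Hcong_R d (0, j + 1) (0, j) := by
  obtain ⟨b0, b1, b2, b3, b4, b5, b6⟩ := Hcong_tC (d := d) (p := (0, j)) rfl h1
  have hq : pot d (0, j) = -2 * (j / 2) := Hcong_potC rfl h1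
  rw [H_bdC h0 h1]
  rcases (show j + 1 = d ∨ j + 1 < d by omega) with h2 | h2
  · obtain ⟨a0, a1, a2, a3, a4, a5, a6⟩ :=
      Hcong_tB (d := d) (p := (0, j + 1)) (by simpa) (by simp; omega)
    have hp : pot d (0, j + 1) = 2 * (d / 2) * (d / 2 - 1) :=
      Hcong_potB0 (by simpa) (by simp; omega)
    have hc : cor d (0, j + 1) = -1 := by
      have : ¬ j + 1 = 0 := by omega
      simp [cor, h2.symm, this]
    have e1 : j / 2 = d / 2 - 1 := by omega
    have e2 : j % 2 = 1 := by omega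
    simp only [Hcong_R, mo, Hcong_ps, Out, a0, a1, a2, a3, a4, a5, a6, b0, b1, b2, b3, b4, b5, b6,
      Hcong_ph0, Hcong_ph1, Hcong_ph2, and_true, and_false, if_true, if_false,
      hp, hq, hc, e1, e2]
    ring
  · obtain ⟨a0, a1, a2, a3, a4, a5, a6⟩ := Hcong_tC (d := d) (p := (0, j + 1)) rfl h2
    have hp : pot d (0, j + 1) = -2 * ((j + 1) / 2) := Hcong_potC rfl h2
    have hc : cor d (0, j + 1) = 0 := Hcong_cor (by simp; omega) (by simp; omega) (by simp; omega)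
    simp only [Hcong_R, mo, Hcong_ps, Out, a0, a1, a2, a3, a4, a5, a6, b0, b1, b2, b3, b4, b5, b6,
      Hcong_ph0, Hcong_ph1, Hcong_ph2, and_true, and_false, if_false,
      hp, hq, hc]
    omega

/-- Plan: both sides are antisymmetric on chords (`cor = 0` at odd points); cases: three boundary
darts (`H_bdA/B/C`, with the corner subcases), three cuts, six apex chords (`H_row`, `H_31`).
Substitute `x = 2x'+1` etc., `ph = 1 - 2 ((co (s+1) - co (s+2))/2)^2 (mod 8)`, and check the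
polynomial congruence (e.g. by `decide` over `ZMod 8` or by parity splitting and `ring_nf`,
`omega`). -/
theorem dart_cong (hd : d % 2 = 0) (hd0 : 0 < d) {p q : V} (h : Adm d p q) :
    H d p q + cor d p ≡ pot d q - pot d p + mo d 1 p q - mo d 2 p q +
      (2 * (d / 2) ^ 2 - 1) * mo d 0 p q + ps d p q [ZMOD 8] := by
  change H d p q + cor d p ≡ Hcong_R d p q [ZMOD 8]
  obtain ⟨hp, hq, h⟩ := h
  rcases h with ⟨ep, eq, -, hi, y, hy⟩ | ⟨a, rfl⟩ | ⟨a, rfl⟩ | ⟨a, rfl⟩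
  · have hc : cor d p = 0 := by
      unfold Ev at ep
      exact Hcong_cor (by omega) (by omega) (by omega)
    rw [hc, add_zero]
    by_cases hiq : Ins d q
    · exact Hcong_swap (Hcong_chord hd hd0 hq hp eq ep (fun h => hi ⟨h, hiq⟩) (Hcong_rev hy))
    · exact Hcong_chord hd hd0 hp hq ep eq hiq hy
  · obtain ⟨x, y⟩ := p
    simp only [InT] at a hp hq
    subst a
    rw [Hcong_bdA hd0 (by omega) (by omega)]
  · obtain ⟨x, y⟩ := p
    simp only [InT] at a hp hq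
    obtain rfl : x = d - y := by omega
    rw [Hcong_bdB hd hd0 (by omega) (by omega)]
  · obtain ⟨x, y⟩ := p
    simp only [InT] at a hp hq
    subst a
    obtain ⟨j, rfl⟩ : ∃ j, y = j + 1 := ⟨y - 1, by omega⟩
    have := Hcong_bdC hd (j := j) (by omega) (by omega)
    simp only [add_sub_cancel_right]
    rw [this]

open Classical in
theorem Hcong_mo {p q : V} {a0 a1 a2 a3 a4 a5 a6 b0 b1 b2 b3 b4 b5 b6 : Prop}
    (hp : Hcong_T d p a0 a1 a2 a3 a4 a5 a6) (hq : Hcong_T d q b0 b1 b2 b3 b4 b5 b6)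
    (h : ((if a1 ∧ b4 then 1 else 0) - (if b1 ∧ a4 then 1 else 0) -
          ((if a2 ∧ b5 then 1 else 0) - (if b2 ∧ a5 then 1 else 0)) =
        (if b2 then 1 else 0) - (if a2 then 1 else 0 : ℤ)) ∧
      ((if a2 ∧ b5 then 1 else 0) - (if b2 ∧ a5 then 1 else 0) -
          ((if a0 ∧ b3 then 1 else 0) - (if b0 ∧ a3 then 1 else 0)) =
        (if b0 then 1 else 0) - (if a0 then 1 else 0 : ℤ))) :
    mo d 1 p q - mo d 2 p q =
        (if Early d 2 q then 1 else 0) - (if Early d 2 p then 1 else 0) ∧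
      mo d 2 p q - mo d 0 p q =
        (if Early d 0 q then 1 else 0) - (if Early d 0 p then 1 else 0) := by
  obtain ⟨a0, a1, a2, a3, a4, a5, a6⟩ := hp
  obtain ⟨b0, b1, b2, b3, b4, b5, b6⟩ := hq
  simp only [mo, Out, a0, a1, a2, a3, a4, a5, b0, b1, b2, b3, b4, b5]
  convert h

open Classical in
theorem mo_pot (hd : d % 2 = 0) (hd0 : 0 < d) {p q : V} (h : Adm d p q) :
    mo d 1 p q - mo d 2 p q =
        (if Early d 2 q then 1 else 0) - (if Early d 2 p then 1 else 0) ∧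
      mo d 2 p q - mo d 0 p q =
        (if Early d 0 q then 1 else 0) - (if Early d 0 p then 1 else 0) := by
  obtain ⟨hp, hq, h⟩ := h
  have h' : (¬ Ev p ∧ ¬ Ev q ∧ ¬ (Ins d p ∧ Ins d q) ∧
      ¬ (p.1 % 2 = q.1 % 2 ∧ p.2 % 2 = q.2 % 2)) ∨ (¬ Ins d p ∧ ¬ Ins d q) := by
    rcases h with ⟨a, b, -, c, y, e⟩ | ⟨a, rfl⟩ | ⟨a, rfl⟩ | ⟨a, rfl⟩
    · exact Or.inl ⟨a, b, c, Hcong_par e⟩
    all_goals refine Or.inr ⟨?_, ?_⟩ <;> simp only [Ins] <;> omega
  have cp := Hcong_cls hd0 hp (by tauto)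
  have cq := Hcong_cls hd0 hq (by tauto)
  clear h hp hq
  rcases cp with ⟨p1, p2⟩ | ⟨p1, p2⟩ | ⟨p1, p2⟩ | ⟨pi, p1, p2⟩ | ⟨pi, p1, p2⟩ | ⟨pi, p1, p2⟩ <;>
  [have tp := Hcong_tA (d := d) p1 p2; have tp := Hcong_tB p1 p2; have tp := Hcong_tC p1 p2;
    have tp := Hcong_t0 hd pi p1 p2; have tp := Hcong_t1 hd pi p1 p2;
    have tp := Hcong_t2 hd pi p1 p2] <;>
  rcases cq with ⟨q1, q2⟩ | ⟨q1, q2⟩ | ⟨q1, q2⟩ | ⟨qi, q1, q2⟩ | ⟨qi, q1, q2⟩ | ⟨qi, q1, q2⟩ <;>
  first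
    | (refine Hcong_mo tp (Hcong_tA q1 q2) ?_; simp; done)
    | (refine Hcong_mo tp (Hcong_tB q1 q2) ?_; simp; done)
    | (refine Hcong_mo tp (Hcong_tC q1 q2) ?_; simp; done)
    | (refine Hcong_mo tp (Hcong_t0 hd qi q1 q2) ?_; simp; done)
    | (refine Hcong_mo tp (Hcong_t1 hd qi q1 q2) ?_; simp; done)
    | (refine Hcong_mo tp (Hcong_t2 hd qi q1 q2) ?_; simp; done)
    | (exfalso; unfold Ev Ins at *; omega)

end Pool.Agent.TC

end

section

/-! `FF` as a count, and the congruence `FF ≡ Psi (mod 8)`. -/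

open Finset

namespace Pool.Agent.TC

variable {d : ℤ} {S K : Finset Tr} {C : Finset (V × V)}

theorem adm_of_mem (h : Tri d S) (hC : Ch d S C) (hK : K ⊆ S) {p q : V}
    (hx : (p, q) ∈ bdK d C K) : Adm d p q := by
  obtain ⟨⟨r, hr⟩, h2⟩ := mem_bdK.1 hx
  have ht := hK hr
  refine ⟨h.inT _ _ _ ht, h.inT2 ht, ?_⟩
  by_cases hb : Bd d p q
  · exact Or.inr (h.bdU ht hb)
  · have hc := h2.resolve_right hb
    exact Or.inl ⟨hC.odd _ _ hc, hC.odd _ _ (hC.symm _ _ hc), hb, hC.bd _ _ hc, r - p,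
      h.uni _ _ _ ht⟩

theorem Fforma_rot (hK : Cl S C K) (F : Tr → ℤ) :
    ∑ t ∈ K, F (t.2.1, t.2.2, t.1) = ∑ t ∈ K, F t := by
  refine sum_nbij' (fun t => (t.2.1, t.2.2, t.1)) (fun t => (t.2.2, t.1, t.2.1)) ?_ ?_ ?_ ?_ ?_
  · rintro ⟨p, q, r⟩ ht
    exact hK.rot _ _ _ ht
  · rintro ⟨p, q, r⟩ ht
    exact hK.rot2 ht
  · rintro ⟨p, q, r⟩ _
    rfl
  · rintro ⟨p, q, r⟩ _
    rfl
  · rintro ⟨p, q, r⟩ _
    rfl

/-- indicator that the corner contains the direction -/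
def Fforma_c (ξ : V) (t : Tr) : ℤ := if Cone (t.2.1 - t.1) (t.2.2 - t.1) ξ then 1 else 0

/-- the contribution of a corner -/
def Fforma_g (d : ℤ) (t : Tr) : ℤ :=
  if Ev t.1 then Fforma_c (xi0 d) t + Fforma_c (-xi0 d) t else 0

theorem Fforma_box {p : V} (hp : InT d p) (P : Prop) [Decidable P] :
    ∑ e ∈ evBox d, (if e = p ∧ P then (1 : ℤ) else 0) =
      if Ev p then (if P then 1 else 0) else 0 := by
  have e : p ∈ evBox d ↔ Ev p := by
    simp only [evBox, mem_filter, mem_product, mem_Icc, InT] at *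
    exact ⟨fun h => h.2, fun h => ⟨by omega, h⟩⟩
  simp only [ite_and, sum_ite_eq', e]

theorem Fforma_tri (h : Tri d S) {p q r : V} (ht : (p, q, r) ∈ S) :
    H d p q + H d q r + H d r p =
      1 - 2 * (Fforma_g d (p, q, r) + Fforma_g d (q, r, p) + Fforma_g d (r, p, q)) := by
  have hp := h.inT _ _ _ ht
  have hq := h.inT2 ht
  have hr := h.inT3 ht
  have hu := h.uni _ _ _ ht
  have e1 : det p q + det q r + det r p = 1 := by
    rw [← hu]
    simp only [det, Prod.fst_sub, Prod.snd_sub]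
    ring
  have e2 : ∑ e ∈ evBox d, (wp e p q + wm e p q) + ∑ e ∈ evBox d, (wp e q r + wm e q r) +
      ∑ e ∈ evBox d, (wp e r p + wm e r p) = ∑ e ∈ evBox d,
        ((wp e p q + wp e q r + wp e r p) + (wm e p q + wm e q r + wm e r p)) := by
    rw [← sum_add_distrib, ← sum_add_distrib]
    exact sum_congr rfl fun e _ => by ring
  have e3 : ∑ e ∈ evBox d,
      ((wp e p q + wp e q r + wp e r p) + (wm e p q + wm e q r + wm e r p)) =
        Fforma_g d (p, q, r) + Fforma_g d (q, r, p) + Fforma_g d (r, p, q) := by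
    rw [sum_congr rfl fun e _ => by rw [(wp_tri hp hq hr hu).1, (wp_tri hp hq hr hu).2]]
    simp only [sum_add_distrib, Fforma_box hp, Fforma_box hq, Fforma_box hr, Fforma_g, Fforma_c]
    by_cases a : Ev p <;> by_cases b : Ev q <;> by_cases c : Ev r <;>
      simp only [a, b, c, if_true, if_false] <;> ring
  unfold H
  linarith

theorem Fforma_mem {e : V} : e ∈ evK K ↔ Ev e ∧ ∃ a b, (e, a, b) ∈ K := by
  simp only [evK, mem_image, mem_filter]
  constructor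
  · rintro ⟨⟨p, a, b⟩, ⟨h1, h2⟩, rfl⟩
    exact ⟨h2, a, b, h1⟩
  · rintro ⟨h2, a, b, h1⟩
    exact ⟨(e, a, b), ⟨h1, h2⟩, rfl⟩

theorem Fforma_fan (h : Tri d S) (hC : Ch d S C) (hK : Cl S C K) {e a b : V} (he : e ∈ evK K)
    (ht : (e, a, b) ∈ S) : (e, a, b) ∈ K := by
  obtain ⟨h1, a', b', h2⟩ := Fforma_mem.1 he
  exact hK.fan h hC.symm (fun z hz => hC.odd _ _ hz h1) h2 ht

open Classical in
theorem Fforma_count (h : Tri d S) (hC : Ch d S C) (hK : Cl S C K) {e ξ : V} (he : e ∈ evK K)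
    (hg : Gen d ξ) :
    ∑ t ∈ (K.filter fun t => Ev t.1) with t.1 = e, Fforma_c ξ t =
      if Into d e ξ then 1 else 0 := by
  obtain ⟨h1, a', b', h2⟩ := Fforma_mem.1 he
  split_ifs with hi
  · obtain ⟨a, b, h3, h4⟩ := h.exists_corner (h.inT _ _ _ (hK.sub h2)) hg hi
    have h7 : (e, a, b) ∈ (K.filter fun t => Ev t.1).filter fun t => t.1 = e :=
      mem_filter.2 ⟨mem_filter.2 ⟨Fforma_fan h hC hK he h3, h1⟩, rfl⟩
    rw [sum_eq_single_of_mem (e, a, b) h7]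
    · exact if_pos h4
    · rintro ⟨p, q, r⟩ ht hne
      obtain ⟨h5, rfl⟩ := mem_filter.1 ht
      refine if_neg fun h6 => hne ?_
      obtain ⟨rfl, rfl⟩ := h.corner_unique (hK.sub (mem_filter.1 h5).1) h3 h6 h4
      rfl
  · refine sum_eq_zero ?_
    rintro ⟨p, q, r⟩ ht
    obtain ⟨h5, rfl⟩ := mem_filter.1 ht
    exact if_neg fun h6 => hi (h.into_of_cone (hK.sub (mem_filter.1 h5).1) h6)

open Classical in
theorem Fforma_wt (hd : 0 < d) {e : V} (he : InT d e) :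
    wt d e = 2 * ((if Into d e (xi0 d) then 1 else 0) + if Into d e (-xi0 d) then 1 else 0) -
      cor d e := by
  obtain ⟨x, y⟩ := e
  have e1 : Into d (x, y) (xi0 d) ↔ x + y ≠ d := by
    simp only [Into, xi0]
    omega
  have e2 : Into d (x, y) (-xi0 d) ↔ x ≠ 0 ∧ y ≠ 0 := by
    simp only [Into, xi0, Prod.fst_neg, Prod.snd_neg]
    omega
  simp only [wt, cor, e1, e2, Ins, InT, Prod.mk.injEq] at *
  split_ifs <;> omega

theorem Fforma_cor (hd : d % 2 = 0) (h : Tri d S) (hC : Ch d S C) (hK : Cl S C K) :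
    ∑ x ∈ bdK d C K, cor d x.1 = ∑ e ∈ evK K, cor d e := by
  have h0 := h.pos
  have hc : ∀ p : V, cor d p ≠ 0 → p = (0, 0) ∨ p = (d, 0) ∨ p = (0, d) := fun p hp => by
    unfold cor at hp
    split_ifs at hp with h1 h2
    · exact Or.inl h1
    · exact Or.inr h2
    · exact absurd rfl hp
  have hev : ∀ p : V, cor d p ≠ 0 → Ev p := fun p hp => by
    rcases hc p hp with rfl | rfl | rfl <;> simp only [Ev] <;> omega
  have hU : ∀ p q : V, (p, q) ∈ bdK d C K → cor d p ≠ 0 → BdU d p q ∧ InT d q := by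
    intro p q hx hp
    obtain ⟨-, h2, h3⟩ := adm_of_mem h hC hK.sub hx
    exact ⟨h3.resolve_left fun h4 => h4.1 (hev p hp), h2⟩
  refine sum_bij_ne_zero (fun x _ _ => x.1) ?_ ?_ ?_ fun _ _ _ => rfl
  · rintro ⟨p, q⟩ hx hp
    obtain ⟨⟨r, hr⟩, -⟩ := mem_bdK.1 hx
    exact Fforma_mem.2 ⟨hev p hp, q, r, hr⟩
  · rintro ⟨p, q1, q2⟩ hx hp ⟨p', q1', q2'⟩ hx' hp' e
    obtain rfl : p = p' := e
    obtain ⟨a1, a2⟩ := hU _ _ hx hp
    obtain ⟨b1, b2⟩ := hU _ _ hx' hp'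
    rcases hc p hp with rfl | rfl | rfl <;>
      simp only [BdU, InT, Prod.mk.injEq, true_and] at * <;> omega
  · intro e he hp
    have key : ∀ q : V, InT d q → BdU d e q → Bd d e q →
        ∃ (a : V × V) (_ : a ∈ bdK d C K) (_ : cor d a.1 ≠ 0), a.1 = e := by
      intro q hq h1 h2
      obtain ⟨-, a, b, h3⟩ := Fforma_mem.1 he
      obtain ⟨r, hr⟩ := h.bd_exists (h.inT _ _ _ (hK.sub h3)) hq h1
      exact ⟨(e, q), mem_bdK.2 ⟨⟨r, Fforma_fan h hC hK he hr⟩, Or.inr h2⟩, hp, rfl⟩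
    rcases hc e hp with rfl | rfl | rfl
    · exact key (1, 0) (by simp only [InT]; omega) (by simp [BdU]) (by simp [Bd])
    · exact key (d - 1, 1) (by simp only [InT]; omega) (by simp [BdU]) (by simp [Bd])
    · exact key (0, d - 1) (by simp only [InT]; omega) (by simp [BdU]) (by simp [Bd])

/-- Plan: `sum_bdK` for `H`, three rotations and `wp_tri` give
`3 ∑ H = |K| - 6 ∑_{e even} (#corners of K at e containing ξ₀ + the same for -ξ₀)`; at
`e ∈ evK K` all corners are in `K` (`Cl.fan`), so the counts are `[Into d e ξ₀]`, `[Into d e (-ξ₀)]`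
(`exists_corner`, `corner_unique`, `into_of_cone`); `cor` corrects the three corners
(`bd_exists`). -/
theorem FF_eq (hd : d % 2 = 0) (h : Tri d S) (hC : Ch d S C) (hK : Cl S C K) :
    3 * FF d (bdK d C K) = K.card - 3 * ∑ e ∈ evK K, wt d e := by
  classical
  have h0 := h.pos
  have e1 := sum_bdK h hC.symm hK (H d) (H_anti d) fun p => by linarith [H_anti d p p]
  have r1 := Fforma_rot hK fun t => H d t.1 t.2.1
  have r2 := Fforma_rot hK fun t => H d t.2.1 t.2.2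
  have r3 := Fforma_rot hK (Fforma_g d)
  have r4 := Fforma_rot hK fun t => Fforma_g d (t.2.1, t.2.2, t.1)
  simp only at r1 r2 r4
  have e2 : ∑ t ∈ K, (H d t.1 t.2.1 + H d t.2.1 t.2.2 + H d t.2.2 t.1) = ∑ t ∈ K,
      (1 - 2 * (Fforma_g d t + Fforma_g d (t.2.1, t.2.2, t.1) + Fforma_g d (t.2.2, t.1, t.2.1))) :=
    sum_congr rfl fun t ht => Fforma_tri h (hK.sub ht)
  simp only [sum_add_distrib, sum_sub_distrib, ← mul_sum, sum_const, nsmul_eq_mul, mul_one] at e2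
  have e3 : ∑ t ∈ K, Fforma_g d t = ∑ e ∈ evK K,
      ((if Into d e (xi0 d) then 1 else 0) + if Into d e (-xi0 d) then 1 else 0) := by
    unfold Fforma_g
    rw [← sum_filter, ← sum_fiberwise_of_maps_to (t := evK K) (g := fun t : Tr => t.1)
      fun t ht => mem_image_of_mem _ ht]
    refine sum_congr rfl fun e he => ?_
    rw [sum_add_distrib, Fforma_count h hC hK he (gen_xi0 h0.le).1,
      Fforma_count h hC hK he (gen_xi0 h0.le).2]
  have e4 : ∑ e ∈ evK K, wt d e = 2 * ∑ e ∈ evK K,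
      ((if Into d e (xi0 d) then 1 else 0) + if Into d e (-xi0 d) then 1 else 0) -
        ∑ e ∈ evK K, cor d e := by
    rw [mul_sum, ← sum_sub_distrib]
    refine sum_congr rfl fun e he => ?_
    obtain ⟨-, a, b, h3⟩ := Fforma_mem.1 he
    exact Fforma_wt h0 (h.inT _ _ _ (hK.sub h3))
  have e5 := Fforma_cor hd h hC hK
  unfold FF
  rw [sum_add_distrib]
  linarith

end Pool.Agent.TC

end

section

/-! `FF` as a count, and the congruence `FF ≡ Psi (mod 8)`. -/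

open Finset

namespace Pool.Agent.TC

variable {d : ℤ} {S K : Finset Tr} {C : Finset (V × V)}

theorem Fform_mo_anti (d : ℤ) (s : Fin 3) (p q : V) : mo d s q p = -mo d s p q := by
  simp only [mo]
  ring

theorem Fform_ps_anti (d : ℤ) (p q : V) : ps d q p = -ps d p q := by
  simp only [ps, ← sum_neg_distrib]
  exact sum_congr rfl fun s _ => by ring

open Classical in
theorem Fform_mm (hd : d % 2 = 0) (h : Tri d S) (hC : Ch d S C) (hK : Cl S C K) :
    mm d 2 (bdK d C K) = mm d 1 (bdK d C K) ∧ mm d 0 (bdK d C K) = mm d 1 (bdK d C K) := by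
  have h1 : mm d 1 (bdK d C K) - mm d 2 (bdK d C K) = 0 := by
    rw [mm, mm, ← sum_sub_distrib,
      ← balance h hC.symm hK fun v => if Early d 2 v then (1 : ℤ) else 0]
    exact sum_congr rfl fun x hx => (mo_pot hd h.pos (adm_of_mem h hC hK.sub hx)).1
  have h2 : mm d 2 (bdK d C K) - mm d 0 (bdK d C K) = 0 := by
    rw [mm, mm, ← sum_sub_distrib,
      ← balance h hC.symm hK fun v => if Early d 0 v then (1 : ℤ) else 0]
    exact sum_congr rfl fun x hx => (mo_pot hd h.pos (adm_of_mem h hC hK.sub hx)).2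
  constructor <;> linarith

theorem mm_eq (hd : d % 2 = 0) (h : Tri d S) (hC : Ch d S C) (hK : Cl S C K) (s : Fin 3) :
    mm d s (bdK d C K) = mm d 1 (bdK d C K) := by
  obtain ⟨h2, h0⟩ := Fform_mm hd h hC hK
  fin_cases s
  · exact h0
  · rfl
  · exact h2

theorem Fform_ck (hd : d % 2 = 0) : 2 * (d / 2) ^ 2 - 1 ≡ ck d [ZMOD 8] := by
  unfold ck
  split_ifs with h4
  · obtain ⟨k, hk⟩ : ∃ k, d / 2 = 2 * k + 1 := ⟨d / 4, by omega⟩
    rw [hk]
    exact (Int.modEq_iff_dvd.2 ⟨-(k ^ 2 + k), by ring⟩)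
  · obtain ⟨k, hk⟩ : ∃ k, d / 2 = 2 * k := ⟨d / 4, by omega⟩
    rw [hk]
    exact (Int.modEq_iff_dvd.2 ⟨-(k ^ 2), by ring⟩)

theorem FF_cong (hd : d % 2 = 0) (h : Tri d S) (hC : Ch d S C) (hK : Cl S C K) :
    FF d (bdK d C K) ≡ Psi d (bdK d C K) [ZMOD 8] := by
  obtain ⟨h2, h0⟩ := Fform_mm hd h hC hK
  have h1 : FF d (bdK d C K) ≡ ∑ x ∈ bdK d C K, (pot d x.2 - pot d x.1 + mo d 1 x.1 x.2 -
      mo d 2 x.1 x.2 + (2 * (d / 2) ^ 2 - 1) * mo d 0 x.1 x.2 + ps d x.1 x.2) [ZMOD 8] :=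
    Int.ModEq.sum fun x hx => dart_cong hd h.pos (adm_of_mem h hC hK.sub hx)
  refine h1.trans ?_
  rw [sum_add_distrib, sum_add_distrib, sum_sub_distrib, sum_add_distrib, ← mul_sum,
    balance h hC.symm hK (pot d)]
  change 0 + mm d 1 _ - mm d 2 _ + _ * mm d 0 _ + _ ≡ _ [ZMOD 8]
  rw [h2, h0, zero_add, sub_self, zero_add, Psi]
  exact ((Fform_ck hd).mul_right _).add_right _

theorem Fform_cor (hd : d % 2 = 0) {p : V} (hp : ¬ Ev p) : cor d p = 0 := by
  unfold cor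
  rw [if_neg, if_neg]
  · rintro (rfl | rfl)
    · exact hp ⟨hd, rfl⟩
    · exact hp ⟨rfl, hd⟩
  · rintro rfl
    exact hp ⟨rfl, rfl⟩

/-- adding an interior edge with both sides in `K` to the chords changes neither sum -/
theorem add_chord (h : Tri d S) (hK : K ⊆ S) {p q r s : V} (h1 : (p, q, r) ∈ K)
    (h2 : (q, p, s) ∈ K) (hc : (p, q) ∉ C) (hc' : (q, p) ∉ C) (hd : d % 2 = 0) (hp : ¬ Ev p)
    (hq : ¬ Ev q) :
    FF d (bdK d (insert (p, q) (insert (q, p) C)) K) = FF d (bdK d C K) ∧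
      Psi d (bdK d (insert (p, q) (insert (q, p) C)) K) = Psi d (bdK d C K) := by
  have e : bdK d (insert (p, q) (insert (q, p) C)) K =
      insert (p, q) (insert (q, p) (bdK d C K)) := by
    ext ⟨a, b⟩
    rw [mem_insert, mem_insert, mem_bdK, mem_bdK, mem_insert, mem_insert]
    constructor
    · rintro ⟨x1, (x2 | x2 | x2) | x2⟩
      · exact Or.inl x2
      · exact Or.inr (Or.inl x2)
      · exact Or.inr (Or.inr ⟨x1, Or.inl x2⟩)
      · exact Or.inr (Or.inr ⟨x1, Or.inr x2⟩)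
    · rintro (x | x | ⟨x1, x2 | x2⟩)
      · obtain ⟨rfl, rfl⟩ := Prod.mk.inj x
        exact ⟨⟨r, h1⟩, Or.inl (Or.inl rfl)⟩
      · obtain ⟨rfl, rfl⟩ := Prod.mk.inj x
        exact ⟨⟨s, h2⟩, Or.inl (Or.inr (Or.inl rfl))⟩
      · exact ⟨x1, Or.inl (Or.inr (Or.inr x2))⟩
      · exact ⟨x1, Or.inr x2⟩
  have n1 : (q, p) ∉ bdK d C K := fun x =>
    (mem_bdK.1 x).2.elim hc' (h.not_bd (hK h2) (hK h1))
  have n2 : (p, q) ∉ insert (q, p) (bdK d C K) := by
    rw [mem_insert]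
    rintro (x | x)
    · have hu := h.uni _ _ _ (hK h1)
      rw [(Prod.mk.inj x).1] at hu
      simp [det] at hu
    · exact (mem_bdK.1 x).2.elim hc (h.not_bd (hK h1) (hK h2))
  rw [e]
  simp only [FF, Psi, mm, sum_insert n1, sum_insert n2, Fform_cor hd hp, Fform_cor hd hq,
    H_anti d p q, Fform_mo_anti d 1 p q, Fform_ps_anti d p q]
  constructor <;> ring

/-- the whole triangle has `mm = 1` -/
theorem mm_all (hd : d % 2 = 0) (h : Tri d S) (hC : Ch d S C) : mm d 1 (bdK d C S) = 1 := by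
  have hcl : ∀ C', Cl S C' S := fun C' => ⟨subset_rfl, h.rot, fun _ _ _ _ _ x _ => x⟩
  have h0 : ∀ p, mo d 1 p p = 0 := fun p => by simp only [mo, sub_self]
  have hd0 := h.pos
  rw [mm, ← sum_bdK h hC.symm (hcl C) (mo d 1) (Fform_mo_anti d 1) h0,
    sum_bdK (C := ∅) h (by simp) (hcl ∅) (mo d 1) (Fform_mo_anti d 1) h0, h.sum_bd (mo d 1),
    sum_eq_single_of_mem (0 : ℤ) (mem_Ico.2 ⟨le_rfl, hd0⟩)]
  · simp [mo, Out, Early, Late, co, Ins, hd0, hd0.ne']
  · intro i hi hi0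
    rw [mem_Ico] at hi
    simp [mo, Out, Early, Late, co, Ins]
    omega

end Pool.Agent.TC

end
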