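import Mathlib

section

/-! Definitions for the combinatorial part: unimodular triangulations of the triangle
`T_d = {0 ≤ x, 0 ≤ y, x + y ≤ d}`, chord systems, zones. -/

open Finset

noncomputable section

namespace Pool.Agent.TC

abbrev V := ℤ × ℤ
/-- a triple `(p,q,r)`: the dart `p → q` with the triangle `p q r` on its left; also the corner
of this triangle at `p` -/
abbrev Tr := V × V × V

def det (u v : V) : ℤ := u.1 * v.2 - u.2 * v.1
def InT (d : ℤ) (p : V) : Prop := 0 ≤ p.1 ∧ 0 ≤ p.2 ∧ p.1 + p.2 ≤ d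
def Ins (d : ℤ) (p : V) : Prop := 0 < p.1 ∧ 0 < p.2 ∧ p.1 + p.2 < d
def Ev (p : V) : Prop := p.1 % 2 = 0 ∧ p.2 % 2 = 0
/-- `p`, `q` lie on a common side line of `T_d` -/
def Bd (d : ℤ) (p q : V) : Prop :=
  (p.2 = 0 ∧ q.2 = 0) ∨ (p.1 + p.2 = d ∧ q.1 + q.2 = d) ∨ (p.1 = 0 ∧ q.1 = 0)
/-- counterclockwise unit boundary dart -/
def BdU (d : ℤ) (p q : V) : Prop :=
  (p.2 = 0 ∧ q = (p.1 + 1, 0)) ∨ (p.1 + p.2 = d ∧ q = (p.1 - 1, p.2 + 1)) ∨
    (p.1 = 0 ∧ q = (0, p.2 - 1))
def rot (t : Tr) : Tr := (t.2.1, t.2.2, t.1)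
/-- `ξ` lies in the open cone spanned by `a`, `b` (for `0 < det a b`) -/
def Cone (a b ξ : V) : Prop := 0 < det a ξ ∧ 0 < det ξ b
def Bnd (d : ℤ) (u : V) : Prop := |u.1| ≤ d ∧ |u.2| ≤ d
/-- generic direction -/
def Gen (d : ℤ) (ξ : V) : Prop := ∀ u, u ≠ 0 → Bnd d u → det u ξ ≠ 0
/-- the direction `ξ` points into `T_d` at `v` -/
def Into (d : ℤ) (v ξ : V) : Prop :=
  (v.2 = 0 → 0 < ξ.2) ∧ (v.1 = 0 → 0 < ξ.1) ∧ (v.1 + v.2 = d → ξ.1 + ξ.2 < 0)
/-- the open segments `pq` and `ab` cross transversally -/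
def Cross (p q a b : V) : Prop :=
  det (q - p) (a - p) * det (q - p) (b - p) < 0 ∧ det (b - a) (p - a) * det (b - a) (q - a) < 0

instance (d : ℤ) : DecidablePred (InT d) := fun _ => by unfold InT; infer_instance
instance (d : ℤ) : DecidablePred (Ins d) := fun _ => by unfold Ins; infer_instance
instance : DecidablePred Ev := fun _ => by unfold Ev; infer_instance
instance (d : ℤ) (p q : V) : Decidable (Bd d p q) := by unfold Bd; infer_instance
instance (a b ξ : V) : Decidable (Cone a b ξ) := by unfold Cone; infer_instance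
instance (p q a b : V) : Decidable (Cross p q a b) := by unfold Cross; infer_instance

/-- unimodular triangulation of `T_d`, as the set of all positively oriented triples -/
structure Tri (d : ℤ) (S : Finset Tr) : Prop where
  rot : ∀ p q r, (p, q, r) ∈ S → (q, r, p) ∈ S
  uni : ∀ p q r, (p, q, r) ∈ S → det (q - p) (r - p) = 1
  inT : ∀ p q r, (p, q, r) ∈ S → InT d p
  uniq : ∀ p q r r', (p, q, r) ∈ S → (p, q, r') ∈ S → r = r'
  opp : ∀ p q r, (p, q, r) ∈ S → ¬ Bd d p q → ∃ s, (q, p, s) ∈ S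
  ne : S.Nonempty

def Edge (S : Finset Tr) (p q : V) : Prop := (∃ r, (p, q, r) ∈ S) ∨ ∃ r, (q, p, r) ∈ S

/-- a function on triples that only depends on the triangle -/
def RotInv {G : Type} (S : Finset Tr) (F : Tr → G) : Prop :=
  ∀ p q r, (p, q, r) ∈ S → F (q, r, p) = F (p, q, r)

/-- lattice points of `T_d` -/
def pts (d : ℤ) : Finset V := (Icc 0 d ×ˢ Icc 0 d).filter (InT d)

theorem mem_pts {d : ℤ} {p : V} : p ∈ pts d ↔ InT d p := by
  simp only [pts, InT, mem_filter, mem_product, mem_Icc]; omega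

/-- weight 4 / 2 / 1 of an interior / side / corner point -/
def wt (d : ℤ) (p : V) : ℤ :=
  if Ins d p then 4 else if p = (0, 0) ∨ p = (d, 0) ∨ p = (0, d) then 1 else 2

/-- chord system: odd-odd interior edges, each with an end on the boundary, at least two at
each interior vertex that has one -/
structure Ch (d : ℤ) (S : Finset Tr) (C : Finset (V × V)) : Prop where
  symm : ∀ p q, (p, q) ∈ C → (q, p) ∈ C
  dart : ∀ p q, (p, q) ∈ C → ∃ r, (p, q, r) ∈ S
  odd : ∀ p q, (p, q) ∈ C → ¬ Ev p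
  bd : ∀ p q, (p, q) ∈ C → ¬ (Ins d p ∧ Ins d q)
  two : ∀ p q, (p, q) ∈ C → Ins d p → ∃ q', q' ≠ q ∧ (p, q') ∈ C

/-- a union of triangles closed under crossing non-chord edges -/
structure Cl (S : Finset Tr) (C : Finset (V × V)) (K : Finset Tr) : Prop where
  sub : K ⊆ S
  rot : ∀ p q r, (p, q, r) ∈ K → (q, r, p) ∈ K
  cl : ∀ p q r s, (p, q, r) ∈ K → (q, p, s) ∈ S → (p, q) ∉ C → (q, p, s) ∈ K

/-- a zone: minimal nonempty closed set -/
structure St (d : ℤ) (C : Finset (V × V)) (S K : Finset Tr) : Prop where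
  tri : Tri d S
  ch : Ch d S C
  cl : Cl S C K
  ne : K.Nonempty
  min : ∀ K' ⊆ K, Cl S C K' → K'.Nonempty → K' = K

/-- boundary darts of `K` -/
def bdK (d : ℤ) (C : Finset (V × V)) (K : Finset Tr) : Finset (V × V) :=
  (K.filter fun t => (t.1, t.2.1) ∈ C ∨ Bd d t.1 t.2.1).image fun t => (t.1, t.2.1)

theorem mem_bdK {d : ℤ} {C : Finset (V × V)} {K : Finset Tr} {p q : V} :
    (p, q) ∈ bdK d C K ↔ (∃ r, (p, q, r) ∈ K) ∧ ((p, q) ∈ C ∨ Bd d p q) := by
  simp only [bdK, mem_image, mem_filter]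
  constructor
  · rintro ⟨⟨a, b, c⟩, ⟨h1, h2⟩, h⟩
    obtain ⟨rfl, rfl⟩ := Prod.mk.inj h
    exact ⟨⟨c, h1⟩, h2⟩
  · rintro ⟨⟨r, h1⟩, h2⟩; exact ⟨(p, q, r), ⟨h1, h2⟩, rfl⟩

/-- the direction `ξ` at `v` points into `K` -/
def Dir (K : Finset Tr) (v ξ : V) : Prop := ∃ a b, (v, a, b) ∈ K ∧ Cone (a - v) (b - v) ξ

/-- `K`, `K'` are two triangulations of the same region -/
def Same (d : ℤ) (C : Finset (V × V)) (K K' : Finset Tr) : Prop :=
  bdK d C K = bdK d C K' ∧ ∀ v ξ, Gen d ξ → (Dir K v ξ ↔ Dir K' v ξ)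

theorem Same.refl (d : ℤ) (C : Finset (V × V)) (K : Finset Tr) : Same d C K K :=
  ⟨rfl, fun _ _ _ => Iff.rfl⟩
theorem Same.symm {d C K K'} (h : Same d C K K') : Same d C K' K :=
  ⟨h.1.symm, fun v ξ g => (h.2 v ξ g).symm⟩
theorem Same.trans {d C K K' K''} (h : Same d C K K') (h' : Same d C K' K'') : Same d C K K'' :=
  ⟨h.1.trans h'.1, fun v ξ g => (h.2 v ξ g).trans (h'.2 v ξ g)⟩

/-- no flippable odd-odd non-chord edge in `K` -/
def Red (S : Finset Tr) (C : Finset (V × V)) (K : Finset Tr) : Prop :=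
  ∀ p q r s, (p, q, r) ∈ K → (q, p, s) ∈ S → (p, q) ∉ C → ¬ Ev p → ¬ Ev q → r + s ≠ p + q

/-- the two triangles at the edge `pq` span an angle `≥ π` at `p` -/
def Chg (S : Finset Tr) (p q : V) : Prop :=
  ∃ r s, (p, q, r) ∈ S ∧ (q, p, s) ∈ S ∧ det (s - p) (r - p) ≤ 0

/-! ### the cochain `H` -/

/-- signed crossing of the dart `p → q` with the eastward ray from `e + ε (2d+1, 1)` -/
def wp (e p q : V) : ℤ :=
  if p.2 ≤ e.2 ∧ e.2 < q.2 ∧ 0 < det (q - p) (e - p) then 1
  else if q.2 ≤ e.2 ∧ e.2 < p.2 ∧ det (q - p) (e - p) < 0 then -1 else 0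
/-- signed crossing of the dart `p → q` with the eastward ray from `e - ε (2d+1, 1)` -/
def wm (e p q : V) : ℤ :=
  if p.2 < e.2 ∧ e.2 ≤ q.2 ∧ 0 ≤ det (q - p) (e - p) then 1
  else if q.2 < e.2 ∧ e.2 ≤ p.2 ∧ det (q - p) (e - p) ≤ 0 then -1 else 0
def evBox (d : ℤ) : Finset V := (Icc 0 d ×ˢ Icc 0 d).filter Ev
def H (d : ℤ) (p q : V) : ℤ := det p q - 2 * ∑ e ∈ evBox d, (wp e p q + wm e p q)
def cor (d : ℤ) (p : V) : ℤ :=
  if p = (0, 0) then 1 else if p = (d, 0) ∨ p = (0, d) then -1 else 0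
/-- `FF = #triangles - (weighted number of even points)` as a boundary sum -/
def FF (d : ℤ) (B : Finset (V × V)) : ℤ := ∑ x ∈ B, (H d x.1 x.2 + cor d x.1)
/-- even vertices of `K` -/
def evK (K : Finset Tr) : Finset V := (K.filter fun t => Ev t.1).image fun t => t.1

/-- barycentric coordinates: distances to the sides `A : y = 0`, `B : x + y = d`, `C : x = 0` -/
def co (d : ℤ) (s : Fin 3) (p : V) : ℤ := ![p.2, d - p.1 - p.2, p.1] s
def Early (d : ℤ) (s : Fin 3) (p : V) : Prop :=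
  (Ins d p ∧ co d s p % 2 = 0) ∨ (co d (s + 1) p = 0 ∧ 0 < co d s p)
def Late (d : ℤ) (s : Fin 3) (q : V) : Prop := co d (s + 2) q = 0 ∧ 0 < co d (s + 1) q
def Out (d : ℤ) (s : Fin 3) (p q : V) : Prop := Early d s p ∧ Late d s q
instance (d : ℤ) (s : Fin 3) (p q : V) : Decidable (Out d s p q) := by
  unfold Out Early Late; infer_instance
def mo (d : ℤ) (s : Fin 3) (p q : V) : ℤ :=
  (if Out d s p q then 1 else 0) - if Out d s q p then 1 else 0
def ph (d : ℤ) (s : Fin 3) (p : V) : ℤ :=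
  if Ins d p then (if (co d (s + 1) p - co d (s + 2) p) % 4 = 0 then 1 else -1) else 0
def ps (d : ℤ) (p q : V) : ℤ :=
  ∑ s, ((if Out d s q p then ph d s q else 0) - if Out d s p q then ph d s p else 0)
def ck (d : ℤ) : ℤ := if d % 4 = 2 then 1 else -1
def mm (d : ℤ) (s : Fin 3) (B : Finset (V × V)) : ℤ := ∑ x ∈ B, mo d s x.1 x.2
def Psi (d : ℤ) (B : Finset (V × V)) : ℤ := ck d * mm d 1 B + ∑ x ∈ B, ps d x.1 x.2
/-- possible boundary darts of a zone -/
def Adm (d : ℤ) (p q : V) : Prop :=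
  InT d p ∧ InT d q ∧
    ((¬ Ev p ∧ ¬ Ev q ∧ ¬ Bd d p q ∧ ¬ (Ins d p ∧ Ins d q) ∧ ∃ y, det (q - p) y = 1) ∨ BdU d p q)

/-! ### tightness -/

open Classical in
/-- charged odd-odd non-chord darts of `K` at `v` -/
def chgAt (S : Finset Tr) (C : Finset (V × V)) (K : Finset Tr) (v : V) :
    Finset Tr :=
  K.filter fun t => t.1 = v ∧ ¬ Ev t.2.1 ∧ (v, t.2.1) ∉ C ∧ Chg S v t.2.1
open Classical in
/-- corners at `v` of odd triangles of `K` both of whose edges at `v` are charged at `v` -/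
def dblAt (S : Finset Tr) (C : Finset (V × V)) (K : Finset Tr) (v : V) :
    Finset Tr :=
  K.filter fun t => t.1 = v ∧ ¬ Ev t.2.1 ∧ ¬ Ev t.2.2 ∧ (v, t.2.1) ∉ C ∧ (v, t.2.2) ∉ C ∧
    Chg S v t.2.1 ∧ Chg S v t.2.2

structure Tight0 (d : ℤ) (C : Finset (V × V)) (S K : Finset Tr) : Prop where
  mid : ∀ p q r, (p, q, r) ∈ K → ¬ Ev p → ¬ Ev q → ¬ Ev r →
    (p, q, r) ∈ dblAt S C K p ∨ (q, r, p) ∈ dblAt S C K q ∨ (r, p, q) ∈ dblAt S C K r
  apex : ∀ v z r, (v, z, r) ∈ K → (v, z) ∈ C → Ins d v →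
    (chgAt S C K v).card = 1 + (dblAt S C K v).card
  free : ∀ w a b, (w, a, b) ∈ K → Ins d w → ¬ Ev w → (∀ z, (w, z) ∉ C) →
    (chgAt S C K w).card = 2 + (dblAt S C K w).card

structure Tight (d : ℤ) (C : Finset (V × V)) (S K : Finset Tr) : Prop where
  noOdd : ∀ p q r, (p, q, r) ∈ K → Ev p ∨ Ev q ∨ Ev r
  apex : ∀ v z r, (v, z, r) ∈ K → (v, z) ∈ C → Ins d v → (chgAt S C K v).card = 1
  free : ∀ w y r, (w, y, r) ∈ K → Ins d w → ¬ Ev w → (∀ z, (w, z) ∉ C) → ¬ Ev y → Chg S w y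

/-- positive equilibrium stress (exists for regular triangulations) -/
structure Stress (d : ℤ) (S : Finset Tr) (ω : V → V → ℝ) : Prop where
  symm : ∀ p q, ω p q = ω q p
  pos : ∀ p q r s, (p, q, r) ∈ S → (q, p, s) ∈ S → 0 < ω p q
  eq : ∀ v η, Ins d v → ∑ t ∈ S with t.1 = v, ω v t.2.1 * (det η (t.2.1 - v) : ℤ) = 0

/-! ### signs and the graph on the sphere -/

/-- exponents of the monomial of the point `p` -/
def ex (d : ℤ) (p : V) : Fin 3 → ℤ := ![p.1, p.2, d - p.1 - p.2]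
/-- sign bit (`0 = +`) of the monomial `p` in the octant `l` -/
def bit (d : ℤ) (e : V → ZMod 2) (l : Fin 3 → ZMod 2) (p : V) : ZMod 2 :=
  e p + ∑ s, l s * (ex d p s : ZMod 2)
/-- copies of vertices with sign `b` -/
def Nd (d : ℤ) (e : V → ZMod 2) (b : ZMod 2) : Type :=
  {x : (Fin 3 → ZMod 2) × V // InT d x.2 ∧ bit d e x.1 x.2 = b}
instance (d : ℤ) (e : V → ZMod 2) (b : ZMod 2) : Finite (Nd d e b) := by
  refine Set.Finite.to_subtype (((univ ×ˢ pts d : Finset _).finite_toSet).subset ?_)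
  intro x hx
  simpa [mem_pts] using hx.1
/-- gluing of the octants and edges of the triangulation -/
def Rel (S : Finset Tr) {d : ℤ} {e : V → ZMod 2} {b : ZMod 2} (x y : Nd d e b) : Prop :=
  (x.1.2 = y.1.2 ∧ ∀ s, ex d x.1.2 s ≠ 0 → x.1.1 s = y.1.1 s) ∨
    (x.1.1 = y.1.1 ∧ ∃ r, (x.1.2, y.1.2, r) ∈ S)
/-- number of components of the graph of vertices of sign `b` on the sphere -/
def cc (S : Finset Tr) (d : ℤ) (e : V → ZMod 2) (b : ZMod 2) : ℕ :=
  Nat.card (Quot (Rel S (d := d) (e := e) (b := b)))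
/-- colour of a triangle -/
def col (e : V → ZMod 2) (t : Tr) : ZMod 2 :=
  if Ev t.1 then e t.1 else if Ev t.2.1 then e t.2.1 else if Ev t.2.2 then e t.2.2
  else 1 + e t.1 + e t.2.1 + e t.2.2
/-- twist of the edge `pq` with opposite vertices `r`, `s` -/
def tw (e : V → ZMod 2) (p q r s : V) : ZMod 2 :=
  e r + e s + (det (s - p) (r - p) : ZMod 2) * (1 + e p + e q)

end Pool.Agent.TC

end
end

section

/-! Boundary darts, Stokes formula, covering number of a triangulation. -/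

open Finset

namespace Pool.Agent.TC

variable {d : ℤ} {S K : Finset Tr} {C : Finset (V × V)}

theorem Tri.rot2 (h : Tri d S) {p q r : V} (ht : (p, q, r) ∈ S) : (r, p, q) ∈ S :=
  h.rot _ _ _ (h.rot _ _ _ ht)
theorem Tri.inT2 (h : Tri d S) {p q r : V} (ht : (p, q, r) ∈ S) : InT d q :=
  h.inT _ _ _ (h.rot _ _ _ ht)
theorem Tri.inT3 (h : Tri d S) {p q r : V} (ht : (p, q, r) ∈ S) : InT d r :=
  h.inT _ _ _ (h.rot2 ht)
theorem Cl.rot2 (h : Cl S C K) {p q r : V} (ht : (p, q, r) ∈ K) : (r, p, q) ∈ K :=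
  h.rot _ _ _ (h.rot _ _ _ ht)
theorem InT.bnd {p q : V} (hp : InT d p) (hq : InT d q) : Bnd d (q - p) := by
  simp only [InT, Bnd, Prod.fst_sub, Prod.snd_sub, abs_le] at *; omega

theorem Tri.pos (h : Tri d S) : 0 < d := by
  obtain ⟨⟨⟨p1, p2⟩, ⟨q1, q2⟩, ⟨r1, r2⟩⟩, ht⟩ := h.ne
  have h1 := h.inT _ _ _ ht
  have h2 := h.inT2 ht
  have h3 := h.inT3 ht
  have h4 := h.uni _ _ _ ht
  by_contra hd
  simp only [InT] at h1 h2 h3
  have e1 : q1 = p1 := by omega
  have e2 : q2 = p2 := by omega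
  subst e1 e2
  simp [det] at h4

/-- `ξ = N x + y` with `N` large -/
theorem exists_gen (d : ℤ) {x y : V} (hxy : det x y ≠ 0) : ∃ ξ, Gen d ξ ∧
    ∀ u, Bnd d u → (0 < det u x → 0 < det u ξ) ∧ (det u x < 0 → det u ξ < 0) ∧
      (det u x = 0 → (0 < det u y → 0 < det u ξ) ∧ (det u y < 0 → det u ξ < 0)) := by
  obtain ⟨N, hN⟩ : ∃ N : ℤ, 0 < N ∧ ∀ u, Bnd d u → |det u y| < N := by
    refine ⟨|d| * (|y.1| + |y.2|) + 1, by positivity, fun u hu => ?_⟩
    have h1 : |u.1| ≤ |d| := hu.1.trans (le_abs_self d)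
    have h2 : |u.2| ≤ |d| := hu.2.trans (le_abs_self d)
    have h3 : |det u y| ≤ |u.1| * |y.2| + |u.2| * |y.1| := by
      rw [← abs_mul, ← abs_mul]
      exact abs_sub _ _
    have h4 : |u.1| * |y.2| ≤ |d| * |y.2| := by gcongr
    have h5 : |u.2| * |y.1| ≤ |d| * |y.1| := by gcongr
    linarith
  have hd : ∀ u : V, det u (N • x + y) = N * det u x + det u y := fun u => by
    simp only [det, Prod.fst_add, Prod.snd_add, Prod.smul_fst, Prod.smul_snd, smul_eq_mul]
    ring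
  have key : ∀ u, Bnd d u → (0 < det u x → 0 < det u (N • x + y)) ∧
      (det u x < 0 → det u (N • x + y) < 0) := fun u hu => by
    have h1 := abs_lt.1 (hN.2 u hu)
    rw [hd]
    constructor <;> intro h2 <;> nlinarith [h1.1, h1.2, hN.1]
  refine ⟨N • x + y, fun u hu0 hu => ?_, fun u hu => ⟨(key u hu).1, (key u hu).2, fun h0 => ?_⟩⟩
  · rcases lt_trichotomy (det u x) 0 with h1 | h1 | h1
    · exact ((key u hu).2 h1).ne
    · rw [hd, h1, mul_zero, zero_add]
      intro h2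
      apply hu0
      have e1 : u.1 * det x y = 0 := by
        simp only [det] at h1 h2 ⊢
        linear_combination x.1 * h2 - y.1 * h1
      have e2 : u.2 * det x y = 0 := by
        simp only [det] at h1 h2 ⊢
        linear_combination x.2 * h2 - y.2 * h1
      exact Prod.ext ((mul_eq_zero.1 e1).resolve_right hxy) ((mul_eq_zero.1 e2).resolve_right hxy)
    · exact ((key u hu).1 h1).ne'
  · rw [hd, h0, mul_zero, zero_add]
    exact ⟨id, id⟩

/-- a boundary dart is a counterclockwise unit dart (`det = 1`, third vertex in `T`) -/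
theorem Tri.bdU (h : Tri d S) {p q r : V} (ht : (p, q, r) ∈ S) (hb : Bd d p q) : BdU d p q := by
  have h3 := h.inT3 ht
  have h4 := h.uni _ _ _ ht
  obtain ⟨p1, p2⟩ := p
  obtain ⟨q1, q2⟩ := q
  obtain ⟨r1, r2⟩ := r
  simp only [InT, det, Bd, BdU, Prod.fst_sub, Prod.snd_sub, Prod.mk.injEq] at *
  rcases hb with ⟨h1, h2⟩ | ⟨h1, h2⟩ | ⟨h1, h2⟩
  · have e : (q1 - p1) * r2 = 1 := by subst h1 h2; linear_combination h4
    have := Int.eq_one_or_neg_one_of_mul_eq_one' e
    omega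
  · have e : (q2 - p2) * (d - r1 - r2) = 1 := by
      have e1 : p1 = d - p2 := by omega
      have e2 : q1 = d - q2 := by omega
      subst e1 e2
      linear_combination h4
    have := Int.eq_one_or_neg_one_of_mul_eq_one' e
    omega
  · have e : (p2 - q2) * r1 = 1 := by subst h1 h2; linear_combination h4
    have := Int.eq_one_or_neg_one_of_mul_eq_one' e
    omega

theorem Tri.not_bd (h : Tri d S) {p q r s : V} (ht : (p, q, r) ∈ S) (hs : (q, p, s) ∈ S) :
    ¬ Bd d p q := by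
  intro hb
  have hb' : Bd d q p := by
    simp only [Bd] at hb ⊢
    tauto
  have h1 := h.bdU ht hb
  have h2 := h.bdU hs hb'
  obtain ⟨p1, p2⟩ := p
  obtain ⟨q1, q2⟩ := q
  simp only [BdU, Prod.mk.injEq] at h1 h2
  omega

/-- the relation between the two opposite vertices of an interior edge -/
theorem Tri.opp_eq (h : Tri d S) {p q r s : V} (ht : (p, q, r) ∈ S) (hs : (q, p, s) ∈ S) :
    (s - p) + (r - p) = det (s - p) (r - p) • (q - p) ∧
      det (s - p) (r - p) + det (r - q) (s - q) = 2 := by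
  have h1 := h.uni _ _ _ ht
  have h2 := h.uni _ _ _ hs
  obtain ⟨p1, p2⟩ := p
  obtain ⟨q1, q2⟩ := q
  obtain ⟨r1, r2⟩ := r
  obtain ⟨s1, s2⟩ := s
  simp only [det, Prod.mk_sub_mk, Prod.mk_add_mk, Prod.smul_mk,
    smul_eq_mul, Prod.mk.injEq] at *
  refine ⟨⟨?_, ?_⟩, ?_⟩
  · linear_combination (-(s1 - p1)) * h1 - (r1 - p1) * h2
  · linear_combination (-(s2 - p2)) * h1 - (r2 - p2) * h2
  · linear_combination h1 + h2

/-- Stokes: the non-chord interior darts of `K` cancel in pairs (`Finset.sum_involution`), and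
`t ↦ (t.1, t.2.1)` is injective on `S`. -/
theorem sum_bdK {G : Type} [AddCommGroup G] (h : Tri d S) (hC : ∀ p q, (p, q) ∈ C → (q, p) ∈ C)
    (hK : Cl S C K) (g : V → V → G) (hg : ∀ p q, g q p = -g p q) (hg0 : ∀ p, g p p = 0) :
    ∑ t ∈ K, g t.1 t.2.1 = ∑ x ∈ bdK d C K, g x.1 x.2 := by
  classical
  rw [← sum_filter_add_sum_filter_not K fun t => (t.1, t.2.1) ∈ C ∨ Bd d t.1 t.2.1, bdK,
    sum_image]
  · have key : ∀ t ∈ K.filter fun t => ¬ ((t.1, t.2.1) ∈ C ∨ Bd d t.1 t.2.1),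
        ∃ s, (t.2.1, t.1, s) ∈ K.filter fun t => ¬ ((t.1, t.2.1) ∈ C ∨ Bd d t.1 t.2.1) := by
      rintro ⟨p, q, r⟩ ht
      simp only [mem_filter, not_or] at ht ⊢
      obtain ⟨s, hs⟩ := h.opp p q r (hK.sub ht.1) ht.2.2
      exact ⟨s, hK.cl p q r s ht.1 hs ht.2.1, fun hc => ht.2.1 (hC _ _ hc),
        h.not_bd hs (hK.sub ht.1)⟩
    choose f hf using key
    rw [sum_involution (fun t ht => (t.2.1, t.1, f t ht)) (fun t ht => by
      simp only [hg t.1 t.2.1, add_neg_cancel]) (fun t ht h0 h1 => by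
      apply h0
      have : t.2.1 = t.1 := congrArg Prod.fst h1
      rw [this, hg0]) hf (fun t ht => by
      obtain ⟨p, q, r⟩ := t
      have h1 := hf _ (hf _ ht)
      have h2 := h.uniq _ _ _ _ (hK.sub (mem_filter.1 h1).1) (hK.sub (mem_filter.1 ht).1)
      exact Prod.ext rfl (Prod.ext rfl h2)), add_zero]
  · rintro ⟨p, q, r⟩ ht ⟨p', q', r'⟩ ht' he
    obtain ⟨rfl, rfl⟩ := Prod.mk.inj he
    have := h.uniq _ _ _ _ (hK.sub (mem_filter.1 ht).1) (hK.sub (mem_filter.1 ht').1)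
    rw [this]

/-- `∂∂ = 0` (use the bijection `rot` of `K`) -/
theorem balance {G : Type} [AddCommGroup G] (h : Tri d S) (hC : ∀ p q, (p, q) ∈ C → (q, p) ∈ C)
    (hK : Cl S C K) (b : V → G) : ∑ x ∈ bdK d C K, (b x.2 - b x.1) = 0 := by
  rw [← sum_bdK h hC hK (fun p q => b q - b p) (fun p q => by simp) (fun p => by simp),
    sum_sub_distrib, sub_eq_zero]
  refine sum_bij' (fun t _ => rot t) (fun t _ => rot (rot t)) ?_ ?_ ?_ ?_ ?_
  · rintro ⟨p, q, r⟩ ht
    exact hK.rot _ _ _ ht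
  · rintro ⟨p, q, r⟩ ht
    exact hK.rot2 ht
  · rintro ⟨p, q, r⟩ _
    rfl
  · rintro ⟨p, q, r⟩ _
    rfl
  · rintro ⟨p, q, r⟩ _
    rfl

end Pool.Agent.TC

end

section

/-! Boundary darts, Stokes formula, covering number of a triangulation. -/

open Finset

namespace Pool.Agent.TC

variable {d : ℤ} {S K : Finset Tr} {C : Finset (V × V)}

theorem Geo1b_cl (h : Tri d S) : Cl S ∅ S :=
  ⟨subset_rfl, h.rot, fun _ _ _ _ _ hs _ => hs⟩

theorem Geo1b_sum_rot {G : Type} [AddCommMonoid G]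
    (hr : ∀ p q r, (p, q, r) ∈ K → (q, r, p) ∈ K) (f : Tr → G) :
    ∑ t ∈ K, f (rot t) = ∑ t ∈ K, f t := by
  refine Finset.sum_nbij' rot (fun t => rot (rot t)) ?_ ?_ ?_ ?_ ?_
  · rintro ⟨p, q, r⟩ ht; exact hr _ _ _ ht
  · rintro ⟨p, q, r⟩ ht; exact hr _ _ _ (hr _ _ _ ht)
  · rintro ⟨p, q, r⟩ _; rfl
  · rintro ⟨p, q, r⟩ _; rfl
  · rintro ⟨p, q, r⟩ _; rfl

theorem Geo1b_sum3 (hr : ∀ p q r, (p, q, r) ∈ K → (q, r, p) ∈ K) (g : V → V → ℤ) :
    ∑ t ∈ K, (g t.1 t.2.1 + g t.2.1 t.2.2 + g t.2.2 t.1) = 3 * ∑ t ∈ K, g t.1 t.2.1 := by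
  have h1 : ∑ t ∈ K, g t.2.1 t.2.2 = ∑ t ∈ K, g t.1 t.2.1 :=
    Geo1b_sum_rot hr (fun t => g t.1 t.2.1)
  have h2 : ∑ t ∈ K, g t.2.2 t.1 = ∑ t ∈ K, g t.2.1 t.2.2 :=
    Geo1b_sum_rot hr (fun t => g t.2.1 t.2.2)
  rw [sum_add_distrib, sum_add_distrib, h2, h1]; ring

theorem Geo1b_card (h : Tri d S) : (S.card : ℤ) = 3 * ∑ x ∈ bdK d ∅ S, det x.1 x.2 := by
  rw [← sum_bdK h (by simp) (Geo1b_cl h) det (fun p q => by simp only [det]; ring)
    (fun p => by simp only [det]; ring), ← Geo1b_sum3 h.rot det, Finset.card_eq_sum_ones]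
  push_cast
  refine Finset.sum_congr rfl ?_
  rintro ⟨p, q, r⟩ ht
  have := h.uni _ _ _ ht
  simp only [det, Prod.fst_sub, Prod.snd_sub] at this ⊢
  linear_combination -this

theorem Geo1b_mem (h : Tri d S) {p q : V} (hx : (p, q) ∈ bdK d ∅ S) :
    InT d p ∧ InT d q ∧ BdU d p q := by
  obtain ⟨⟨r, hr⟩, hb⟩ := mem_bdK.1 hx
  have hb' : Bd d p q := by simpa using hb
  exact ⟨h.inT _ _ _ hr, h.inT2 hr, h.bdU hr hb'⟩

theorem Geo1b_step (h : Tri d S) {p q q' : V} (hx : (p, q) ∈ bdK d ∅ S) (hq' : InT d q')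
    (hb : BdU d q q') : (q, q') ∈ bdK d ∅ S := by
  have hbal := balance h (by simp) (Geo1b_cl h) (fun v => if v = q then (1 : ℤ) else 0)
  have hex : ∃ x ∈ bdK d ∅ S, x.1 = q := by
    by_contra hno
    push Not at hno
    have hpos : 0 < ∑ x ∈ bdK d ∅ S,
        ((if x.2 = q then (1 : ℤ) else 0) - if x.1 = q then (1 : ℤ) else 0) := by
      refine Finset.sum_pos' ?_ ⟨(p, q), hx, ?_⟩
      · intro x hx'
        rw [if_neg (hno x hx')]
        split_ifs <;> norm_num
      · rw [if_neg (hno _ hx)]; simp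
    exact absurd hbal hpos.ne'
  obtain ⟨⟨a, b⟩, hab, rfl⟩ := hex
  obtain ⟨h1, h2, h3⟩ := Geo1b_mem h hab
  have hd := h.pos
  have : b = q' := by
    obtain ⟨a1, a2⟩ := a
    obtain ⟨b1, b2⟩ := b
    obtain ⟨c1, c2⟩ := q'
    simp only [InT, BdU, Prod.mk.injEq] at h1 h2 h3 hq' hb ⊢
    omega
  subst this
  exact hab

/-- counterclockwise parametrisation of the boundary -/
def Geo1b_pt (d i : ℤ) : V :=
  if i ≤ d then (i, 0) else if i ≤ 2 * d then (2 * d - i, i - d) else (0, 3 * d - i)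

theorem Geo1b_pt_inT {i : ℤ} (h0 : 0 ≤ i) (h1 : i ≤ 3 * d) : InT d (Geo1b_pt d i) := by
  unfold Geo1b_pt InT
  split_ifs <;> simp only <;> omega

theorem Geo1b_pt_bdU (hd : 0 < d) {i : ℤ} : BdU d (Geo1b_pt d i) (Geo1b_pt d (i + 1)) := by
  unfold Geo1b_pt BdU
  split_ifs <;> simp only [Prod.mk.injEq, true_and, and_true, true_or] <;> omega

theorem Geo1b_pt_ex (hd : 0 < d) {p q : V} (hp : InT d p) (hq : InT d q) (hb : BdU d p q) :
    ∃ i, 0 ≤ i ∧ i < 3 * d ∧ p = Geo1b_pt d i ∧ q = Geo1b_pt d (i + 1) := by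
  obtain ⟨p1, p2⟩ := p
  obtain ⟨q1, q2⟩ := q
  simp only [InT, BdU, Prod.mk.injEq] at hp hq hb
  rcases hb with hb | hb | hb
  · refine ⟨p1, by omega, by omega, ?_, ?_⟩ <;> unfold Geo1b_pt <;> split_ifs <;>
      simp only [Prod.mk.injEq, true_and] <;> omega
  · refine ⟨d + p2, by omega, by omega, ?_, ?_⟩ <;> unfold Geo1b_pt <;> split_ifs <;>
      simp only [Prod.mk.injEq] <;> omega
  · refine ⟨3 * d - p2, by omega, by omega, ?_, ?_⟩ <;> unfold Geo1b_pt <;> split_ifs <;>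
      simp only [Prod.mk.injEq] <;> omega

theorem Geo1b_run (h : Tri d S) {i j : ℤ} (h0 : 0 ≤ i) (hij : i ≤ j) (hj : j < 3 * d)
    (hx : (Geo1b_pt d i, Geo1b_pt d (i + 1)) ∈ bdK d ∅ S) :
    (Geo1b_pt d j, Geo1b_pt d (j + 1)) ∈ bdK d ∅ S := by
  induction j, hij using Int.leInduction with
  | base => exact hx
  | succ n hn ih =>
    exact Geo1b_step h (ih (by omega)) (Geo1b_pt_inT (by omega) (by omega)) (Geo1b_pt_bdU h.pos)

theorem Geo1b_all (h : Tri d S) {p q : V} (hp : InT d p) (hq : InT d q) (hb : BdU d p q) :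
    (p, q) ∈ bdK d ∅ S := by
  have hd := h.pos
  have hne : (bdK d ∅ S).Nonempty := by
    rw [Finset.nonempty_iff_ne_empty]
    intro he
    have hc := Geo1b_card h
    rw [he, Finset.sum_empty] at hc
    have := h.ne.card_pos
    omega
  obtain ⟨⟨a, b⟩, hab⟩ := hne
  obtain ⟨h1, h2, h3⟩ := Geo1b_mem h hab
  obtain ⟨i, hi0, hi1, rfl, rfl⟩ := Geo1b_pt_ex hd h1 h2 h3
  have hl := Geo1b_run h hi0 (j := 3 * d - 1) (by omega) (by omega) hab
  have he : Geo1b_pt d (3 * d - 1 + 1) = Geo1b_pt d 0 := by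
    unfold Geo1b_pt
    split_ifs <;> simp only [Prod.mk.injEq, true_and, and_true] <;> omega
  rw [he] at hl
  have h0 := Geo1b_step h hl (Geo1b_pt_inT (i := 0 + 1) (by omega) (by omega)) (Geo1b_pt_bdU h.pos)
  obtain ⟨j, hj0, hj1, rfl, rfl⟩ := Geo1b_pt_ex hd hp hq hb
  exact Geo1b_run h le_rfl hj0 hj1 h0

/-- All boundary unit darts occur. Plan: `balance` with `b` the indicator of a point shows that a
boundary dart ending at `v` exists iff one starting at `v` exists (`bdU`: at most one of each), so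
all or none of the `3d` darts occur; none is impossible by `sum_bdK` with `g = det`
(each triangle contributes `det p q + det q r + det r p = 1`). -/
theorem Tri.bd_exists (h : Tri d S) {p q : V} (hp : InT d p) (hq : InT d q) (hb : BdU d p q) :
    ∃ r, (p, q, r) ∈ S :=
  (mem_bdK.1 (Geo1b_all h hp hq hb)).1

/-- sum over the boundary darts of the whole triangulation -/
theorem Tri.sum_bd {G : Type} [AddCommMonoid G] (h : Tri d S) (g : V → V → G) :
    ∑ x ∈ bdK d ∅ S, g x.1 x.2 =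
      ∑ i ∈ Ico 0 d, (g (i, 0) (i + 1, 0) + g (d - i, i) (d - i - 1, i + 1) +
        g (0, i + 1) (0, i)) := by
  have hB : bdK d ∅ S =
      ((Ico 0 d).image (fun i : ℤ => (((i, 0), (i + 1, 0)) : V × V)) ∪
        (Ico 0 d).image (fun i : ℤ => (((d - i, i), (d - i - 1, i + 1)) : V × V))) ∪
        (Ico 0 d).image (fun i : ℤ => (((0, i + 1), (0, i)) : V × V)) := by
    ext ⟨⟨p1, p2⟩, ⟨q1, q2⟩⟩
    simp only [mem_union, mem_image, mem_Ico, Prod.mk.injEq]
    constructor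
    · intro hx
      obtain ⟨h1, h2, h3⟩ := Geo1b_mem h hx
      simp only [InT, BdU, Prod.mk.injEq] at h1 h2 h3
      rcases h3 with h3 | h3 | h3
      · exact Or.inl (Or.inl ⟨p1, by omega⟩)
      · exact Or.inl (Or.inr ⟨p2, by omega⟩)
      · exact Or.inr ⟨q2, by omega⟩
    · intro hx
      refine Geo1b_all h ?_ ?_ ?_ <;> simp only [InT, BdU, Prod.mk.injEq] <;>
        rcases hx with (⟨i, hi⟩ | ⟨i, hi⟩) | ⟨i, hi⟩ <;> omega
  rw [hB, sum_union, sum_union, sum_image, sum_image, sum_image, sum_add_distrib, sum_add_distrib]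
  · intro i _ j _ hij
    simp only [Prod.mk.injEq] at hij
    omega
  · intro i _ j _ hij
    simp only [Prod.mk.injEq] at hij
    omega
  · intro i _ j _ hij
    simp only [Prod.mk.injEq] at hij
    omega
  · rw [Finset.disjoint_left]
    rintro ⟨⟨p1, p2⟩, ⟨q1, q2⟩⟩ h1 h2
    simp only [mem_image, mem_Ico, Prod.mk.injEq] at h1 h2
    obtain ⟨i, hi⟩ := h1
    obtain ⟨j, hj⟩ := h2
    omega
  · rw [Finset.disjoint_left]
    rintro ⟨⟨p1, p2⟩, ⟨q1, q2⟩⟩ h1 h2
    simp only [mem_union, mem_image, mem_Ico, Prod.mk.injEq] at h1 h2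
    obtain ⟨j, hj⟩ := h2
    rcases h1 with ⟨i, hi⟩ | ⟨i, hi⟩ <;> omega

theorem Tri.card (h : Tri d S) : (S.card : ℤ) = 3 * d ^ 2 := by
  have hd := h.pos
  rw [Geo1b_card h, h.sum_bd det]
  have : ∀ i ∈ Ico 0 d, det (i, 0) (i + 1, 0) + det (d - i, i) (d - i - 1, i + 1) +
      det (0, i + 1) (0, i) = d := by
    intro i _
    simp only [det]; ring
  rw [Finset.sum_congr rfl this, Finset.sum_const, Int.card_Ico, nsmul_eq_mul,
    Int.toNat_of_nonneg (by omega)]
  ring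

/-- dual connectivity: `K` is again a triangulation, compare cardinalities -/
theorem Tri.conn (h : Tri d S) (hK : Cl S ∅ K) (hne : K.Nonempty) : K = S := by
  have hT : Tri d K :=
    { rot := hK.rot
      uni := fun p q r ht => h.uni p q r (hK.sub ht)
      inT := fun p q r ht => h.inT p q r (hK.sub ht)
      uniq := fun p q r r' ht ht' => h.uniq p q r r' (hK.sub ht) (hK.sub ht')
      opp := fun p q r ht hb => by
        obtain ⟨s, hs⟩ := h.opp p q r (hK.sub ht) hb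
        exact ⟨s, hK.cl p q r s ht hs (by simp)⟩
      ne := hne }
  have h1 := hT.card
  have h2 := h.card
  exact Finset.eq_of_subset_of_card_le hK.sub (by omega)

end Pool.Agent.TC

end

section

/-! Boundary darts, Stokes formula, covering number of a triangulation. -/

open Finset

namespace Pool.Agent.TC

variable {d : ℤ} {S K : Finset Tr} {C : Finset (V × V)}

/-- signed crossing of the dart `N p → N q` with the eastward ray from `Z` -/
def w (N : ℤ) (Z p q : V) : ℤ :=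
  if N * p.2 < Z.2 ∧ Z.2 < N * q.2 ∧ 0 < det (q - p) (Z - N • p) then 1
  else if N * q.2 < Z.2 ∧ Z.2 < N * p.2 ∧ det (q - p) (Z - N • p) < 0 then -1 else 0

/-- `Z / N` lies in the open triangle -/
def Inside (N : ℤ) (Z : V) (t : Tr) : Prop :=
  0 < det (t.2.1 - t.1) (Z - N • t.1) ∧ 0 < det (t.2.2 - t.2.1) (Z - N • t.2.1) ∧
    0 < det (t.1 - t.2.2) (Z - N • t.2.2)
instance (N : ℤ) (Z : V) : DecidablePred (Inside N Z) := fun _ => by
  unfold Inside; infer_instance

theorem w_anti (N : ℤ) (Z p q : V) : w N Z q p = -w N Z p q := by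
  have e : det (p - q) (Z - N • q) = -det (q - p) (Z - N • p) := by
    simp only [det, Prod.fst_sub, Prod.snd_sub, Prod.smul_fst, Prod.smul_snd, smul_eq_mul]; ring
  unfold w
  rw [e]
  generalize det (q - p) (Z - N • p) = D
  generalize N * p.2 = a
  generalize N * q.2 = b
  split_ifs <;> omega

theorem Geo1_sgn (x y : ℤ) : (0 < x → 0 < y → 0 < x * y) ∧ (0 < x → y < 0 → x * y < 0) ∧
    (x < 0 → 0 < y → x * y < 0) ∧ (x < 0 → y < 0 → 0 < x * y) :=
  ⟨mul_pos, mul_neg_of_pos_of_neg, mul_neg_of_neg_of_pos, mul_pos_of_neg_of_neg⟩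

theorem Geo1_abs {a b c z D1 D2 D3 : ℤ} (hs : 0 < D1 + D2 + D3)
    (he : D2 * (a - z) + D3 * (b - z) + D1 * (c - z) = 0) (h1 : D1 ≠ 0) (h2 : D2 ≠ 0)
    (h3 : D3 ≠ 0) (ha : z ≠ a) (hb : z ≠ b) (hc : z ≠ c) :
    (if a < z ∧ z < b ∧ 0 < D1 then (1 : ℤ) else if b < z ∧ z < a ∧ D1 < 0 then -1 else 0) +
      (if b < z ∧ z < c ∧ 0 < D2 then (1 : ℤ) else if c < z ∧ z < b ∧ D2 < 0 then -1 else 0) +
      (if c < z ∧ z < a ∧ 0 < D3 then (1 : ℤ) else if a < z ∧ z < c ∧ D3 < 0 then -1 else 0) =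
      if 0 < D1 ∧ 0 < D2 ∧ 0 < D3 then 1 else 0 := by
  have s1 := Geo1_sgn D2 (a - z)
  have s2 := Geo1_sgn D3 (b - z)
  have s3 := Geo1_sgn D1 (c - z)
  generalize D2 * (a - z) = x at he s1
  generalize D3 * (b - z) = y at he s2
  generalize D1 * (c - z) = u at he s3
  rcases lt_or_gt_of_ne h1 with h1 | h1 <;> rcases lt_or_gt_of_ne h2 with h2 | h2 <;>
    rcases lt_or_gt_of_ne h3 with h3 | h3 <;> rcases lt_or_gt_of_ne ha with ha | ha <;>
    rcases lt_or_gt_of_ne hb with hb | hb <;> rcases lt_or_gt_of_ne hc with hc | hc <;>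
    simp only [h1, h2, h3, ha, hb, hc, h1.not_gt, h2.not_gt, h3.not_gt, ha.not_gt, hb.not_gt,
      hc.not_gt, sub_pos, sub_neg, and_true, and_false, true_and, and_self,
      if_true, if_false, forall_const, IsEmpty.forall_iff] at s1 s2 s3 ⊢ <;> omega

/-- Plan: with `D₁ D₂ D₃` the three determinants, `D₁ + D₂ + D₃ = N * det > 0` and
`D_qr (N p.2 - Z.2) + D_rp (N q.2 - Z.2) + D_pq (N r.2 - Z.2) = 0`; case analysis on the
positions of `Z.2`. -/
theorem w_tri {N : ℤ} (hN : 0 < N) {Z p q r : V} (hd : 0 < det (q - p) (r - p))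
    (h1 : det (q - p) (Z - N • p) ≠ 0) (h2 : det (r - q) (Z - N • q) ≠ 0)
    (h3 : det (p - r) (Z - N • r) ≠ 0) (hp : Z.2 ≠ N * p.2) (hq : Z.2 ≠ N * q.2)
    (hr : Z.2 ≠ N * r.2) :
    w N Z p q + w N Z q r + w N Z r p = if Inside N Z (p, q, r) then 1 else 0 := by
  have hs : 0 < det (q - p) (Z - N • p) + det (r - q) (Z - N • q) + det (p - r) (Z - N • r) := by
    have e : det (q - p) (Z - N • p) + det (r - q) (Z - N • q) + det (p - r) (Z - N • r) =
        N * det (q - p) (r - p) := by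
      simp only [det, Prod.fst_sub, Prod.snd_sub, Prod.smul_fst, Prod.smul_snd, smul_eq_mul]; ring
    rw [e]; exact mul_pos hN hd
  have he : det (r - q) (Z - N • q) * (N * p.2 - Z.2) + det (p - r) (Z - N • r) * (N * q.2 - Z.2) +
      det (q - p) (Z - N • p) * (N * r.2 - Z.2) = 0 := by
    simp only [det, Prod.fst_sub, Prod.snd_sub, Prod.smul_fst, Prod.smul_snd, smul_eq_mul]; ring
  have := Geo1_abs hs he h1 h2 h3 hp hq hr
  unfold w
  rw [this]
  simp only [Inside]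

theorem Geo1_row {N a b x y D : ℤ} {P : Prop} [Decidable P] (hN : 0 < N)
    (hr : (a < y ∧ y < a + N) ↔ P) :
    (if 0 < y ∧ y < 0 ∧ 0 < D then (1 : ℤ) else if 0 < y ∧ y < 0 ∧ D < 0 then -1 else 0) +
      (if a < y ∧ y < a + N ∧ 0 < b - x - y then (1 : ℤ)
        else if a + N < y ∧ y < a ∧ b - x - y < 0 then -1 else 0) +
      (if a + N < y ∧ y < a ∧ 0 < x then (1 : ℤ)
        else if a < y ∧ y < a + N ∧ x < 0 then -1 else 0) =
      if P then ((if x + y < b then 1 else 0) - if x < 0 then 1 else 0) else 0 := by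
  rw [if_neg (by omega), if_neg (by omega),
    if_neg (show ¬ (a + N < y ∧ y < a ∧ b - x - y < 0) by omega),
    if_neg (show ¬ (a + N < y ∧ y < a ∧ 0 < x) by omega)]
  by_cases hP : P
  · have h := hr.2 hP
    clear hr
    rw [if_pos hP]
    split_ifs <;> omega
  · have h : ¬ (a < y ∧ y < a + N) := fun h => hP (hr.1 h)
    clear hr
    rw [if_neg hP, if_neg (by omega), if_neg (by omega)]
    rfl

/-- a generic point of `T` lies in exactly one triangle (three triples). Plan: sum `w_tri` over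
`S`, `sum_bdK`, `sum_bd`; only the `B` dart and the `C` dart in the row of `Z` contribute. -/
theorem Tri.cover (h : Tri d S) {N : ℤ} (hN : 0 < N) {Z : V}
    (h1 : ∀ p q r, (p, q, r) ∈ S → det (q - p) (Z - N • p) ≠ 0) (h2 : ∀ y, Z.2 ≠ N * y) :
    (S.filter (Inside N Z)).card = if 0 < Z.1 ∧ 0 < Z.2 ∧ Z.1 + Z.2 < N * d then 3 else 0 := by
  have hd := h.pos
  have hz : Z.1 ≠ 0 := by
    obtain ⟨r, hr⟩ := h.bd_exists (p := (0, 1)) (q := (0, 0)) (by simp only [InT]; omega)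
      (by simp only [InT]; omega) (by simp [BdU])
    have := h1 _ _ _ hr
    simpa [det] using this
  have hsum : (((S.filter (Inside N Z)).card : ℕ) : ℤ) = 3 * ∑ t ∈ S, w N Z t.1 t.2.1 := by
    rw [← Geo1b_sum3 h.rot (w N Z), Finset.card_filter]
    push_cast
    refine Finset.sum_congr rfl ?_
    rintro ⟨p, q, r⟩ ht
    have hu := h.uni _ _ _ ht
    exact (w_tri hN (by omega) (h1 _ _ _ ht) (h1 _ _ _ (h.rot _ _ _ ht)) (h1 _ _ _ (h.rot2 ht))
      (h2 _) (h2 _) (h2 _)).symm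
  have hw0 : ∀ p, w N Z p p = 0 := fun p => by
    have := w_anti N Z p p
    omega
  rw [sum_bdK h (by simp) (Geo1b_cl h) (w N Z) (fun p q => w_anti N Z p q) hw0,
    h.sum_bd (w N Z)] at hsum
  have hi1 : N * (Z.2 / N) ≤ Z.2 := Int.mul_ediv_self_le hN.ne'
  have hi2 : Z.2 < N * (Z.2 / N) + N := Int.lt_mul_ediv_self_add hN
  have hi3 := h2 (Z.2 / N)
  have hrow : ∀ i : ℤ, (N * i < Z.2 ∧ Z.2 < N * (i + 1)) ↔ i = Z.2 / N := by
    intro i
    constructor
    · rintro ⟨a1, a2⟩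
      have b1 : N * i < N * (Z.2 / N + 1) := by linarith
      have b2 : N * (Z.2 / N) < N * (i + 1) := by linarith
      have c1 := lt_of_mul_lt_mul_left b1 hN.le
      have c2 := lt_of_mul_lt_mul_left b2 hN.le
      omega
    · rintro rfl
      rw [mul_add, mul_one]
      omega
  have hterm : ∀ i ∈ Ico 0 d, w N Z (i, 0) (i + 1, 0) + w N Z (d - i, i) (d - i - 1, i + 1) +
      w N Z (0, i + 1) (0, i) = if i = Z.2 / N then
        ((if Z.1 + Z.2 < N * d then 1 else 0) - if Z.1 < 0 then 1 else 0) else 0 := by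
    intro i _
    have e1 : det ((d - i - 1, i + 1) - (d - i, i)) (Z - N • ((d - i, i) : V)) =
        N * d - Z.1 - Z.2 := by
      simp only [det, Prod.fst_sub, Prod.snd_sub, Prod.smul_fst, Prod.smul_snd, smul_eq_mul]; ring
    have e2 : det (((0 : ℤ), i) - (0, i + 1)) (Z - N • ((0, i + 1) : V)) = Z.1 := by
      simp only [det, Prod.fst_sub, Prod.snd_sub, Prod.smul_fst, Prod.smul_snd, smul_eq_mul]; ring
    have e3 : N * (i + 1) = N * i + N := by ring
    have hr := hrow i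
    unfold w
    rw [e1, e2]
    simp only [mul_zero]
    rw [e3] at hr ⊢
    exact Geo1_row hN hr
  rw [Finset.sum_congr rfl hterm, Finset.sum_ite_eq'] at hsum
  have hmem : Z.2 / N ∈ Ico 0 d ↔ 0 < Z.2 ∧ Z.2 < N * d := by
    rw [mem_Ico]
    constructor
    · rintro ⟨a1, a2⟩
      have b1 : 0 ≤ N * (Z.2 / N) := mul_nonneg hN.le a1
      have b2 : N * (Z.2 / N + 1) ≤ N * d := mul_le_mul_of_nonneg_left (by omega) hN.le
      rw [mul_add, mul_one] at b2
      omega
    · rintro ⟨a1, a2⟩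
      have b1 : N * 0 < N * (Z.2 / N + 1) := by rw [mul_add, mul_one, mul_zero]; omega
      have b2 : N * (Z.2 / N) < N * d := by omega
      have c1 := lt_of_mul_lt_mul_left b1 hN.le
      have c2 := lt_of_mul_lt_mul_left b2 hN.le
      omega
  simp only [hmem] at hsum
  clear hmem hterm hrow hi1 hi2 hi3 hw0
  generalize N * d = b at hsum ⊢
  split_ifs at hsum ⊢ <;> omega

end Pool.Agent.TC

end

section

/-! Corners at a vertex tile the directions; edges do not cross. -/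

open Finset

namespace Pool.Agent.TC

variable {d : ℤ} {S K K' : Finset Tr} {C : Finset (V × V)}

theorem Geo2a_zero {a b u : V} (h : det a b = 1) (h1 : det a u = 0) (h2 : det b u = 0) :
    u = 0 := by
  unfold det at *
  ext
  · show u.1 = 0
    linear_combination (-u.1) * h + b.1 * h1 - a.1 * h2
  · show u.2 = 0
    linear_combination (-u.2) * h + b.2 * h1 - a.2 * h2

theorem Geo2a_det (u Z ξ p : V) (M N : ℤ) :
    det u (M • Z + ξ - (M * N) • p) = M * det u (Z - N • p) + det u ξ := by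
  simp only [det, Prod.fst_sub, Prod.snd_sub, Prod.fst_add, Prod.snd_add, Prod.smul_fst,
    Prod.smul_snd, smul_eq_mul]
  ring

theorem Geo2a_nn {N A x : ℤ} (h : |x| < N) (h' : 0 < N * A + x) : 0 ≤ A := by
  rw [abs_lt] at h
  by_contra hA
  nlinarith [h.1, h.2]

theorem Geo2a_ne {M A x : ℤ} (h : |x| < M) (h' : x ≠ 0) : M * A + x ≠ 0 := by
  intro e
  have h1 : M ∣ x := ⟨-A, by linarith⟩
  exact h' (Int.eq_zero_of_abs_lt_dvd h1 h)

theorem Geo2a_big (d : ℤ) (ξ : V) : ∃ M, 0 < M ∧ ∀ u, Bnd d u → |det u ξ| < M := by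
  refine ⟨|d| * |ξ.2| + |d| * |ξ.1| + 1, by positivity, fun u hu => ?_⟩
  have h1 := mul_le_mul_of_nonneg_right (hu.1.trans (le_abs_self d)) (abs_nonneg ξ.2)
  have h2 := mul_le_mul_of_nonneg_right (hu.2.trans (le_abs_self d)) (abs_nonneg ξ.1)
  have h3 := abs_sub (u.1 * ξ.2) (u.2 * ξ.1)
  rw [abs_mul, abs_mul] at h3
  unfold det
  linarith

theorem Geo2a_dist {p q r : V} (h : det (q - p) (r - p) = 1) : p ≠ q ∧ q ≠ r ∧ r ≠ p := by
  refine ⟨?_, ?_, ?_⟩ <;> rintro rfl <;> simp [det, mul_comm] at h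

theorem Geo2a_cover (h : Tri d S) {M N : ℤ} (hM : 0 < M) (hN : 0 < N) (Z : V) {ξ : V}
    (hg : Gen d ξ) (hb : ∀ u, Bnd d u → |det u ξ| < M) :
    (S.filter (Inside (M * N) (M • Z + ξ))).card = if 0 < (M • Z + ξ).1 ∧ 0 < (M • Z + ξ).2 ∧
      (M • Z + ξ).1 + (M • Z + ξ).2 < M * N * d then 3 else 0 := by
  refine h.cover (mul_pos hM hN) (fun p q r ht => ?_) fun y e => ?_
  · have h1 := (h.inT _ _ _ ht).bnd (h.inT2 ht)
    rw [Geo2a_det]
    exact Geo2a_ne (hb _ h1) (hg _ (sub_ne_zero.2 (Geo2a_dist (h.uni _ _ _ ht)).1.symm) h1)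
  · have h0 := h.pos
    have h1 : Bnd d (1, 0) := ⟨by simp; omega, by simp; omega⟩
    refine Geo2a_ne (A := Z.2 - N * y) (hb _ h1) (hg _ (by simp) h1) ?_
    simp only [Prod.snd_add, Prod.smul_snd, smul_eq_mul] at e
    simp only [det]
    linear_combination e

/-- For `N` large the point `N v + ξ` is inside the triangle iff `v` is a vertex and `ξ` lies in
the cone (barycentric coordinates of `v` are integers with sum `1`). -/
theorem inside_iff {N : ℤ} {v ξ p q r : V} (hd : det (q - p) (r - p) = 1)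
    (h1 : |det (q - p) ξ| < N) (h2 : |det (r - q) ξ| < N) (h3 : |det (p - r) ξ| < N) :
    Inside N (N • v + ξ) (p, q, r) ↔ (v = p ∧ Cone (q - p) (r - p) ξ) ∨
      (v = q ∧ Cone (r - q) (p - q) ξ) ∨ (v = r ∧ Cone (p - r) (q - r) ξ) := by
  have e : ∀ u x : V, det u (N • v + ξ - N • x) = N * det u (v - x) + det u ξ := fun u x => by
    simpa using Geo2a_det u v ξ x N 1
  have N0 : 0 < N := (abs_nonneg _).trans_lt h1
  have hs : det (q - p) (v - p) + det (r - q) (v - q) + det (p - r) (v - r) = 1 := by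
    simp only [det, Prod.fst_sub, Prod.snd_sub] at hd ⊢
    linear_combination hd
  have d2 : det (r - q) (p - q) = 1 := by
    simp only [det, Prod.fst_sub, Prod.snd_sub] at hd ⊢
    linear_combination hd
  have d3 : det (p - r) (q - r) = 1 := by
    simp only [det, Prod.fst_sub, Prod.snd_sub] at hd ⊢
    linear_combination hd
  have s1 : ∀ a b : V, det ξ (a - b) = det (b - a) ξ := fun a b => by
    simp only [det, Prod.fst_sub, Prod.snd_sub]
    ring
  have s3 : ∀ a b : V, det (a - b) (v - b) = 0 → det (b - a) (v - a) = 0 := fun a b h => by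
    simp only [det, Prod.fst_sub, Prod.snd_sub] at h ⊢
    linear_combination -h
  have z1 : ∀ a b : V, det (a - b) (b - b) = 0 ∧ det (a - b) (a - b) = 0 := fun a b => by
    simp [det, mul_comm]
  simp only [Inside, Cone, e, s1]
  rw [abs_lt] at h1 h2 h3
  constructor
  · rintro ⟨i1, i2, i3⟩
    have a1 := Geo2a_nn (abs_lt.2 h1) i1
    have a2 := Geo2a_nn (abs_lt.2 h2) i2
    have a3 := Geo2a_nn (abs_lt.2 h3) i3
    rcases (by omega : det (q - p) (v - p) = 0 ∧ det (p - r) (v - r) = 0 ∨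
      det (r - q) (v - q) = 0 ∧ det (q - p) (v - p) = 0 ∨
      det (p - r) (v - r) = 0 ∧ det (r - q) (v - q) = 0) with ⟨a, b⟩ | ⟨a, b⟩ | ⟨a, b⟩
    · rw [a] at i1; rw [b] at i3
      exact Or.inl ⟨sub_eq_zero.1 (Geo2a_zero hd a (s3 _ _ b)), by linarith, by linarith⟩
    · rw [a] at i2; rw [b] at i1
      exact Or.inr (Or.inl ⟨sub_eq_zero.1 (Geo2a_zero d2 a (s3 _ _ b)), by linarith, by linarith⟩)
    · rw [a] at i3; rw [b] at i2
      exact Or.inr (Or.inr ⟨sub_eq_zero.1 (Geo2a_zero d3 a (s3 _ _ b)), by linarith, by linarith⟩)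
  · rintro (⟨rfl, a, b⟩ | ⟨rfl, a, b⟩ | ⟨rfl, a, b⟩)
    · rw [(z1 _ _).1, (z1 _ _).2, d2]
      exact ⟨by linarith, by linarith [h2.1], by linarith⟩
    · rw [(z1 _ _).1, (z1 _ _).2, d3]
      exact ⟨by linarith, by linarith, by linarith [h3.1]⟩
    · rw [(z1 _ _).1, (z1 _ _).2, hd]
      exact ⟨by linarith [h1.1], by linarith, by linarith⟩

/-- two triangles with a common interior point coincide: perturb `Z` to a generic point
`M Z + ξ` (`exists_gen`-like) and use `cover` (three rotations of each are inside) -/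
theorem Tri.inside_unique (h : Tri d S) {N : ℤ} (hN : 0 < N) {Z : V} {p q r a b c : V}
    (h1 : (p, q, r) ∈ S) (h2 : (a, b, c) ∈ S) (i1 : Inside N Z (p, q, r))
    (i2 : Inside N Z (a, b, c)) :
    (a, b, c) = (p, q, r) ∨ (a, b, c) = (q, r, p) ∨ (a, b, c) = (r, p, q) := by
  obtain ⟨ξ, hg, -⟩ := exists_gen d (x := (1, 0)) (y := (0, 1)) (by simp [det])
  obtain ⟨M, hM, hb⟩ := Geo2a_big d ξ
  have hc := Geo2a_cover h hM hN Z hg hb
  have one : ∀ {x y : V} {z}, (x, y, z) ∈ S → 0 < det (y - x) (Z - N • x) →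
      0 < det (y - x) (M • Z + ξ - (M * N) • x) := fun ht hp => by
    have := (abs_lt.1 (hb _ ((h.inT _ _ _ ht).bnd (h.inT2 ht)))).1
    rw [Geo2a_det]
    nlinarith
  have key : ∀ {x y z : V}, (x, y, z) ∈ S → Inside N Z (x, y, z) →
      (x, y, z) ∈ S.filter (Inside (M * N) (M • Z + ξ)) := fun ht hi =>
    mem_filter.2 ⟨ht, one ht hi.1, one (h.rot _ _ _ ht) hi.2.1, one (h.rot2 ht) hi.2.2⟩
  by_contra hne
  simp only [not_or] at hne
  obtain ⟨n1, n2, n3⟩ := Geo2a_dist (h.uni _ _ _ h1)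
  have hsub : ({(a, b, c), (p, q, r), (q, r, p), (r, p, q)} : Finset Tr) ⊆
      S.filter (Inside (M * N) (M • Z + ξ)) := by
    intro t ht
    simp only [mem_insert, mem_singleton] at ht
    rcases ht with rfl | rfl | rfl | rfl
    · exact key h2 i2
    · exact key h1 i1
    · exact key (h.rot _ _ _ h1) ⟨i1.2.1, i1.2.2, i1.1⟩
    · exact key (h.rot2 h1) ⟨i1.2.2, i1.1, i1.2.1⟩
  have h4 := card_le_card hsub
  rw [card_insert_of_notMem (by simp only [mem_insert, mem_singleton, not_or]; exact hne),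
    card_insert_of_notMem (by simp [n1, n3.symm]), card_insert_of_notMem (by simp [n2]),
    card_singleton, hc] at h4
  split_ifs at h4 <;> omega

theorem Tri.exists_corner (h : Tri d S) {v ξ : V} (hv : InT d v) (hg : Gen d ξ)
    (hi : Into d v ξ) : ∃ a b, (v, a, b) ∈ S ∧ Cone (a - v) (b - v) ξ := by
  obtain ⟨M, hM, hb⟩ := Geo2a_big d ξ
  have hc := Geo2a_cover h hM one_pos v hg hb
  have h0 := h.pos
  have b1 := abs_lt.1 (hb (1, 0) ⟨by simp; omega, by simp; omega⟩)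
  have b2 := abs_lt.1 (hb (0, 1) ⟨by simp; omega, by simp; omega⟩)
  have b3 := abs_lt.1 (hb (1, -1) ⟨by simp; omega, by simp; omega⟩)
  simp only [det] at b1 b2 b3
  obtain ⟨v1, v2, v3⟩ := hv
  rw [mul_one, if_pos] at hc
  · obtain ⟨⟨p, q, r⟩, ht⟩ := card_pos.1 (hc ▸ three_pos)
    obtain ⟨ht, hin⟩ := mem_filter.1 ht
    rcases (inside_iff (h.uni _ _ _ ht) (hb _ ((h.inT _ _ _ ht).bnd (h.inT2 ht)))
      (hb _ ((h.inT2 ht).bnd (h.inT3 ht))) (hb _ ((h.inT3 ht).bnd (h.inT _ _ _ ht)))).1 hin with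
      ⟨rfl, hc⟩ | ⟨rfl, hc⟩ | ⟨rfl, hc⟩
    · exact ⟨_, _, ht, hc⟩
    · exact ⟨_, _, h.rot _ _ _ ht, hc⟩
    · exact ⟨_, _, h.rot2 ht, hc⟩
  · simp only [Prod.fst_add, Prod.snd_add, Prod.smul_fst, Prod.smul_snd, smul_eq_mul]
    refine ⟨?_, ?_, ?_⟩
    · rcases v1.eq_or_lt with e | e
      · rw [← e]; linarith [hi.2.1 e.symm]
      · nlinarith [b2.2]
    · rcases v2.eq_or_lt with e | e
      · rw [← e]; linarith [hi.1 e.symm]
      · nlinarith [b1.1]
    · rcases v3.eq_or_lt with e | e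
      · rw [← e]; linarith [hi.2.2 e]
      · nlinarith [b3.2]

theorem Tri.corner_unique (h : Tri d S) {v ξ a b a' b' : V} (h1 : (v, a, b) ∈ S)
    (h2 : (v, a', b') ∈ S) (c1 : Cone (a - v) (b - v) ξ) (c2 : Cone (a' - v) (b' - v) ξ) :
    a = a' ∧ b = b' := by
  obtain ⟨M, hM, hb⟩ := Geo2a_big d ξ
  have key : ∀ {a b : V}, (v, a, b) ∈ S → Cone (a - v) (b - v) ξ →
      Inside M (M • v + ξ) (v, a, b) := fun ht hc =>
    (inside_iff (h.uni _ _ _ ht) (hb _ ((h.inT _ _ _ ht).bnd (h.inT2 ht)))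
      (hb _ ((h.inT2 ht).bnd (h.inT3 ht))) (hb _ ((h.inT3 ht).bnd (h.inT _ _ _ ht)))).2
      (Or.inl ⟨rfl, hc⟩)
  obtain ⟨n1, -, n3⟩ := Geo2a_dist (h.uni _ _ _ h1)
  rcases h.inside_unique hM h1 h2 (key h1 c1) (key h2 c2) with e | e | e <;>
    simp only [Prod.mk.injEq] at e
  · exact ⟨e.2.1.symm, e.2.2.symm⟩
  · exact absurd e.1 n1
  · exact absurd e.1.symm n3

end Pool.Agent.TC

end

section

/-! Corners at a vertex tile the directions; edges do not cross. -/

open Finset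

namespace Pool.Agent.TC

variable {d : ℤ} {S K K' : Finset Tr} {C : Finset (V × V)}

theorem Geo2b_anti (u v : V) : det u v = -det v u := by
  simp only [det]; ring

theorem Geo2b_self (u : V) : det u u = 0 := by
  simp only [det]; ring

theorem Geo2b_pos {α β x y : ℤ} (ha : 0 < α) (hb : 0 < β) (hx : 0 ≤ x) (hy : 0 ≤ y)
    (hxy : ¬ (x = 0 ∧ y = 0)) : 0 < α * x + β * y := by
  have h1 := mul_nonneg ha.le hx
  have h2 := mul_nonneg hb.le hy
  rcases hx.lt_or_eq with hx | hx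
  · have := mul_pos ha hx
    omega
  · rcases hy.lt_or_eq with hy | hy
    · have := mul_pos hb hy
      omega
    · exact absurd ⟨hx.symm, hy.symm⟩ hxy

theorem Tri.into_of_cone (h : Tri d S) {v ξ a b : V} (h1 : (v, a, b) ∈ S)
    (c1 : Cone (a - v) (b - v) ξ) : Into d v ξ := by
  have hu := h.uni _ _ _ h1
  have ha := h.inT2 h1
  have hb := h.inT3 h1
  obtain ⟨c1, c2⟩ := c1
  have e1 : ξ.1 = det ξ (b - v) * (a.1 - v.1) + det (a - v) ξ * (b.1 - v.1) := by
    simp only [det, Prod.fst_sub, Prod.snd_sub] at hu ⊢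
    linear_combination (-ξ.1) * hu
  have e2 : ξ.2 = det ξ (b - v) * (a.2 - v.2) + det (a - v) ξ * (b.2 - v.2) := by
    simp only [det, Prod.fst_sub, Prod.snd_sub] at hu ⊢
    linear_combination (-ξ.2) * hu
  simp only [InT] at ha hb
  simp only [det, Prod.fst_sub, Prod.snd_sub] at hu
  refine ⟨fun h0 => ?_, fun h0 => ?_, fun h0 => ?_⟩
  · rw [e2]
    refine Geo2b_pos c2 c1 (by omega) (by omega) ?_
    rintro ⟨p1, p2⟩
    rw [p1, p2] at hu
    omega
  · rw [e1]
    refine Geo2b_pos c2 c1 (by omega) (by omega) ?_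
    rintro ⟨p1, p2⟩
    rw [p1, p2] at hu
    omega
  · have h3 := Geo2b_pos (x := d - a.1 - a.2) (y := d - b.1 - b.2) c2 c1 (by omega) (by omega) (by
      rintro ⟨p1, p2⟩
      have q1 : a.2 - v.2 = -(a.1 - v.1) := by omega
      have q2 : b.2 - v.2 = -(b.1 - v.1) := by omega
      rw [q1, q2] at hu
      have : (0 : ℤ) = 1 := by linear_combination hu
      omega)
    have h4 : ξ.1 + ξ.2 =
        -(det ξ (b - v) * (d - a.1 - a.2) + det (a - v) ξ * (d - b.1 - b.2)) := by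
      rw [← h0]
      linear_combination e1 + e2
    omega

/-- every open corner contains a generic direction -/
theorem Tri.exists_gen_cone (h : Tri d S) {v a b : V} (h1 : (v, a, b) ∈ S) :
    ∃ ξ, Gen d ξ ∧ Cone (a - v) (b - v) ξ := by
  have hu := h.uni _ _ _ h1
  have e1 : det (a - v + (b - v)) (b - v) = 1 := by
    simp only [det, Prod.fst_sub, Prod.snd_sub, Prod.fst_add, Prod.snd_add] at hu ⊢
    linear_combination hu
  have e2 : det (a - v) (a - v + (b - v)) = 1 := by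
    simp only [det, Prod.fst_sub, Prod.snd_sub, Prod.fst_add, Prod.snd_add] at hu ⊢
    linear_combination hu
  obtain ⟨ξ, hg, hξ⟩ := exists_gen d (x := a - v + (b - v)) (y := b - v) (by omega)
  refine ⟨ξ, hg, (hξ _ ((h.inT _ _ _ h1).bnd (h.inT2 h1))).1 (by omega), ?_⟩
  have := (hξ _ ((h.inT _ _ _ h1).bnd (h.inT3 h1))).2.1 (by rw [Geo2b_anti]; omega)
  rw [Geo2b_anti]
  omega

theorem Tri.exists_tri (h : Tri d S) {v : V} (hv : InT d v) : ∃ a b, (v, a, b) ∈ S := by
  have hd := h.pos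
  have hx : ∃ x : V, ¬ (x.1 = 0 ∧ x.2 = 0) ∧ Into d v x := by
    by_cases hc : d - 3 * v.1 = 0 ∧ d - 3 * v.2 = 0
    · refine ⟨(1, 0), by simp, ?_⟩
      simp only [Into]
      omega
    · refine ⟨(d - 3 * v.1, d - 3 * v.2), hc, ?_⟩
      simp only [Into]
      omega
  obtain ⟨x, hx0, hx1, hx2, hx3⟩ := hx
  have hxy : det x (-x.2, x.1) ≠ 0 := by
    intro h0
    simp only [det] at h0
    exact hx0 ⟨by nlinarith [sq_nonneg x.1, sq_nonneg x.2], by
      nlinarith [sq_nonneg x.1, sq_nonneg x.2]⟩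
  obtain ⟨ξ, hg, hξ⟩ := exists_gen d hxy
  have b1 : Bnd d (1, 0) := by simp only [Bnd, abs_le]; omega
  have b2 : Bnd d (0, 1) := by simp only [Bnd, abs_le]; omega
  have b3 : Bnd d (1, -1) := by simp only [Bnd, abs_le]; omega
  have k1 := (hξ _ b1).1
  have k2 := (hξ _ b2).2.1
  have k3 := (hξ _ b3).2.1
  simp only [det] at k1 k2 k3
  obtain ⟨a, b, hab, -⟩ := h.exists_corner hv hg (by
    refine ⟨fun h0 => ?_, fun h0 => ?_, fun h0 => ?_⟩
    · have := hx1 h0
      omega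
    · have := hx2 h0
      omega
    · have := hx3 h0
      omega)
  exact ⟨a, b, hab⟩

theorem Tri.not_cone_edge (h : Tri d S) {v a b x : V} (h1 : (v, a, b) ∈ S) (he : Edge S v x) :
    ¬ Cone (a - v) (b - v) (x - v) := by
  rintro ⟨c1, c2⟩
  have hv := h.inT _ _ _ h1
  have key : ∀ r, InT d r → InT d x → det (x - v) (r - v) ≠ 0 → ∃ ξ, Cone (a - v) (b - v) ξ ∧
      (0 < det (x - v) (r - v) → Cone (x - v) (r - v) ξ) ∧
      (det (x - v) (r - v) < 0 → Cone (r - v) (x - v) ξ) := fun r hr hx hne => by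
    obtain ⟨ξ, -, hξ⟩ := exists_gen d hne
    have k1 := (hξ _ (hv.bnd (h.inT2 h1))).1 c1
    have k2 := (hξ _ (hv.bnd (h.inT3 h1))).2.1 (by rw [Geo2b_anti]; omega)
    have k3 := (hξ _ (hv.bnd hx)).2.2 (Geo2b_self _)
    have k4 := hξ _ (hv.bnd hr)
    have a1 := Geo2b_anti (r - v) (x - v)
    have a2 := Geo2b_anti ξ (b - v)
    have a3 := Geo2b_anti ξ (r - v)
    have a4 := Geo2b_anti ξ (x - v)
    refine ⟨ξ, ⟨k1, by omega⟩, fun h0 => ⟨k3.1 h0, ?_⟩, fun h0 => ⟨k4.1 (by omega), ?_⟩⟩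
    · have := k4.2.1 (by omega)
      omega
    · have := k3.2 h0
      omega
  rcases he with ⟨r, hr⟩ | ⟨r, hr⟩
  · have hu := h.uni _ _ _ hr
    obtain ⟨ξ, k1, k2, -⟩ := key r (h.inT3 hr) (h.inT2 hr) (by omega)
    obtain ⟨rfl, -⟩ := h.corner_unique h1 hr k1 (k2 (by omega))
    rw [Geo2b_self] at c1
    omega
  · have hr' := h.rot _ _ _ hr
    have hu := h.uni _ _ _ hr'
    rw [Geo2b_anti] at hu
    obtain ⟨ξ, k1, -, k2⟩ := key r (h.inT2 hr') (h.inT3 hr') (by omega)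
    obtain ⟨-, rfl⟩ := h.corner_unique h1 hr' k1 (k2 (by omega))
    rw [Geo2b_self] at c2
    omega

theorem Geo2b_prim (h : Tri d S) {v x : V} (hx : Edge S v x) : ∃ u, det (x - v) u = 1 := by
  rcases hx with ⟨r, hr⟩ | ⟨r, hr⟩
  · exact ⟨_, h.uni _ _ _ hr⟩
  · refine ⟨x - r, ?_⟩
    have hu := h.uni _ _ _ hr
    simp only [det, Prod.fst_sub, Prod.snd_sub] at hu ⊢
    linear_combination hu

/-- two edges at `v` in the same direction coincide -/
theorem Tri.edge_eq (h : Tri d S) {v x y : V} (hx : Edge S v x) (hy : Edge S v y)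
    (h0 : det (x - v) (y - v) = 0) (hpos : 0 < (x - v).1 * (y - v).1 + (x - v).2 * (y - v).2) :
    x = y := by
  obtain ⟨u, hu⟩ := Geo2b_prim h hx
  obtain ⟨u', hu'⟩ := Geo2b_prim h hy
  suffices e : x - v = y - v from sub_left_injective e
  generalize x - v = X at *
  generalize y - v = Y at *
  have e1 : Y.1 = det Y u * X.1 := by
    simp only [det] at hu h0 ⊢
    linear_combination (-Y.1) * hu + u.1 * h0
  have e2 : Y.2 = det Y u * X.2 := by
    simp only [det] at hu h0 ⊢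
    linear_combination (-Y.2) * hu + u.2 * h0
  generalize det Y u = k at e1 e2
  have e3 : k * det X u' = 1 := by
    simp only [det] at hu' ⊢
    rw [e1, e2] at hu'
    linear_combination hu'
  rcases Int.eq_one_or_neg_one_of_mul_eq_one e3 with rfl | rfl
  · exact Prod.ext (by omega) (by omega)
  · rw [e1, e2] at hpos
    nlinarith [sq_nonneg X.1, sq_nonneg X.2]

/-- a point of the open edge `pq` pushed into the triangle -/
theorem Geo2b_inside {p q r Z₀ w : V} {N₀ k M : ℤ} (hu : det (q - p) (r - p) = 1) (hk : 0 < k)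
    (hkN : k < N₀) (hZ : Z₀ = N₀ • p + k • (q - p)) (hw : 0 < det (q - p) w)
    (h1 : |det (r - q) w| < M) (h2 : |det (p - r) w| < M) :
    Inside (M * N₀) (M • Z₀ + w) (p, q, r) := by
  have hM : 0 < M := (abs_nonneg _).trans_lt h1
  have e1 : det (q - p) (M • Z₀ + w - (M * N₀) • p) = det (q - p) w := by
    subst hZ
    simp only [det, Prod.fst_sub, Prod.snd_sub, Prod.fst_add, Prod.snd_add, Prod.smul_fst,
      Prod.smul_snd, smul_eq_mul]
    ring
  have e2 : det (r - q) (M • Z₀ + w - (M * N₀) • q) = M * (N₀ - k) + det (r - q) w := by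
    subst hZ
    simp only [det, Prod.fst_sub, Prod.snd_sub, Prod.fst_add, Prod.snd_add, Prod.smul_fst,
      Prod.smul_snd, smul_eq_mul] at hu ⊢
    linear_combination (M * (N₀ - k)) * hu
  have e3 : det (p - r) (M • Z₀ + w - (M * N₀) • r) = M * k + det (p - r) w := by
    subst hZ
    simp only [det, Prod.fst_sub, Prod.snd_sub, Prod.fst_add, Prod.snd_add, Prod.smul_fst,
      Prod.smul_snd, smul_eq_mul] at hu ⊢
    linear_combination (M * k) * hu
  have m1 : M ≤ M * (N₀ - k) := le_mul_of_one_le_right hM.le (by omega)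
  have m2 : M ≤ M * k := le_mul_of_one_le_right hM.le (by omega)
  rw [abs_lt] at h1 h2
  refine ⟨?_, ?_, ?_⟩
  · show 0 < det (q - p) (M • Z₀ + w - (M * N₀) • p)
    omega
  · show 0 < det (r - q) (M • Z₀ + w - (M * N₀) • q)
    omega
  · show 0 < det (p - r) (M • Z₀ + w - (M * N₀) • r)
    omega

theorem Geo2b_sign {x y : ℤ} (h : x * y < 0) (hxy : x < y) : x < 0 ∧ 0 < y := by
  rcases mul_neg_iff.1 h with h | h <;> omega

theorem Geo2b_core (h : Tri d S) {p q r a b c : V} (h1 : (p, q, r) ∈ S) (h2 : (a, b, c) ∈ S)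
    (hD : 0 < det (q - p) (b - a)) : ¬ Cross p q a b := by
  rintro ⟨c1, c2⟩
  have d1 : det (q - p) (b - p) - det (q - p) (a - p) = det (q - p) (b - a) := by
    simp only [det, Prod.fst_sub, Prod.snd_sub]
    ring
  have d2 : det (b - a) (p - a) - det (b - a) (q - a) = det (q - p) (b - a) := by
    simp only [det, Prod.fst_sub, Prod.snd_sub]
    ring
  obtain ⟨s1, s2⟩ := Geo2b_sign c1 (by omega)
  obtain ⟨s3, s4⟩ := Geo2b_sign (by rwa [mul_comm] at c2 :
    det (b - a) (q - a) * det (b - a) (p - a) < 0) (by omega)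
  have hZ : det (q - p) (b - a) • p + det (b - a) (p - a) • (q - p) =
      det (q - p) (b - a) • a + (-det (q - p) (a - p)) • (b - a) := by
    refine Prod.ext ?_ ?_ <;>
    · simp only [det, Prod.fst_sub, Prod.snd_sub, Prod.fst_add, Prod.snd_add, Prod.smul_fst,
        Prod.smul_snd, smul_eq_mul]
      ring
  have w1 : det (q - p) (b - a - (q - p)) = det (q - p) (b - a) := by
    simp only [det, Prod.fst_sub, Prod.snd_sub]
    ring
  have w2 : det (b - a) (b - a - (q - p)) = det (q - p) (b - a) := by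
    simp only [det, Prod.fst_sub, Prod.snd_sub]
    ring
  generalize b - a - (q - p) = w at w1 w2
  obtain ⟨M, m1, m2, m3, m4⟩ : ∃ M : ℤ, |det (r - q) w| < M ∧ |det (p - r) w| < M ∧
      |det (c - b) w| < M ∧ |det (a - c) w| < M := by
    have := abs_nonneg (det (r - q) w)
    have := abs_nonneg (det (p - r) w)
    have := abs_nonneg (det (c - b) w)
    have := abs_nonneg (det (a - c) w)
    exact ⟨|det (r - q) w| + |det (p - r) w| + |det (c - b) w| + |det (a - c) w| + 1,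
      by omega, by omega, by omega, by omega⟩
  have hM : 0 < M := (abs_nonneg _).trans_lt m1
  have i1 := Geo2b_inside (N₀ := det (q - p) (b - a)) (h.uni _ _ _ h1) s4 (by omega) rfl
    (by omega) m1 m2
  have i2 := Geo2b_inside (N₀ := det (q - p) (b - a)) (k := -det (q - p) (a - p))
    (h.uni _ _ _ h2) (by omega) (by omega) hZ (by omega) m3 m4
  rcases h.inside_unique (mul_pos hM hD) h1 h2 i1 i2 with e | e | e
  · obtain ⟨rfl, -⟩ := Prod.mk.inj e
    simp [det] at s1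
  · obtain ⟨rfl, -⟩ := Prod.mk.inj e
    rw [Geo2b_self] at s1
    omega
  · obtain ⟨-, e⟩ := Prod.mk.inj e
    obtain ⟨rfl, -⟩ := Prod.mk.inj e
    simp [det] at s2

theorem Geo2b_swap {p q a b : V} (h : Cross p q a b) : Cross q p a b := by
  obtain ⟨c1, c2⟩ := h
  refine ⟨?_, by rwa [mul_comm]⟩
  have e : det (p - q) (a - q) * det (p - q) (b - q) =
      det (q - p) (a - p) * det (q - p) (b - p) := by
    simp only [det, Prod.fst_sub, Prod.snd_sub]
    ring
  rwa [e]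

theorem Geo2b_dart (h : Tri d S) {p q r a b c : V} (h1 : (p, q, r) ∈ S) (h2 : (a, b, c) ∈ S) :
    ¬ Cross p q a b := fun hc => by
  rcases lt_trichotomy 0 (det (q - p) (b - a)) with hD | hD | hD
  · exact Geo2b_core h h1 h2 hD hc
  · have e : det (q - p) (b - p) = det (q - p) (a - p) := by
      simp only [det, Prod.fst_sub, Prod.snd_sub] at hD ⊢
      linear_combination -hD
    have c1 := hc.1
    rw [e] at c1
    exact absurd c1 (not_lt.2 (mul_self_nonneg _))
  · exact Geo2b_core h h2 h1 (by rw [Geo2b_anti]; omega) ⟨hc.2, hc.1⟩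

/-- Plan: the crossing point is `Z₀ / N₀` with `N₀ = |det (q - p) (b - a)|`; push it into both
triangles and use `inside_unique`; two edges of one triangle share a vertex, so do not cross. -/
theorem Tri.not_cross (h : Tri d S) {p q a b : V} (h1 : Edge S p q) (h2 : Edge S a b) :
    ¬ Cross p q a b := fun hc => by
  have hs : Cross p q b a := by
    have := Geo2b_swap (p := a) (q := b) (a := p) (b := q) ⟨hc.2, hc.1⟩
    exact ⟨this.2, this.1⟩
  rcases h1 with ⟨r, h1⟩ | ⟨r, h1⟩ <;> rcases h2 with ⟨c, h2⟩ | ⟨c, h2⟩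
  · exact Geo2b_dart h h1 h2 hc
  · exact Geo2b_dart h h1 h2 hs
  · exact Geo2b_dart h h1 h2 (Geo2b_swap hc)
  · exact Geo2b_dart h h1 h2 (Geo2b_swap hs)

end Pool.Agent.TC

end

section

/-! Corners at a vertex tile the directions; edges do not cross. -/

open Finset

namespace Pool.Agent.TC

variable {d : ℤ} {S K K' : Finset Tr} {C : Finset (V × V)}

private theorem Geo2_inT (h : Tri d S) {v x : V} (hx : Edge S v x) : InT d v ∧ InT d x := by
  rcases hx with ⟨r, hr⟩ | ⟨r, hr⟩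
  · exact ⟨h.inT _ _ _ hr, h.inT2 hr⟩
  · exact ⟨h.inT2 hr, h.inT _ _ _ hr⟩

private theorem Geo2_arith {p1 p2 q1 q2 : ℤ} (h : p1 * q2 - p2 * q1 = 1) (h1 : 0 < p1 + q1)
    (h2 : 0 < p2 + q2) (hp : ¬ (0 < p2 ∧ 0 < p1)) (hq : ¬ (0 < q2 ∧ 0 < q1)) :
    p1 = 1 ∧ p2 = 0 ∧ q1 = 0 ∧ q2 = 1 := by
  by_cases c : p1 ≤ 0
  · exfalso
    have a1 : 0 < q1 := by omega
    have a2 : q2 ≤ 0 := by omega
    have a3 : (1 - q2) * (1 - p1) ≤ p2 * q1 :=
      mul_le_mul (by omega) (by omega) (by omega) (by omega)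
    nlinarith
  · have a1 : p2 ≤ 0 := by omega
    have a2 : q1 ≤ 0 := by omega
    have a3 : (1 - q1) * (1 - p2) ≤ p1 * q2 :=
      mul_le_mul (by omega) (by omega) (by omega) (by omega)
    have b1 : p2 = 0 := by nlinarith
    have b2 : q1 = 0 := by nlinarith
    subst b1 b2
    have e : p1 * q2 = 1 := by linarith
    refine ⟨Int.eq_one_of_mul_eq_one_right (by omega) e, rfl, rfl,
      Int.eq_one_of_mul_eq_one_left (by omega) e⟩

private theorem Geo2_dec {A B u : V} (h : det A B = 1) :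
    u.1 = det u B * A.1 + det A u * B.1 ∧ u.2 = det u B * A.2 + det A u * B.2 := by
  simp only [det] at *
  constructor
  · linear_combination (-u.1) * h
  · linear_combination (-u.2) * h

/-- if `p`, `q` span a unimodular cone at `v`, both are edges, and an edge lies strictly between
them, then the mediant is an edge (Stern-Brocot). Plan: take the corner `(v,a,b)` containing a
generic perturbation of the mediant `m` (`exists_gen`, `exists_corner`; `Into` because `x` and `p`,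
`q` are in `T` and not all on one side); `m = α a + β b` with `α, β ≥ 0`; if both are positive then
`a`, `b` lie in the closed cone of `p`, `q` (else `p` or `q` is inside the corner), which forces
`a = p`, `b = q`, and then `x` is inside the corner. -/
theorem Tri.mediant (h : Tri d S) {v p q x : V} (hp : Edge S v p) (hq : Edge S v q)
    (hx : Edge S v x) (hd : det (p - v) (q - v) = 1) (hc : Cone (p - v) (q - v) (x - v)) :
    Edge S v (p + q - v) := by
  obtain ⟨iv, ip⟩ := Geo2_inT h hp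
  have iq := (Geo2_inT h hq).2
  have hpos := h.pos
  have hm : det (p - v + (q - v)) (q - v) = 1 := by
    simp only [det, Prod.fst_add, Prod.snd_add] at hd ⊢; linear_combination hd
  obtain ⟨ξ, hg, hξ⟩ := exists_gen d (x := p - v + (q - v)) (y := q - v) (by rw [hm]; decide)
  have hi : Into d v ξ := by
    have u1 := (hξ (1, 0) (by simp [Bnd]; omega)).1
    have u2 := (hξ (0, -1) (by simp [Bnd]; omega)).1
    have u3 := (hξ (1, -1) (by simp [Bnd]; omega)).2.1
    simp only [det, InT, Prod.fst_add, Prod.snd_add, Prod.fst_sub, Prod.snd_sub] at *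
    refine ⟨fun e => ?_, fun e => ?_, fun e => ?_⟩
    · have : ¬ (p.2 = 0 ∧ q.2 = 0) := by
        rintro ⟨e1, e2⟩; rw [e, e1, e2] at hd; simp at hd
      omega
    · have : ¬ (p.1 = 0 ∧ q.1 = 0) := by
        rintro ⟨e1, e2⟩; rw [e, e1, e2] at hd; simp at hd
      omega
    · have : ¬ (p.1 + p.2 = d ∧ q.1 + q.2 = d) := by
        rintro ⟨e1, e2⟩
        have f1 : p.2 - v.2 = -(p.1 - v.1) := by omega
        have f2 : q.2 - v.2 = -(q.1 - v.1) := by omega
        rw [f1, f2] at hd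
        have : (0 : ℤ) = 1 := by linear_combination hd
        omega
      omega
  obtain ⟨a, b, hab, c1, c2⟩ := h.exists_corner iv hg hi
  have hu := h.uni _ _ _ hab
  have ba := hξ (a - v) (iv.bnd (h.inT2 hab))
  have bb := hξ (b - v) (iv.bnd (h.inT3 hab))
  have anti : ∀ u w : V, det u w = -det w u := fun u w => by simp only [det]; ring
  have hβ : 0 ≤ det (a - v) (p - v + (q - v)) := by
    by_contra hn
    have := ba.2.1 (by omega)
    omega
  have hα : 0 ≤ det (p - v + (q - v)) (b - v) := by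
    by_contra hn
    have := bb.1 (by rw [anti]; omega)
    rw [anti] at this
    omega
  obtain ⟨m1, m2⟩ := Geo2_dec (u := p - v + (q - v)) hu
  by_cases e1 : det (a - v) (p - v + (q - v)) = 0
  · rw [e1] at m1 m2
    have k : det (p - v + (q - v)) (b - v) * det (a - v) (q - v) = 1 := by
      rw [← hm]
      conv_rhs => rw [det, m1, m2]
      simp only [det]; ring
    have k1 := Int.eq_one_of_mul_eq_one_right hα k
    rw [k1] at m1 m2
    have : p + q - v = a := by
      simp only [Prod.fst_add, Prod.snd_add, Prod.fst_sub, Prod.snd_sub] at m1 m2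
      ext <;> simp only [Prod.fst_add, Prod.snd_add, Prod.fst_sub, Prod.snd_sub] <;> omega
    rw [this]
    exact Or.inl ⟨b, hab⟩
  by_cases e2 : det (p - v + (q - v)) (b - v) = 0
  · rw [e2] at m1 m2
    have k : det (a - v) (p - v + (q - v)) * det (b - v) (q - v) = 1 := by
      rw [← hm]
      conv_rhs => rw [det, m1, m2]
      simp only [det]; ring
    have k1 := Int.eq_one_of_mul_eq_one_right hβ k
    rw [k1] at m1 m2
    have : p + q - v = b := by
      simp only [Prod.fst_add, Prod.snd_add, Prod.fst_sub, Prod.snd_sub] at m1 m2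
      ext <;> simp only [Prod.fst_add, Prod.snd_add, Prod.fst_sub, Prod.snd_sub] <;> omega
    rw [this]
    exact Or.inr ⟨a, h.rot2 hab⟩
  exfalso
  have s1 : det (p - v + (q - v)) (b - v) = det (p - v) (b - v) + det (q - v) (b - v) := by
    simp only [det, Prod.fst_add, Prod.snd_add]; ring
  have s2 : det (a - v) (p - v + (q - v)) = det (a - v) (p - v) + det (a - v) (q - v) := by
    simp only [det, Prod.fst_add, Prod.snd_add]; ring
  obtain ⟨t1, t2, t3, t4⟩ := Geo2_arith (p1 := det (p - v) (b - v)) (p2 := det (a - v) (p - v))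
    (q1 := det (q - v) (b - v)) (q2 := det (a - v) (q - v))
    (by
      have : det (p - v) (b - v) * det (a - v) (q - v) - det (a - v) (p - v) * det (q - v) (b - v)
          = det (p - v) (q - v) * det (a - v) (b - v) := by simp only [det]; ring
      rw [this, hd, hu]; rfl)
    (by omega) (by omega) (h.not_cone_edge hab hp) (h.not_cone_edge hab hq)
  obtain ⟨n1, n2⟩ := Geo2_dec (u := p - v) hu
  obtain ⟨n3, n4⟩ := Geo2_dec (u := q - v) hu
  rw [t1, t2] at n1 n2
  rw [t3, t4] at n3 n4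
  have ea : p - v = a - v := by ext <;> omega
  have eb : q - v = b - v := by ext <;> omega
  rw [ea, eb] at hc
  exact h.not_cone_edge hab hx hc

theorem Tri.edge_ins (h : Tri d S) {v x : V} (hv : Ins d v) (hx : Edge S v x) :
    (∃ r, (v, x, r) ∈ S) ∧ ∃ s, (x, v, s) ∈ S := by
  rcases hx with ⟨r, hr⟩ | ⟨r, hr⟩
  · exact ⟨⟨r, hr⟩, h.opp _ _ _ hr (by simp only [Ins, Bd] at *; omega)⟩
  · exact ⟨h.opp _ _ _ hr (by simp only [Ins, Bd] at *; omega), ⟨r, hr⟩⟩

end Pool.Agent.TC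

end

section

/-! Telescoping around a vertex. -/

open Finset

namespace Pool.Agent.TC

variable {d : ℤ} {S K : Finset Tr} {C : Finset (V × V)}

theorem Geo3a_pair {G : Type} [AddCommGroup G] (h : Tri d S) {v : V} (P : V → Prop)
    [DecidablePred P] (hP : ∀ x, P x → ¬ Bd d v x) (F : Tr → G) (g : V → G)
    (hF : ∀ x r s, (v, x, r) ∈ S → (v, s, x) ∈ S → P x → F (v, x, r) - F (v, s, x) = g x) :
    ∑ t ∈ S with t.1 = v ∧ P t.2.1, F t - ∑ t ∈ S with t.1 = v ∧ P t.2.2, F t =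
      ∑ t ∈ S with t.1 = v ∧ P t.2.1, g t.2.1 := by
  have ex : ∀ t ∈ S.filter (fun t => t.1 = v ∧ P t.2.1), ∃ s, (v, s, t.2.1) ∈ S := by
    rintro ⟨p, x, r⟩ ht
    rw [mem_filter] at ht
    obtain ⟨ht, hp, hx⟩ := ht
    obtain rfl : p = v := hp
    obtain ⟨s, hs⟩ := h.opp _ _ _ ht (hP x hx)
    exact ⟨s, h.rot _ _ _ hs⟩
  choose! f hf using ex
  have e : ∑ t ∈ S with t.1 = v ∧ P t.2.1, F (v, f t, t.2.1) =
      ∑ t ∈ S with t.1 = v ∧ P t.2.2, F t := by
    refine sum_bij (fun t _ => (v, f t, t.2.1)) (fun t ht => ?_) ?_ ?_ fun _ _ => rfl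
    · exact mem_filter.2 ⟨hf t ht, rfl, (mem_filter.1 ht).2.2⟩
    · rintro ⟨p, x, r⟩ ht ⟨p', x', r'⟩ ht' e
      rw [mem_filter] at ht ht'
      obtain ⟨ht, hp, -⟩ := ht
      obtain ⟨ht', hp', -⟩ := ht'
      obtain rfl : p = v := hp
      obtain rfl : p' = p := hp'
      simp only [Prod.mk.injEq] at e
      obtain ⟨-, -, rfl⟩ := e
      rw [h.uniq _ _ _ _ ht ht']
    · rintro ⟨p, s, x⟩ ht
      rw [mem_filter] at ht
      obtain ⟨ht, hp, hx⟩ := ht
      obtain rfl : p = v := hp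
      have hb : ¬ Bd d x p := fun hb => hP x hx (by unfold Bd at *; tauto)
      obtain ⟨r, hr⟩ := h.opp _ _ _ (h.rot2 ht) hb
      have hm : (p, x, r) ∈ S.filter (fun t => t.1 = p ∧ P t.2.1) := mem_filter.2 ⟨hr, rfl, hx⟩
      refine ⟨(p, x, r), hm, ?_⟩
      rw [h.uniq _ _ _ _ (h.rot2 (hf _ hm)) (h.rot2 ht)]
  rw [← e, ← sum_sub_distrib]
  refine sum_congr rfl ?_
  rintro ⟨p, x, r⟩ ht
  have hs := hf _ ht
  rw [mem_filter] at ht
  obtain ⟨ht, hp, hx⟩ := ht
  obtain rfl : p = v := hp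
  exact hF _ _ _ ht hs hx

/-- full turn around an interior vertex: `(v,x,r) ↦ (v,s,x)` is a bijection of the corners -/
theorem Tri.fan_zero {G : Type} [AddCommGroup G] (h : Tri d S) {v : V} (hv : Ins d v)
    (F : Tr → G) (g : V → G)
    (hF : ∀ x r s, (v, x, r) ∈ S → (v, s, x) ∈ S → F (v, x, r) - F (v, s, x) = g x) :
    ∑ t ∈ S with t.1 = v, g t.2.1 = 0 := by
  have e := Geo3a_pair h (v := v) (fun _ => True) (fun x _ hb => by
    unfold Ins at hv; unfold Bd at hb; omega) F g fun x r s h1 h2 _ => hF x r s h1 h2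
  simp only [and_true, sub_self] at e
  exact e.symm

/-- local identity for two cones of angle `< π` -/
theorem cone_id {a b ξ ξ' : V} (hab : 0 < det a b) (hξ : 0 < det ξ ξ') (h1 : det a ξ ≠ 0)
    (h2 : det a ξ' ≠ 0) (h3 : det b ξ ≠ 0) (h4 : det b ξ' ≠ 0) :
    ((if Cone ξ ξ' a then 1 else 0) - (if Cone ξ ξ' b then 1 else 0) : ℤ) =
      (if Cone a b ξ' then 1 else 0) - if Cone a b ξ then 1 else 0 := by
  have e : det a b * det ξ ξ' = det a ξ * det b ξ' - det a ξ' * det b ξ := by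
    unfold det; ring
  have e0 := mul_pos hab hξ
  have s1 : det ξ a = -det a ξ := by unfold det; ring
  have s2 : det ξ b = -det b ξ := by unfold det; ring
  have s3 : det ξ' b = -det b ξ' := by unfold det; ring
  rw [e] at e0
  simp only [Cone, s1, s2, s3]
  generalize det a ξ = A at *
  generalize det a ξ' = A' at *
  generalize det b ξ = B at *
  generalize det b ξ' = B' at *
  have k1 : ¬ (0 < A ∧ 0 < A' ∧ 0 < B ∧ B' < 0) := fun ⟨_, _, _, _⟩ => by nlinarith
  have k2 : ¬ (0 < A ∧ A' < 0 ∧ B < 0 ∧ B' < 0) := fun ⟨_, _, _, _⟩ => by nlinarith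
  have k3 : ¬ (A < 0 ∧ 0 < A' ∧ 0 < B ∧ 0 < B') := fun ⟨_, _, _, _⟩ => by nlinarith
  have k4 : ¬ (A < 0 ∧ A' < 0 ∧ B < 0 ∧ 0 < B') := fun ⟨_, _, _, _⟩ => by nlinarith
  clear e e0 s1 s2 s3
  split_ifs <;> omega

theorem Geo3a_gen (h : Tri d S) {v x r ξ : V} (hg : Gen d ξ) (ht : (v, x, r) ∈ S) :
    det (x - v) ξ ≠ 0 ∧ det (r - v) ξ ≠ 0 := by
  have hu := h.uni _ _ _ ht
  refine ⟨hg _ (fun e => ?_) ((h.inT _ _ _ ht).bnd (h.inT2 ht)),
    hg _ (fun e => ?_) ((h.inT _ _ _ ht).bnd (h.inT3 ht))⟩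
  · rw [e] at hu; simp [det] at hu
  · rw [e] at hu; simp [det] at hu

theorem Geo3a_one {G : Type} [AddCommGroup G] (h : Tri d S) {v ξ a b : V} (h1 : (v, a, b) ∈ S)
    (c1 : Cone (a - v) (b - v) ξ) (F : Tr → G) :
    ∑ t ∈ S with t.1 = v, (if Cone (t.2.1 - v) (t.2.2 - v) ξ then 1 else 0 : ℤ) • F t =
      F (v, a, b) := by
  have hm : (v, a, b) ∈ S.filter fun t => t.1 = v := mem_filter.2 ⟨h1, rfl⟩
  rw [sum_eq_single_of_mem (v, a, b) hm, if_pos c1, one_smul]
  rintro ⟨p, x, r⟩ ht hne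
  rw [mem_filter] at ht
  obtain ⟨ht, hp⟩ := ht
  obtain rfl : p = v := hp
  rw [if_neg, zero_smul]
  intro c
  obtain ⟨rfl, rfl⟩ := h.corner_unique ht h1 c c1
  exact hne rfl

theorem Geo3a_nbd {v ξ ξ' x : V} (i1 : Into d v ξ) (i2 : Into d v ξ')
    (c : Cone ξ ξ' (x - v)) : ¬ Bd d v x := by
  obtain ⟨c1, c2⟩ := c
  have e1 : (x - v).1 * det ξ ξ' = det (x - v) ξ' * ξ.1 + det ξ (x - v) * ξ'.1 := by
    unfold det; ring
  have e2 : (x - v).2 * det ξ ξ' = det (x - v) ξ' * ξ.2 + det ξ (x - v) * ξ'.2 := by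
    unfold det; ring
  rw [Prod.fst_sub] at e1
  rw [Prod.snd_sub] at e2
  rintro (⟨b1, b2⟩ | ⟨b1, b2⟩ | ⟨b1, b2⟩)
  · have := mul_pos c2 (i1.1 b1)
    have := mul_pos c1 (i2.1 b1)
    rw [b1, b2] at e2
    linarith
  · have := mul_neg_of_pos_of_neg c2 (i1.2.2 b1)
    have := mul_neg_of_pos_of_neg c1 (i2.2.2 b1)
    have e3 : (x.1 - v.1 + (x.2 - v.2)) * det ξ ξ' = 0 := by
      rw [show x.1 - v.1 + (x.2 - v.2) = 0 by omega, zero_mul]
    linarith
  · have := mul_pos c2 (i1.2.1 b1)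
    have := mul_pos c1 (i2.2.1 b1)
    rw [b1, b2] at e1
    linarith

/-- partial turn. Plan: sum `cone_id • F` over the corners at `v`; right side by `corner_unique`;
on the left match `(v,x,r)` with `(v,s,x)` for `x - v` in the cone (such an edge is not a boundary
edge by `into_of_cone`). -/
theorem Tri.fan_sum {G : Type} [AddCommGroup G] (h : Tri d S) {v ξ ξ' a b a' b' : V}
    (hg : Gen d ξ) (hg' : Gen d ξ') (hξ : 0 < det ξ ξ') (h1 : (v, a, b) ∈ S)
    (h2 : (v, a', b') ∈ S) (c1 : Cone (a - v) (b - v) ξ) (c2 : Cone (a' - v) (b' - v) ξ')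
    (F : Tr → G) (g : V → G)
    (hF : ∀ x r s, (v, x, r) ∈ S → (v, s, x) ∈ S → Cone ξ ξ' (x - v) →
      F (v, x, r) - F (v, s, x) = g x) :
    F (v, a', b') - F (v, a, b) = ∑ t ∈ S with t.1 = v ∧ Cone ξ ξ' (t.2.1 - v), g t.2.1 := by
  rw [← Geo3a_pair h (v := v) (fun x => Cone ξ ξ' (x - v))
    (fun x c => Geo3a_nbd (h.into_of_cone h1 c1) (h.into_of_cone h2 c2) c) F g hF,
    ← Geo3a_one h h1 c1 F, ← Geo3a_one h h2 c2 F, ← filter_filter, ← filter_filter,
    sum_filter (fun t : Tr => Cone ξ ξ' (t.2.1 - v)),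
    sum_filter (fun t : Tr => Cone ξ ξ' (t.2.2 - v)), ← sum_sub_distrib, ← sum_sub_distrib]
  refine sum_congr rfl ?_
  rintro ⟨p, x, r⟩ ht
  rw [mem_filter] at ht
  obtain ⟨ht, hp⟩ := ht
  obtain rfl : p = v := hp
  obtain ⟨g1, g2⟩ := Geo3a_gen h hg ht
  obtain ⟨g3, g4⟩ := Geo3a_gen h hg' ht
  have hu : 0 < det (x - p) (r - p) := by rw [h.uni _ _ _ ht]; exact one_pos
  rw [← sub_smul, ← cone_id hu hξ g1 g3 g2 g4, sub_smul]
  simp only [ite_smul, one_smul, zero_smul]

/-- the corners at a vertex are connected (choose generic `ξ`, `ξ'` in the two corners with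
`det ξ ξ' ≠ 0`) -/
theorem Tri.fan_conn {G : Type} (h : Tri d S) {v : V} (F : Tr → G)
    (hF : ∀ x r s, (v, x, r) ∈ S → (v, s, x) ∈ S → F (v, x, r) = F (v, s, x)) {a b a' b' : V}
    (h1 : (v, a, b) ∈ S) (h2 : (v, a', b') ∈ S) : F (v, a, b) = F (v, a', b') := by
  classical
  obtain ⟨ξ, hg, c1⟩ := h.exists_gen_cone h1
  have hu := h.uni _ _ _ h2
  have hd := h.pos
  have n1 := abs_nonneg ξ.1
  have n2 := abs_nonneg ξ.2
  have mono : ∀ u, Bnd d u → Bnd (d + |ξ.1| + |ξ.2|) u := fun u hu => by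
    unfold Bnd at *; omega
  have e1 : det (a' - v) (a' - v + (b' - v)) = 1 := by
    rw [← hu]; simp only [det, Prod.fst_add, Prod.snd_add]; ring
  have e2 : det (b' - v) (a' - v + (b' - v)) = -1 := by
    rw [← hu]; simp only [det, Prod.fst_add, Prod.snd_add]; ring
  have e3 : det (a' - v + (b' - v)) (a' - v) = -1 := by
    rw [← hu]; simp only [det, Prod.fst_add, Prod.snd_add]; ring
  obtain ⟨ξ', hg', hs⟩ := exists_gen (d + |ξ.1| + |ξ.2|) (x := a' - v + (b' - v)) (y := a' - v)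
    (by rw [e3]; norm_num)
  have hv := h.inT _ _ _ h2
  have c2 : Cone (a' - v) (b' - v) ξ' := by
    refine ⟨(hs _ (mono _ (hv.bnd (h.inT2 h2)))).1 (by rw [e1]; norm_num), ?_⟩
    have := (hs _ (mono _ (hv.bnd (h.inT3 h2)))).2.1 (by rw [e2]; norm_num)
    unfold det at *
    linarith
  have hg2 : Gen d ξ' := fun u h0 hb => hg' u h0 (mono u hb)
  have hne : det ξ ξ' ≠ 0 := by
    refine hg' ξ (fun e => ?_) (by unfold Bnd; omega)
    have := c1.1
    rw [e] at this
    simp [det] at this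
  have key : (if F (v, a', b') = F (v, a, b) then 1 else 0 : ℤ) =
      if F (v, a, b) = F (v, a, b) then 1 else 0 := by
    rcases lt_or_gt_of_ne hne with hlt | hgt
    · have := h.fan_sum hg2 hg (by unfold det at *; linarith) h2 h1 c2 c1
        (fun t => (if F t = F (v, a, b) then 1 else 0 : ℤ)) (fun _ => 0)
        fun x r s k1 k2 _ => by rw [hF x r s k1 k2, sub_self]
      rw [sum_const_zero, sub_eq_zero] at this
      exact this.symm
    · have := h.fan_sum hg hg2 hgt h1 h2 c1 c2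
        (fun t => (if F t = F (v, a, b) then 1 else 0 : ℤ)) (fun _ => 0)
        fun x r s k1 k2 _ => by rw [hF x r s k1 k2, sub_self]
      rw [sum_const_zero, sub_eq_zero] at this
      exact this
  rw [if_pos rfl] at key
  by_contra hc
  rw [if_neg fun e => hc e.symm] at key
  exact zero_ne_one key

end Pool.Agent.TC

end

section

/-! Telescoping around a vertex. -/

open Finset

namespace Pool.Agent.TC

variable {d : ℤ} {S K : Finset Tr} {C : Finset (V × V)}

/-- a closed set contains all corners at a chord-free vertex it touches -/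
theorem Cl.fan (hK : Cl S C K) (h : Tri d S) (hC : ∀ p q, (p, q) ∈ C → (q, p) ∈ C) {v : V}
    (hv : ∀ z, (v, z) ∉ C) {a b a' b' : V} (h1 : (v, a, b) ∈ K) (h2 : (v, a', b') ∈ S) :
    (v, a', b') ∈ K := by
  have key := h.fan_conn (v := v) (fun t => t ∈ K) (fun x r s hx hs => by
    apply propext
    constructor
    · intro hk
      exact hK.rot _ _ _ (hK.cl v x r s hk (h.rot2 hs) (hv x))
    · intro hk
      exact hK.cl x v s r (hK.rot2 hk) hx (fun hc => hv x (hC _ _ hc))) (hK.sub h1) h2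
  exact key ▸ h1

/-- a function of the triangle that does not change across non-chord edges is constant on a
zone -/
theorem St.const {G : Type} (h : St d C S K) (I : Tr → G) (hI : RotInv S I)
    (hc : ∀ p q r s, (p, q, r) ∈ K → (q, p, s) ∈ S → (p, q) ∉ C → I (p, q, r) = I (q, p, s))
    {t t' : Tr} (ht : t ∈ K) (ht' : t' ∈ K) : I t = I t' := by
  classical
  have hcl : Cl S C (K.filter fun u => I u = I t) := by
    refine ⟨fun u hu => h.cl.sub (mem_filter.1 hu).1, ?_, ?_⟩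
    · intro p q r hu
      obtain ⟨h1, h2⟩ := mem_filter.1 hu
      exact mem_filter.2 ⟨h.cl.rot _ _ _ h1, (hI p q r (h.cl.sub h1)).trans h2⟩
    · intro p q r s hu hs hn
      obtain ⟨h1, h2⟩ := mem_filter.1 hu
      exact mem_filter.2 ⟨h.cl.cl p q r s h1 hs hn, (hc p q r s h1 hs hn).symm.trans h2⟩
  have e := h.min _ (filter_subset _ _) hcl ⟨t, mem_filter.2 ⟨ht, rfl⟩⟩
  rw [← e] at ht'
  exact (mem_filter.1 ht').2.symm

/-- closed sets are disjoint unions of zones (strong induction on the cardinality; a minimal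
nonempty closed subset is a zone, its complement is closed) -/
theorem Cl.induction (h : Tri d S) (hC : Ch d S C) (P : Finset Tr → Prop) (h0 : P ∅)
    (hs : ∀ K₁ K₂, St d C S K₁ → Cl S C K₂ → Disjoint K₁ K₂ → P K₂ → P (K₁ ∪ K₂))
    (hK : Cl S C K) : P K := by
  classical
  induction hn : K.card using Nat.strong_induction_on generalizing K with
  | _ n ih =>
    rcases K.eq_empty_or_nonempty with rfl | hne
    · exact h0
    obtain ⟨K₁, hK₁, hmin⟩ := exists_min_image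
      (K.powerset.filter fun L => Cl S C L ∧ L.Nonempty) card
      ⟨K, mem_filter.2 ⟨mem_powerset.2 (Subset.refl _), hK, hne⟩⟩
    obtain ⟨hsub, hcl, hne1⟩ := mem_filter.1 hK₁
    rw [mem_powerset] at hsub
    have hst : St d C S K₁ := by
      refine ⟨h, hC, hcl, hne1, fun L hL hLc hLn => ?_⟩
      exact eq_of_subset_of_card_le hL
        (hmin L (mem_filter.2 ⟨mem_powerset.2 (hL.trans hsub), hLc, hLn⟩))
    have hcl2 : Cl S C (K \ K₁) := by
      refine ⟨fun u hu => hK.sub (mem_sdiff.1 hu).1, ?_, ?_⟩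
      · intro p q r hu
        obtain ⟨h1, h2⟩ := mem_sdiff.1 hu
        exact mem_sdiff.2 ⟨hK.rot _ _ _ h1, fun h3 => h2 (hcl.rot2 h3)⟩
      · intro p q r s hu hs' hn'
        obtain ⟨h1, h2⟩ := mem_sdiff.1 hu
        exact mem_sdiff.2 ⟨hK.cl p q r s h1 hs' hn', fun h3 =>
          h2 (hcl.cl q p s r h3 (hK.sub h1) fun h4 => hn' (hC.symm _ _ h4))⟩
    have hlt : (K \ K₁).card < n := by
      rw [← hn]
      exact card_lt_card (sdiff_ssubset hsub hne1)
    have := hs K₁ (K \ K₁) hst hcl2 disjoint_sdiff (ih _ hlt hcl2 rfl)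
    rwa [union_sdiff_of_subset hsub] at this

theorem sum_bdK_union {G : Type} [AddCommMonoid G] (h : Tri d S) {K₁ K₂ : Finset Tr}
    (h1 : K₁ ⊆ S) (h2 : K₂ ⊆ S) (hd : Disjoint K₁ K₂) (g : V × V → G) :
    ∑ x ∈ bdK d C (K₁ ∪ K₂), g x = ∑ x ∈ bdK d C K₁, g x + ∑ x ∈ bdK d C K₂, g x := by
  have e : bdK d C (K₁ ∪ K₂) = bdK d C K₁ ∪ bdK d C K₂ := by
    unfold bdK
    rw [filter_union, image_union]
  rw [e, sum_union]
  rw [disjoint_left]
  rintro ⟨p, q⟩ ha hb
  obtain ⟨⟨r, hr⟩, -⟩ := mem_bdK.1 ha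
  obtain ⟨⟨r', hr'⟩, -⟩ := mem_bdK.1 hb
  obtain rfl := h.uniq p q r r' (h1 hr) (h2 hr')
  exact disjoint_left.1 hd hr hr'

/-- parity: a unimodular triangle has at most one even vertex, its vertices have distinct
classes -/
theorem Tri.ev_two (h : Tri d S) {p q r : V} (ht : (p, q, r) ∈ S) (hp : Ev p) :
    ¬ Ev q ∧ ¬ Ev r := by
  have hd := h.uni p q r ht
  obtain ⟨p1, p2⟩ := p
  obtain ⟨q1, q2⟩ := q
  obtain ⟨r1, r2⟩ := r
  simp only [det, Ev, Prod.fst_sub, Prod.snd_sub] at *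
  constructor
  · rintro ⟨a1, a2⟩
    obtain ⟨x, hx⟩ : ∃ x, q1 - p1 = 2 * x := ⟨(q1 - p1) / 2, by omega⟩
    obtain ⟨y, hy⟩ : ∃ y, q2 - p2 = 2 * y := ⟨(q2 - p2) / 2, by omega⟩
    rw [hx, hy] at hd
    have : 2 * (x * (r2 - p2) - y * (r1 - p1)) = 1 := by linear_combination hd
    omega
  · rintro ⟨a1, a2⟩
    obtain ⟨x, hx⟩ : ∃ x, r1 - p1 = 2 * x := ⟨(r1 - p1) / 2, by omega⟩
    obtain ⟨y, hy⟩ : ∃ y, r2 - p2 = 2 * y := ⟨(r2 - p2) / 2, by omega⟩
    rw [hx, hy] at hd
    have : 2 * ((q1 - p1) * y - (q2 - p2) * x) = 1 := by linear_combination hd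
    omega

/-- `|K| = 3 #even triangles + |odd triples|` and the count of odd-odd darts -/
theorem Cl.card_split (hK : Cl S C K) (h : Tri d S) :
    K.card = 3 * (K.filter fun t => Ev t.1).card +
        (K.filter fun t => ¬ Ev t.1 ∧ ¬ Ev t.2.1 ∧ ¬ Ev t.2.2).card ∧
      (K.filter fun t => ¬ Ev t.1 ∧ ¬ Ev t.2.1).card = (K.filter fun t => Ev t.1).card +
        (K.filter fun t => ¬ Ev t.1 ∧ ¬ Ev t.2.1 ∧ ¬ Ev t.2.2).card ∧
      (K.filter fun t => Ev t.2.1).card = (K.filter fun t => Ev t.1).card := by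
  have hB : (K.filter fun t => Ev t.2.1).card = (K.filter fun t => Ev t.1).card := by
    refine card_bij' (fun t _ => (t.2.1, t.2.2, t.1)) (fun t _ => (t.2.2, t.1, t.2.1)) ?_ ?_ ?_ ?_
    · rintro ⟨p, q, r⟩ hu
      obtain ⟨h1, h2⟩ := mem_filter.1 hu
      exact mem_filter.2 ⟨hK.rot _ _ _ h1, h2⟩
    · rintro ⟨p, q, r⟩ hu
      obtain ⟨h1, h2⟩ := mem_filter.1 hu
      exact mem_filter.2 ⟨hK.rot2 h1, h2⟩
    · rintro ⟨p, q, r⟩ _; rfl
    · rintro ⟨p, q, r⟩ _; rfl
  have hD : (K.filter fun t => Ev t.2.2).card = (K.filter fun t => Ev t.1).card := by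
    refine card_bij' (fun t _ => (t.2.2, t.1, t.2.1)) (fun t _ => (t.2.1, t.2.2, t.1)) ?_ ?_ ?_ ?_
    · rintro ⟨p, q, r⟩ hu
      obtain ⟨h1, h2⟩ := mem_filter.1 hu
      exact mem_filter.2 ⟨hK.rot2 h1, h2⟩
    · rintro ⟨p, q, r⟩ hu
      obtain ⟨h1, h2⟩ := mem_filter.1 hu
      exact mem_filter.2 ⟨hK.rot _ _ _ h1, h2⟩
    · rintro ⟨p, q, r⟩ _; rfl
    · rintro ⟨p, q, r⟩ _; rfl
  have key : ∀ t ∈ K, (Ev t.1 → ¬ Ev t.2.1 ∧ ¬ Ev t.2.2) ∧ (Ev t.2.1 → ¬ Ev t.2.2) := by
    rintro ⟨p, q, r⟩ ht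
    exact ⟨h.ev_two (hK.sub ht), fun hq => (h.ev_two (h.rot _ _ _ (hK.sub ht)) hq).1⟩
  have s1 : K.card = (K.filter fun t => Ev t.1).card + (K.filter fun t => Ev t.2.1).card +
      (K.filter fun t => Ev t.2.2).card +
      (K.filter fun t => ¬ Ev t.1 ∧ ¬ Ev t.2.1 ∧ ¬ Ev t.2.2).card := by
    simp only [card_filter]
    rw [← sum_add_distrib, ← sum_add_distrib, ← sum_add_distrib, card_eq_sum_ones]
    refine sum_congr rfl fun t ht => ?_
    have := key t ht
    by_cases a : Ev t.1 <;> by_cases b : Ev t.2.1 <;> by_cases c : Ev t.2.2 <;> simp_all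
  have s2 : (K.filter fun t => ¬ Ev t.1 ∧ ¬ Ev t.2.1).card = (K.filter fun t => Ev t.2.2).card +
      (K.filter fun t => ¬ Ev t.1 ∧ ¬ Ev t.2.1 ∧ ¬ Ev t.2.2).card := by
    simp only [card_filter]
    rw [← sum_add_distrib]
    refine sum_congr rfl fun t ht => ?_
    have := key t ht
    by_cases a : Ev t.1 <;> by_cases b : Ev t.2.1 <;> by_cases c : Ev t.2.2 <;> simp_all
  refine ⟨by omega, by omega, hB⟩

end Pool.Agent.TC

end

section

/-! Telescoping around a vertex. -/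

open Finset

namespace Pool.Agent.TC

variable {d : ℤ} {S K : Finset Tr} {C : Finset (V × V)}

theorem Geo3_sum (a : ℤ) {n : ℤ} (hn : 0 ≤ n) :
    2 * ∑ x ∈ Ioc 0 n, (a - x) = 2 * a * n - n * (n + 1) := by
  induction n, hn using Int.leInduction with
  | base => simp
  | succ n hn ih =>
    have h : Ioc 0 (n + 1) = insert (n + 1) (Ioc 0 n) := by
      ext x; simp only [mem_Ioc, mem_insert]; omega
    rw [h, sum_insert (by simp)]
    linear_combination ih

theorem Geo3_pts (hd : 0 < d) : (2 * (pts d).card : ℤ) = (d + 1) * (d + 2) := by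
  have h1 : ((pts d).card : ℤ) = ∑ x ∈ Icc 0 d, (d + 1 - x) := by
    rw [card_eq_sum_ones, sum_finset_product (pts d) (Icc 0 d) (fun x => Icc 0 (d - x)) (by
      intro p; simp only [mem_pts, InT, mem_Icc]; omega)]
    push_cast
    refine sum_congr rfl fun x hx => ?_
    rw [mem_Icc] at hx
    rw [sum_const, Int.card_Icc, nsmul_one, Int.toNat_of_nonneg (by omega)]
    ring
  have h2 : Icc 0 d = insert 0 (Ioc 0 d) := by
    ext x; simp only [mem_Ioc, mem_insert, mem_Icc]; omega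
  rw [h1, h2, sum_insert (by simp)]
  linear_combination Geo3_sum (d + 1) hd.le

theorem card_ins (hd : 0 < d) : (2 * ((pts d).filter (Ins d)).card : ℤ) = (d - 1) * (d - 2) := by
  have h1 : (((pts d).filter (Ins d)).card : ℤ) = ∑ x ∈ Ioc 0 (d - 1), (d - 1 - x) := by
    rw [card_eq_sum_ones, sum_finset_product ((pts d).filter (Ins d)) (Ioc 0 (d - 1))
      (fun x => Ioc 0 (d - 1 - x)) (by
      intro p; simp only [mem_filter, mem_pts, InT, Ins, mem_Ioc]; omega)]
    push_cast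
    refine sum_congr rfl fun x hx => ?_
    rw [mem_Ioc] at hx
    rw [sum_const, Int.card_Ioc, nsmul_one, Int.toNat_of_nonneg (by omega)]
    ring
  rw [h1]
  linear_combination Geo3_sum (d - 1) (show 0 ≤ d - 1 by omega)

theorem sum_wt (hd : 0 < d) : ∑ p ∈ pts d, wt d p = 2 * d ^ 2 + 1 := by
  have h1 : ∀ p ∈ pts d, wt d p = 2 + 2 * (if Ins d p then 1 else 0) -
      (if p = (0, 0) ∨ p = (d, 0) ∨ p = (0, d) then 1 else 0) := by
    intro p _
    unfold wt
    by_cases h : Ins d p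
    · have h' : ¬ (p = (0, 0) ∨ p = (d, 0) ∨ p = (0, d)) := by
        rintro (rfl | rfl | rfl) <;> simp [Ins] at h
      simp [h, h']
    · by_cases h' : p = (0, 0) ∨ p = (d, 0) ∨ p = (0, d) <;> simp [h, h']
  have h2 : (pts d).filter (fun p => p = (0, 0) ∨ p = (d, 0) ∨ p = (0, d)) =
      {(0, 0), (d, 0), (0, d)} := by
    ext p
    simp only [mem_filter, mem_pts, mem_insert, mem_singleton, and_iff_right_iff_imp]
    rintro (rfl | rfl | rfl) <;> simp [InT, hd.le]
  have h3 : ({(0, 0), (d, 0), (0, d)} : Finset V).card = 3 := by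
    rw [card_eq_three]
    refine ⟨_, _, _, ?_, ?_, ?_, rfl⟩ <;> simp [hd.ne, hd.ne']
  rw [sum_congr rfl h1, sum_sub_distrib, sum_add_distrib, ← mul_sum, sum_boole, sum_boole, h2, h3,
    sum_const, nsmul_eq_mul]
  push_cast
  linear_combination Geo3_pts hd + card_ins hd

theorem sum_wt_ev {k : ℤ} (hk : 0 < k) :
    ∑ p ∈ (pts (2 * k)).filter Ev, wt (2 * k) p = 2 * k ^ 2 + 1 := by
  rw [← sum_wt hk]
  symm
  refine sum_bij (fun p _ => ((2 * p.1, 2 * p.2) : V)) (fun p hp => ?_) (fun p _ q _ h => ?_)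
    (fun q hq => ?_) fun p _ => ?_
  · simp only [mem_filter, mem_pts, InT, Ev] at hp ⊢
    omega
  · simp only [Prod.mk.injEq] at h
    exact Prod.ext (by omega) (by omega)
  · simp only [mem_filter, mem_pts, InT, Ev] at hq
    refine ⟨(q.1 / 2, q.2 / 2), ?_, Prod.ext ?_ ?_⟩
    · simp only [mem_pts, InT]; omega
    · simp only; omega
    · simp only; omega
  · obtain ⟨x, y⟩ := p
    have e1 : Ins (2 * k) (2 * x, 2 * y) ↔ Ins k (x, y) := by simp only [Ins]; omega
    have e2 : (((2 * x, 2 * y) : V) = (0, 0) ∨ ((2 * x, 2 * y) : V) = (2 * k, 0) ∨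
        ((2 * x, 2 * y) : V) = (0, 2 * k)) ↔
        (((x, y) : V) = (0, 0) ∨ ((x, y) : V) = (k, 0) ∨ ((x, y) : V) = (0, k)) := by
      simp only [Prod.mk.injEq]; omega
    simp only [wt, e1, e2]

end Pool.Agent.TC

end

section

/-! An abstract Euler inequality over `𝔽₂`. Darts `D` with a free involution `ι`, left cells
`tri`, tails `tl` (`none`: ignored). -/

open Finset Module

namespace Pool.Agent.TC

section
variable {D X W Q : Type} [Fintype D] [Fintype X] [Fintype W] [Fintype Q] [DecidableEq W]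
  (ι : D → D) (tri : D → X) (tl : D → Option W) (π : W → Option Q)

/-- `ι`-invariant cochains -/
def Lin_Y (ι : D → D) : Submodule (ZMod 2) (D → ZMod 2) where
  carrier := {y | ∀ x, y (ι x) = y x}
  add_mem' := fun ha hb x => by simp only [Pi.add_apply, ha x, hb x]
  zero_mem' := fun _ => rfl
  smul_mem' := fun c _ ha x => by simp only [Pi.smul_apply, ha x]

theorem Lin_two : ∀ a b : ZMod 2, a + b = 0 → a = b := by decide

theorem Lin_rankY (hι : ∀ x, ι (ι x) = x) (hne : ∀ x, ι x ≠ x) :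
    2 * finrank (ZMod 2) (Lin_Y ι) ≤ Fintype.card D := by
  classical
  let f := Fintype.equivFin D
  let P : D → Prop := fun x => f x < f (ι x)
  have hP : ∀ x, ¬ P x → P (ι x) := fun x hx => by
    have h1 : f (ι x) ≠ f x := fun h => hne x (f.injective h)
    simp only [P, hι] at hx ⊢
    exact lt_of_le_of_ne (not_lt.1 hx) h1
  let R : Lin_Y ι →ₗ[ZMod 2] ({x // P x} → ZMod 2) :=
    (LinearMap.funLeft (ZMod 2) (ZMod 2) Subtype.val).comp (Lin_Y ι).subtype
  have hR : Function.Injective R := by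
    rw [injective_iff_map_eq_zero]
    intro y hy
    ext x
    by_cases hx : P x
    · exact congrFun hy ⟨x, hx⟩
    · have h2 : y.1 (ι x) = 0 := congrFun hy ⟨ι x, hP x hx⟩
      rw [y.2 x] at h2
      exact h2
  have h1 := LinearMap.finrank_le_finrank_of_injective hR
  rw [finrank_fintype_fun_eq_card] at h1
  have h2 : Fintype.card {x // P x} ≤ Fintype.card {x // ¬ P x} := by
    refine Fintype.card_le_of_injective (fun x => ⟨ι x.1, ?_⟩) ?_
    · have := x.2
      simp only [P, hι] at this ⊢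
      exact not_lt.2 this.le
    · intro a b hab
      have h3 : ι a.1 = ι b.1 := congrArg Subtype.val hab
      have h4 := congrArg ι h3
      rw [hι, hι] at h4
      exact Subtype.ext h4
  have h3 := Fintype.card_subtype_compl P
  have h4 := Fintype.card_subtype_le P
  omega

theorem Lin_core (hι : ∀ x, ι (ι x) = x) (hne : ∀ x, ι x ≠ x)
    (h0 : ∀ (u : X → ZMod 2) (w : W),
      ∑ x with tl x = some w, (u (tri x) + u (tri (ι x))) = 0)
    (h2 : ∀ u : X → ZMod 2, (∀ x, u (tri x) = u (tri (ι x))) → ∀ a b, u a = u b)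
    (h1 : ∀ φ : W → ZMod 2, (∀ x, (tl x).elim 0 φ = (tl (ι x)).elim 0 φ) →
      ∃ ψ : Q → ZMod 2, ∀ w, φ w = (π w).elim 0 ψ) :
    ∃ A B : Submodule (ZMod 2) (Lin_Y ι), A ≤ B ∧ Fintype.card X ≤ finrank (ZMod 2) A + 1 ∧
      2 * (finrank (ZMod 2) B + Fintype.card W) ≤ Fintype.card D + 2 * Fintype.card Q ∧
      (∀ y ∈ A, ∃ u : X → ZMod 2, ∀ x, y.1 x = u (tri x) + u (tri (ι x))) ∧
      ∀ y : Lin_Y ι, (∀ w, ∑ x with tl x = some w, y.1 x = 0) → y ∈ B := by
  classical
  let d2 : (X → ZMod 2) →ₗ[ZMod 2] Lin_Y ι :=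
    { toFun := fun u => ⟨fun x => u (tri x) + u (tri (ι x)), fun x => by
        simp only [hι, add_comm]⟩
      map_add' := fun u v => by
        ext x
        simp only [Pi.add_apply, Submodule.coe_add]
        ring
      map_smul' := fun c u => by
        ext x
        simp only [Pi.smul_apply, smul_eq_mul, RingHom.id_apply, SetLike.val_smul]
        ring }
  let d1 : Lin_Y ι →ₗ[ZMod 2] (W → ZMod 2) :=
    { toFun := fun y w => ∑ x with tl x = some w, y.1 x
      map_add' := fun u v => by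
        ext w
        simp [sum_add_distrib]
      map_smul' := fun c u => by
        ext w
        simp [mul_sum] }
  refine ⟨LinearMap.range d2, LinearMap.ker d1, ?_, ?_, ?_, ?_, ?_⟩
  · rintro _ ⟨u, rfl⟩
    rw [LinearMap.mem_ker]
    ext w
    exact h0 u w
  · have e1 := LinearMap.finrank_range_add_finrank_ker d2
    rw [finrank_fintype_fun_eq_card] at e1
    have e2 : LinearMap.ker d2 ≤ Submodule.span (ZMod 2) {fun _ => 1} := by
      intro u hu
      rw [LinearMap.mem_ker] at hu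
      have hc := h2 u fun x => Lin_two _ _ (congrFun (congrArg Subtype.val hu) x)
      rw [Submodule.mem_span_singleton]
      rcases isEmpty_or_nonempty X with hX | ⟨⟨a⟩⟩
      · exact ⟨0, Subsingleton.elim _ _⟩
      · exact ⟨u a, funext fun b => by simp [hc a b]⟩
    have e3 := Submodule.finrank_mono e2
    have e4 : finrank (ZMod 2) (Submodule.span (ZMod 2) {(fun _ => 1 : X → ZMod 2)}) ≤ 1 :=
      (finrank_span_le_card _).trans (by simp)
    omega
  · have e1 := LinearMap.finrank_range_add_finrank_ker d1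
    have e2 := Lin_rankY ι hι hne
    have e3 := Subspace.finrank_add_finrank_dualAnnihilator_eq (LinearMap.range d1)
    rw [finrank_fintype_fun_eq_card] at e3
    let G : Dual (ZMod 2) (W → ZMod 2) →ₗ[ZMod 2] (W → ZMod 2) :=
      { toFun := fun φ w => φ (Pi.single w 1)
        map_add' := fun _ _ => rfl
        map_smul' := fun _ _ => rfl }
    have hG : Function.Injective G := by
      rw [injective_iff_map_eq_zero]
      intro φ hφ
      ext w
      have h : φ (Pi.single w 1) = 0 := congrFun hφ w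
      simpa using h
    let P : (Q → ZMod 2) →ₗ[ZMod 2] (W → ZMod 2) :=
      { toFun := fun ψ w => (π w).elim 0 ψ
        map_add' := fun u v => by
          ext w
          rcases h : π w with _ | q <;> simp [h]
        map_smul' := fun c u => by
          ext w
          rcases h : π w with _ | q <;> simp [h] }
    have e4 : (LinearMap.range d1).dualAnnihilator.map G ≤ LinearMap.range P := by
      rintro _ ⟨φ, hφ, rfl⟩
      have hφ' := (Submodule.mem_dualAnnihilator φ).1 hφ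
      obtain ⟨ψ, hψ⟩ := h1 (G φ) fun x => by
        let y : Lin_Y ι := ⟨Pi.single x 1 + Pi.single (ι x) 1, fun z => by
          have a1 : ι z = x ↔ z = ι x := ⟨fun h => by rw [← h, hι], fun h => by rw [h, hι]⟩
          have a2 : ι z = ι x ↔ z = x :=
            ⟨fun h => by rw [← hι z, h, hι], fun h => by rw [h]⟩
          simp only [Pi.add_apply, Pi.single_apply, a1, a2, add_comm]⟩
        have a3 : ∀ z : D, (fun w => ∑ t with tl t = some w, (Pi.single z 1 : D → ZMod 2) t) =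
            (tl z).elim 0 (fun w => (Pi.single w 1 : W → ZMod 2)) := fun z => by
          ext w
          rcases h : tl z with _ | v
          · simp [Pi.single_apply, h]
          · simp [Pi.single_apply, h, eq_comm]
        have a4 : d1 y = (tl x).elim 0 (fun w => (Pi.single w 1 : W → ZMod 2)) +
            (tl (ι x)).elim 0 (fun w => (Pi.single w 1 : W → ZMod 2)) := by
          rw [← a3, ← a3]
          ext w
          simp only [d1, y, LinearMap.coe_mk, AddHom.coe_mk, Pi.add_apply, sum_add_distrib]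
        have a5 : ∀ o : Option W, φ (o.elim 0 (fun w => (Pi.single w 1 : W → ZMod 2))) =
            o.elim 0 (G φ) := fun o => by
          rcases o with _ | v
          · simp
          · rfl
        have a6 := hφ' (d1 y) ⟨y, rfl⟩
        rw [a4, map_add, a5, a5] at a6
        exact Lin_two _ _ a6
      exact ⟨ψ, funext fun w => (hψ w).symm⟩
    have e5 := Submodule.finrank_mono e4
    have e6 := (Submodule.equivMapOfInjective G hG (LinearMap.range d1).dualAnnihilator).finrank_eq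
    have e7 := LinearMap.finrank_range_le P
    rw [finrank_fintype_fun_eq_card] at e7
    omega
  · rintro _ ⟨u, rfl⟩
    exact ⟨u, fun _ => rfl⟩
  · intro y hy
    rw [LinearMap.mem_ker]
    ext w
    exact hy w

/-- Plan: `Y = {y | y ∘ ι = y}` has `2 * finrank Y = card D`; `∂₂ u d = u (tri d) + u (tri (ι d))`
maps into `Y` with kernel of rank `≤ 1`; `∂₁ y w = ∑_{tl d = some w} y d`; `∂₁ ∂₂ = 0`; the
annihilator of the range of `∂₁` on `Y` (test with the indicator of `{d, ι d}`) has rank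
`≤ card Q`; rank-nullity. -/
theorem ael (hι : ∀ x, ι (ι x) = x) (hne : ∀ x, ι x ≠ x)
    (h0 : ∀ (u : X → ZMod 2) (w : W),
      ∑ x with tl x = some w, (u (tri x) + u (tri (ι x))) = 0)
    (h2 : ∀ u : X → ZMod 2, (∀ x, u (tri x) = u (tri (ι x))) → ∀ a b, u a = u b)
    (h1 : ∀ φ : W → ZMod 2, (∀ x, (tl x).elim 0 φ = (tl (ι x)).elim 0 φ) →
      ∃ ψ : Q → ZMod 2, ∀ w, φ w = (π w).elim 0 ψ) :
    2 * (Fintype.card X + Fintype.card W) ≤ Fintype.card D + 2 + 2 * Fintype.card Q := by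
  obtain ⟨A, B, hAB, e1, e2, -, -⟩ := Lin_core ι tri tl π hι hne h0 h2 h1
  have := Submodule.finrank_mono hAB
  omega

/-- exactness in the equality case -/
theorem ael_exact (hι : ∀ x, ι (ι x) = x) (hne : ∀ x, ι x ≠ x)
    (h0 : ∀ (u : X → ZMod 2) (w : W),
      ∑ x with tl x = some w, (u (tri x) + u (tri (ι x))) = 0)
    (h2 : ∀ u : X → ZMod 2, (∀ x, u (tri x) = u (tri (ι x))) → ∀ a b, u a = u b)
    (h1 : ∀ φ : W → ZMod 2, (∀ x, (tl x).elim 0 φ = (tl (ι x)).elim 0 φ) → ∀ w, φ w = 0)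
    (hc : Fintype.card D + 2 ≤ 2 * (Fintype.card X + Fintype.card W))
    (y : D → ZMod 2) (hy : ∀ x, y (ι x) = y x) (hy0 : ∀ w, ∑ x with tl x = some w, y x = 0) :
    ∃ u : X → ZMod 2, ∀ x, y x = u (tri x) + u (tri (ι x)) := by
  obtain ⟨A, B, hAB, e1, e2, e3, e4⟩ := Lin_core ι tri tl (fun _ => (none : Option Empty)) hι hne
    h0 h2 fun φ hφ => ⟨0, h1 φ hφ⟩
  simp only [Fintype.card_eq_zero] at e2
  have e5 : A = B := Submodule.eq_of_le_of_finrank_le hAB (by omega)
  exact e3 ⟨y, hy⟩ (e5 ▸ e4 ⟨y, hy⟩ hy0)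

end

end Pool.Agent.TC

end
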