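import Pool.Agent.MP_e73476_ag.T.Geo

section

open MvPolynomial Module

namespace Pool.Agent.Rags

abbrev R3 := MvPolynomial (Fin 3) ℝ

/-- non-singularity over the complex numbers -/
def NS (F : R3) : Prop := ∀ z : Fin 3 → ℂ, z ≠ 0 → ∃ i : Fin 3,
  MvPolynomial.eval z (MvPolynomial.map (algebraMap ℝ ℂ) (MvPolynomial.pderiv i F)) ≠ 0

abbrev E := Fin 3 → ℝ

/-- directional derivative -/
noncomputable def dd (w p : E) : R3 →ₗ[ℝ] ℝ where
  toFun H := ∑ i, w i * eval p (pderiv i H)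
  map_add' a b := by simp [mul_add, Finset.sum_add_distrib]
  map_smul' c a := by simp [Finset.mul_sum, mul_left_comm]

theorem dd_apply (w p : E) (H : R3) : dd w p H = ∑ i, w i * eval p (pderiv i H) := rfl

theorem dd_mul (w p : E) (A B : R3) :
    dd w p (A * B) = dd w p A * eval p B + eval p A * dd w p B := by
  simp only [dd_apply, pderiv_mul, map_add, map_mul, Fin.sum_univ_three]
  ring

noncomputable def lin (a : E) : R3 := ∑ i, C (a i) * X i

theorem eval_lin (a x : E) : eval x (lin a) = a ⬝ᵥ x := by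
  simp [lin, dotProduct]

theorem dd_lin (a w p : E) : dd w p (lin a) = a ⬝ᵥ w := by
  simp [dd_apply, lin, dotProduct, Fin.sum_univ_three, pderiv_X, Pi.single_apply]
  ring

noncomputable def fermat (d : ℕ) : R3 := ∑ i, X i ^ d

theorem pderiv_fermat (e : ℕ) (i : Fin 3) :
    pderiv i (fermat (e + 1)) = ((e + 1 : ℕ) : R3) * X i ^ e := by
  rw [fermat, map_sum, Finset.sum_eq_single i]
  · rw [pderiv_pow]; simp
  · intro j _ hj
    rw [pderiv_pow, pderiv_X_of_ne hj, mul_zero]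
  · simp

end Pool.Agent.Rags

end

section

open MvPolynomial Set Filter Topology

namespace Pool.Agent.Rags

def Sph : Set E := {x | ∑ i, x i ^ 2 = 1}

def Zs (F : R3) : Set E := {x | x ∈ Sph ∧ eval x F = 0}

theorem mem_Sph {x : E} : x ∈ Sph ↔ x ⬝ᵥ x = 1 := by
  simp [Sph, dotProduct, pow_two]

theorem neg_mem_Sph {x : E} : -x ∈ Sph ↔ x ∈ Sph := by simp [Sph]

theorem eval_smul {H : R3} {n : ℕ} (hH : H.IsHomogeneous n) (c : ℝ) (x : E) :
    eval (c • x) H = c ^ n * eval x H := by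
  rw [eval_eq', eval_eq', Finset.mul_sum]
  refine Finset.sum_congr rfl fun d hd => ?_
  have hdeg : d.degree = n := by
    by_contra hne
    exact (mem_support_iff.1 hd) (hH.coeff_eq_zero hne)
  rw [← hdeg, Finsupp.degree_eq_sum]
  simp only [Pi.smul_apply, smul_eq_mul, mul_pow, Fin.sum_univ_three, Fin.prod_univ_three, pow_add]
  ring

theorem eval_neg_even {H : R3} {n : ℕ} (hH : H.IsHomogeneous n) (hn : Even n) (x : E) :
    eval (-x) H = eval x H := by
  rw [← neg_one_smul ℝ x, eval_smul hH, hn.neg_one_pow, one_mul]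

theorem contDiff_eval (H : R3) : ContDiff ℝ 1 fun x : E => eval x H := by
  induction H using MvPolynomial.induction_on with
  | C a => simpa using contDiff_const
  | add p q hp hq => simpa using hp.add hq
  | mul_X p i hp => simpa using hp.mul (contDiff_apply ℝ ℝ i)

theorem cont_eval (H : R3) : Continuous fun x : E => eval x H := (contDiff_eval H).continuous

noncomputable def dL (H : R3) (x : E) : E →L[ℝ] ℝ :=
  ∑ i, eval x (pderiv i H) • ContinuousLinearMap.proj i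

theorem dL_apply (H : R3) (x w : E) : dL H x w = dd w x H := by
  simp [dL, dd_apply, mul_comm]

theorem hasFDerivAt_eval (H : R3) (x : E) : HasFDerivAt (fun y : E => eval y H) (dL H x) x := by
  induction H using MvPolynomial.induction_on with
  | C a =>
    have : dL (C a) x = 0 := by simp [dL]
    rw [this]
    simpa using hasFDerivAt_const a x
  | add p q hp hq =>
    have : dL (p + q) x = dL p x + dL q x := by ext w; simp [dL_apply]
    rw [this]
    simpa using hp.fun_add hq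
  | mul_X p i hp =>
    have h1 := hp.fun_mul (hasFDerivAt_apply (𝕜 := ℝ) i x)
    have : dL (p * X i) x = eval x p • ContinuousLinearMap.proj i + x i • dL p x := by
      refine ContinuousLinearMap.ext fun w => ?_
      have h2 : dd w x (X i) = w i := by
        simp [dd_apply, pderiv_X, Pi.single_apply]
      simp [dL_apply, dd_mul, h2]
      ring
    rw [this]
    simpa using h1

theorem hasDerivAt_eval (H : R3) {φ : ℝ → E} {v : E} {t : ℝ} (h : HasDerivAt φ v t) :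
    HasDerivAt (fun s => eval (φ s) H) (dd v (φ t) H) t := by
  have := (hasFDerivAt_eval H (φ t)).comp_hasDerivAt t h
  rwa [dL_apply] at this

/-- the tangent field `x × grad F` -/
noncomputable def Xf (F : R3) (x : E) : E := fun i =>
  eval x (X (i + 1) * pderiv (i + 2) F - X (i + 2) * pderiv (i + 1) F)

theorem Xf_0 (F : R3) (x : E) :
    Xf F x 0 = x 1 * eval x (pderiv 2 F) - x 2 * eval x (pderiv 1 F) := by simp [Xf]

theorem Xf_1 (F : R3) (x : E) :
    Xf F x 1 = x 2 * eval x (pderiv 0 F) - x 0 * eval x (pderiv 2 F) := by simp [Xf]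

theorem Xf_2 (F : R3) (x : E) :
    Xf F x 2 = x 0 * eval x (pderiv 1 F) - x 1 * eval x (pderiv 0 F) := by simp [Xf]

theorem dot_Xf (F : R3) (x : E) : x ⬝ᵥ Xf F x = 0 := by
  simp only [dotProduct, Fin.sum_univ_three, Xf_0, Xf_1, Xf_2]; ring

theorem dd_Xf (F : R3) (x : E) : dd (Xf F x) x F = 0 := by
  simp only [dd_apply, Fin.sum_univ_three, Xf_0, Xf_1, Xf_2]; ring

theorem dd_fermat2 (w x : E) : dd w x (fermat 2) = 2 * (x ⬝ᵥ w) := by
  have := pderiv_fermat 1
  simp only [dd_apply, Fin.sum_univ_three, dotProduct, this]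
  simp
  ring

theorem eval_fermat2 (x : E) : eval x (fermat 2) = ∑ i, x i ^ 2 := by simp [fermat]

/-- smooth real curve of even degree -/
structure Good (F : R3) (d : ℕ) : Prop where
  hom : F.IsHomogeneous d
  ev : Even d
  ns : NS F

theorem Xf_neg {F : R3} {d : ℕ} (h : Good F d) (x : E) : Xf F (-x) = Xf F x := by
  rcases Nat.eq_zero_or_pos d with rfl | hd
  · have h0 := h.hom
    rw [← totalDegree_zero_iff_isHomogeneous, totalDegree_eq_zero_iff_eq_C] at h0
    funext i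
    rw [h0]; simp [Xf]
  · funext i
    have h1 : ∀ a b : Fin 3, (X a * pderiv b F : R3).IsHomogeneous d := by
      intro a b
      convert (isHomogeneous_X ℝ a).mul (h.hom.pderiv (i := b)) using 1
      omega
    exact eval_neg_even ((h1 _ _).sub (h1 _ _)) h.ev x

theorem neg_mem_Zs {F : R3} {d : ℕ} (h : Good F d) {x : E} : -x ∈ Zs F ↔ x ∈ Zs F := by
  simp [Zs, neg_mem_Sph, eval_neg_even h.hom h.ev]

theorem euler {F : R3} {d : ℕ} (h : F.IsHomogeneous d) {p : E} (hp : eval p F = 0) :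
    p 0 * eval p (pderiv 0 F) + p 1 * eval p (pderiv 1 F) + p 2 * eval p (pderiv 2 F) = 0 := by
  have := congrArg (eval p) h.sum_X_mul_pderiv
  simpa [Fin.sum_univ_three, hp] using this

theorem Xf_ne {F : R3} {d : ℕ} (h : Good F d) {p : E} (hp : p ∈ Zs F) : Xf F p ≠ 0 := by
  intro h0
  have he := euler h.hom hp.2
  have hs : p 0 ^ 2 + p 1 ^ 2 + p 2 ^ 2 = 1 := by simpa [Sph, Fin.sum_univ_three] using hp.1
  have hp0 : (fun i => (p i : ℂ)) ≠ 0 := by
    intro hz
    have : ∀ i, p i = 0 := fun i => by simpa using congrFun hz i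
    simp [this] at hs
  obtain ⟨i, hi⟩ := h.ns _ hp0
  apply hi
  have hc : ∀ Q : R3, eval (fun i => (p i : ℂ)) (map (algebraMap ℝ ℂ) Q) = (eval p Q : ℝ) := by
    intro Q
    induction Q using MvPolynomial.induction_on with
    | C a => simp
    | add p q hp hq => simp [hp, hq]
    | mul_X p i hp => simp [hp]
  rw [hc]
  have a0 := congrFun h0 0
  have a1 := congrFun h0 1
  have a2 := congrFun h0 2
  rw [Xf_0] at a0; rw [Xf_1] at a1; rw [Xf_2] at a2
  simp only [Pi.zero_apply] at a0 a1 a2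
  have g0 : eval p (pderiv 0 F) = 0 := by
    linear_combination (-eval p (pderiv 0 F)) * hs + p 0 * he + p 2 * a1 - p 1 * a2
  have g1 : eval p (pderiv 1 F) = 0 := by
    linear_combination (-eval p (pderiv 1 F)) * hs + p 1 * he + p 0 * a2 - p 2 * a0
  have g2 : eval p (pderiv 2 F) = 0 := by
    linear_combination (-eval p (pderiv 2 F)) * hs + p 2 * he + p 1 * a0 - p 0 * a1
  fin_cases i <;> simp [g0, g1, g2]

theorem exists_chart {F : R3} {d : ℕ} (h : Good F d) {p : E} (hp : p ∈ Zs F) :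
    ∃ e : OpenPartialHomeomorph E E, p ∈ e.source ∧
      ∀ x, e x = ![∑ i, x i ^ 2, eval x F, Xf F p ⬝ᵥ x] := by
  let Ψ : Fin 3 → R3 := ![fermat 2, F, lin (Xf F p)]
  let D : E →L[ℝ] E := ContinuousLinearMap.pi fun j => dL (Ψ j) p
  have hD : HasStrictFDerivAt (fun x : E => fun j => eval x (Ψ j)) D p :=
    hasStrictFDerivAt_pi.2 fun j =>
      (contDiff_eval (Ψ j)).contDiffAt.hasStrictFDerivAt' (hasFDerivAt_eval _ _) one_ne_zero
  have hinj : Function.Injective D := by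
    rw [injective_iff_map_eq_zero]
    intro w hw
    have a0 : dd w p (fermat 2) = 0 := by rw [← dL_apply]; exact congrFun hw 0
    have a1 : dd w p F = 0 := by rw [← dL_apply]; exact congrFun hw 1
    have a2 : dd w p (lin (Xf F p)) = 0 := by rw [← dL_apply]; exact congrFun hw 2
    rw [dd_fermat2] at a0
    rw [dd_lin] at a2
    have hX : Xf F p ⬝ᵥ Xf F p ≠ 0 := fun h0 => Xf_ne h hp (dotProduct_self_eq_zero.1 h0)
    have key : (Xf F p ⬝ᵥ Xf F p) • w = 0 := by
      simp only [dd_apply, dotProduct, Fin.sum_univ_three] at a0 a1 a2 ⊢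
      have e0 := Xf_0 F p
      have e1 := Xf_1 F p
      have e2 := Xf_2 F p
      generalize Xf F p = Y at *
      generalize eval p (pderiv 0 F) = g0 at *
      generalize eval p (pderiv 1 F) = g1 at *
      generalize eval p (pderiv 2 F) = g2 at *
      funext i
      fin_cases i <;> simp only [Pi.smul_apply, smul_eq_mul, Pi.zero_apply, Fin.zero_eta,
        Fin.mk_one, Fin.reduceFinMk]
      · linear_combination Y 0 * a2 + (Y 1 * p 2 - Y 2 * p 1) * a1 - (Y 1 * g2 - Y 2 * g1) / 2 * a0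
          + (Y 1 * w 0) * e1 - (Y 1 * w 1) * e0 + (Y 2 * w 0) * e2 - Y 2 * w 2 * e0
      · linear_combination Y 1 * a2 + (Y 2 * p 0 - Y 0 * p 2) * a1 - (Y 2 * g0 - Y 0 * g2) / 2 * a0
          + (Y 2 * w 1) * e2 - (Y 2 * w 2) * e1 + (Y 0 * w 1) * e0 - Y 0 * w 0 * e1
      · linear_combination Y 2 * a2 + (Y 0 * p 1 - Y 1 * p 0) * a1 - (Y 0 * g1 - Y 1 * g0) / 2 * a0
          + (Y 0 * w 2) * e0 - (Y 0 * w 0) * e2 + (Y 1 * w 2) * e1 - Y 1 * w 1 * e2
    exact (smul_eq_zero.1 key).resolve_left hX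
  let De : E ≃L[ℝ] E := (LinearEquiv.ofInjectiveEndo (D : E →ₗ[ℝ] E) hinj).toContinuousLinearEquiv
  have hD' : HasStrictFDerivAt (fun x : E => fun j => eval x (Ψ j)) (De : E →L[ℝ] E) p := by
    convert hD using 1
    exact ContinuousLinearMap.ext fun _ => rfl
  refine ⟨hD'.toOpenPartialHomeomorph _, hD'.mem_toOpenPartialHomeomorph_source, fun x => ?_⟩
  rw [HasStrictFDerivAt.toOpenPartialHomeomorph_coe]
  funext j
  fin_cases j <;> simp [Ψ, eval_fermat2, eval_lin]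

lemma exists_sol_Ioo {f : E → E} {K L : NNReal} (hK : LipschitzWith K f) (hL : ∀ x, ‖f x‖ ≤ L)
    (x : E) (n : ℕ) :
    ∃ α : ℝ → E, α 0 = x ∧ ∀ t ∈ Ioo (-((n : ℝ) + 1)) ((n : ℝ) + 1),
      HasDerivAt α (f (α t)) t := by
  have hn : (0 : ℝ) < (n : ℝ) + 1 := by positivity
  have hpl : IsPicardLindelof (fun _ x => f x)
      (tmin := -((n : ℝ) + 1)) (tmax := (n : ℝ) + 1) ⟨0, by constructor <;> linarith⟩ x
      (NNReal.mk (L * ((n : ℝ) + 1)) (by positivity)) 0 L K := by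
    constructor
    · exact fun t _ => hK.lipschitzOnWith
    · exact fun x _ => continuousOn_const
    · exact fun t _ x _ => hL x
    · simp
  obtain ⟨α, h0, hα⟩ := hpl.exists_eq_forall_mem_Icc_hasDerivWithinAt₀
  exact ⟨α, h0, fun t ht =>
    (hα t (Ioo_subset_Icc_self ht)).hasDerivAt (Icc_mem_nhds ht.1 ht.2)⟩

lemma exists_sol {f : E → E} {K L : NNReal} (hK : LipschitzWith K f) (hL : ∀ x, ‖f x‖ ≤ L) (x : E) :
    ∃ φ : ℝ → E, φ 0 = x ∧ ∀ t, HasDerivAt φ (f (φ t)) t := by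
  choose α h0 hα using exists_sol_Ioo hK hL x
  have hcomp : ∀ m n : ℕ, m ≤ n → EqOn (α m) (α n) (Ioo (-((m : ℝ) + 1)) ((m : ℝ) + 1)) := by
    intro m n hmn
    have hm : (0 : ℝ) < (m : ℝ) + 1 := by positivity
    have hmn' : (m : ℝ) ≤ n := by exact_mod_cast hmn
    refine ODE_solution_unique_of_mem_Ioo (s := fun _ => univ) (t₀ := 0)
      (v := fun _ x => f x)
      (fun t _ => hK.lipschitzOnWith) ⟨by linarith, hm⟩
      (fun t ht => ⟨hα m t ht, trivial⟩)
      (fun t ht => ⟨hα n t ⟨by linarith [ht.1], by linarith [ht.2]⟩, trivial⟩) ?_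
    rw [h0, h0]
  have hmem : ∀ t : ℝ, t ∈ Ioo (-((⌈|t|⌉₊ : ℝ) + 1)) ((⌈|t|⌉₊ : ℝ) + 1) := by
    intro t
    have h1 := Nat.le_ceil |t|
    have h2 := le_abs_self t
    have h3 := neg_abs_le t
    constructor <;> linarith
  have hall : ∀ (n : ℕ), ∀ t ∈ Ioo (-((n : ℝ) + 1)) ((n : ℝ) + 1), α ⌈|t|⌉₊ t = α n t := by
    intro n t ht
    rcases le_total ⌈|t|⌉₊ n with h | h
    · exact hcomp _ _ h (hmem t)
    · exact (hcomp _ _ h ht).symm
  refine ⟨fun t => α ⌈|t|⌉₊ t, h0 _, fun t => ?_⟩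
  refine (hα _ t (hmem t)).congr_of_eventuallyEq ?_
  filter_upwards [Ioo_mem_nhds (hmem t).1 (hmem t).2] with u hu
  exact hall _ u hu

theorem exists_cut (F : R3) : ∃ (χ : E → ℝ) (K L : NNReal), (∀ x ∈ Sph, χ x = 1) ∧
    LipschitzWith K (fun x => χ x • Xf F x) ∧ ∀ x, ‖χ x • Xf F x‖ ≤ L := by
  let χ : E → ℝ := fun x => expNegInvGlue (2 - eval x (fermat 2)) / expNegInvGlue 1
  have h1 : ContDiff ℝ 1 fun x => χ x • Xf F x := by
    have hX : ContDiff ℝ 1 (Xf F) := contDiff_pi.2 fun i => contDiff_eval _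
    have hχ : ContDiff ℝ 1 χ :=
      ((expNegInvGlue.contDiff (n := 1)).comp (contDiff_const.sub (contDiff_eval _))).div_const _
    exact hχ.smul hX
  have h2 : HasCompactSupport fun x => χ x • Xf F x := by
    refine HasCompactSupport.intro (isCompact_closedBall (0 : E) 2) fun x hx => ?_
    have : 2 - eval x (fermat 2) ≤ 0 := by
      by_contra hc
      apply hx
      rw [mem_closedBall_zero_iff, pi_norm_le_iff_of_nonneg (by norm_num)]
      intro i
      have h3 : x i ^ 2 ≤ ∑ i, x i ^ 2 :=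
        Finset.single_le_sum (f := fun i => x i ^ 2) (fun _ _ => sq_nonneg _) (Finset.mem_univ i)
      rw [eval_fermat2] at hc
      rw [Real.norm_eq_abs, abs_le]
      constructor <;> nlinarith
    simp [χ, expNegInvGlue.zero_of_nonpos this]
  obtain ⟨K, hK⟩ := h1.lipschitzWith_of_hasCompactSupport h2 one_ne_zero
  obtain ⟨L, hL⟩ := h2.exists_bound_of_continuous h1.continuous
  refine ⟨χ, K, ⟨max L 0, le_max_right _ _⟩, fun x hx => ?_, hK, fun x => (hL x).trans (le_max_left _ _)⟩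
  have : eval x (fermat 2) = 1 := by rw [eval_fermat2]; exact hx
  simp only [χ, this]
  norm_num

/-- an integral curve of the tangent field inside the zero set -/
structure IsOrb (F : R3) (φ : ℝ → E) : Prop where
  mem : ∀ t, φ t ∈ Zs F
  der : ∀ t, HasDerivAt φ (Xf F (φ t)) t

theorem exists_orb {F : R3} {p : E} (hp : p ∈ Zs F) : ∃ φ, IsOrb F φ ∧ φ 0 = p := by
  obtain ⟨χ, K, L, h1, hK, hL⟩ := exists_cut F
  obtain ⟨φ, h0, hφ⟩ := exists_sol hK hL p
  have hc : ∀ H : R3, (∀ x, dd (Xf F x) x H = 0) → ∀ t, eval (φ t) H = eval p H := by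
    intro H hH t
    rw [← h0]
    refine is_const_of_deriv_eq_zero (f := fun s => eval (φ s) H)
      (fun s => (hasDerivAt_eval H (hφ s)).differentiableAt) (fun s => ?_) t 0
    rw [(hasDerivAt_eval H (hφ s)).deriv, ← dL_apply, map_smul, dL_apply, hH, smul_zero]
  have hm : ∀ t, φ t ∈ Zs F := by
    intro t
    refine ⟨?_, by rw [hc F (dd_Xf F), hp.2]⟩
    have := hc (fermat 2) (fun x => by rw [dd_fermat2, dot_Xf, mul_zero]) t
    rw [eval_fermat2, eval_fermat2] at this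
    exact this.trans hp.1
  refine ⟨φ, ⟨hm, fun t => ?_⟩, h0⟩
  simpa [h1 _ (hm t).1] using hφ t

theorem IsOrb.unique {F : R3} {φ ψ : ℝ → E} (hφ : IsOrb F φ) (hψ : IsOrb F ψ) {t : ℝ}
    (h : φ t = ψ t) : φ = ψ := by
  obtain ⟨χ, K, L, h1, hK, -⟩ := exists_cut F
  refine ODE_solution_unique_univ (v := fun _ x => χ x • Xf F x) (s := fun _ => univ) (t₀ := t)
    (fun _ => hK.lipschitzOnWith) (fun s => ⟨?_, trivial⟩) (fun s => ⟨?_, trivial⟩) h
  · simpa [h1 _ (hφ.mem s).1] using hφ.der s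
  · simpa [h1 _ (hψ.mem s).1] using hψ.der s

theorem IsOrb.shift {F : R3} {φ : ℝ → E} (hφ : IsOrb F φ) (s : ℝ) : IsOrb F fun t => φ (t + s) :=
  ⟨fun _ => hφ.mem _, fun t => (hφ.der (t + s)).comp_add_const t s⟩

theorem IsOrb.cont {F : R3} {φ : ℝ → E} (hφ : IsOrb F φ) : Continuous φ :=
  continuous_iff_continuousAt.2 fun t => (hφ.der t).continuousAt

theorem IsOrb.eq_shift {F : R3} {φ ψ : ℝ → E} (hφ : IsOrb F φ) (hψ : IsOrb F ψ) {s t : ℝ}
    (h : φ s = ψ t) (u : ℝ) : φ (u + s) = ψ (u + t) :=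
  congrFun ((hφ.shift s).unique (hψ.shift t) (t := 0) (by simpa using h)) u

theorem IsOrb.ne_neg {F : R3} {d : ℕ} (h : Good F d) {φ : ℝ → E} (hφ : IsOrb F φ) (T : ℝ) :
    φ T ≠ -φ 0 := by
  intro hT
  have hδ : IsOrb F fun t => -φ (T - t) := by
    refine ⟨fun t => (neg_mem_Zs h).2 (hφ.mem _), fun t => ?_⟩
    have := ((hφ.der (T - t)).comp_const_sub T t).fun_neg
    rw [Xf_neg h]
    simpa using this
  have h1 := congrFun (hφ.unique hδ (t := 0) (by simp [hT])) (T / 2)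
  simp only [show T - T / 2 = T / 2 by ring] at h1
  have h2 : φ (T / 2) = 0 := by
    funext i
    have := congrFun h1 i
    simp only [Pi.neg_apply] at this
    simp only [Pi.zero_apply]; linarith
  have h3 := (hφ.mem (T / 2)).1
  simp [h2, Sph] at h3

theorem IsOrb.loc {F : R3} {d : ℕ} (h : Good F d) {φ : ℝ → E} (hφ : IsOrb F φ) {ε : ℝ}
    (hε : 0 < ε) : ∀ᶠ x in 𝓝 (φ 0), x ∈ Zs F → ∃ t, |t| < ε ∧ x = φ t := by
  obtain ⟨e, he, hf⟩ := exists_chart h (hφ.mem 0)
  set p := φ 0 with hp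
  let a : ℝ → ℝ := fun t => eval (φ t) (lin (Xf F p))
  have hX : Xf F p ⬝ᵥ Xf F p ≠ 0 := fun h0 => Xf_ne h (hφ.mem 0) (dotProduct_self_eq_zero.1 h0)
  have ha : ∀ t, HasDerivAt a (Xf F p ⬝ᵥ Xf F (φ t)) t := fun t => by
    have := hasDerivAt_eval (lin (Xf F p)) (hφ.der t)
    rwa [dd_lin] at this
  have hc : Continuous fun t => Xf F p ⬝ᵥ Xf F (φ t) :=
    continuous_const.dotProduct (continuous_pi fun i => (cont_eval _).comp hφ.cont)
  have hs : HasStrictDerivAt a (Xf F p ⬝ᵥ Xf F p) 0 :=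
    hasStrictDerivAt_of_hasDerivAt_of_continuousAt (Eventually.of_forall ha) hc.continuousAt
  have hmap := hs.map_nhds_eq hX
  have h1 : ∀ᶠ t in 𝓝 (0 : ℝ), |t| < ε ∧ φ t ∈ e.source :=
    (continuous_abs.continuousAt.eventually_lt continuousAt_const (by simpa using hε)).and
      (hφ.cont.continuousAt.preimage_mem_nhds (e.open_source.mem_nhds he))
  have h2 : ∀ᶠ y in 𝓝 (a 0), ∃ t, (|t| < ε ∧ φ t ∈ e.source) ∧ a t = y := by
    rw [← hmap]
    exact image_mem_map h1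
  have h3 : Tendsto (fun x : E => eval x (lin (Xf F p))) (𝓝 p) (𝓝 (a 0)) :=
    (cont_eval _).continuousAt
  filter_upwards [h3.eventually h2, e.open_source.mem_nhds he] with x hx hxe hxZ
  obtain ⟨t, ⟨ht, hte⟩, hta⟩ := hx
  refine ⟨t, ht, e.injOn hxe hte ?_⟩
  have b1 : ∑ i, x i ^ 2 = ∑ i, φ t i ^ 2 := hxZ.1.trans (hφ.mem t).1.symm
  simp only [a, eval_lin] at hta
  rw [hf, hf, b1, hxZ.2, (hφ.mem t).2, hta]

theorem loc_const {X β : Type} [TopologicalSpace X] {s : Set X} (hs : IsPreconnected s) (f : X → β)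
    (h : ∀ x ∈ s, ∀ᶠ y in 𝓝[s] x, f y = f x) {x y : X} (hx : x ∈ s) (hy : y ∈ s) : f x = f y :=
  hs.induction₂' (fun a b => f a = f b) (fun a ha => (h a ha).mono fun _ hb => ⟨hb.symm, hb⟩)
    (fun _ _ _ _ _ _ h1 h2 => h1.trans h2) hx hy

theorem IsOrb.range_eq {F : R3} {d : ℕ} (h : Good F d) {φ : ℝ → E} (hφ : IsOrb F φ) :
    range φ = connectedComponentIn (Zs F) (φ 0) := by
  refine Subset.antisymm ((isPreconnected_range hφ.cont).subset_connectedComponentIn ⟨0, rfl⟩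
    (range_subset_iff.2 hφ.mem)) fun y hy => ?_
  have := loc_const (isPreconnected_connectedComponentIn (F := Zs F) (x := φ 0))
    (fun x => x ∈ range φ) ?_ (mem_connectedComponentIn (hφ.mem 0)) hy
  · exact this ▸ ⟨0, rfl⟩
  intro q hq
  have hsub := connectedComponentIn_subset (Zs F) (φ 0)
  obtain ⟨ψ, hψ, rfl⟩ := exists_orb (hsub hq)
  filter_upwards [nhdsWithin_le_nhds (hψ.loc h one_pos), self_mem_nhdsWithin] with x hx hxc
  obtain ⟨t, -, rfl⟩ := hx (hsub hxc)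
  refine propext ⟨?_, ?_⟩
  · rintro ⟨s, hs⟩
    exact ⟨-t + s, by simpa using hφ.eq_shift hψ hs (-t)⟩
  · rintro ⟨s, hs⟩
    exact ⟨t + s, by simpa using hφ.eq_shift hψ hs t⟩

theorem isCompact_Sph : IsCompact Sph := by
  refine (isCompact_closedBall (0 : E) 1).of_isClosed_subset
    (isClosed_eq (by fun_prop) continuous_const) fun x hx => ?_
  rw [mem_closedBall_zero_iff, pi_norm_le_iff_of_nonneg (by norm_num)]
  intro i
  have h3 : x i ^ 2 ≤ ∑ i, x i ^ 2 :=
    Finset.single_le_sum (f := fun i => x i ^ 2) (fun _ _ => sq_nonneg _) (Finset.mem_univ i)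
  rw [show ∑ i, x i ^ 2 = 1 from hx] at h3
  rw [Real.norm_eq_abs, abs_le]
  constructor <;> nlinarith

theorem isCompact_Zs (F : R3) : IsCompact (Zs F) :=
  isCompact_Sph.inter_right (isClosed_eq (cont_eval F) continuous_const)

theorem neg_notMem_comp {F : R3} {d : ℕ} (h : Good F d) {p q : E}
    (hq : q ∈ connectedComponentIn (Zs F) p) : -q ∉ connectedComponentIn (Zs F) p := by
  have hqZ := connectedComponentIn_subset _ _ hq
  obtain ⟨φ, hφ, rfl⟩ := exists_orb hqZ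
  rw [connectedComponentIn_eq hq, ← hφ.range_eq h]
  rintro ⟨T, hT⟩
  exact hφ.ne_neg h T hT

end Pool.Agent.Rags

end

section

open MvPolynomial Set Filter Topology

namespace Pool.Agent.Rags

theorem neg_mem_comp {W : Set E} (hW : ∀ x, x ∈ W → -x ∈ W) {x y : E}
    (hy : y ∈ connectedComponentIn W x) : -y ∈ connectedComponentIn W (-x) := by
  have hx : x ∈ W := connectedComponentIn_nonempty_iff.1 ⟨y, hy⟩
  have h1 : IsPreconnected (Neg.neg '' connectedComponentIn W x) :=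
    isPreconnected_connectedComponentIn.image _ continuous_neg.continuousOn
  refine h1.subset_connectedComponentIn ⟨x, mem_connectedComponentIn hx, rfl⟩ ?_ ⟨y, hy, rfl⟩
  rintro _ ⟨u, hu, rfl⟩
  exact hW u (connectedComponentIn_subset _ _ hu)

theorem comp_neg {W : Set E} (hW : ∀ x, x ∈ W → -x ∈ W) (x : E) :
    connectedComponentIn W (-x) = Neg.neg '' connectedComponentIn W x := by
  ext y
  constructor
  · intro hy
    exact ⟨-y, by simpa using neg_mem_comp hW hy, neg_neg y⟩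
  · rintro ⟨u, hu, rfl⟩
    exact neg_mem_comp hW hu

noncomputable def nrm (x : E) : E := (√(x ⬝ᵥ x))⁻¹ • x

theorem dot_pos {x : E} (hx : x ≠ 0) : 0 < x ⬝ᵥ x :=
  lt_of_le_of_ne (Finset.sum_nonneg fun _ _ => mul_self_nonneg _)
    fun h => hx (dotProduct_self_eq_zero.1 h.symm)

theorem nrm_pos {x : E} (hx : x ≠ 0) : 0 < (√(x ⬝ᵥ x))⁻¹ :=
  inv_pos.2 (Real.sqrt_pos.2 (dot_pos hx))

theorem nrm_mem {x : E} (hx : x ≠ 0) : nrm x ∈ Sph := by
  have h1 := dot_pos hx
  rw [mem_Sph, nrm, smul_dotProduct, dotProduct_smul, smul_eq_mul, smul_eq_mul, ← mul_assoc,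
    ← mul_inv, Real.mul_self_sqrt h1.le, inv_mul_cancel₀ h1.ne']

theorem nrm_self {x : E} (hx : x ∈ Sph) : nrm x = x := by
  rw [nrm, mem_Sph.1 hx]; simp

theorem ne_zero_of_Sph {x : E} (hx : x ∈ Sph) : x ≠ 0 := by
  rintro rfl; simp [Sph] at hx

theorem contAt_nrm {x : E} (hx : x ≠ 0) : ContinuousAt nrm x := by
  have h1 : ContinuousAt (fun x : E => √(x ⬝ᵥ x)) x :=
    (Real.continuous_sqrt.comp (continuous_id.dotProduct continuous_id)).continuousAt
  exact (h1.inv₀ (Real.sqrt_pos.2 (dot_pos hx)).ne').smul continuousAt_id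

theorem preconn_Sph : IsPreconnected Sph := by
  have h1 : IsPreconnected ({0}ᶜ : Set E) :=
    (isConnected_compl_singleton_of_one_lt_rank (by simp) 0).isPreconnected
  have h2 := h1.image nrm fun x hx => (contAt_nrm hx).continuousWithinAt
  convert h2 using 1
  ext x
  exact ⟨fun hx => ⟨x, ne_zero_of_Sph hx, nrm_self hx⟩, fun ⟨y, hy, h⟩ => h ▸ nrm_mem hy⟩

theorem comp_open {W : Set E} {x : E} (hx : x ∈ Sph) (hW : ∀ᶠ y in 𝓝[Sph] x, y ∈ W) :
    ∀ᶠ y in 𝓝[Sph] x, y ∈ connectedComponentIn W x := by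
  have h0 := ne_zero_of_Sph hx
  have h1 : Tendsto nrm (𝓝 x) (𝓝 x) := by
    have := contAt_nrm h0
    rwa [ContinuousAt, nrm_self hx] at this
  have h2 : ∀ᶠ y in 𝓝 x, y ≠ 0 ∧ nrm y ∈ W := by
    filter_upwards [isOpen_ne.mem_nhds h0, h1.eventually (eventually_nhdsWithin_iff.1 hW)]
      with y hy hy'
    exact ⟨hy, hy' (nrm_mem hy)⟩
  obtain ⟨ε, hε, hb⟩ := Metric.eventually_nhds_iff_ball.1 h2
  have h3 : IsPreconnected (nrm '' Metric.ball x ε) :=
    (convex_ball x ε).isPreconnected.image _ fun y hy => (contAt_nrm (hb y hy).1).continuousWithinAt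
  have h4 := h3.subset_connectedComponentIn (F := W) ⟨x, Metric.mem_ball_self hε, nrm_self hx⟩
    (by rintro _ ⟨y, hy, rfl⟩; exact (hb y hy).2)
  filter_upwards [nhdsWithin_le_nhds (Metric.ball_mem_nhds x hε), self_mem_nhdsWithin] with y hy hyS
  exact h4 ⟨y, hy, nrm_self hyS⟩

theorem side_local {F : R3} {d : ℕ} (h : Good F d) {p : E} (hp : p ∈ Zs F) {c : ℝ} (hc : c ≠ 0) :
    (∃ V, IsOpen V ∧ p ∈ V ∧ IsPreconnected (V ∩ {y | y ∈ Sph ∧ 0 < c * eval y F})) ∧
      ∃ᶠ y in 𝓝[Sph] p, 0 < c * eval y F := by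
  obtain ⟨e, he, hf⟩ := exists_chart h hp
  have h0 : ∀ x, e x 0 = ∑ i, x i ^ 2 := fun x => by rw [hf]; rfl
  have h1 : ∀ x, e x 1 = eval x F := fun x => by rw [hf]; rfl
  obtain ⟨δ, hδ, hb⟩ := Metric.isOpen_iff.1 e.open_target _ (e.map_source he)
  constructor
  · refine ⟨e.source ∩ e ⁻¹' Metric.ball (e p) δ, e.isOpen_inter_preimage Metric.isOpen_ball,
      ⟨he, Metric.mem_ball_self hδ⟩, ?_⟩
    have hcv : Convex ℝ (Metric.ball (e p) δ ∩ ({y : E | y 0 = 1} ∩ {y : E | 0 < c * y 1})) := by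
      refine (convex_ball _ _).inter (Convex.inter ?_ ?_)
      · exact convex_hyperplane (f := fun y : E => y 0) ⟨fun _ _ => rfl, fun _ _ => rfl⟩ 1
      · exact convex_halfSpace_gt (f := fun y : E => c * y 1)
          ⟨fun _ _ => by simp [mul_add], fun _ _ => by simp [mul_left_comm]⟩ 0
    have h2 := hcv.isPreconnected.image e.symm (e.continuousOn_symm.mono fun y hy => hb hy.1)
    convert h2 using 1
    ext x
    constructor
    · rintro ⟨⟨hx, hxb⟩, hxS, hxF⟩
      exact ⟨e x, ⟨hxb, (h0 x).trans hxS, by simpa [h1] using hxF⟩, e.left_inv hx⟩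
    · rintro ⟨y, ⟨hy, hy0, hy1⟩, rfl⟩
      have h3 := e.right_inv (hb hy)
      refine ⟨⟨e.map_target (hb hy), by simpa [h3] using hy⟩, ?_, ?_⟩
      · rw [← h3, mem_ofPred_eq, h0] at hy0; exact hy0
      · rw [← h3, mem_ofPred_eq, h1] at hy1; exact hy1
  · let l : ℝ → E := fun t => e p + t • Pi.single 1 c
    have hl : Tendsto l (𝓝[>] 0) (𝓝 (e p)) := by
      have : Continuous l := by fun_prop
      simpa [l] using (this.tendsto 0).mono_left nhdsWithin_le_nhds
    have hev : ∀ᶠ t in 𝓝[>] (0 : ℝ), e.symm (l t) ∈ Sph ∧ 0 < c * eval (e.symm (l t)) F := by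
      filter_upwards [hl.eventually (e.open_target.mem_nhds (e.map_source he)),
        self_mem_nhdsWithin] with t ht ht0
      have h3 := e.right_inv ht
      constructor
      · change ∑ i, e.symm (l t) i ^ 2 = 1
        rw [← h0, h3]
        simp only [l, Pi.add_apply, h0]
        simpa [Sph] using hp.1
      · rw [← h1, h3]
        simp only [l, Pi.add_apply, h1, hp.2]
        have : 0 < t * (c * c) := mul_pos ht0 (mul_self_pos.2 hc)
        simpa [mul_left_comm] using this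
    have ht : Tendsto (fun t => e.symm (l t)) (𝓝[>] 0) (𝓝[Sph] p) :=
      tendsto_nhdsWithin_iff.2 ⟨(e.tendsto_symm he).comp hl, hev.mono fun _ h => h.1⟩
    exact ht.frequently (hev.mono fun _ h => h.2).frequently

/-- one component of the complement is adjacent to a given side of a piece of the curve -/
theorem side_comp {F : R3} {d : ℕ} (h : Good F d) {D W : Set E} (hD : IsPreconnected D)
    (hDZ : D ⊆ Zs F) (hW : ∀ y ∈ Sph, eval y F ≠ 0 → y ∈ W) {c : ℝ} (hc : c ≠ 0) {z : E}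
    (hz : z ∈ D) : ∃ y₀, ∀ p ∈ D, ∀ᶠ y in 𝓝[Sph] p,
      0 < c * eval y F → y ∈ connectedComponentIn W y₀ := by
  have hex : ∀ p ∈ D, ∃ y₀, ∀ᶠ p' in 𝓝 p, ∀ᶠ y in 𝓝[Sph] p',
      0 < c * eval y F → y ∈ connectedComponentIn W y₀ := by
    intro p hp
    obtain ⟨⟨V, hV, hpV, hcon⟩, hfr⟩ := side_local h (hDZ hp) hc
    have hev : ∀ᶠ y in 𝓝[Sph] p, y ∈ V ∧ y ∈ Sph := by
      filter_upwards [nhdsWithin_le_nhds (hV.mem_nhds hpV), self_mem_nhdsWithin] with y h1 h2
      exact ⟨h1, h2⟩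
    obtain ⟨y₀, hy₀, hyV, hyS⟩ := (hfr.and_eventually hev).exists
    have hsub := hcon.subset_connectedComponentIn (F := W) ⟨hyV, hyS, hy₀⟩
      fun y hy => hW y hy.2.1 (right_ne_zero_of_mul hy.2.2.ne')
    refine ⟨y₀, ?_⟩
    filter_upwards [hV.mem_nhds hpV] with p' hp'
    filter_upwards [nhdsWithin_le_nhds (hV.mem_nhds hp'), self_mem_nhdsWithin] with y hy hyS hyF
    exact hsub ⟨hy, hyS, hyF⟩
  choose! Y hY using hex
  refine ⟨Y z, fun p hp => ?_⟩
  rw [loc_const hD (fun p => connectedComponentIn W (Y p)) ?_ hz hp]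
  · exact (hY p hp).self_of_nhds
  intro q hq
  filter_upwards [nhdsWithin_le_nhds (hY q hq), self_mem_nhdsWithin] with p' h1 hp'
  obtain ⟨y, hy, h2, h3⟩ := ((side_local h (hDZ hp') hc).2.and_eventually
    (h1.and (hY p' hp').self_of_nhds)).exists
  rw [connectedComponentIn_eq (h2 hy), connectedComponentIn_eq (h3 hy)]

end Pool.Agent.Rags

end

section

/-! Definitions for the real part: regions of the sphere, sides of ovals, Viro polynomials. -/

open MvPolynomial Set Filter Topology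

noncomputable section

namespace Pool.Agent.TC

open Pool.Agent.Rags

/-- the sign with bit `b` -/
def sg (b : ZMod 2) : ℝ := if b = 0 then 1 else -1
/-- the sign bit of a real number -/
def sb (x : ℝ) : ZMod 2 := if x < 0 then 1 else 0

theorem zmod2 (b : ZMod 2) : b = 0 ∨ b = 1 := by revert b; decide
@[simp] theorem sg_zero : sg 0 = 1 := by simp [sg]
@[simp] theorem sg_one : sg 1 = -1 := by simp [sg]
theorem sg_add (a b : ZMod 2) : sg (a + b) = sg a * sg b := by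
  have : (1 + 1 : ZMod 2) = 0 := by decide
  rcases zmod2 a with rfl | rfl <;> rcases zmod2 b with rfl | rfl <;> simp [this]
theorem sg_succ (a : ZMod 2) : sg (a + 1) = -sg a := by simp [sg_add]
theorem sg_ne (b : ZMod 2) : sg b ≠ 0 := by rcases zmod2 b with rfl | rfl <;> simp
theorem sg_mul_self (b : ZMod 2) : sg b * sg b = 1 := by rcases zmod2 b with rfl | rfl <;> simp
theorem abs_sg (b : ZMod 2) : |sg b| = 1 := by rcases zmod2 b with rfl | rfl <;> simp
theorem sg_sb (x : ℝ) : sg (sb x) * |x| = x := by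
  unfold sb; split_ifs with h
  · simp [abs_of_neg h]
  · simp [abs_of_nonneg (not_lt.1 h)]
theorem sg_pos_iff {x : ℝ} {b : ZMod 2} : 0 < sg b * x ↔ x ≠ 0 ∧ sb x = b := by
  unfold sb
  rcases lt_trichotomy x 0 with h | h | h
  · rcases zmod2 b with rfl | rfl <;> simp [h, h.le, h.ne]
  · simp [h]
  · rcases zmod2 b with rfl | rfl <;> simp [h, h.ne', not_lt.2 h.le]

/-- connected components of a set -/
def cmp (W : Set E) : Set (Set E) := {C | ∃ x, x ∈ W ∧ C = connectedComponentIn W x}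
/-- the part of the sphere where `F` has sign `b` -/
def U (F : R3) (b : ZMod 2) : Set E := {x | x ∈ Sph ∧ 0 < sg b * eval x F}
def PC (F : R3) (b : ZMod 2) : ℕ := (cmp (U F b)).ncard

/-- `s` is the indicator function of the inside of the oval `D` (the side not containing `-D`),
`σ` is the sign bit of `F` just inside `D` -/
structure Side (F : R3) (D : Set E) (s : E → ZMod 2) (σ : ZMod 2) : Prop where
  loc : ∀ x ∈ Sph, x ∉ D → ∀ᶠ y in 𝓝[Sph] x, y ∉ D ∧ s y = s x
  near : ∀ q ∈ D, ∀ᶠ y in 𝓝[Sph] q, y ∉ D → eval y F ≠ 0 ∧ s y = sb (eval y F) + σ + 1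
  out : ∀ q ∈ D, s (-q) = 0

/-- a choice of sides for all ovals -/
def Sides (F : R3) (s : Set E → E → ZMod 2) (σ : Set E → ZMod 2) : Prop :=
  ∀ D ∈ cmp (Zs F), Side F D (s D) (σ D)

/-- the ovals that surround `C` or `-C`, as in the statement -/
def nest (F : R3) (C : Set E) : Set (Set E) :=
  {D | D ∈ cmp (Zs F) ∧ D ≠ C ∧ D ≠ Neg.neg '' C ∧
    ∃ x, x ∈ C ∧ connectedComponentIn (Sph \ (D ∪ Neg.neg '' D)) x ≠
      connectedComponentIn (Sph \ (D ∪ Neg.neg '' D)) (-x)}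

/-! ### polynomials -/

def poly (d : ℤ) (c : V → ℝ) : R3 := ∑ p ∈ pts d, C (c p) * ∏ s, X s ^ (ex d p s).toNat
def mon (d : ℤ) (c : V → ℝ) (x : E) (p : V) : ℝ := c p * ∏ s, x s ^ (ex d p s).toNat
/-- the point of the open octant `l` with logarithmic coordinates `ξ` -/
def pt (l : Fin 3 → ZMod 2) (ξ : E) : E := fun s => sg (l s) * Real.exp (ξ s)
/-- the linear form of the monomial `p` -/
def lf (d : ℤ) (η : E) (p : V) : ℝ := ∑ s, (ex d p s : ℝ) * η s
/-- logarithm of the absolute value of a monomial -/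
def lg (d : ℤ) (c : V → ℝ) (ξ : E) (p : V) : ℝ := Real.log |c p| + lf d ξ p
/-- the affine interpolation of `f` from the unimodular triangle `t` -/
def itp (f : V → ℝ) (t : Tr) (x : V) : ℝ :=
  (det (t.2.1 - x) (t.2.2 - x) : ℤ) * f t.1 + (det (t.2.2 - x) (t.1 - x) : ℤ) * f t.2.1 +
    (det (t.1 - x) (t.2.1 - x) : ℤ) * f t.2.2

open Classical in
/-- the unimodular lower faces of the graph of `ν` -/
def regS (d : ℤ) (ν : V → ℝ) : Finset Tr :=
  (pts d ×ˢ pts d ×ˢ pts d).filter fun t => det (t.2.1 - t.1) (t.2.2 - t.1) = 1 ∧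
    ∀ x, InT d x → x ≠ t.1 → x ≠ t.2.1 → x ≠ t.2.2 → itp ν t x < ν x

theorem mem_regS {d : ℤ} {ν : V → ℝ} {p q r : V} : (p, q, r) ∈ regS d ν ↔
    (InT d p ∧ InT d q ∧ InT d r) ∧ det (q - p) (r - p) = 1 ∧
      ∀ x, InT d x → x ≠ p → x ≠ q → x ≠ r → itp ν (p, q, r) x < ν x := by
  simp only [regS, Finset.mem_filter, Finset.mem_product, mem_pts]

/-- the closed triangles cover the real triangle -/
def Cov (d : ℤ) (S : Finset Tr) : Prop :=
  ∀ u v : ℝ, 0 ≤ u → 0 ≤ v → u + v ≤ d → ∃ p q r, (p, q, r) ∈ S ∧ ∃ α β γ : ℝ,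
    0 ≤ α ∧ 0 ≤ β ∧ 0 ≤ γ ∧ α + β + γ = 1 ∧ u = α * p.1 + β * q.1 + γ * r.1 ∧
      v = α * p.2 + β * q.2 + γ * r.2

/-- strict concavity of `log |c|` with margin `M` -/
def Marg (d : ℤ) (S : Finset Tr) (c : V → ℝ) (M : ℝ) : Prop :=
  ∀ p q r, (p, q, r) ∈ S → ∀ x, InT d x → x ≠ p → x ≠ q → x ≠ r →
    Real.log |c x| + M ≤ itp (fun y => Real.log |c y|) (p, q, r) x

/-- dominant monomials -/
structure Dom (d : ℤ) (S : Finset Tr) (c : V → ℝ) (M : ℝ) : Prop where
  ne : ∀ p, InT d p → c p ≠ 0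
  tri : ∀ ξ : E, ∃ p q r, (p, q, r) ∈ S ∧ ∀ u, InT d u → u ≠ p → u ≠ q → u ≠ r →
    ∃ v, InT d v ∧ lg d c ξ u + M ≤ lg d c ξ v
  vtx : ∀ p, InT d p → ∃ ξ : E, ∀ u, InT d u → u ≠ p → lg d c ξ u + M ≤ lg d c ξ p
  edg : ∀ p q r, (p, q, r) ∈ S → ∃ ξ : E, lg d c ξ p = lg d c ξ q ∧
    ∀ u, InT d u → u ≠ p → u ≠ q → lg d c ξ u + M ≤ lg d c ξ p

/-- the sign distribution of the coefficients -/
def sgn (c : V → ℝ) : V → ZMod 2 := fun p => sb (c p)

/-- the convex set of points of the octant `l` where the monomial `p` beats all monomials of the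
other sign -/
def Wd (d : ℤ) (c : V → ℝ) (l : Fin 3 → ZMod 2) (p : V) : Set E :=
  {ξ | ∀ u, InT d u → bit d (sgn c) l u ≠ bit d (sgn c) l p →
    lg d c ξ u + Real.log (pts d).card < lg d c ξ p}

/-- the region of sign `b` that contains the direction of `x` -/
def reg (F : R3) (b : ZMod 2) (x : E) : Set E := connectedComponentIn (U F b) (nrm x)

end Pool.Agent.TC

end
end

section

/-! Square roots on the sphere. -/

open MvPolynomial Set Filter Topology

noncomputable section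

namespace Pool.Agent.TC

open Pool.Agent.Rags

/-- the complement of a closed ray -/
def Jor1_A (ε : ℝ) : Set E := {x | ¬ (x 1 = 0 ∧ x 2 = 0 ∧ ε * x 0 ≤ 0)}

theorem Jor1_open (ε : ℝ) : IsOpen (Jor1_A ε) := by
  have : IsClosed {x : E | x 1 = 0 ∧ x 2 = 0 ∧ ε * x 0 ≤ 0} :=
    (isClosed_eq (continuous_apply 1) continuous_const).inter
      ((isClosed_eq (continuous_apply 2) continuous_const).inter
        (isClosed_le (continuous_const.mul (continuous_apply 0)) continuous_const))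
  exact this.isOpen_compl

theorem Jor1_sc {ε : ℝ} (hε : ε ≠ 0) : IsSimplyConnected (Jor1_A ε) := by
  have p : 0 < ε * ε := mul_self_pos.2 hε
  have hs : StarConvex ℝ (Pi.single 0 ε : E) (Jor1_A ε) := by
    intro y hy a b ha hb hab ⟨h1, h2, h3⟩
    simp at h1 h2 h3
    rcases hb.eq_or_lt with rfl | hb'
    · have : a = 1 := by linarith
      subst this
      simp at h3
      linarith
    · refine hy ⟨h1.resolve_left hb'.ne', h2.resolve_left hb'.ne', ?_⟩
      by_contra hc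
      have := mul_pos hb' (not_le.1 hc)
      have := mul_nonneg ha p.le
      nlinarith
  have : ContractibleSpace (Jor1_A ε) := hs.contractibleSpace ⟨Pi.single 0 ε, by
    rintro ⟨-, -, h3⟩
    simp only [Pi.single_eq_same] at h3
    linarith⟩
  exact SimplyConnectedSpace.ofContractible _

theorem Jor1_ne {ε : ℝ} {x : E} (hx : x ∈ Jor1_A ε) : x ≠ 0 := by
  rintro rfl; exact hx (by simp)

theorem Jor1_conn : IsPreconnected (Jor1_A 1 ∩ Jor1_A (-1)) := by
  have h1 : IsPreconnected ({0}ᶜ : Set (ℝ × ℝ)) :=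
    (isConnected_compl_singleton_of_one_lt_rank (by simp [one_add_one_eq_two]) 0).isPreconnected
  have h2 := (isPreconnected_univ (α := ℝ)).prod h1
  have h3 := h2.image (fun p : ℝ × ℝ × ℝ => (![p.1, p.2.1, p.2.2] : E)) (by fun_prop)
  convert h3 using 1
  ext x
  simp only [Jor1_A, mem_inter_iff, mem_ofPred_eq, mem_image, mem_prod, mem_univ, true_and,
    mem_compl_iff, mem_singleton_iff]
  constructor
  · rintro ⟨a, b⟩
    refine ⟨(x 0, x 1, x 2), fun h => ?_, by ext i; fin_cases i <;> rfl⟩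
    obtain ⟨e1, e2⟩ := Prod.mk.inj h
    rcases le_total (x 0) 0 with h | h
    · exact a ⟨e1, e2, by linarith⟩
    · exact b ⟨e1, e2, by linarith⟩
  · rintro ⟨p, hp, rfl⟩
    exact ⟨fun h => hp (Prod.ext h.1 h.2.1), fun h => hp (Prod.ext h.1 h.2.1)⟩

/-- Plan: `g ∘ nrm` is continuous and nonvanishing on `{0}ᶜ`. For `n = Pi.single 0 1` the open
sets `A₊ = {x | ¬ (x 1 = 0 ∧ x 2 = 0 ∧ x 0 ≤ 0)}` and `A₋` (with `0 ≤ x 0`) are star-convex about
`± n`, hence contractible (`StarConvex.contractibleSpace`), simply connected: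
`Complex.exists_continuousOn_pow_eq` gives square roots `f₊`, `f₋`. On the preconnected set
`A₊ ∩ A₋ = {x | ¬ (x 1 = 0 ∧ x 2 = 0)}` (`isConnected_compl_of_one_lt_codim`, or the image of
`ℝ × (ℂ \ 0)`) `f₊ = f₋` or `f₊ = -f₋` (`IsPreconnected.eq_or_eq_neg_of_sq_eq`); glue. -/
theorem exists_sqrt {g : E → ℂ} (hg : ContinuousOn g Sph) (h0 : ∀ x ∈ Sph, g x ≠ 0) :
    ∃ f : E → ℂ, ContinuousOn f Sph ∧ ∀ x ∈ Sph, f x ^ 2 = g x := by
  classical
  have hc : ∀ ε, ContinuousOn (g ∘ nrm) (Jor1_A ε) := fun ε =>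
    hg.comp (fun x hx => (contAt_nrm (Jor1_ne hx)).continuousWithinAt)
      fun x hx => nrm_mem (Jor1_ne hx)
  have hn : ∀ ε, ∀ x ∈ Jor1_A ε, (g ∘ nrm) x ≠ 0 := fun ε x hx => h0 _ (nrm_mem (Jor1_ne hx))
  have ex : ∀ ε : ℝ, ε ≠ 0 → ∃ f : E → ℂ, ContinuousOn f (Jor1_A ε) ∧
      ∀ x, f x ^ 2 = (g ∘ nrm) x := fun ε hε =>
    Complex.exists_continuousOn_pow_eq (Jor1_sc hε) (Jor1_open ε) (hc ε)
      (by rintro ⟨x, hx, e⟩; exact hn ε x hx e) two_ne_zero
  obtain ⟨f, f1, f2⟩ := ex 1 one_ne_zero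
  obtain ⟨k, k1, k2, e⟩ : ∃ k : E → ℂ, ContinuousOn k (Jor1_A (-1)) ∧
      (∀ x, k x ^ 2 = (g ∘ nrm) x) ∧ EqOn f k (Jor1_A 1 ∩ Jor1_A (-1)) := by
    obtain ⟨k, k1, k2⟩ := ex (-1) (by norm_num)
    rcases Jor1_conn.eq_or_eq_neg_of_sq_eq (f1.mono inter_subset_left)
      (k1.mono inter_subset_right) (fun x _ => (f2 x).trans (k2 x).symm)
      (fun {x} hx hk => hn _ x hx.2 (by rw [← k2, hk]; simp)) with e | e
    · exact ⟨k, k1, k2, e⟩
    · exact ⟨-k, k1.neg, fun x => by rw [Pi.neg_apply, neg_sq, k2], e⟩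
  refine ⟨(Jor1_A 1).piecewise f k, fun x hx => ContinuousAt.continuousWithinAt ?_,
    fun x hx => ?_⟩
  · by_cases h : x ∈ Jor1_A 1
    · refine (f1.continuousAt ((Jor1_open 1).mem_nhds h)).congr ?_
      filter_upwards [(Jor1_open 1).mem_nhds h] with y hy
      rw [piecewise_eq_of_mem _ _ _ hy]
    · have h' : x ∈ Jor1_A (-1) := by
        rintro ⟨a1, a2, a3⟩
        obtain ⟨-, -, b3⟩ := not_not.1 h
        refine ne_zero_of_Sph hx ?_
        ext i; fin_cases i
        · change x 0 = 0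
          linarith
        · exact a1
        · exact a2
      refine (k1.continuousAt ((Jor1_open _).mem_nhds h')).congr ?_
      filter_upwards [(Jor1_open _).mem_nhds h'] with y hy
      by_cases hy' : y ∈ Jor1_A 1
      · rw [piecewise_eq_of_mem _ _ _ hy', e ⟨hy', hy⟩]
      · rw [piecewise_eq_of_notMem _ _ _ hy']
  · by_cases h : x ∈ Jor1_A 1
    · rw [piecewise_eq_of_mem _ _ _ h, f2, Function.comp_apply, nrm_self hx]
    · rw [piecewise_eq_of_notMem _ _ _ h, k2, Function.comp_apply, nrm_self hx]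

end Pool.Agent.TC

end
end

section

/-! Every oval has an inside. -/

open MvPolynomial Set Filter Topology

noncomputable section

namespace Pool.Agent.TC

open Pool.Agent.Rags

variable {F : R3} {n : ℕ}

theorem cmp_sub {W D : Set E} (hD : D ∈ cmp W) : D ⊆ W := by
  obtain ⟨x, -, rfl⟩ := hD; exact connectedComponentIn_subset _ _

theorem cmp_pre {W D : Set E} (hD : D ∈ cmp W) : IsPreconnected D := by
  obtain ⟨x, -, rfl⟩ := hD; exact isPreconnected_connectedComponentIn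

theorem cmp_ne {W D : Set E} (hD : D ∈ cmp W) : D.Nonempty := by
  obtain ⟨x, hx, rfl⟩ := hD; exact ⟨x, mem_connectedComponentIn hx⟩

theorem cmp_eq {W D : Set E} (hD : D ∈ cmp W) {x : E} (hx : x ∈ D) :
    D = connectedComponentIn W x := by
  obtain ⟨y, -, rfl⟩ := hD; exact connectedComponentIn_eq hx

theorem cmp_disj {W D D' : Set E} (hD : D ∈ cmp W) (hD' : D' ∈ cmp W) {x : E} (hx : x ∈ D)
    (hx' : x ∈ D') : D = D' := (cmp_eq hD hx).trans (cmp_eq hD' hx').symm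

theorem neg_cmp (h : Good F n) {D : Set E} (hD : D ∈ cmp (Zs F)) :
    Neg.neg '' D ∈ cmp (Zs F) := by
  obtain ⟨x, hx, rfl⟩ := hD
  exact ⟨-x, (neg_mem_Zs h).2 hx, (comp_neg (fun _ a => (neg_mem_Zs h).2 a) x).symm⟩

theorem neg_notMem (h : Good F n) {D : Set E} (hD : D ∈ cmp (Zs F)) {q : E} (hq : q ∈ D) :
    -q ∉ D := by
  obtain ⟨x, -, rfl⟩ := hD; exact neg_notMem_comp h hq

/-- an oval is open in the curve (`exists_orb`, `IsOrb.loc`, `IsOrb.range_eq`) -/
theorem ev_mem (h : Good F n) {D : Set E} (hD : D ∈ cmp (Zs F)) {q : E} (hq : q ∈ D) :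
    ∀ᶠ y in 𝓝 q, y ∈ Zs F → y ∈ D := by
  obtain ⟨φ, hφ, h0⟩ := exists_orb (cmp_sub hD hq)
  have h1 := hφ.loc h one_pos
  have h2 := hφ.range_eq h
  rw [h0] at h1 h2
  filter_upwards [h1] with y hy hz
  obtain ⟨t, -, rfl⟩ := hy hz
  rw [cmp_eq hD hq, ← h2]
  exact mem_range_self t

/-- an oval is closed -/
theorem ev_notMem (h : Good F n) {D : Set E} (hD : D ∈ cmp (Zs F)) {x : E} (hx : x ∉ D) :
    ∀ᶠ y in 𝓝 x, y ∉ D := by
  by_cases hz : x ∈ Zs F
  · have hD' : connectedComponentIn (Zs F) x ∈ cmp (Zs F) := ⟨x, hz, rfl⟩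
    have hx' := mem_connectedComponentIn hz
    filter_upwards [ev_mem h hD' hx'] with y hy hyD
    have e := cmp_disj hD hD' hyD (hy (cmp_sub hD hyD))
    exact hx (e ▸ hx')
  · filter_upwards [(isCompact_Zs F).isClosed.isOpen_compl.mem_nhds hz] with y hy hyD
    exact hy (cmp_sub hD hyD)

theorem Jor2_sb_ev {r : E → ℝ} {S : Set E} {x : E} (hr : ContinuousWithinAt r S x)
    (h0 : r x ≠ 0) : ∀ᶠ y in 𝓝[S] x, r y ≠ 0 ∧ sb (r y) = sb (r x) := by
  rcases lt_or_gt_of_ne h0 with h1 | h1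
  · filter_upwards [hr.eventually (gt_mem_nhds h1)] with y hy
    exact ⟨hy.ne, by simp [sb, hy, h1]⟩
  · filter_upwards [hr.eventually (lt_mem_nhds h1)] with y hy
    exact ⟨hy.ne', by simp [sb, not_lt.2 hy.le, not_lt.2 h1.le]⟩

theorem Jor2_sb_mul {a b : ℝ} (ha : a ≠ 0) (hb : b ≠ 0) : sb (a * b) = sb a + sb b := by
  have e : (1 + 1 : ZMod 2) = 0 := by decide
  rcases lt_or_gt_of_ne ha with h1 | h1 <;> rcases lt_or_gt_of_ne hb with h2 | h2
  · simp [sb, h1, h2, not_lt.2 (mul_pos_of_neg_of_neg h1 h2).le, e]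
  · simp [sb, h1, not_lt.2 h2.le, mul_neg_of_neg_of_pos h1 h2]
  · simp [sb, h2, not_lt.2 h1.le, mul_neg_of_pos_of_neg h1 h2]
  · simp [sb, not_lt.2 h1.le, not_lt.2 h2.le, not_lt.2 (mul_pos h1 h2).le]

theorem Jor2_re_ne {G f : ℂ} (hG : G ≠ 0) (e : f ^ 2 = G ^ 2 / (‖G‖ : ℂ) ^ 2) :
    (G * (starRingEnd ℂ) f).re ≠ 0 := by
  have hn : (‖G‖ : ℂ) ≠ 0 := by exact_mod_cast norm_ne_zero_iff.2 hG
  have hn' : ‖G‖ ≠ 0 := norm_ne_zero_iff.2 hG
  have hf : f ≠ 0 := by
    rintro rfl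
    have : G ^ 2 / (‖G‖ : ℂ) ^ 2 ≠ 0 := div_ne_zero (pow_ne_zero _ hG) (pow_ne_zero _ hn)
    exact this (by rw [← e]; ring)
  have hq : Complex.normSq f ≠ 0 := (Complex.normSq_pos.2 hf).ne'
  have e2 : G ^ 2 = ((‖G‖ : ℂ) * f) ^ 2 := by rw [mul_pow, e]; field_simp
  rcases sq_eq_sq_iff_eq_or_eq_neg.1 e2 with h1 | h1
  · have : G * (starRingEnd ℂ) f = ((‖G‖ * Complex.normSq f : ℝ) : ℂ) := by
      conv_lhs => rw [h1]
      rw [mul_assoc, Complex.mul_conj]; push_cast; ring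
    rw [this, Complex.ofReal_re]
    exact mul_ne_zero hn' hq
  · have : G * (starRingEnd ℂ) f = ((-(‖G‖ * Complex.normSq f) : ℝ) : ℂ) := by
      conv_lhs => rw [h1]
      rw [neg_mul, mul_assoc, Complex.mul_conj]; push_cast; ring
    rw [this, Complex.ofReal_re]
    exact neg_ne_zero.2 (mul_ne_zero hn' hq)

/-- a function that cuts out one oval and is real near it -/
theorem Jor2_G (h : Good F n) {D : Set E} (hD : D ∈ cmp (Zs F)) :
    ∃ G : E → ℂ, Continuous G ∧ (∀ y ∈ Sph, y ∉ D → G y ≠ 0) ∧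
      ∀ q ∈ D, ∀ᶠ y in 𝓝 q, G y = (eval y F : ℝ) := by
  have c1 : IsClosed D := by
    rw [← isOpen_compl_iff, isOpen_iff_mem_nhds]
    exact fun x hx => ev_notMem h hD hx
  have c2 : IsClosed (Zs F \ D) := by
    rw [← isOpen_compl_iff, isOpen_iff_mem_nhds]
    intro x hx
    by_cases hxD : x ∈ D
    · filter_upwards [ev_mem h hD hxD] with y hy hy'
      exact hy'.2 (hy hy'.1)
    · have hz : x ∉ Zs F := fun hz => hx ⟨hz, hxD⟩
      filter_upwards [(isCompact_Zs F).isClosed.isOpen_compl.mem_nhds hz] with y hy hy'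
      exact hy hy'.1
  obtain ⟨ρ, r0, r1, -⟩ := exists_continuous_zero_one_of_isClosed c1 c2 disjoint_sdiff_right
  have hρ := ρ.continuous
  have hF := cont_eval F
  refine ⟨fun y => (eval y F : ℝ) + (max (2 * ρ y - 1) 0 : ℝ) * Complex.I, by fun_prop, ?_, ?_⟩
  · intro y hy hyD e
    have e1 := congrArg Complex.re e
    have e2 := congrArg Complex.im e
    simp only [Complex.add_re, Complex.ofReal_re, Complex.mul_re, Complex.I_re, mul_zero,
      Complex.ofReal_im, Complex.I_im, mul_one, sub_self, add_zero, Complex.zero_re,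
      Complex.add_im, Complex.mul_im, zero_add, Complex.zero_im] at e1 e2
    have hz : y ∈ Zs F \ D := ⟨⟨hy, e1⟩, hyD⟩
    have := r1 hz
    simp only [Pi.one_apply] at this
    rw [this] at e2
    norm_num at e2
  · intro q hq
    have h0 : ρ q < 1 / 2 := by
      have := r0 hq
      simp only [Pi.zero_apply] at this
      rw [this]; norm_num
    filter_upwards [hρ.continuousAt.eventually (gt_mem_nhds h0)] with y hy
    rw [max_eq_right (by linarith)]
    simp

/-- Plan: `D` and `Y = Zs F \ D` are disjoint closed sets. Take a continuous `ρ : E → ℝ` with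
`ρ = 1` on `Y` and `ρ = 0` on a neighbourhood of `D` (`exists_continuous_zero_one_of_isClosed`
composed with `max (2 · - 1) 0`). Let `G y = eval y F + ρ y * I` (zero exactly on `D`, within the
sphere) and `g y = if y ∈ D then 1 else G y ^ 2 / ‖G y‖ ^ 2`; `g = 1` near `D`, so it is
continuous on `Sph`; `f = exists_sqrt`. Off `D`, `G / ‖G‖ = ± f`; let `s₀ y = 0` iff the sign is
`+`; it is locally constant off `D`. Near `D`, `f = ± 1` is locally constant, so constant on `D`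
(`loc_const`), and `s₀ y = sb (eval y F) + const`. Finally add the constant value of `s₀` on the
preconnected set `-D` (disjoint from `D`). -/
theorem exists_side (h : Good F n) {D : Set E} (hD : D ∈ cmp (Zs F)) :
    ∃ s σ, Side F D s σ := by
  classical
  obtain ⟨G, hG, hG0, hGr⟩ := Jor2_G h hD
  have hDS : D ⊆ Sph := fun y hy => (cmp_sub hD hy).1
  let g : E → ℂ := fun y => if y ∈ D then 1 else G y ^ 2 / (‖G y‖ : ℂ) ^ 2
  have hn : ∀ y ∈ Sph, y ∉ D → (‖G y‖ : ℂ) ≠ 0 := fun y hy hyD => by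
    exact_mod_cast norm_ne_zero_iff.2 (hG0 y hy hyD)
  have g1 : ∀ q ∈ D, ∀ᶠ y in 𝓝[Sph] q, g y = 1 := by
    intro q hq
    filter_upwards [nhdsWithin_le_nhds (hGr q hq), self_mem_nhdsWithin] with y hy hyS
    by_cases hyD : y ∈ D
    · exact if_pos hyD
    · have h2 := hn y hyS hyD
      show (if y ∈ D then 1 else G y ^ 2 / (‖G y‖ : ℂ) ^ 2) = 1
      rw [if_neg hyD, div_eq_one_iff_eq (pow_ne_zero _ h2), hy, Complex.norm_real,
        Real.norm_eq_abs, ← Complex.ofReal_pow, ← Complex.ofReal_pow, sq_abs]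
  have gc : ContinuousOn g Sph := by
    intro x hx
    by_cases hxD : x ∈ D
    · exact continuousWithinAt_const.congr_of_eventuallyEq (g1 x hxD) (if_pos hxD)
    · have h2 : ContinuousAt (fun y => G y ^ 2 / (‖G y‖ : ℂ) ^ 2) x :=
        ContinuousAt.div (by fun_prop) (by fun_prop) (pow_ne_zero _ (hn x hx hxD))
      refine h2.continuousWithinAt.congr_of_eventuallyEq ?_ (if_neg hxD)
      filter_upwards [nhdsWithin_le_nhds (ev_notMem h hD hxD)] with y hy
      exact if_neg hy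
  have g0 : ∀ x ∈ Sph, g x ≠ 0 := by
    intro x hx
    by_cases hxD : x ∈ D
    · exact (if_pos hxD).trans_ne one_ne_zero
    · exact (if_neg hxD).trans_ne
        (div_ne_zero (pow_ne_zero _ (hG0 x hx hxD)) (pow_ne_zero _ (hn x hx hxD)))
  obtain ⟨f, fc, hf⟩ := exists_sqrt gc g0
  let r : E → ℝ := fun y => (G y * (starRingEnd ℂ) (f y)).re
  have rc : ContinuousOn r Sph :=
    Complex.continuous_re.comp_continuousOn
      (hG.continuousOn.mul (Complex.continuous_conj.comp_continuousOn fc))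
  have r0 : ∀ x ∈ Sph, x ∉ D → r x ≠ 0 := fun x hx hxD =>
    Jor2_re_ne (hG0 x hx hxD) ((hf x hx).trans (if_neg hxD))
  have rl : ∀ x ∈ Sph, x ∉ D → ∀ᶠ y in 𝓝[Sph] x, sb (r y) = sb (r x) := fun x hx hxD =>
    (Jor2_sb_ev (rc x hx) (r0 x hx hxD)).mono fun _ a => a.2
  have fre : ContinuousOn (fun y => (f y).re) Sph := Complex.continuous_re.comp_continuousOn fc
  have f0 : ∀ q ∈ D, (f q).re ≠ 0 := by
    intro q hq
    have e : f q ^ 2 = 1 ^ 2 := by rw [one_pow]; exact (hf q (hDS hq)).trans (if_pos hq)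
    rcases sq_eq_sq_iff_eq_or_eq_neg.1 e with h1 | h1 <;> rw [h1] <;> simp
  have fl : ∀ q ∈ D, ∀ᶠ y in 𝓝[Sph] q, (f y).re ≠ 0 ∧ sb (f y).re = sb (f q).re :=
    fun q hq => Jor2_sb_ev (fre q (hDS hq)) (f0 q hq)
  obtain ⟨q0, hq0⟩ := cmp_ne hD
  have fcst : ∀ q ∈ D, sb (f q).re = sb (f q0).re := fun q hq =>
    loc_const (cmp_pre hD) (fun y => sb (f y).re)
      (fun x hx => nhdsWithin_mono x hDS ((fl x hx).mono fun _ a => a.2)) hq hq0
  have hN := neg_cmp h hD
  have hNS : Neg.neg '' D ⊆ Sph := fun y hy => (cmp_sub hN hy).1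
  have rcst : ∀ q ∈ D, sb (r (-q)) = sb (r (-q0)) := fun q hq =>
    loc_const (cmp_pre hN) (fun y => sb (r y))
      (fun x hx => nhdsWithin_mono x hNS (rl x (hNS hx) (by
        obtain ⟨z, hz, rfl⟩ := hx
        exact neg_notMem h hD hz))) ⟨q, hq, rfl⟩ ⟨q0, hq0, rfl⟩
  have e11 : ∀ a : ZMod 2, a + a = 0 := by decide
  refine ⟨fun y => sb (r y) + sb (r (-q0)), sb (f q0).re + sb (r (-q0)) + 1, ?_, ?_, ?_⟩
  · intro x hx hxD
    filter_upwards [rl x hx hxD, nhdsWithin_le_nhds (ev_notMem h hD hxD)] with y h1 h2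
    exact ⟨h2, by rw [h1]⟩
  · intro q hq
    filter_upwards [fl q hq, nhdsWithin_le_nhds (hGr q hq), self_mem_nhdsWithin] with y h1 h2 h3 h4
    have h5 : eval y F ≠ 0 := fun e => hG0 y h3 h4 (by rw [h2, e]; simp)
    refine ⟨h5, ?_⟩
    have h6 : r y = eval y F * (f y).re := by
      show (G y * (starRingEnd ℂ) (f y)).re = _
      rw [h2]; simp
    rw [h6, Jor2_sb_mul h5 h1.1, h1.2, fcst q hq]
    linear_combination -e11 1
  · intro q hq
    show sb (r (-q)) + sb (r (-q0)) = 0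
    rw [rcst q hq, e11]

theorem exists_sides (h : Good F n) : ∃ s σ, Sides F s σ := by
  have : ∀ D : Set E, ∃ s σ, D ∈ cmp (Zs F) → Side F D s σ := fun D => by
    by_cases hD : D ∈ cmp (Zs F)
    · obtain ⟨s, σ, hs⟩ := exists_side h hD
      exact ⟨s, σ, fun _ => hs⟩
    · exact ⟨0, 0, fun a => (hD a).elim⟩
  choose s σ hs using this
  exact ⟨s, σ, hs⟩

end Pool.Agent.TC

end
end

section

/-! Basic properties of sides. -/

open MvPolynomial Set Filter Topology

noncomputable section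

namespace Pool.Agent.TC

open Pool.Agent.Rags

variable {F : R3} {n : ℕ} {D D' : Set E} {s s' : E → ZMod 2} {σ σ' : ZMod 2}

/-- both signs occur near a point of the curve (`side_local`) -/
theorem freq_sign (h : Good F n) {q : E} (hq : q ∈ Zs F) (b : ZMod 2) :
    ∃ᶠ y in 𝓝[Sph] q, y ∈ U F b := by
  exact ((side_local h hq (sg_ne b)).2.and_eventually self_mem_nhdsWithin).mono
    fun y hy => ⟨hy.2, hy.1⟩

/-- A function that is locally constant off `Y ⊆ Zs F` and has a limit value at each point of `Y`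
is constant. Plan: extend it to `Y` by the limit values; the extension is locally constant on the
sphere (`freq_sign`, `eventually_eventually_nhdsWithin`); `loc_const preconn_Sph`. -/
theorem ext_const {G : Type} (h : Good F n) {Y : Set E} (hY : Y ⊆ Zs F) (f : E → G)
    (h1 : ∀ x ∈ Sph, x ∉ Y → ∀ᶠ y in 𝓝[Sph] x, y ∉ Y ∧ f y = f x)
    (h2 : ∀ q ∈ Y, ∃ v, ∀ᶠ y in 𝓝[Sph] q, y ∉ Y → f y = v) {x y : E} (hx : x ∈ Sph) (hx' : x ∉ Y)
    (hy : y ∈ Sph) (hy' : y ∉ Y) : f x = f y := by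
  classical
  have : Nonempty G := ⟨f x⟩
  choose! v hv using h2
  have key := loc_const preconn_Sph (fun z => if z ∈ Y then v z else f z) (fun q hq => ?_) hx hy
  · simpa [hx', hy'] using key
  by_cases hqY : q ∈ Y
  · filter_upwards [hv q hqY, eventually_eventually_nhdsWithin.2 (hv q hqY)] with z h3 h4
    by_cases hz : z ∈ Y
    · obtain ⟨w, hw, h5, h6⟩ := ((freq_sign h (hY hz) 0).and_eventually (h4.and (hv z hz))).exists
      have hwY : w ∉ Y := fun e => by simpa [(hY e).2] using hw.2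
      simp only [hz, hqY, if_true]
      rw [← h5 hwY, ← h6 hwY]
    · simp only [hz, hqY, if_true, if_false]
      exact h3 hz
  · filter_upwards [h1 q hq hqY] with z hz
    simp only [hz.1, hqY, if_false]
    exact hz.2

theorem Side.const (hs : Side F D s σ) {K : Set E} (hK : IsPreconnected K) (hS : K ⊆ Sph)
    (hD : ∀ x ∈ K, x ∉ D) {x y : E} (hx : x ∈ K) (hy : y ∈ K) : s x = s y := by
  exact loc_const hK s (fun z hz => ((hs.loc z (hS hz) (hD z hz)).filter_mono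
    (nhdsWithin_mono _ hS)).mono fun _ a => a.2) hx hy

/-- `eval_neg_even` -/
theorem Side.neg (h : Good F n) (hs : Side F D s σ) :
    Side F (Neg.neg '' D) (fun x => s (-x)) σ := by
  have hm : ∀ x : E, x ∈ Neg.neg '' D ↔ -x ∈ D := fun x =>
    ⟨fun ⟨y, hy, e⟩ => by simpa [← e] using hy, fun a => ⟨-x, a, neg_neg x⟩⟩
  have ht : ∀ x : E, Tendsto Neg.neg (𝓝[Sph] x) (𝓝[Sph] (-x)) := fun x =>
    continuous_neg.continuousWithinAt.tendsto_nhdsWithin fun y hy => neg_mem_Sph.2 hy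
  refine ⟨fun x hx hxD => ?_, fun q hq => ?_, fun q hq => ?_⟩
  · filter_upwards [(ht x).eventually (hs.loc (-x) (neg_mem_Sph.2 hx) (by rwa [← hm]))] with y hy
    exact ⟨by rw [hm]; exact hy.1, hy.2⟩
  · filter_upwards [(ht q).eventually (hs.near (-q) ((hm q).1 hq))] with y hy hyD
    rw [← eval_neg_even h.hom h.ev y]
    exact hy (by rwa [← hm])
  · exact hs.out (-q) ((hm q).1 hq)

end Pool.Agent.TC

end
end

section

/-! Basic properties of sides. -/

open MvPolynomial Set Filter Topology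

noncomputable section

namespace Pool.Agent.TC

open Pool.Agent.Rags

variable {F : R3} {n : ℕ} {D D' : Set E} {s s' : E → ZMod 2} {σ σ' : ZMod 2}

theorem Top1_pick (h : Good F n) {q : E} (hq : q ∈ Zs F) {P : E → Prop}
    (hP : ∀ᶠ y in 𝓝[Sph] q, P y) : ∃ y, y ∈ Sph ∧ y ∉ Zs F ∧ P y := by
  obtain ⟨y, hy, hPy⟩ := ((freq_sign h hq 0).and_eventually hP).exists
  refine ⟨y, hy.1, fun hz => ?_, hPy⟩
  have h2 := hy.2
  rw [hz.2, mul_zero] at h2
  exact lt_irrefl _ h2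

theorem Top1_add (a b : ZMod 2) (h : a + b = 0) : a = b := by revert a b; decide

theorem Top1_add2 (a b c : ZMod 2) : a + b + 1 + (a + c + 1) = b + c := by revert a b c; decide

/-- `ext_const` for `s + s'` -/
theorem Side.unique (h : Good F n) (hD : D ∈ cmp (Zs F)) (hs : Side F D s σ)
    (hs' : Side F D s' σ') : σ = σ' ∧ ∀ x ∈ Sph, x ∉ D → s x = s' x := by
  obtain ⟨q, hq⟩ := cmp_ne hD
  have hqZ := cmp_sub hD hq
  have hnear : ∀ p ∈ D, ∀ᶠ y in 𝓝[Sph] p, y ∉ D → s y + s' y = σ + σ' := by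
    intro p hp
    filter_upwards [hs.near p hp, hs'.near p hp] with y h1 h2 hy
    rw [(h1 hy).2, (h2 hy).2, Top1_add2]
  have key : ∀ x ∈ Sph, x ∉ D → s x + s' x = 0 := by
    intro x hx hxD
    have h3 := ext_const h (cmp_sub hD) (fun y => s y + s' y) ?_
      (fun p hp => ⟨σ + σ', hnear p hp⟩) hx hxD (neg_mem_Sph.2 hqZ.1) (neg_notMem h hD hq)
    · simpa [hs.out q hq, hs'.out q hq] using h3
    · intro y hy hyD
      filter_upwards [hs.loc y hy hyD, hs'.loc y hy hyD] with z h1 h2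
      exact ⟨h1.1, by rw [h1.2, h2.2]⟩
  refine ⟨?_, fun x hx hxD => Top1_add _ _ (key x hx hxD)⟩
  obtain ⟨y, hy, hyZ, hy'⟩ := Top1_pick h hqZ (hnear q hq)
  have hyD : y ∉ D := fun a => hyZ (cmp_sub hD a)
  exact Top1_add _ _ ((hy' hyD).symm.trans (key y hy hyD))

theorem Top1_mul (a b : ZMod 2) (h : a * b = 0) : a = 0 ∨ b = 0 := by revert a b; decide

/-- the insides of `D` and `-D` are disjoint: `ext_const` for `s x * s (-x)` -/
theorem Side.disj (h : Good F n) (hD : D ∈ cmp (Zs F)) (hs : Side F D s σ) {x : E} (hx : x ∈ Sph)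
    (h1 : x ∉ D) (h2 : -x ∉ D) : s x = 0 ∨ s (-x) = 0 := by
  have hn := hs.neg h
  have hD' := neg_cmp h hD
  have hmem : ∀ y : E, y ∈ Neg.neg '' D ↔ -y ∈ D := fun y =>
    ⟨by rintro ⟨u, hu, rfl⟩; simpa using hu, fun a => ⟨-y, a, neg_neg y⟩⟩
  have hY : D ∪ Neg.neg '' D ⊆ Zs F := union_subset (cmp_sub hD) (cmp_sub hD')
  have hnear : ∀ p ∈ D ∪ Neg.neg '' D, ∀ᶠ y in 𝓝[Sph] p,
      y ∉ D ∪ Neg.neg '' D → s y * s (-y) = 0 := by
    rintro p (hp | hp)
    · have hp' : p ∉ Neg.neg '' D := fun a => neg_notMem h hD hp ((hmem p).1 a)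
      filter_upwards [hn.loc p (cmp_sub hD hp).1 hp'] with y hy _
      rw [hy.2, hs.out p hp, mul_zero]
    · have hp1 := (hmem p).1 hp
      have hp' : p ∉ D := fun a => neg_notMem h hD a hp1
      have h0 : s p = 0 := by simpa using hs.out _ hp1
      filter_upwards [hs.loc p (cmp_sub hD' hp).1 hp'] with y hy _
      rw [hy.2, h0, zero_mul]
  obtain ⟨q, hq⟩ := cmp_ne hD
  obtain ⟨y, hy, hyZ, hy'⟩ := Top1_pick h (cmp_sub hD hq) (hnear q (Or.inl hq))
  have hyY : y ∉ D ∪ Neg.neg '' D := fun a => hyZ (hY a)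
  have hxY : x ∉ D ∪ Neg.neg '' D := by
    rintro (a | a)
    exacts [h1 a, h2 ((hmem x).1 a)]
  have h3 := ext_const h hY (fun y => s y * s (-y)) ?_ (fun p hp => ⟨0, hnear p hp⟩) hx hxY hy hyY
  · exact Top1_mul _ _ (h3.trans (hy' hyY))
  · intro z hz hzY
    filter_upwards [hs.loc z hz fun a => hzY (Or.inl a), hn.loc z hz fun a => hzY (Or.inr a)]
      with w a b
    exact ⟨fun c => c.elim a.1 b.1, by rw [a.2, b.2]⟩

theorem Top1_mul2 (a : ZMod 2) (h : (1 + 0) * (1 + a) = 0) : a = 1 := by revert a; decide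

/-- two ovals are not inside each other. Plan: `D' ≠ -D` by `out`. `ext_const` for
`(1 + s) (1 + s')` with `Y = D ∪ D'` shows that it vanishes; at `-q`, `q ∈ D`, `s = 0`, so
`s' (-q) = 1 = s' q`, contradicting `disj`. -/
theorem Side.not_mutual (h : Good F n) (hD : D ∈ cmp (Zs F)) (hD' : D' ∈ cmp (Zs F)) (hne : D ≠ D')
    (hs : Side F D s σ) (hs' : Side F D' s' σ') {q q' : E} (hq : q ∈ D) (hq' : q' ∈ D')
    (h1 : s q' = 1) (h2 : s' q = 1) : False := by
  have hdj : ∀ x ∈ D, x ∉ D' := fun x a b => hne (cmp_disj hD hD' a b)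
  have hdj' : ∀ x ∈ D', x ∉ D := fun x a b => hdj x b a
  have hS : D ⊆ Sph := fun x a => (cmp_sub hD a).1
  have hS' : D' ⊆ Sph := fun x a => (cmp_sub hD' a).1
  have e1 : ∀ p ∈ D', s p = 1 := fun p hp =>
    (hs.const (cmp_pre hD') hS' hdj' hp hq').trans h1
  have e2 : ∀ p ∈ D, s' p = 1 := fun p hp =>
    (hs'.const (cmp_pre hD) hS hdj hp hq).trans h2
  have h11 : (1 + 1 : ZMod 2) = 0 := by decide
  have hY : D ∪ D' ⊆ Zs F := union_subset (cmp_sub hD) (cmp_sub hD')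
  have hnear : ∀ p ∈ D ∪ D', ∀ᶠ y in 𝓝[Sph] p, y ∉ D ∪ D' → (1 + s y) * (1 + s' y) = 0 := by
    rintro p (hp | hp)
    · filter_upwards [hs'.loc p (hS hp) (hdj p hp)] with y hy _
      rw [hy.2, e2 p hp, h11, mul_zero]
    · filter_upwards [hs.loc p (hS' hp) (hdj' p hp)] with y hy _
      rw [hy.2, e1 p hp, h11, zero_mul]
  obtain ⟨y, hy, hyZ, hy'⟩ := Top1_pick h (cmp_sub hD hq) (hnear q (Or.inl hq))
  have hyY : y ∉ D ∪ D' := fun a => hyZ (hY a)
  have h0 := hs.out q hq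
  have hq1 : -q ∉ D' := fun a => zero_ne_one (h0.symm.trans (e1 _ a))
  have hqY : -q ∉ D ∪ D' := by
    rintro (a | a)
    exacts [neg_notMem h hD hq a, hq1 a]
  have h3 := ext_const h hY (fun y => (1 + s y) * (1 + s' y)) ?_ (fun p hp => ⟨0, hnear p hp⟩)
    (neg_mem_Sph.2 (hS hq)) hqY hy hyY
  · have h4 := h3.trans (hy' hyY)
    simp only [h0] at h4
    have h5 := Top1_mul2 _ h4
    rcases hs'.disj h hD' (hS hq) (hdj q hq) hq1 with a | a
    · exact zero_ne_one (a.symm.trans h2)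
    · exact zero_ne_one (a.symm.trans h5)
  · intro z hz hzY
    filter_upwards [hs.loc z hz fun a => hzY (Or.inl a), hs'.loc z hz fun a => hzY (Or.inr a)]
      with w a b
    exact ⟨fun c => c.elim a.1 b.1, by rw [a.2, b.2]⟩

/-- the region of sign `b` next to the oval `D` (`side_comp` with `W = U F 0 ∪ U F 1`; or directly
from `side_local` and `loc_const`) -/
theorem exists_adj (h : Good F n) (hD : D ∈ cmp (Zs F)) (b : ZMod 2) :
    ∃ Ω ∈ cmp (U F b), ∀ q ∈ D, ∀ᶠ y in 𝓝[Sph] q, y ∈ U F b → y ∈ Ω := by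
  have hDZ := cmp_sub hD
  obtain ⟨z, hz⟩ := cmp_ne hD
  have hex : ∀ p ∈ D, ∃ y₀, y₀ ∈ U F b ∧ ∀ᶠ p' in 𝓝 p, ∀ᶠ y in 𝓝[Sph] p',
      y ∈ U F b → y ∈ connectedComponentIn (U F b) y₀ := by
    intro p hp
    obtain ⟨⟨V, hV, hpV, hcon⟩, -⟩ := side_local h (hDZ hp) (sg_ne b)
    obtain ⟨y₀, hy₀, hyV⟩ := ((freq_sign h (hDZ hp) b).and_eventually
      (nhdsWithin_le_nhds (hV.mem_nhds hpV))).exists
    have hsub := hcon.subset_connectedComponentIn (F := U F b) ⟨hyV, hy₀⟩ fun y hy => hy.2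
    refine ⟨y₀, hy₀, ?_⟩
    filter_upwards [hV.mem_nhds hpV] with p' hp'
    filter_upwards [nhdsWithin_le_nhds (hV.mem_nhds hp')] with y hy hyF
    exact hsub ⟨hy, hyF⟩
  choose! Y hY using hex
  refine ⟨connectedComponentIn (U F b) (Y z), ⟨Y z, (hY z hz).1, rfl⟩, fun p hp => ?_⟩
  rw [loc_const (cmp_pre hD) (fun p => connectedComponentIn (U F b) (Y p)) ?_ hz hp]
  · exact (hY p hp).2.self_of_nhds
  intro q hq
  filter_upwards [nhdsWithin_le_nhds (hY q hq).2, self_mem_nhdsWithin] with p' h1 hp'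
  obtain ⟨y, hy, h2, h3⟩ := ((freq_sign h (hDZ hp') b).and_eventually
    (h1.and (hY p' hp').2.self_of_nhds)).exists
  rw [connectedComponentIn_eq (h2 hy), connectedComponentIn_eq (h3 hy)]

/-- regions are open in the sphere (`comp_open`) -/
theorem ev_reg {b : ZMod 2} {x : E} (hx : x ∈ U F b) :
    ∀ᶠ y in 𝓝[Sph] x, y ∈ connectedComponentIn (U F b) x := by
  refine comp_open hx.1 ?_
  have hc : Continuous fun y : E => sg b * eval y F := continuous_const.mul (cont_eval F)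
  filter_upwards [nhdsWithin_le_nhds (hc.continuousAt.eventually (lt_mem_nhds hx.2)),
    self_mem_nhdsWithin] with y h1 h2
  exact ⟨h2, h1⟩

end Pool.Agent.TC

end
end

section

/-! The number of regions is the number of ovals plus one. -/

open MvPolynomial Set Filter Topology

noncomputable section

namespace Pool.Agent.TC

open Pool.Agent.Rags

variable {F : R3} {n : ℕ} {s : Set E → E → ZMod 2} {σ : Set E → ZMod 2}

private theorem Top2_card (hU : ∀ b, (cmp (U F b)).Finite) :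
    Nat.card (Σ b : ZMod 2, cmp (U F b)) = PC F 0 + PC F 1 := by
  have : ∀ b, Finite (cmp (U F b)) := fun b => (hU b).to_subtype
  rw [Nat.card_sigma]
  exact Fin.sum_univ_two (fun b : Fin 2 => Nat.card (cmp (U F b)))

private theorem Top2_pow (I : Type) [Finite I] :
    Nat.card (ZMod 2 × (I → ZMod 2)) = 2 ^ (Nat.card I + 1) := by
  rw [Nat.card_prod, Nat.card_fun, Nat.card_zmod, pow_succ, mul_comm]

private theorem Top2_mem {x : E} (hx : x ∈ Sph) (hz : x ∉ Zs F) : x ∈ U F (sb (eval x F)) :=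
  ⟨hx, sg_pos_iff.2 ⟨fun a => hz ⟨hx, a⟩, rfl⟩⟩

private theorem Top2_not {x : E} {b : ZMod 2} (hx : x ∈ U F b) : x ∉ Zs F :=
  fun a => (sg_pos_iff.1 hx.2).1 a.2

/-- Plan: with `R = cmp (U F 0) ⊕ cmp (U F 1)` and a chosen point in each region, the map
`ZMod 2 × (cmp (Zs F) → ZMod 2) → (R → ZMod 2)`, `(c, a) ↦ c + ∑ a D * s D`, is injective (each
`s D` is constant on regions, `Side.const`; near a point of `D₀` use `freq_sign` for both signs:
only `s D₀` jumps; `R` is nonempty as soon as there is an oval). Compare cardinalities. -/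
theorem regions_ge (h : Good F n) (hs : Sides F s σ) (hfin : (cmp (Zs F)).Finite)
    (hne : (cmp (Zs F)).Nonempty) (hU : ∀ b, (cmp (U F b)).Finite) :
    (cmp (Zs F)).ncard + 1 ≤ PC F 0 + PC F 1 := by
  classical
  have : ∀ b, Finite (cmp (U F b)) := fun b => (hU b).to_subtype
  have : Fintype (cmp (Zs F)) := hfin.fintype
  have hp : ∀ Ω : (Σ b : ZMod 2, cmp (U F b)), ∃ x, x ∈ Ω.2.1 := fun Ω => cmp_ne Ω.2.2
  choose p hp using hp
  let Φ : ZMod 2 × (cmp (Zs F) → ZMod 2) → ((Σ b : ZMod 2, cmp (U F b)) → ZMod 2) :=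
    fun c Ω => c.1 + ∑ D, c.2 D * s D (p Ω)
  have hinj : Function.Injective Φ := by
    rintro ⟨c, a⟩ ⟨c', a'⟩ hΦ
    have key : ∀ b, ∀ x ∈ U F b, c + ∑ D : cmp (Zs F), a D * s D x =
        c' + ∑ D : cmp (Zs F), a' D * s D x := by
      intro b x hx
      let Ω : (Σ b : ZMod 2, cmp (U F b)) := ⟨b, connectedComponentIn (U F b) x, x, hx, rfl⟩
      have h1 : ∀ D : cmp (Zs F), s D x = s D (p Ω) := fun D =>
        (hs D D.2).const (cmp_pre Ω.2.2) (fun y hy => (cmp_sub Ω.2.2 hy).1)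
          (fun y hy hD => Top2_not (cmp_sub Ω.2.2 hy) (cmp_sub D.2 hD))
          (mem_connectedComponentIn hx) (hp Ω)
      simp only [h1]
      exact congrFun hΦ Ω
    have ha : a = a' := by
      funext D₀
      obtain ⟨q, hq⟩ := cmp_ne D₀.2
      have hqZ := cmp_sub D₀.2 hq
      have e1 : ∀ᶠ y in 𝓝[Sph] q, ∀ D : cmp (Zs F), D ≠ D₀ → s D y = s D q := by
        refine eventually_all.2 fun D => ?_
        by_cases hD : D = D₀
        · exact Eventually.of_forall fun _ a => (a hD).elim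
        · exact ((hs D D.2).loc q hqZ.1
            (fun a => hD (Subtype.ext (cmp_disj D.2 D₀.2 a hq)))).mono fun _ a _ => a.2
      have e2 := e1.and ((hs D₀ D₀.2).near q hq)
      have hy : ∀ b, ∃ y ∈ U F b, (∀ D : cmp (Zs F), D ≠ D₀ → s D y = s D q) ∧
          s D₀ y = b + σ D₀ + 1 := by
        intro b
        obtain ⟨y, hy, h1, h2⟩ := ((freq_sign h hqZ b).and_eventually e2).exists
        refine ⟨y, hy, h1, ?_⟩
        rw [(h2 fun a => Top2_not hy (cmp_sub D₀.2 a)).2, (sg_pos_iff.1 hy.2).2]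
      have hsum : ∀ (b : ZMod 2) (y : E) (a : cmp (Zs F) → ZMod 2),
          (∀ D : cmp (Zs F), D ≠ D₀ → s D y = s D q) → s D₀ y = b + σ D₀ + 1 →
          ∑ D : cmp (Zs F), a D * s D y =
            a D₀ * (b + σ D₀ + 1) + ∑ D ∈ Finset.univ.erase D₀, a D * s D q := by
        intro b y a h1 h2
        rw [← Finset.add_sum_erase _ _ (Finset.mem_univ D₀), h2]
        congr 1
        exact Finset.sum_congr rfl fun D hD => by rw [h1 D (Finset.ne_of_mem_erase hD)]
      obtain ⟨y0, hy0, h01, h02⟩ := hy 0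
      obtain ⟨y1, hy1, h11, h12⟩ := hy 1
      have k0 := key 0 y0 hy0
      have k1 := key 1 y1 hy1
      rw [hsum 0 y0 a h01 h02, hsum 0 y0 a' h01 h02] at k0
      rw [hsum 1 y1 a h11 h12, hsum 1 y1 a' h11 h12] at k1
      linear_combination k1 - k0
    obtain ⟨D, hD⟩ := hne
    obtain ⟨q, hq⟩ := cmp_ne hD
    obtain ⟨y, hy⟩ := (freq_sign h (cmp_sub hD hq) 0).exists
    have := key 0 y hy
    rw [ha] at this ⊢
    rw [add_right_cancel this]
  have := Nat.card_le_card_of_injective Φ hinj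
  rw [Top2_pow, Nat.card_fun, Nat.card_zmod, Top2_card hU] at this
  exact (Nat.pow_le_pow_iff_right (by norm_num)).1 this

/-- Plan: `(R → ZMod 2) → ZMod 2 × (cmp (Zs F) → ZMod 2)`, `f ↦ (f Ω₀, D ↦ f (Ω₊ D) + f (Ω₋ D))`
(`exists_adj`) is injective by `ext_const` with `Y = Zs F`, `ev_reg`. -/
theorem regions_le (h : Good F n) (hfin : (cmp (Zs F)).Finite)
    (hU : ∀ b, (cmp (U F b)).Finite) : PC F 0 + PC F 1 ≤ (cmp (Zs F)).ncard + 1 := by
  classical
  have : ∀ b, Finite (cmp (U F b)) := fun b => (hU b).to_subtype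
  have : Finite (cmp (Zs F)) := hfin.to_subtype
  rw [← Top2_card hU]
  rcases isEmpty_or_nonempty (Σ b : ZMod 2, cmp (U F b)) with he | ⟨⟨Ω₀⟩⟩
  · simp
  have hA : ∀ (D : cmp (Zs F)) (b : ZMod 2), ∃ Ω : cmp (U F b),
      ∀ q ∈ D.1, ∀ᶠ y in 𝓝[Sph] q, y ∈ U F b → y ∈ Ω.1 := fun D b => by
    obtain ⟨Ω, h1, h2⟩ := exists_adj h D.2 b
    exact ⟨⟨Ω, h1⟩, h2⟩
  choose A hA using hA
  let Ψ : ((Σ b : ZMod 2, cmp (U F b)) → ZMod 2) → ZMod 2 × (cmp (Zs F) → ZMod 2) :=
    fun f => (f Ω₀, fun D => f ⟨0, A D 0⟩ - f ⟨1, A D 1⟩)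
  have hinj : Function.Injective Ψ := by
    intro f g hfg
    have h0 : f Ω₀ = g Ω₀ := congrArg Prod.fst hfg
    have h1 : ∀ D, f ⟨0, A D 0⟩ - f ⟨1, A D 1⟩ = g ⟨0, A D 0⟩ - g ⟨1, A D 1⟩ :=
      fun D => congrFun (congrArg Prod.snd hfg) D
    let φ : E → ZMod 2 := fun x => if hx : x ∈ U F (sb (eval x F)) then
      (f - g) ⟨sb (eval x F), connectedComponentIn (U F (sb (eval x F))) x, x, hx, rfl⟩ else 0
    have hφ : ∀ (Ω : Σ b : ZMod 2, cmp (U F b)), ∀ x ∈ Ω.2.1, φ x = (f - g) Ω := by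
      rintro ⟨b, Ω, hΩ⟩ x hx
      have hU := cmp_sub hΩ hx
      obtain rfl : sb (eval x F) = b := (sg_pos_iff.1 hU.2).2
      obtain rfl := cmp_eq hΩ hx
      exact dif_pos hU
    have hc : ∀ Ω, (f - g) Ω = (f - g) Ω₀ := by
      intro Ω
      obtain ⟨x, hx⟩ := cmp_ne Ω.2.2
      obtain ⟨y, hy⟩ := cmp_ne Ω₀.2.2
      rw [← hφ Ω x hx, ← hφ Ω₀ y hy]
      refine ext_const h Subset.rfl φ (fun z hz hz' => ?_) (fun q hq => ?_)
        (cmp_sub Ω.2.2 hx).1 (Top2_not (cmp_sub Ω.2.2 hx)) (cmp_sub Ω₀.2.2 hy).1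
        (Top2_not (cmp_sub Ω₀.2.2 hy))
      · have hm := Top2_mem hz hz'
        refine (ev_reg hm).mono fun w hw => ⟨Top2_not (connectedComponentIn_subset _ _ hw), ?_⟩
        rw [hφ ⟨_, _, z, hm, rfl⟩ w hw, hφ ⟨_, _, z, hm, rfl⟩ z (mem_connectedComponentIn hm)]
      · let D : cmp (Zs F) := ⟨connectedComponentIn (Zs F) q, q, hq, rfl⟩
        have hqD : q ∈ D.1 := mem_connectedComponentIn hq
        refine ⟨(f - g) ⟨0, A D 0⟩, ?_⟩
        filter_upwards [hA D 0 q hqD, hA D 1 q hqD, self_mem_nhdsWithin] with w w0 w1 hw hw'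
        have hm := Top2_mem hw hw'
        rcases zmod2 (sb (eval w F)) with e | e <;> rw [e] at hm
        · exact hφ ⟨0, A D 0⟩ w (w0 hm)
        · rw [hφ ⟨1, A D 1⟩ w (w1 hm)]
          simp only [Pi.sub_apply]
          linear_combination -h1 D
    funext Ω
    have := hc Ω
    simp only [Pi.sub_apply] at this
    linear_combination this + h0
  have := Nat.card_le_card_of_injective Ψ hinj
  rw [Top2_pow, Nat.card_fun, Nat.card_zmod] at this
  exact (Nat.pow_le_pow_iff_right (by norm_num)).1 this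

end Pool.Agent.TC

end
end

section

/-! Ovals with a given inner sign. -/

open MvPolynomial Set Filter Topology

noncomputable section

namespace Pool.Agent.TC

open Pool.Agent.Rags

variable {F : R3} {n : ℕ} {s : Set E → E → ZMod 2} {σ : Set E → ZMod 2}

/-- Plan: send `D` to the region of sign `σ D` next to it (`exists_adj`); `s D = 1` on it. If it
is the same for `D ≠ D'` then `s D = 1` on `D'` (`loc`, `freq_sign`) and conversely,
contradicting `not_mutual`. -/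
theorem inner_le (h : Good F n) (hs : Sides F s σ) (b : ZMod 2) (hU : (cmp (U F b)).Finite) :
    {D | D ∈ cmp (Zs F) ∧ σ D = b}.ncard ≤ PC F b := by
  have ex : ∀ D ∈ cmp (Zs F), ∃ Ω ∈ cmp (U F b), ∀ q ∈ D, ∀ᶠ y in 𝓝[Sph] q, y ∈ U F b → y ∈ Ω :=
    fun D hD => exists_adj h hD b
  choose! Ω h1 h2 using ex
  have nz : ∀ D ∈ cmp (Zs F), ∀ y ∈ U F b, y ∉ D := fun D hD y hy hyD =>
    (sg_pos_iff.1 hy.2).1 (cmp_sub hD hyD).2
  have one : ∀ D ∈ cmp (Zs F), σ D = b → ∀ x ∈ Ω D, s D x = 1 := by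
    intro D hD hb x hx
    obtain ⟨q, hq⟩ := cmp_ne hD
    obtain ⟨y, hy, k1, k2⟩ := ((freq_sign h (cmp_sub hD hq) b).and_eventually
      ((h2 D hD q hq).and ((hs D hD).near q hq))).exists
    have e := (k2 (nz D hD y hy)).2
    rw [(sg_pos_iff.1 hy.2).2, hb, CharTwo.add_self_eq_zero, zero_add] at e
    rw [← e]
    exact (hs D hD).const (cmp_pre (h1 D hD)) (fun z hz => (cmp_sub (h1 D hD) hz).1)
      (fun z hz => nz D hD z (cmp_sub (h1 D hD) hz)) hx (k1 hy)
  have key : ∀ D ∈ cmp (Zs F), σ D = b → ∀ D' ∈ cmp (Zs F), D ≠ D' → Ω D = Ω D' →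
      ∀ q ∈ D', s D q = 1 := by
    intro D hD hb D' hD' hne e q hq
    obtain ⟨y, hy, k1, k2⟩ := ((freq_sign h (cmp_sub hD' hq) b).and_eventually
      ((h2 D' hD' q hq).and ((hs D hD).loc q (cmp_sub hD' hq).1
        fun hqD => hne (cmp_disj hD hD' hqD hq)))).exists
    rw [← k2.2]
    exact one D hD hb y (e ▸ k1 hy)
  refine ncard_le_ncard_of_injOn Ω (fun D hD => h1 D hD.1) ?_ hU
  rintro D ⟨hD, hb⟩ D' ⟨hD', hb'⟩ e
  by_contra hne
  obtain ⟨q, hq⟩ := cmp_ne hD
  obtain ⟨q', hq'⟩ := cmp_ne hD'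
  exact Side.not_mutual h hD hD' hne (hs D hD) (hs D' hD') hq hq' (key D hD hb D' hD' hne e q' hq')
    (key D' hD' hb' D hD (Ne.symm hne) e.symm q hq)

/-- the free involution `D ↦ -D` (`Side.neg`, `Side.unique`, `neg_notMem`) -/
theorem inner_even (h : Good F n) (hs : Sides F s σ) (hfin : (cmp (Zs F)).Finite) (b : ZMod 2) :
    Even {D | D ∈ cmp (Zs F) ∧ σ D = b}.ncard := by
  have hf : {D | D ∈ cmp (Zs F) ∧ σ D = b}.Finite := hfin.subset fun D hD => hD.1
  rw [ncard_eq_toFinset_card _ hf, ← ZMod.natCast_eq_zero_iff_even, Finset.card_eq_sum_ones,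
    Nat.cast_sum]
  refine Finset.sum_involution (fun D _ => Neg.neg '' D) (fun _ _ => by decide)
    (fun D hD _ e => ?_) (fun D hD => ?_) fun D _ => ?_
  · obtain ⟨hD, -⟩ := hf.mem_toFinset.1 hD
    obtain ⟨q, hq⟩ := cmp_ne hD
    exact neg_notMem h hD hq (e ▸ mem_image_of_mem _ hq)
  · obtain ⟨hD, hb⟩ := hf.mem_toFinset.1 hD
    have hN := neg_cmp h hD
    exact hf.mem_toFinset.2 ⟨hN, (Side.unique h hN (hs _ hN) ((hs D hD).neg h)).1.trans hb⟩
  · simp only [image_image, neg_neg, image_id']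

/-- `regions_le`, `inner_le` for `b + 1`, and the two counts add up to the number of ovals -/
theorem PC_le (h : Good F n) (hs : Sides F s σ) (hfin : (cmp (Zs F)).Finite)
    (hU : ∀ b, (cmp (U F b)).Finite) (b : ZMod 2) :
    PC F b ≤ {D | D ∈ cmp (Zs F) ∧ σ D = b}.ncard + 1 := by
  have h1 := regions_le h hfin hU
  have h2 := inner_le h hs (b + 1) (hU _)
  have h3 : (cmp (Zs F)).ncard ≤ {D | D ∈ cmp (Zs F) ∧ σ D = b}.ncard +
      {D | D ∈ cmp (Zs F) ∧ σ D = b + 1}.ncard := by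
    refine le_trans (ncard_le_ncard (fun D hD => ?_) ((hfin.subset fun D hD => hD.1).union
      (hfin.subset fun D hD => hD.1))) (ncard_union_le _ _)
    have : ∀ x y : ZMod 2, x = y ∨ x = y + 1 := by decide
    exact (this (σ D) b).imp (fun e => ⟨hD, e⟩) fun e => ⟨hD, e⟩
  have e : (1 + 1 : ZMod 2) = 0 := by decide
  rcases zmod2 b with rfl | rfl
  · rw [zero_add] at h2 h3
    omega
  · rw [e] at h2 h3
    omega

end Pool.Agent.TC

end
end

section

/-! The complement of an oval and its antipode. -/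

open MvPolynomial Set Filter Topology

noncomputable section

namespace Pool.Agent.TC

open Pool.Agent.Rags

variable {F : R3} {n : ℕ} {D : Set E} {s : E → ZMod 2} {σ : ZMod 2}

theorem Nest1_neg_ev {P : E → Prop} {q : E} (h : ∀ᶠ y in 𝓝[Sph] q, P y) :
    ∀ᶠ y in 𝓝[Sph] (-q), P (-y) := by
  have h1 : Tendsto (fun y : E => -y) (𝓝[Sph] (-q)) (𝓝[Sph] q) := by
    refine tendsto_nhdsWithin_iff.2 ⟨?_, ?_⟩
    · have : Tendsto (fun y : E => -y) (𝓝 (-q)) (𝓝 (- -q)) := continuous_neg.tendsto _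
      rw [neg_neg] at this
      exact this.mono_left nhdsWithin_le_nhds
    · filter_upwards [self_mem_nhdsWithin] with y hy using neg_mem_Sph.2 hy
  exact h1.eventually h

theorem Nest1_mem_neg {y : E} : y ∈ Neg.neg '' D ↔ -y ∈ D :=
  ⟨fun ⟨u, hu, e⟩ => by rw [← e, neg_neg]; exact hu, fun h => ⟨-y, h, neg_neg y⟩⟩

theorem Nest1_comp_iff {W : Set E} {a y z : E} (hy : y ∈ W) (hz : z ∈ connectedComponentIn W y) :
    z ∈ connectedComponentIn W a ↔ y ∈ connectedComponentIn W a := by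
  constructor
  · intro h
    rw [connectedComponentIn_eq h, ← connectedComponentIn_eq hz]
    exact mem_connectedComponentIn hy
  · intro h
    rw [connectedComponentIn_eq h]
    exact hz

/-- Plan. `W = Sph \ (D ∪ -D)`; `s` and `s ∘ neg` are constant on components of `W`
(`Side.const`). (⇐) `disj`. (⇒) Suppose `s x = 0 = s (-x)`. Let `K₁` be the component of `W`
containing the points near `D` with `s = 0` (`side_comp` with `c = sg (σ + 1)`); `K₂ = -K₁`
(`comp_neg`) is the one at `-D`; `s = s ∘ neg = 0` on both. Apply `ext_const` with `Y = D ∪ -D` to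
`f y = (y ∈ K₁ ∨ s y = 1)` if `K₁ ≠ K₂` (true near `D`, false near `-D`: contradiction), and then to
`f y = (y ∈ K₁ ∨ s y = 1 ∨ s (-y) = 1)` (true near `D` and `-D`): so `x`, `-x ∈ K₁`. Components of
`W` are open in the sphere by `comp_open`. -/
theorem Side.sep (h : Good F n) (hD : D ∈ cmp (Zs F)) (hs : Side F D s σ) {x : E} (hx : x ∈ Sph)
    (h1 : x ∉ D) (h2 : -x ∉ D) :
    connectedComponentIn (Sph \ (D ∪ Neg.neg '' D)) x ≠
        connectedComponentIn (Sph \ (D ∪ Neg.neg '' D)) (-x) ↔ s x = 1 ∨ s (-x) = 1 := by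
  have hs' := hs.neg h
  have hY : D ∪ Neg.neg '' D ⊆ Zs F := union_subset (cmp_sub hD) (cmp_sub (neg_cmp h hD))
  generalize hW : Sph \ (D ∪ Neg.neg '' D) = W
  have mW : ∀ y, y ∈ W ↔ y ∈ Sph ∧ y ∉ D ∧ -y ∉ D := fun y => by
    rw [← hW, Set.mem_sdiff, mem_union, Nest1_mem_neg, not_or]
  have mY : ∀ y, y ∉ D ∪ Neg.neg '' D ↔ y ∉ D ∧ -y ∉ D := fun y => by
    rw [mem_union, Nest1_mem_neg, not_or]
  have nW : ∀ y, y ∈ W → -y ∈ W := fun y hy => by
    rw [mW] at hy ⊢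
    exact ⟨neg_mem_Sph.2 hy.1, hy.2.2, by rw [neg_neg]; exact hy.2.1⟩
  have hxW : x ∈ W := (mW x).2 ⟨hx, h1, h2⟩
  have cS : ∀ a, connectedComponentIn W a ⊆ Sph := fun a y hy =>
    ((mW y).1 (connectedComponentIn_subset _ _ hy)).1
  have h01 : (0 : ZMod 2) ≠ 1 := by decide
  refine ⟨fun hne => ?_, fun hor he => ?_⟩
  swap
  · have e : s x = s (-x) := hs.const isPreconnected_connectedComponentIn (cS x)
      (fun y hy => ((mW y).1 (connectedComponentIn_subset _ _ hy)).2.1)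
      (mem_connectedComponentIn hxW) (he ▸ mem_connectedComponentIn (nW x hxW))
    have e0 : s x = 0 := by
      rcases hs.disj h hD hx h1 h2 with a | a
      · exact a
      · exact e.trans a
    rcases hor with a | a
    · exact h01 (e0.symm.trans a)
    · exact h01 (e0.symm.trans (e.trans a))
  by_contra hor
  rw [not_or] at hor
  apply hne
  obtain ⟨q, hq⟩ := cmp_ne hD
  have hFW : ∀ y ∈ Sph, eval y F ≠ 0 → y ∈ W := fun y hy h0 => by
    rw [← hW]
    exact ⟨hy, fun a => h0 (hY a).2⟩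
  obtain ⟨y₀, hy₀⟩ := side_comp h (cmp_pre hD) (cmp_sub hD) hFW (sg_ne (σ + 1)) hq
  generalize hK : connectedComponentIn W y₀ = K at hy₀
  have KW : K ⊆ W := hK ▸ connectedComponentIn_subset _ _
  -- near `D`
  have nearD : ∀ p ∈ D, ∀ᶠ y in 𝓝[Sph] p, y ∉ D → y ∈ K ∨ s y = 1 := fun p hp => by
    filter_upwards [hy₀ p hp, hs.near p hp] with y a b hy
    obtain ⟨b1, b2⟩ := b hy
    rcases zmod2 (s y) with e | e
    · refine Or.inl (a (sg_pos_iff.2 ⟨b1, ?_⟩))
      rw [e] at b2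
      exact (by decide : ∀ u v : ZMod 2, 0 = u + v + 1 → u = v + 1) _ _ b2
    · exact Or.inr e
  have outD : ∀ p ∈ D, ∀ᶠ y in 𝓝[Sph] (-p), s y = 0 := fun p hp => by
    filter_upwards [hs.loc (-p) (neg_mem_Sph.2 (cmp_sub hD hp).1) (neg_notMem h hD hp)] with y a
    exact a.2.trans (hs.out p hp)
  -- local constancy on `W`
  have loc : ∀ y ∈ W, ∀ᶠ z in 𝓝[Sph] y, z ∈ W ∧ s z = s y ∧ (z ∈ K ↔ y ∈ K) := fun y hy => by
    obtain ⟨a, b, c⟩ := (mW y).1 hy
    have e1 := hs.loc y a b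
    have e2 := hs'.loc y a (fun t => c (Nest1_mem_neg.1 t))
    have e3 : ∀ᶠ z in 𝓝[Sph] y, z ∈ W := by
      filter_upwards [e1, e2, self_mem_nhdsWithin] with z z1 z2 z3
      exact (mW z).2 ⟨z3, z1.1, fun t => z2.1 (Nest1_mem_neg.2 t)⟩
    filter_upwards [e1, e3, comp_open a e3] with z z1 z3 z4
    exact ⟨z3, z1.2, hK ▸ Nest1_comp_iff hy z4⟩
  -- a point of `K` close to `D`
  obtain ⟨u, hu, huK, hu0, hu1⟩ : ∃ u, u ∈ U F (σ + 1) ∧ u ∈ K ∧ s (-u) = 0 ∧
      (u ∉ D → u ∈ K ∨ s u = 1) := by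
    have e := Nest1_neg_ev (outD q hq)
    rw [neg_neg] at e
    obtain ⟨u, a, b, c, d⟩ := ((freq_sign h (cmp_sub hD hq) (σ + 1)).and_eventually
      ((hy₀ q hq).and (e.and (nearD q hq)))).exists
    exact ⟨u, a, b a.2, c, d⟩
  have K0 : ∀ y ∈ K, s (-y) = 0 := fun y hy =>
    (hs'.const (K := K) (hK ▸ isPreconnected_connectedComponentIn)
      (fun z hz => ((mW z).1 (KW hz)).1)
      (fun z hz t => ((mW z).1 (KW hz)).2.2 (Nest1_mem_neg.1 t)) hy huK).trans hu0
  have toY : ∀ y ∈ W, y ∉ D ∪ Neg.neg '' D := fun y hy => (mY y).2 ((mW y).1 hy).2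
  have toW : ∀ y ∈ Sph, y ∉ D ∪ Neg.neg '' D → y ∈ W := fun y a b => (mW y).2 ⟨a, (mY y).1 b⟩
  -- `K` is symmetric
  have sym : ∃ y ∈ K, -y ∈ K := by
    by_contra hn
    push Not at hn
    have far : ∀ p ∈ D, ∀ᶠ y in 𝓝[Sph] (-p), -y ∉ D → ¬(y ∈ K ∨ s y = 1) := fun p hp => by
      filter_upwards [Nest1_neg_ev (nearD p hp), outD p hp] with y a b hy
      rintro (c | c)
      · rcases a hy with d | d
        · exact hn y c d
        · exact h01 ((K0 y c).symm.trans d)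
      · exact h01 (b.symm.trans c)
    obtain ⟨v, hv, hv'⟩ := ((freq_sign h ((neg_mem_Zs h).2 (cmp_sub hD hq)) 0).and_eventually
      (far q hq)).exists
    have hvW : v ∈ W := hFW v hv.1 (sg_pos_iff.1 hv.2).1
    have e := ext_const h hY (fun y => y ∈ K ∨ s y = 1) (fun y a b => by
        filter_upwards [loc y (toW y a b)] with z hz
        exact ⟨toY z hz.1, by rw [hz.2.1, hz.2.2]⟩)
      (by
        rintro p (hp | ⟨p, hp, rfl⟩)
        · refine ⟨True, ?_⟩
          filter_upwards [nearD p hp] with y a b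
          exact eq_true (a ((mY y).1 b).1)
        · refine ⟨False, ?_⟩
          filter_upwards [far p hp] with y a b
          exact eq_false (a ((mY y).1 b).2))
      hu.1 (toY u (KW huK)) hv.1 (toY v hvW)
    exact hv' ((mW v).1 hvW).2.2 (e ▸ Or.inl huK)
  obtain ⟨w, hw, hw'⟩ := sym
  have Kc : ∀ y ∈ K, K = connectedComponentIn W y := fun y hy => by
    rw [← hK] at hy ⊢
    exact connectedComponentIn_eq hy
  have Kn : ∀ y ∈ K, -y ∈ K := fun y hy => by
    rw [Kc _ hw', comp_neg nW, ← Kc _ hw]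
    exact ⟨y, hy, rfl⟩
  have e := ext_const h hY (fun y => y ∈ K ∨ s y = 1 ∨ s (-y) = 1) (fun y a b => by
      have e := Nest1_neg_ev (loc (-y) (nW y (toW y a b)))
      rw [neg_neg] at e
      filter_upwards [loc y (toW y a b), e] with z hz hz'
      exact ⟨toY z hz.1, by rw [hz.2.1, hz.2.2, hz'.2.1]⟩)
    (by
      rintro p (hp | ⟨p, hp, rfl⟩)
      · refine ⟨True, ?_⟩
        filter_upwards [nearD p hp] with y a b
        exact eq_true ((a ((mY y).1 b).1).imp id Or.inl)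
      · refine ⟨True, ?_⟩
        filter_upwards [Nest1_neg_ev (nearD p hp)] with y a b
        refine eq_true ((a ((mY y).1 b).2).imp (fun t => ?_) Or.inr)
        simpa using Kn _ t)
    hu.1 (toY u (KW huK)) hx (toY x hxW)
  have hxK : x ∈ K := by
    rcases (e ▸ Or.inl huK : x ∈ K ∨ s x = 1 ∨ s (-x) = 1) with a | a | a
    · exact a
    · exact absurd a hor.1
    · exact absurd a hor.2
  rw [← Kc x hxK, ← Kc _ (Kn x hxK)]

end Pool.Agent.TC

end
end

section

/-! Parity of the nesting depth. -/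

open MvPolynomial Set Filter Topology

noncomputable section

namespace Pool.Agent.TC

open Pool.Agent.Rags

variable {F : R3} {n : ℕ} {s : Set E → E → ZMod 2} {σ : Set E → ZMod 2}

theorem Nest2_negneg (D : Set E) : Neg.neg '' (Neg.neg '' D) = D := by
  rw [image_image]; simp

theorem Nest2_mem_neg {D : Set E} {x : E} : x ∈ Neg.neg '' D ↔ -x ∈ D :=
  ⟨fun ⟨y, hy, e⟩ => by rw [← e, neg_neg]; exact hy, fun a => ⟨-x, a, neg_neg x⟩⟩

theorem Nest2_sneg (h : Good F n) (hs : Sides F s σ) {D : Set E} (hD : D ∈ cmp (Zs F)) {x : E}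
    (hx : x ∈ Sph) (hx' : -x ∉ D) : s (Neg.neg '' D) x = s D (-x) :=
  (Side.unique h (neg_cmp h hD) (hs _ (neg_cmp h hD)) ((hs D hD).neg h)).2 x hx
    fun a => hx' (Nest2_mem_neg.1 a)

theorem Nest2_mem (h : Good F n) (hs : Sides F s σ) {C : Set E}
    (hC : C ∈ cmp (Zs F)) {q : E} (hq : q ∈ C) {D : Set E} :
    D ∈ nest F C ↔ D ∈ cmp (Zs F) ∧ D ≠ C ∧ D ≠ Neg.neg '' C ∧ (s D q = 1 ∨ s D (-q) = 1) := by
  refine and_congr_right fun hD => and_congr_right fun h1 => and_congr_right fun h2 => ?_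
  have hCS : C ⊆ Sph := fun x hx => (cmp_sub hC hx).1
  have hN := neg_cmp h hC
  have a1 : ∀ x ∈ C, x ∉ D := fun x hx a => h1 (cmp_disj hD hC a hx)
  have a2 : ∀ x ∈ Neg.neg '' C, x ∉ D := fun x hx a => h2 (cmp_disj hD hN a hx)
  have key : ∀ x ∈ C, (connectedComponentIn (Sph \ (D ∪ Neg.neg '' D)) x ≠
      connectedComponentIn (Sph \ (D ∪ Neg.neg '' D)) (-x) ↔ s D q = 1 ∨ s D (-q) = 1) := by
    intro x hx
    rw [(hs D hD).sep h hD (hCS hx) (a1 x hx) (a2 _ ⟨x, hx, rfl⟩),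
      (hs D hD).const (cmp_pre hC) hCS a1 hx hq,
      (hs D hD).const (cmp_pre hN) (fun y hy => (cmp_sub hN hy).1) a2 ⟨x, hx, rfl⟩ ⟨q, hq, rfl⟩]
  exact ⟨fun ⟨x, hx, e⟩ => (key x hx).1 e, fun e => ⟨q, hq, (key q hq).2 e⟩⟩

/-- Plan: by `sep` and `Side.const` on `C` and `-C`, `nest F C` is the disjoint (`disj`) union of
`A = {D ≠ C | s D q = 1}` (`-C ∉ A` by `out`) and of `{D ≠ -C | s D (-q) = 1}`, the image of `A`
under `D ↦ -D` (`Side.neg`, `Side.unique`). -/
theorem nest_card (h : Good F n) (hs : Sides F s σ) (hfin : (cmp (Zs F)).Finite) {C : Set E}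
    (hC : C ∈ cmp (Zs F)) {q : E} (hq : q ∈ C) :
    (nest F C).ncard = 2 * {D | D ∈ cmp (Zs F) ∧ D ≠ C ∧ s D q = 1}.ncard := by
  have hqS : q ∈ Sph := (cmp_sub hC hq).1
  have hN := neg_cmp h hC
  set A := {D | D ∈ cmp (Zs F) ∧ D ≠ C ∧ s D q = 1} with hA
  have hinj : Function.Injective fun D : Set E => Neg.neg '' D := fun D D' e => by
    have := congrArg (fun D : Set E => Neg.neg '' D) e
    simpa only [Nest2_negneg] using this
  have a1 : ∀ D ∈ A, D ≠ Neg.neg '' C := by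
    rintro D ⟨hD, -, h2⟩ rfl
    have := (hs _ hD).out (-q) ⟨q, hq, rfl⟩
    rw [neg_neg, h2] at this
    exact absurd this (by decide)
  have a2 : ∀ D ∈ A, s (Neg.neg '' D) (-q) = 1 := by
    rintro D ⟨hD, h1, h2⟩
    rw [Nest2_sneg h hs hD (neg_mem_Sph.2 hqS)
      (by rw [neg_neg]; exact fun a => h1 (cmp_disj hD hC a hq)), neg_neg, h2]
  have e : nest F C = A ∪ (fun D : Set E => Neg.neg '' D) '' A := by
    ext D
    rw [Nest2_mem h hs hC hq]
    constructor
    · rintro ⟨hD, h1, h2, h3 | h3⟩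
      · exact Or.inl ⟨hD, h1, h3⟩
      · refine Or.inr ⟨Neg.neg '' D, ⟨neg_cmp h hD, fun e => h2 ?_, ?_⟩, Nest2_negneg D⟩
        · rw [← e, Nest2_negneg]
        · rw [Nest2_sneg h hs hD hqS fun a => h2 (cmp_disj hD hN a ⟨q, hq, rfl⟩), h3]
    · rintro (hD | ⟨D', hD, rfl⟩)
      · exact ⟨hD.1, hD.2.1, a1 D hD, Or.inl hD.2.2⟩
      · refine ⟨neg_cmp h hD.1, fun e => a1 D' hD ?_, fun e => hD.2.1 (hinj e), Or.inr (a2 D' hD)⟩
        rw [← e, Nest2_negneg]
  have hAf : A.Finite := hfin.subset fun D hD => hD.1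
  rw [e, ncard_union_eq ?_ hAf (hAf.image _), ncard_image_of_injective _ hinj, two_mul]
  rw [Set.disjoint_left]
  rintro D hD ⟨D', hD', rfl⟩
  have h3 := a2 D' hD'
  have := (hs _ hD.1).disj h hD.1 hqS (fun a => hD.2.1 (cmp_disj hD.1 hC a hq))
    fun a => a1 _ hD (cmp_disj hD.1 hN a ⟨q, hq, rfl⟩)
  rw [hD.2.2] at this
  rcases this with a | a
  · exact absurd a (by decide)
  · exact absurd (h3.symm.trans a) (by decide)

/-- Plan: `ext_const` with `Y = Zs F` for `y ↦ sb (eval y F) + ∑ D ∈ hfin.toFinset, s D y`;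
evaluate at a point of sign `σ C` near `q ∈ C` (`freq_sign`). -/
theorem nest_par (h : Good F n) (hs : Sides F s σ) (hfin : (cmp (Zs F)).Finite) :
    ∃ c : ZMod 2, ∀ C ∈ cmp (Zs F), ∀ q ∈ C,
      (({D | D ∈ cmp (Zs F) ∧ D ≠ C ∧ s D q = 1}.ncard : ℕ) : ZMod 2) = σ C + c := by
  classical
  set T := hfin.toFinset with hT
  have mT : ∀ D, D ∈ T ↔ D ∈ cmp (Zs F) := fun D => hfin.mem_toFinset
  let f : E → ZMod 2 := fun y => sb (eval y F) + ∑ D ∈ T, s D y
  have h1 : ∀ x ∈ Sph, x ∉ Zs F → ∀ᶠ y in 𝓝[Sph] x, y ∉ Zs F ∧ f y = f x := by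
    intro x hx hx'
    have h0 : eval x F ≠ 0 := fun a => hx' ⟨hx, a⟩
    have e1 : ∀ᶠ y in 𝓝 x, eval y F ≠ 0 ∧ sb (eval y F) = sb (eval x F) := by
      have hp : 0 < sg (sb (eval x F)) * eval x F := sg_pos_iff.2 ⟨h0, rfl⟩
      have : ∀ᶠ y in 𝓝 x, 0 < sg (sb (eval x F)) * eval y F :=
        (continuous_const.mul (cont_eval F)).continuousAt.eventually (lt_mem_nhds hp)
      exact this.mono fun y hy => sg_pos_iff.1 hy
    have e2 : ∀ᶠ y in 𝓝[Sph] x, ∀ D ∈ T, s D y = s D x := by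
      rw [Filter.eventually_all_finset]
      intro D hD
      exact ((hs D ((mT D).1 hD)).loc x hx fun a => hx' (cmp_sub ((mT D).1 hD) a)).mono
        fun y hy => hy.2
    filter_upwards [e1.filter_mono nhdsWithin_le_nhds, e2] with y hy hy2
    refine ⟨fun a => hy.1 a.2, ?_⟩
    simp only [f]
    rw [hy.2, Finset.sum_congr rfl hy2]
  have h2 : ∀ C ∈ cmp (Zs F), ∀ q ∈ C, ∀ᶠ y in 𝓝[Sph] q, y ∉ Zs F →
      f y = σ C + 1 + ∑ D ∈ T.erase C, s D q := by
    intro C hC q hq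
    have e2 : ∀ᶠ y in 𝓝[Sph] q, ∀ D ∈ T.erase C, s D y = s D q := by
      rw [Filter.eventually_all_finset]
      intro D hD
      obtain ⟨hne, hD⟩ := Finset.mem_erase.1 hD
      exact ((hs D ((mT D).1 hD)).loc q (cmp_sub hC hq).1
        fun a => hne (cmp_disj ((mT D).1 hD) hC a hq)).mono fun y hy => hy.2
    filter_upwards [(hs C hC).near q hq, e2] with y hy hy2 hZ
    simp only [f]
    rw [← Finset.add_sum_erase T _ ((mT C).2 hC), Finset.sum_congr rfl hy2,
      (hy fun a => hZ (cmp_sub hC a)).2]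
    generalize sb (eval y F) = a
    generalize σ C = b
    generalize ∑ D ∈ T.erase C, s D q = c
    revert a b c
    decide
  obtain ⟨c, hc⟩ : ∃ c, ∀ x ∈ Sph, x ∉ Zs F → f x = c := by
    by_cases hx : ∃ x ∈ Sph, x ∉ Zs F
    · obtain ⟨x, hx, hx'⟩ := hx
      refine ⟨f x, fun y hy hy' => ext_const h Subset.rfl f h1 (fun q hq => ?_) hy hy' hx hx'⟩
      exact ⟨_, h2 _ ⟨q, hq, rfl⟩ q (mem_connectedComponentIn hq)⟩
    · exact ⟨0, fun x a b => (hx ⟨x, a, b⟩).elim⟩
  refine ⟨c + 1, fun C hC q hq => ?_⟩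
  obtain ⟨y, hy, hy2⟩ := ((freq_sign h (cmp_sub hC hq) 0).and_eventually (h2 C hC q hq)).exists
  have hZ : y ∉ Zs F := fun a => (sg_pos_iff.1 hy.2).1 a.2
  have e := (hc y hy.1 hZ).symm.trans (hy2 hZ)
  have e1 : {D | D ∈ cmp (Zs F) ∧ D ≠ C ∧ s D q = 1} =
      ↑((T.erase C).filter fun D => s D q = 1) := by
    ext D
    simp only [mem_ofPred_eq, Finset.coe_filter, Finset.mem_erase, mT]
    tauto
  have e2 : ∑ D ∈ T.erase C, s D q = ∑ D ∈ T.erase C, if s D q = 1 then (1 : ZMod 2) else 0 :=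
    Finset.sum_congr rfl fun D _ => by
      rcases zmod2 (s D q) with a | a <;> rw [a] <;> simp
  rw [e1, ncard_coe_finset, ← Finset.sum_boole, ← e2, e]
  generalize σ C = b
  generalize ∑ D ∈ T.erase C, s D q = c
  revert b c
  decide

/-- the topological part: `exists_sides`, `regions_ge`, `PC_le`, `inner_even`, `nest_card`,
`nest_par` (`ZMod.natCast_eq_zero_iff_even`) -/
theorem top_main (h : Good F n) (hfin : (cmp (Zs F)).Finite) (hne : (cmp (Zs F)).Nonempty)
    (hU : ∀ b, (cmp (U F b)).Finite) :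
    (cmp (Zs F)).ncard + 1 ≤ PC F 0 + PC F 1 ∧ ∃ c : ZMod 2,
      (PC F c ≤ {C | C ∈ cmp (Zs F) ∧ Even ((nest F C).ncard / 2)}.ncard + 1 ∧
        Even {C | C ∈ cmp (Zs F) ∧ Even ((nest F C).ncard / 2)}.ncard) ∧
      (PC F (c + 1) ≤ {C | C ∈ cmp (Zs F) ∧ ¬ Even ((nest F C).ncard / 2)}.ncard + 1 ∧
        Even {C | C ∈ cmp (Zs F) ∧ ¬ Even ((nest F C).ncard / 2)}.ncard) := by
  obtain ⟨s, σ, hs⟩ := exists_sides h
  obtain ⟨c, hc⟩ := nest_par h hs hfin
  have key : ∀ C ∈ cmp (Zs F), (Even ((nest F C).ncard / 2) ↔ σ C = c) := by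
    intro C hC
    obtain ⟨q, hq⟩ := cmp_ne hC
    rw [nest_card h hs hfin hC hq, Nat.mul_div_cancel_left _ two_pos,
      ← ZMod.natCast_eq_zero_iff_even, hc C hC q hq]
    generalize σ C = b
    clear hc
    revert b c
    decide
  have e1 : {C | C ∈ cmp (Zs F) ∧ Even ((nest F C).ncard / 2)} =
      {D | D ∈ cmp (Zs F) ∧ σ D = c} := by
    ext C
    exact and_congr_right fun hC => key C hC
  have e2 : {C | C ∈ cmp (Zs F) ∧ ¬ Even ((nest F C).ncard / 2)} =
      {D | D ∈ cmp (Zs F) ∧ σ D = c + 1} := by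
    ext C
    refine and_congr_right fun hC => ?_
    rw [key C hC]
    generalize σ C = b
    clear hc key e1
    revert b c
    decide
  rw [e1, e2]
  exact ⟨regions_ge h hs hfin hne hU, c, ⟨PC_le h hs hfin hU c, inner_even h hs hfin c⟩,
    PC_le h hs hfin hU (c + 1), inner_even h hs hfin (c + 1)⟩

end Pool.Agent.TC

end
end
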